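import Mathlib

/-!
Basic facts on holomorphic maps of several complex variables.
-/

namespace Pool.Agent.Lib.MP_7906d6_an

open Filter Metric Set Topology

variable {E : Type} [NormedAddCommGroup E] [NormedSpace ℂ E]
  {G : Type} [NormedAddCommGroup G] [NormedSpace ℂ G]

/-- Cauchy estimate. -/
theorem cauchy_fderiv {f : E → G} {c : E} {R M : ℝ} (hR : 0 < R)
    (hd : DifferentiableOn ℂ f (ball c R)) (hM : ∀ z ∈ ball c R, ‖f z‖ ≤ M) :
    ‖fderiv ℂ f c‖ ≤ 2 * M / R := by
  refine Complex.norm_fderiv_le_div_of_mapsTo_ball hd ?_ hR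
  intro z hz
  rw [mem_closedBall, dist_eq_norm]
  have := norm_sub_le (f z) (f c)
  have h1 := hM z hz
  have h2 := hM c (mem_ball_self hR)
  linarith

/-- Weierstrass convergence theorem in several variables. -/
theorem weierstrass [CompleteSpace G] {F : ℕ → E → G} {f : E → G} {c : E} {R : ℝ} (hR : 0 < R)
    (hd : ∀ k, DifferentiableOn ℂ (F k) (ball c R))
    (hu : TendstoUniformlyOn F f atTop (ball c R)) : DifferentiableAt ℂ f c := by
  have hsub : ∀ z ∈ ball c (R / 2), ball z (R / 2) ⊆ ball c R := by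
    intro z hz
    apply ball_subset_ball'
    rw [mem_ball] at hz
    linarith
  have hda : ∀ k, ∀ z ∈ ball c (R / 2), DifferentiableAt ℂ (F k) z := fun k z hz =>
    (hd k).differentiableAt (isOpen_ball.mem_nhds (ball_subset_ball (by linarith) hz))
  have hc : UniformCauchySeqOn (fun k => fderiv ℂ (F k)) atTop (ball c (R / 2)) := by
    rw [Metric.uniformCauchySeqOn_iff]
    intro ε hε
    obtain ⟨N, hN⟩ := Metric.uniformCauchySeqOn_iff.1 hu.uniformCauchySeqOn (ε * R / 8)
      (by positivity)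
    refine ⟨N, fun m hm n hn z hz => ?_⟩
    rw [dist_eq_norm, ← fderiv_sub (hda m z hz) (hda n z hz)]
    have := cauchy_fderiv (f := F m - F n) (c := z) (R := R / 2) (M := ε * R / 8) (by positivity)
      (((hd m).sub (hd n)).mono (hsub z hz)) (fun w hw => by
        have := hN m hm n hn w (hsub z hz hw)
        rw [dist_eq_norm] at this
        exact this.le)
    refine this.trans_lt ?_
    rw [div_lt_iff₀ (by positivity)]
    nlinarith [mul_pos hε hR]
  have hex : ∀ z ∈ ball c (R / 2), ∃ L, Tendsto (fun k => fderiv ℂ (F k) z) atTop (𝓝 L) :=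
    fun z hz => cauchy_map_iff_exists_tendsto.1 (hc.cauchy_map hz)
  choose! g hg using hex
  have := hasFDerivAt_of_tendstoUniformlyOn isOpen_ball (hc.tendstoUniformlyOn_of_tendsto hg)
    (fun k z hz => (hda k z hz).hasFDerivAt)
    (fun z hz => hu.tendsto_at (ball_subset_ball (by linarith) hz))
    (mem_ball_self (by positivity : 0 < R / 2))
  exact this.differentiableAt

/-- Second order Taylor estimate. -/
theorem taylor_two {f : E → G} {c : E} {R M : ℝ} (hR : 0 < R)
    (hd : DifferentiableOn ℂ f (ball c R)) (hM : ∀ z ∈ ball c R, ‖f z‖ ≤ M) {y : E}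
    (hy : ‖y‖ < R) : ‖f (c + y) - f c - fderiv ℂ f c y‖ ≤ 4 * M * (‖y‖ / R) ^ 2 := by
  have hc : DifferentiableAt ℂ f c := hd.differentiableAt (ball_mem_nhds c hR)
  have hM0 : 0 ≤ M := (norm_nonneg _).trans (hM c (mem_ball_self hR))
  have key := Complex.dist_le_mul_div_pow_of_mapsTo_ball_of_isLittleO
    (f := fun z => f z - fderiv ℂ f c (z - c)) (c := c) (z := c + y) (R₁ := R) (R₂ := 4 * M)
    (n := 1) (hd.sub (by fun_prop)) ?_ ?_ (by simpa using hy)
  · simp only [add_sub_cancel_left, sub_self, map_zero, sub_zero, dist_eq_norm] at key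
    rw [sub_right_comm]
    exact key
  · intro z hz
    simp only [sub_self, map_zero, sub_zero, mem_closedBall, dist_eq_norm]
    have h1 := hM z hz
    have h2 := hM c (mem_ball_self hR)
    have h3 : ‖fderiv ℂ f c (z - c)‖ ≤ 2 * M := by
      refine ((fderiv ℂ f c).le_opNorm _).trans ?_
      have h4 := cauchy_fderiv hR hd hM
      have h5 : ‖z - c‖ ≤ R := by rw [← dist_eq_norm]; exact (mem_ball.1 hz).le
      calc _ ≤ 2 * M / R * R := by gcongr
        _ = 2 * M := by field_simp
    calc ‖f z - fderiv ℂ f c (z - c) - f c‖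
        ≤ ‖f z‖ + ‖fderiv ℂ f c (z - c)‖ + ‖f c‖ :=
          (norm_sub_le _ _).trans (by gcongr; exact norm_sub_le _ _)
      _ ≤ 4 * M := by linarith
  · have := hc.hasFDerivAt.isLittleO
    simp only [sub_self, map_zero, sub_zero, pow_one]
    refine (this.congr_left ?_).norm_right
    intro z
    abel

theorem exists_ball_bound {f : E → G} {U : Set E} (hU : IsOpen U)
    (hd : DifferentiableOn ℂ f U) {c : E} (hc : c ∈ U) :
    ∃ R > 0, ∃ M, ball c R ⊆ U ∧ ∀ z ∈ ball c R, ‖f z‖ ≤ M := by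
  have h1 : ContinuousAt f c := (hd.differentiableAt (hU.mem_nhds hc)).continuousAt
  have h2 : ∀ᶠ z in 𝓝 c, z ∈ U ∧ ‖f z‖ ≤ ‖f c‖ + 1 := by
    refine (hU.eventually_mem hc).and ?_
    exact h1.norm.eventually (eventually_le_nhds (by linarith))
  obtain ⟨R, hR, h⟩ := Metric.eventually_nhds_iff_ball.1 h2
  exact ⟨R, hR, _, fun z hz => (h z hz).1, fun z hz => (h z hz).2⟩

theorem differentiableOn_fderiv_apply [CompleteSpace G] {f : E → G} {U : Set E} (hU : IsOpen U)
    (hd : DifferentiableOn ℂ f U) (v : E) :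
    DifferentiableOn ℂ (fun z => fderiv ℂ f z v) U := by
  intro c hc
  apply DifferentiableAt.differentiableWithinAt
  obtain ⟨R, hR, M, hsub, hM⟩ := exists_ball_bound hU hd hc
  have hM0 : 0 ≤ M := (norm_nonneg _).trans (hM c (mem_ball_self hR))
  set t : ℕ → ℝ := fun k => R / (2 * (‖v‖ + 1)) * (1 / ((k : ℝ) + 1)) with ht
  have ht0 : ∀ k, 0 < t k := fun k => by positivity
  have htv : ∀ k, ‖((t k : ℝ) : ℂ) • v‖ < R / 2 := by
    intro k
    rw [norm_smul, Complex.norm_real, Real.norm_of_nonneg (ht0 k).le]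
    have h1 : t k ≤ R / (2 * (‖v‖ + 1)) := by
      apply mul_le_of_le_one_right (by positivity)
      rw [div_le_one (by positivity)]
      linarith [(Nat.cast_nonneg k : (0 : ℝ) ≤ k)]
    calc t k * ‖v‖ ≤ R / (2 * (‖v‖ + 1)) * ‖v‖ := by gcongr
      _ < R / (2 * (‖v‖ + 1)) * (‖v‖ + 1) := by gcongr; linarith
      _ = R / 2 := by field_simp
  have hsub2 : ∀ z ∈ ball c (R / 2), ball z (R / 2) ⊆ ball c R := by
    intro z hz
    apply ball_subset_ball'
    rw [mem_ball] at hz
    linarith
  have htlim : Tendsto t atTop (𝓝 0) := by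
    simpa [ht] using tendsto_one_div_add_atTop_nhds_zero_nat.const_mul (R / (2 * (‖v‖ + 1)))
  refine weierstrass (F := fun k z => ((t k : ℝ) : ℂ)⁻¹ • (f (z + ((t k : ℝ) : ℂ) • v) - f z))
    (R := R / 2) (by positivity) ?_ ?_
  · intro k
    refine DifferentiableOn.const_smul (DifferentiableOn.sub ?_ ?_) _
    · refine (hd.mono hsub).comp (by fun_prop) ?_
      intro z hz
      apply hsub2 z hz
      simpa using htv k
    · exact hd.mono ((ball_subset_ball (by linarith)).trans hsub)
  · rw [Metric.tendstoUniformlyOn_iff]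
    intro ε hε
    have h1 : Tendsto (fun k => 4 * M * (‖v‖ / (R / 2)) ^ 2 * t k) atTop (𝓝 0) := by
      simpa using htlim.const_mul (4 * M * (‖v‖ / (R / 2)) ^ 2)
    filter_upwards [h1.eventually (eventually_lt_nhds hε)] with k hk z hz
    refine lt_of_le_of_lt ?_ hk
    have h2 := taylor_two (by positivity : 0 < R / 2) (hd.mono ((hsub2 z hz).trans hsub))
      (fun w hw => hM w (hsub2 z hz hw)) (htv k)
    have hne : ((t k : ℝ) : ℂ) ≠ 0 := by exact_mod_cast (ht0 k).ne'
    have h3 : fderiv ℂ f z v - ((t k : ℝ) : ℂ)⁻¹ • (f (z + ((t k : ℝ) : ℂ) • v) - f z) =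
        -(((t k : ℝ) : ℂ)⁻¹ • (f (z + ((t k : ℝ) : ℂ) • v) - f z -
          fderiv ℂ f z (((t k : ℝ) : ℂ) • v))) := by
      rw [map_smul, smul_sub _ (_ - _), smul_smul, inv_mul_cancel₀ hne, one_smul]
      abel
    rw [dist_eq_norm, h3, norm_neg, norm_smul, norm_inv, Complex.norm_real,
      Real.norm_of_nonneg (ht0 k).le]
    rw [norm_smul, Complex.norm_real, Real.norm_of_nonneg (ht0 k).le] at h2
    have h4 := ht0 k
    calc (t k)⁻¹ * _ ≤ (t k)⁻¹ * (4 * M * (t k * ‖v‖ / (R / 2)) ^ 2) := by gcongr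
      _ = _ := by field_simp

/-- Holomorphic maps are infinitely complex differentiable. -/
theorem contDiffOn_of_differentiableOn [FiniteDimensional ℂ E] [CompleteSpace G] {U : Set E}
    (hU : IsOpen U) (n : ℕ) :
    ∀ {f : E → G}, DifferentiableOn ℂ f U → ContDiffOn ℂ n f U := by
  induction n with
  | zero => intro f hf; simpa using hf.continuousOn
  | succ n ih =>
    intro f hf
    rw [Nat.cast_succ, contDiffOn_succ_iff_fderiv_of_isOpen hU]
    refine ⟨hf, by simp, ?_⟩
    rw [contDiffOn_clm_apply]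
    exact fun v => ih (differentiableOn_fderiv_apply hU hf v)

theorem differentiableOn_fderiv [FiniteDimensional ℂ E] [CompleteSpace G] {U : Set E}
    (hU : IsOpen U) {f : E → G} (hf : DifferentiableOn ℂ f U) :
    DifferentiableOn ℂ (fderiv ℂ f) U := by
  have := contDiffOn_of_differentiableOn hU 2 hf
  have h2 : ((2 : ℕ) : WithTop ℕ∞) = 1 + 1 := by norm_num
  rw [h2, contDiffOn_succ_iff_fderiv_of_isOpen hU] at this
  exact this.2.2.differentiableOn (by simp)

/-- A map vanishing to order `k + 1` has zero `k`-th derivative. -/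
theorem iteratedFDeriv_eq_zero [FiniteDimensional ℂ E] (k : ℕ) :
    ∀ {G : Type} [NormedAddCommGroup G] [NormedSpace ℂ G] [CompleteSpace G] {f : E → G}
      {δ C : ℝ}, 0 < δ → DifferentiableOn ℂ f (ball 0 δ) →
      (∀ t, 0 < t → t < δ → ∀ z, ‖z‖ < t → ‖f z‖ ≤ C * t ^ (k + 1)) →
      iteratedFDeriv ℂ k f 0 = 0 := by
  induction k with
  | zero =>
    intro G _ _ _ f δ C hδ _ h
    rw [← norm_eq_zero, norm_iteratedFDeriv_zero]
    refine le_antisymm ?_ (norm_nonneg _)
    have h1 : Tendsto (fun t : ℝ => C * t ^ (0 + 1)) (𝓝[>] 0) (𝓝 0) := by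
      have : Tendsto (fun t : ℝ => C * t ^ (0 + 1)) (𝓝 0) (𝓝 (C * 0 ^ (0 + 1))) :=
        Continuous.tendsto (by fun_prop) 0
      simpa using this.mono_left nhdsWithin_le_nhds
    refine ge_of_tendsto h1 ?_
    filter_upwards [Ioo_mem_nhdsGT hδ] with t ht
    exact h t ht.1 ht.2 0 (by simpa using ht.1)
  | succ k ih =>
    intro G _ _ _ f δ C hδ hf h
    rw [← norm_eq_zero, ← norm_iteratedFDeriv_fderiv, norm_eq_zero]
    refine ih (δ := δ / 2) (C := 2 * C * 2 ^ (k + 2)) (by positivity)
      ((differentiableOn_fderiv isOpen_ball hf).mono (ball_subset_ball (by linarith))) ?_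
    intro t ht htδ z hz
    have hsub : ∀ w ∈ ball z t, ‖w‖ < 2 * t := by
      intro w hw
      rw [mem_ball, dist_eq_norm] at hw
      have := norm_add_le (w - z) z
      simp only [sub_add_cancel] at this
      linarith
    have := cauchy_fderiv (f := f) (c := z) (R := t) (M := C * (2 * t) ^ (k + 1 + 1)) ht
      (hf.mono fun w hw => by rw [mem_ball_zero_iff]; linarith [hsub w hw])
      (fun w hw => h (2 * t) (by linarith) (by linarith) w (hsub w hw))
    refine this.trans_eq ?_
    field_simp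
    ring

end Pool.Agent.Lib.MP_7906d6_an
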