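import Pool.Agent.Lib.MP_7906d6_an.Holo

/-!
Holomorphic extension past the sphere from a bound on the Bergman pairing.
-/

namespace Pool.Agent.Lib.MP_7906d6_an

open Filter Metric Set Topology MeasureTheory
open scoped Real

set_option linter.unusedSectionVars false

variable {E : Type} [NormedAddCommGroup E] [NormedSpace ℂ E] [FiniteDimensional ℂ E]

/-- The homogeneous part of degree `m`. -/
noncomputable def hom (g : E → ℂ) (m : ℕ) (z : E) : ℂ :=
  (m.factorial : ℂ)⁻¹ * iteratedFDeriv ℂ m g 0 (fun _ => z)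

theorem hom_differentiable (g : E → ℂ) (m : ℕ) : Differentiable ℂ (hom g m) := by
  unfold hom
  refine Differentiable.const_mul ?_ _
  exact ((iteratedFDeriv ℂ m g 0).contDiff (n := 1)).differentiable (by simp) |>.comp
    (differentiable_pi.2 fun _ => differentiable_id)

theorem hom_smul (g : E → ℂ) (m : ℕ) (c : ℂ) (z : E) : hom g m (c • z) = c ^ m * hom g m z := by
  unfold hom
  rw [(iteratedFDeriv ℂ m g 0).map_smul_univ (fun _ => c) (fun _ => z)]
  simp only [Finset.prod_const, Finset.card_univ, Fintype.card_fin, smul_eq_mul]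
  ring

theorem slice_iter {g : E → ℂ} {R : ℝ} (hR : 0 < R) (hg : DifferentiableOn ℂ g (ball 0 R))
    (m : ℕ) (z : E) :
    iteratedDeriv m (fun t : ℂ => g (t • z)) 0 = iteratedFDeriv ℂ m g 0 (fun _ => z) := by
  let L : ℂ →L[ℂ] E := ContinuousLinearMap.toSpanSingleton ℂ z
  have hop : IsOpen (L ⁻¹' ball 0 R) := isOpen_ball.preimage L.continuous
  have h0 : L 0 ∈ ball (0 : E) R := by simpa using hR
  have := L.iteratedFDerivWithin_comp_right (contDiffOn_of_differentiableOn isOpen_ball m hg)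
    isOpen_ball.uniqueDiffOn hop.uniqueDiffOn h0 (i := m) le_rfl
  rw [iteratedFDerivWithin_of_isOpen m hop h0, iteratedFDerivWithin_of_isOpen m isOpen_ball h0]
    at this
  have h1 : (fun t : ℂ => g (t • z)) = g ∘ L := rfl
  rw [iteratedDeriv_eq_iteratedFDeriv, h1, this]
  simp [L]

theorem slice_diff {g : E → ℂ} {R : ℝ} (hg : DifferentiableOn ℂ g (ball 0 R)) {w : E}
    (hw : ‖w‖ < R) : ∃ S > 1, DifferentiableOn ℂ (fun t : ℂ => g (t • w)) (ball 0 S) := by
  have h0 : 0 < R - ‖w‖ := by linarith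
  refine ⟨1 + (R - ‖w‖) / (‖w‖ + 1), by simp; positivity, hg.comp (by fun_prop) ?_⟩
  intro t ht
  rw [mem_ball_zero_iff] at ht ⊢
  rw [norm_smul]
  have h1 : (R - ‖w‖) / (‖w‖ + 1) * ‖w‖ < R - ‖w‖ := by
    rw [div_mul_eq_mul_div, div_lt_iff₀ (by positivity)]
    nlinarith
  nlinarith [norm_nonneg w, norm_nonneg t]

theorem hasSum_hom {g : E → ℂ} {R : ℝ} (hg : DifferentiableOn ℂ g (ball 0 R)) {w : E}
    (hw : ‖w‖ < R) : HasSum (fun m => hom g m w) (g w) := by
  obtain ⟨S, hS, hd⟩ := slice_diff hg hw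
  have := Complex.hasSum_taylorSeries_on_ball hd (z := 1) (by simpa using hS)
  simp only [sub_zero, one_pow, one_smul, smul_eq_mul, one_mul,
    slice_iter ((norm_nonneg w).trans_lt hw) hg] at this
  exact this

theorem circle_hom {g : E → ℂ} {R : ℝ} (hg : DifferentiableOn ℂ g (ball 0 R)) {w : E}
    (hw : ‖w‖ < R) (m : ℕ) :
    ∫ θ in (0 : ℝ)..2 * π, g (circleMap 0 1 θ • w) * (starRingEnd ℂ (circleMap 0 1 θ)) ^ m =
      2 * π * hom g m w := by
  obtain ⟨S, hS, hd⟩ := slice_diff hg hw
  have := (hd.mono (closedBall_subset_ball hS)).circleIntegral_one_div_sub_center_pow_smul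
    one_pos m
  rw [slice_iter ((norm_nonneg w).trans_lt hw) hg, circleIntegral] at this
  have h2 : ∀ θ : ℝ, deriv (circleMap 0 1) θ • (1 / (circleMap 0 1 θ - 0) ^ (m + 1)) •
      g (circleMap 0 1 θ • w) =
      Complex.I * (g (circleMap 0 1 θ • w) * (starRingEnd ℂ (circleMap 0 1 θ)) ^ m) := by
    intro θ
    have h1 : ‖circleMap 0 1 θ‖ = 1 := by simp
    have h0 : circleMap 0 1 θ ≠ 0 := by intro h; simp [h] at h1
    rw [← Complex.inv_eq_conj h1, deriv_circleMap]
    simp only [sub_zero, smul_eq_mul, inv_pow]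
    field_simp
    ring
  simp only [h2] at this
  rw [intervalIntegral.integral_const_mul, smul_eq_mul] at this
  apply mul_left_cancel₀ Complex.I_ne_zero
  rw [this, hom]
  ring

variable [MeasurableSpace E] [BorelSpace E] (μ : Measure E) [μ.IsAddHaarMeasure]

theorem rot_preimage {ζ : ℂ} (hζ : ‖ζ‖ = 1) (δ : ℝ) :
    (fun w : E => ζ • w) ⁻¹' ball 0 δ = ball 0 δ := by
  ext w
  simp [norm_smul, hζ]

theorem rot_mp {ζ : ℂ} (hζ : ‖ζ‖ = 1) : MeasurePreserving (fun w : E => ζ • w) μ μ := by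
  have h0 : ζ ≠ 0 := by rintro rfl; simp at hζ
  let f : E ≃ₗ[ℝ] E := (LinearEquiv.smulOfNeZero ℂ E ζ h0).restrictScalars ℝ
  have hm : Measurable (fun w : E => ζ • w) := by fun_prop
  have h1 : Measure.map (fun w : E => ζ • w) μ = _ :=
    Measure.map_linearMap_addHaar_eq_smul_addHaar μ (f := (f : E →ₗ[ℝ] E))
      (LinearEquiv.isUnit_det' f).ne_zero
  have h2 := congrArg (fun ν : Measure E => ν (ball 0 1)) h1
  simp only [Measure.map_apply hm measurableSet_ball, rot_preimage hζ, Measure.smul_apply,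
    smul_eq_mul] at h2
  have h3 : ENNReal.ofReal |(LinearMap.det (f : E →ₗ[ℝ] E))⁻¹| = 1 := by
    have hpos : μ (ball 0 1) ≠ 0 := (measure_ball_pos μ 0 one_pos).ne'
    have hfin : μ (ball 0 1) ≠ ⊤ := measure_ball_lt_top.ne
    rw [← ENNReal.mul_left_inj hpos hfin, one_mul]
    exact h2.symm
  exact ⟨hm, by rw [h1, h3, one_smul]⟩

theorem rot_avg {f : E → ℂ} {δ : ℝ} (hf : IntegrableOn f (ball 0 δ) μ) :
    2 * π * ∫ w in ball 0 δ, f w ∂μ =
      ∫ w in ball 0 δ, (∫ θ in (0 : ℝ)..2 * π, f (circleMap 0 1 θ • w)) ∂μ := by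
  have hmp : ∀ θ : ℝ, MeasurePreserving (fun w : E => circleMap 0 1 θ • w)
      (μ.restrict (ball 0 δ)) (μ.restrict (ball 0 δ)) := by
    intro θ
    have h1 : ‖circleMap 0 1 θ‖ = 1 := by simp
    have := (rot_mp μ h1).restrict_preimage (measurableSet_ball (x := (0 : E)) (ε := δ))
    rwa [rot_preimage h1] at this
  have hsk := (MeasurePreserving.id (volume.restrict (uIoc (0 : ℝ) (2 * π)))).skew_product
    (g := fun θ (w : E) => circleMap 0 1 θ • w) (μc := μ.restrict (ball 0 δ))
    (μd := μ.restrict (ball 0 δ))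
    (Continuous.measurable (by fun_prop)) (Eventually.of_forall fun θ => (hmp θ).map_eq)
  have hint : Integrable (Function.uncurry fun (θ : ℝ) (w : E) => f (circleMap 0 1 θ • w))
      ((volume.restrict (uIoc (0 : ℝ) (2 * π))).prod (μ.restrict (ball 0 δ))) := by
    have : IsFiniteMeasure (volume.restrict (uIoc (0 : ℝ) (2 * π))) :=
      isFiniteMeasure_restrict.2 (by simp [uIoc])
    exact hsk.integrable_comp_of_integrable (hf.comp_snd _)
  rw [← intervalIntegral_integral_swap hint]
  have : ∀ θ : ℝ, ∫ w in ball 0 δ, f (circleMap 0 1 θ • w) ∂μ = ∫ w in ball 0 δ, f w ∂μ := by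
    intro θ
    have h0 : circleMap 0 1 θ ≠ 0 := by simp
    exact (hmp θ).integral_comp (measurableEmbedding_const_smul₀ h0) f
  simp [this]

theorem integrableOn_ball_of_continuous {f : E → ℂ} (hf : Continuous f) (c : E) (δ : ℝ) :
    IntegrableOn f (ball c δ) μ := by
  have : ProperSpace E := FiniteDimensional.proper ℂ E
  exact (hf.continuousOn.integrableOn_compact (isCompact_closedBall c δ)).mono_set
    ball_subset_closedBall

theorem mean_value {p : E → ℂ} (hp : Differentiable ℂ p) (δ : ℝ) :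
    ∫ w in ball 0 δ, p w ∂μ = μ.real (ball 0 δ) * p 0 := by
  have h1 := rot_avg μ (integrableOn_ball_of_continuous μ hp.continuous 0 δ)
  have h2 : ∀ w : E, ∫ θ in (0 : ℝ)..2 * π, p (circleMap 0 1 θ • w) = 2 * π * p 0 := by
    intro w
    have := circle_hom (hp.differentiableOn (s := ball 0 (‖w‖ + 1))) (w := w) (by linarith) 0
    simpa [hom] using this
  simp only [h2, setIntegral_const, Complex.real_smul] at h1
  have h3 : (2 * π : ℂ) ≠ 0 := by simp
  apply mul_left_cancel₀ h3
  rw [h1]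
  ring

theorem integral_mul_conj_hom {g : E → ℂ} (hg : DifferentiableOn ℂ g (ball 0 1))
    (hi : IntegrableOn g (ball 0 1) μ) (m : ℕ) :
    ∫ w in ball 0 1, g w * starRingEnd ℂ (hom g m w) ∂μ =
      ((∫ w in ball 0 1, ‖hom g m w‖ ^ 2 ∂μ : ℝ) : ℂ) := by
  have : ProperSpace E := FiniteDimensional.proper ℂ E
  have hc : Continuous fun w => starRingEnd ℂ (hom g m w) :=
    Complex.continuous_conj.comp (hom_differentiable g m).continuous
  obtain ⟨C, hC⟩ := (isCompact_closedBall (0 : E) 1).exists_bound_of_continuousOn hc.continuousOn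
  have hint : IntegrableOn (fun w => g w * starRingEnd ℂ (hom g m w)) (ball 0 1) μ := by
    refine Integrable.mul_bdd (c := C) hi hc.aestronglyMeasurable ?_
    filter_upwards [ae_restrict_mem measurableSet_ball] with w hw
    exact hC w (ball_subset_closedBall hw)
  have h1 := rot_avg μ hint
  have h2 : ∫ w in ball 0 1, (∫ θ in (0 : ℝ)..2 * π, g (circleMap 0 1 θ • w) *
      starRingEnd ℂ (hom g m (circleMap 0 1 θ • w))) ∂μ =
      ∫ w in ball 0 1, 2 * π * ((‖hom g m w‖ ^ 2 : ℝ) : ℂ) ∂μ := by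
    refine setIntegral_congr_fun measurableSet_ball fun w hw => ?_
    simp only [hom_smul, map_mul, map_pow, ← mul_assoc]
    rw [intervalIntegral.integral_mul_const, circle_hom hg (mem_ball_zero_iff.1 hw), mul_assoc,
      Complex.mul_conj, Complex.normSq_eq_norm_sq]
  rw [h2, integral_const_mul, integral_complex_ofReal] at h1
  have h3 : (2 * π : ℂ) ≠ 0 := by simp
  exact mul_left_cancel₀ h3 h1

theorem exists_extension {g : E → ℂ} (hg : DifferentiableOn ℂ g (ball 0 1))
    (hi : IntegrableOn g (ball 0 1) μ) {r A : ℝ} (hr0 : 0 < r) (hr1 : r < 1)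
    (hA : ∀ (h : E → ℂ) (M : ℝ), Differentiable ℂ h → (∀ z, ‖z‖ ≤ r → ‖h z‖ ≤ M) →
      ‖∫ w in ball 0 1, g w * starRingEnd ℂ (h w) ∂μ‖ ≤ A * M) :
    ∃ R > 1, ∃ G : E → ℂ, DifferentiableOn ℂ G (ball 0 R) ∧ EqOn G g (ball 0 1) := by
  have : ProperSpace E := FiniteDimensional.proper ℂ E
  set s := (1 + r) / 2 with hs
  have hs0 : 0 < s := by positivity
  have hs1 : s < 1 := by linarith
  set q := r / s ^ 2 with hq
  have hq0 : 0 < q := by positivity
  have hq1 : q < 1 := by
    rw [hq, div_lt_one (by positivity), hs]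
    nlinarith
  set V := μ.real (ball (0 : E) (1 - s)) with hV
  have hV0 : 0 < V := ENNReal.toReal_pos (measure_ball_pos μ 0 (by linarith)).ne'
    measure_ball_lt_top.ne
  have hA0 : 0 ≤ A := by simpa using hA 0 1 (by fun_prop) (by simp)
  have key : ∀ (m : ℕ) (ρ : ℝ), 0 < ρ → ∀ z, ‖z‖ ≤ ρ → ‖hom g m z‖ ≤ A / V * (q * ρ) ^ m := by
    intro m
    have hpd := hom_differentiable g m
    obtain ⟨z₁, hz₁, hmax⟩ := (isCompact_closedBall (0 : E) 1).exists_isMaxOn
      ⟨0, mem_closedBall_self zero_le_one⟩ hpd.continuous.norm.continuousOn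
    set M := ‖hom g m z₁‖ with hM
    have hM0 : 0 ≤ M := norm_nonneg _
    have hscale : ∀ ρ : ℝ, 0 < ρ → ∀ z, ‖z‖ ≤ ρ → ‖hom g m z‖ ≤ ρ ^ m * M := by
      intro ρ hρ z hz
      have hρ' : (ρ : ℂ) ≠ 0 := by exact_mod_cast hρ.ne'
      have h1 : z = (ρ : ℂ) • ((ρ : ℂ)⁻¹ • z) := by rw [smul_inv_smul₀ hρ']
      rw [h1, hom_smul, norm_mul, norm_pow, Complex.norm_real, Real.norm_of_nonneg hρ.le]
      gcongr
      apply hmax
      rw [mem_closedBall_zero_iff, norm_smul, norm_inv, Complex.norm_real,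
        Real.norm_of_nonneg hρ.le, inv_mul_le_iff₀ hρ]
      simpa using hz
    have h1 := hA (hom g m) (r ^ m * M) hpd (hscale r hr0)
    rw [integral_mul_conj_hom μ hg hi, Complex.norm_real] at h1
    have h2 : V * (s ^ m * M) ^ 2 ≤ ∫ w in ball 0 1, ‖hom g m w‖ ^ 2 ∂μ := by
      have a1 := mean_value μ (p := fun w => hom g m ((s : ℂ) • z₁ + w) ^ 2) (by fun_prop) (1 - s)
      have a2 := congrArg norm a1
      rw [add_zero, hom_smul, norm_mul, norm_pow, norm_mul, norm_pow, Complex.norm_real,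
        Complex.norm_real, Real.norm_of_nonneg hV0.le, Real.norm_of_nonneg hs0.le, ← hM] at a2
      rw [← a2]
      refine (norm_integral_le_integral_norm _).trans ?_
      simp only [norm_pow]
      have a3 := (measurePreserving_add_left μ ((s : ℂ) • z₁)).setIntegral_preimage_emb
        (measurableEmbedding_addLeft _) (fun w => ‖hom g m w‖ ^ 2) (ball ((s : ℂ) • z₁) (1 - s))
      have a4 : (fun w => (s : ℂ) • z₁ + w) ⁻¹' ball ((s : ℂ) • z₁) (1 - s) = ball 0 (1 - s) := by
        ext w; simp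
      rw [a4] at a3
      rw [a3]
      refine setIntegral_mono_set ?_ (Eventually.of_forall fun w => by positivity)
        (LE.le.eventuallyLE ?_)
      · exact ((hpd.continuous.norm.pow 2).continuousOn.integrableOn_compact
          (isCompact_closedBall 0 1)).mono_set ball_subset_closedBall
      · apply ball_subset_ball'
        rw [dist_zero_right, norm_smul, Complex.norm_real, Real.norm_of_nonneg hs0.le]
        have := mem_closedBall_zero_iff.1 hz₁
        nlinarith
    have h3 : V * (s ^ m * M) ^ 2 ≤ A * (r ^ m * M) := h2.trans ((le_abs_self _).trans h1)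
    have h4 : M ≤ A / V * q ^ m := by
      rcases hM0.eq_or_lt with h | h
      · rw [← h]; positivity
      · rw [hq, div_pow, div_mul_div_comm, le_div_iff₀ (by positivity)]
        refine le_of_mul_le_mul_right ?_ h
        calc M * (V * (s ^ 2) ^ m) * M = V * (s ^ m * M) ^ 2 := by
              rw [← pow_mul, mul_pow, ← pow_mul, mul_comm 2 m]; ring
          _ ≤ A * (r ^ m * M) := h3
          _ = A * r ^ m * M := by ring
    intro ρ hρ z hz
    calc ‖hom g m z‖ ≤ ρ ^ m * M := hscale ρ hρ z hz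
      _ ≤ ρ ^ m * (A / V * q ^ m) := by gcongr
      _ = A / V * (q * ρ) ^ m := by ring
  set R := 2 / (1 + q) with hR
  have hR1 : 1 < R := by rw [hR, one_lt_div (by positivity)]; linarith
  have hqR : q * R < 1 := by
    rw [hR, ← mul_div_assoc, div_lt_one (by positivity)]; linarith
  have hsum : Summable fun m : ℕ => A / V * (q * R) ^ m :=
    (summable_geometric_of_lt_one (by positivity) hqR).mul_left _
  have hu := tendstoUniformlyOn_tsum_nat (f := fun m z => hom g m z) (s := ball (0 : E) R) hsum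
    (fun m z hz => key m R (by linarith) z (mem_ball_zero_iff.1 hz).le)
  refine ⟨R, hR1, fun z => ∑' m, hom g m z, ?_, ?_⟩
  · intro c hc
    rw [mem_ball_zero_iff] at hc
    refine (weierstrass (R := R - ‖c‖) (by linarith) (fun k => ?_)
      (hu.mono ?_)).differentiableWithinAt
    · exact (Differentiable.fun_sum fun i _ => hom_differentiable g i).differentiableOn
    · apply ball_subset_ball'
      simp
  · intro z hz
    exact (hasSum_hom hg (mem_ball_zero_iff.1 hz)).tsum_eq

end Pool.Agent.Lib.MP_7906d6_an
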