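import Pool.Agent.Lib.MP_7906d6_an.Iterate
import Pool.Agent.Lib.MP_7906d6_an.Extend

-- part Pool.Agent.Lib.MP_7906d6_an.Piola
section

/-!
The Jacobian determinant, the pulled back Euler field, and cut-off functions.
-/

namespace Pool.Agent.Lib.MP_7906d6_an

open Filter Metric Set Topology Module

set_option linter.unusedSectionVars false

variable {E : Type} [NormedAddCommGroup E] [InnerProductSpace ℂ E] [FiniteDimensional ℂ E]
  {n : ℕ} (e : Basis (Fin n) ℂ E)

/-- The determinant as a continuous multilinear map. -/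
noncomputable def detC : ContinuousMultilinearMap ℂ (fun _ : Fin n => E) ℂ where
  toMultilinearMap := e.det.toMultilinearMap
  cont := by
    change Continuous fun v : Fin n → E => (e.toMatrix v).det
    refine Continuous.matrix_det (continuous_matrix fun i j => ?_)
    exact (e.coord i).continuous_of_finiteDimensional.comp (continuous_apply j)

theorem detC_apply (v : Fin n → E) : detC e v = e.det v := rfl

/-- Columns of the Jacobian matrix. -/
noncomputable def colA (F : E → E) (z : E) (i : Fin n) : E := fderiv ℂ F z (e i)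

/-- The Jacobian determinant. -/
noncomputable def jac (F : E → E) (z : E) : ℂ := e.det (colA e F z)

/-- Coordinates of the pulled back Euler field. -/
noncomputable def Xc (F : E → E) (k : Fin n) (z : E) : ℂ :=
  e.det (Function.update (colA e F z) k (F z))

theorem jac_eq_det (F : E → E) (z : E) :
    jac e F z = LinearMap.det (fderiv ℂ F z : E →ₗ[ℂ] E) := by
  have := e.det_comp (fderiv ℂ F z : E →ₗ[ℂ] E) e
  rw [e.det_self, mul_one] at this
  exact this

theorem cramer_det (a : Fin n → E) (y : E) :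
    ∑ k, e.det (Function.update a k y) • a k = e.det a • y := by
  apply e.ext_elem
  intro i
  have := congrFun (Matrix.mulVec_cramer (e.toMatrix a) (e.repr y)) i
  simp only [Matrix.mulVec, dotProduct, Matrix.cramer_apply, Pi.smul_apply, smul_eq_mul] at this
  simp only [map_sum, map_smul, Finsupp.coe_finsetSum, Finset.sum_apply, Finsupp.smul_apply,
    smul_eq_mul, e.det_apply, e.toMatrix_update]
  rw [← this]
  refine Finset.sum_congr rfl fun k _ => ?_
  rw [mul_comm, e.toMatrix_apply]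

theorem fderiv_X (F : E → E) (z : E) :
    fderiv ℂ F z (∑ k, Xc e F k z • e k) = jac e F z • F z := by
  rw [map_sum]
  simp only [map_smul]
  exact cramer_det e (colA e F z) (F z)

theorem colA_hasFDerivAt {F : E → E} {U : Set E} (hU : IsOpen U) (hF : DifferentiableOn ℂ F U)
    {z : E} (hz : z ∈ U) (i : Fin n) :
    HasFDerivAt (fun z => colA e F z i) ((fderiv ℂ (fderiv ℂ F) z).flip (e i)) z := by
  have : CompleteSpace E := FiniteDimensional.complete ℂ E
  have h1 := ((differentiableOn_fderiv hU hF).differentiableAt (hU.mem_nhds hz)).hasFDerivAt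
  have h2 := h1.clm_apply (hasFDerivAt_const (e i) z)
  rw [ContinuousLinearMap.comp_zero, zero_add] at h2
  exact h2

theorem jac_differentiableOn {F : E → E} {U : Set E} (hU : IsOpen U)
    (hF : DifferentiableOn ℂ F U) : DifferentiableOn ℂ (jac e F) U := fun _ hz =>
  (HasFDerivAt.multilinear_comp (detC e)
    (fun i => colA_hasFDerivAt e hU hF hz i)).differentiableAt.differentiableWithinAt

theorem Xc_hasFDerivAt {F : E → E} {U : Set E} (hU : IsOpen U) (hF : DifferentiableOn ℂ F U)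
    {z : E} (hz : z ∈ U) (k : Fin n) :
    HasFDerivAt (Xc e F k) (∑ i, ((detC e).toContinuousLinearMap
      (Function.update (colA e F z) k (F z)) i) ∘L
        (Function.update (fun i => (fderiv ℂ (fderiv ℂ F) z).flip (e i)) k (fderiv ℂ F z) i)) z := by
  refine HasFDerivAt.multilinear_comp (detC e)
    (g := fun i z => Function.update (colA e F z) k (F z) i) (fun i => ?_)
  rcases eq_or_ne i k with rfl | hik
  · simpa using (hF.differentiableAt (hU.mem_nhds hz)).hasFDerivAt
  · simpa [Function.update_of_ne hik] using colA_hasFDerivAt e hU hF hz i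

theorem Xc_differentiableOn {F : E → E} {U : Set E} (hU : IsOpen U)
    (hF : DifferentiableOn ℂ F U) (k : Fin n) : DifferentiableOn ℂ (Xc e F k) U := fun _ hz =>
  (Xc_hasFDerivAt e hU hF hz k).differentiableAt.differentiableWithinAt

theorem div_X {F : E → E} {U : Set E} (hU : IsOpen U) (hF : DifferentiableOn ℂ F U)
    {z : E} (hz : z ∈ U) : ∑ k, fderiv ℂ (Xc e F k) z (e k) = n * jac e F z := by
  have : CompleteSpace E := FiniteDimensional.complete ℂ E
  have hsymm : ∀ v w, fderiv ℂ (fderiv ℂ F) z v w = fderiv ℂ (fderiv ℂ F) z w v := by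
    have h2 : ContDiffAt ℂ 2 F z :=
      (contDiffOn_of_differentiableOn hU 2 hF).contDiffAt (hU.mem_nhds hz)
    exact (h2.isSymmSndFDerivAt (by simp)).eq
  let T : Fin n → Fin n → ℂ := fun k i => if i = k then 0 else
    e.det (Function.update (Function.update (colA e F z) k (F z)) i
      (fderiv ℂ (fderiv ℂ F) z (e k) (e i)))
  have h1 : ∀ k, fderiv ℂ (Xc e F k) z (e k) = jac e F z + ∑ i, T k i := by
    intro k
    rw [(Xc_hasFDerivAt e hU hF hz k).fderiv, _root_.sum_apply]
    have : jac e F z = ∑ i, if i = k then jac e F z else 0 := by simp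
    rw [this, ← Finset.sum_add_distrib]
    refine Finset.sum_congr rfl fun i _ => ?_
    rcases eq_or_ne i k with rfl | hik
    · simp only [T, if_true, add_zero, Function.update_self, ContinuousLinearMap.comp_apply,
        ContinuousMultilinearMap.toContinuousLinearMap_apply, Function.update_idem, detC_apply]
      rw [jac]
      congr 1
      exact Function.update_eq_self i (colA e F z)
    · simp only [T, hik, if_false, zero_add, Function.update_of_ne hik,
        ContinuousLinearMap.comp_apply, ContinuousMultilinearMap.toContinuousLinearMap_apply,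
        detC_apply, ContinuousLinearMap.flip_apply]
  have h2 : ∀ k i, T i k = - T k i := by
    intro k i
    rcases eq_or_ne i k with rfl | hik
    · simp [T]
    · simp only [T, hik, hik.symm, if_false]
      rw [← e.det.map_swap _ hik, hsymm (e i) (e k)]
      congr 1
      ext j
      rcases eq_or_ne j i with rfl | hji
      · simp [Function.update_of_ne hik, Function.update_of_ne hik.symm]
      · rcases eq_or_ne j k with rfl | hjk
        · simp
        · simp [Function.update_of_ne hji, Function.update_of_ne hjk,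
            Equiv.swap_apply_of_ne_of_ne hji hjk]
  have h3 : ∑ k, ∑ i, T k i = 0 := by
    have : ∑ k, ∑ i, T k i = - ∑ k, ∑ i, T k i := by
      conv_lhs => rw [Finset.sum_comm]
      simp only [← Finset.sum_neg_distrib]
      exact Finset.sum_congr rfl fun k _ => Finset.sum_congr rfl fun i _ => h2 k i
    linear_combination this / 2
  simp only [h1, Finset.sum_add_distrib, h3]
  simp

theorem cutoffs (k : ℕ) (hk : 1 ≤ k) :
    ∃ (χ₀ : ℝ → ℝ) (C : ℝ) (η : ℕ → ℝ → ℝ), Continuous χ₀ ∧ (∀ t, 1 / 2 < t → χ₀ t = 0) ∧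
      (∀ j, ContDiff ℝ 1 (η j)) ∧ (∀ j, ∃ ρ < 1, ∀ t, ρ < t → η j t = 0) ∧
      (∀ j t, 0 ≤ t → t < 1 → 0 ≤ t * deriv (η j) t + k * η j t + χ₀ t ∧
        t * deriv (η j) t + k * η j t + χ₀ t ≤ C) ∧
      (∀ t < 1, ∀ᶠ j in atTop, t * deriv (η j) t + k * η j t + χ₀ t = 1) := by
  let θ := Real.smoothTransition
  have hθ : ContDiff ℝ 1 θ := Real.smoothTransition.contDiff (n := 1)
  have hθd : Differentiable ℝ θ := hθ.differentiable (by simp)
  have hθ'c : Continuous (deriv θ) := hθ.continuous_deriv le_rfl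
  have hθ'0 : ∀ x, 0 ≤ deriv θ x := fun x => Real.smoothTransition.monotone.deriv_nonneg
  have hθ'z : ∀ x, 1 < x → deriv θ x = 0 := by
    intro x hx
    have : θ =ᶠ[𝓝 x] fun _ => 1 := by
      filter_upwards [lt_mem_nhds hx] with y hy using Real.smoothTransition.one_of_one_le hy.le
    rw [this.deriv_eq]; simp
  have hθ'n : ∀ x, x < 0 → deriv θ x = 0 := by
    intro x hx
    have : θ =ᶠ[𝓝 x] fun _ => 0 := by
      filter_upwards [gt_mem_nhds hx] with y hy using Real.smoothTransition.zero_of_nonpos hy.le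
    rw [this.deriv_eq]; simp
  obtain ⟨L, hL⟩ := isCompact_Icc.exists_bound_of_continuousOn
    (hθ'c.continuousOn (s := Icc (0 : ℝ) 1))
  let m : ℝ → ℝ := fun t => t * θ (4 * t - 1) + (1 - θ (4 * t - 1))
  have hm : ContDiff ℝ 1 m := by
    have : ContDiff ℝ 1 (fun t : ℝ => θ (4 * t - 1)) := hθ.comp (by fun_prop)
    exact (contDiff_id.mul this).add (contDiff_const.sub this)
  have hmpos : ∀ t, 0 < m t := by
    intro t
    have h0 : 0 ≤ θ (4 * t - 1) := Real.smoothTransition.nonneg _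
    have h1 : θ (4 * t - 1) ≤ 1 := Real.smoothTransition.le_one _
    rcases le_or_gt t (1 / 4) with ht | ht
    · have : θ (4 * t - 1) = 0 := Real.smoothTransition.zero_of_nonpos (by linarith)
      simp [m, this]
    · simp only [m]
      nlinarith
  have hmt : ∀ t, 1 / 2 ≤ t → m t = t := by
    intro t ht
    have : θ (4 * t - 1) = 1 := Real.smoothTransition.one_of_one_le (by linarith)
    simp [m, this]
  let κ : ℝ → ℝ := fun t => (m t ^ k)⁻¹
  have hκ : ContDiff ℝ 1 κ := (hm.pow k).inv (fun t => (pow_pos (hmpos t) k).ne')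
  have hκd : Differentiable ℝ κ := hκ.differentiable (by simp)
  have hk0 : (0 : ℝ) < k := by exact_mod_cast hk
  let χ₀ : ℝ → ℝ := fun t => (t * deriv κ t + k * κ t) / k
  have hχ₀ : ∀ t, 1 / 2 < t → χ₀ t = 0 := by
    intro t ht
    have ht0 : t ≠ 0 := by linarith [ht] |> fun h : (0 : ℝ) < t => h.ne'
    have h1 : κ =ᶠ[𝓝 t] fun s => (s ^ k)⁻¹ := by
      filter_upwards [lt_mem_nhds ht] with s hs
      simp only [κ, hmt s hs.le]
    have h2 : HasDerivAt (fun s : ℝ => (s ^ k)⁻¹) (-((k : ℝ) * t ^ (k - 1)) / (t ^ k) ^ 2) t :=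
      (hasDerivAt_pow k t).inv (pow_ne_zero k ht0)
    simp only [χ₀, h1.deriv_eq, h2.deriv, κ, hmt t ht.le]
    obtain ⟨k', rfl⟩ : ∃ k', k = k' + 1 := ⟨k - 1, by omega⟩
    simp only [Nat.add_sub_cancel]
    field_simp
    ring
  let ε : ℕ → ℝ := fun j => 1 / (8 * ((j : ℝ) + 1))
  have hε0 : ∀ j, 0 < ε j := fun j => by positivity
  have hε1 : ∀ j, ε j ≤ 1 / 8 := fun j => by
    apply one_div_le_one_div_of_le (by norm_num)
    linarith [(Nat.cast_nonneg j : (0 : ℝ) ≤ j)]
  let η : ℕ → ℝ → ℝ := fun j t => (1 - κ t) / k * θ ((1 - t) / ε j - 1)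
  have hform : ∀ j t, t * deriv (η j) t + k * η j t + χ₀ t =
      θ ((1 - t) / ε j - 1) + t * ((κ t - 1) / k) * (deriv θ ((1 - t) / ε j - 1) / ε j) := by
    intro j t
    have h1 : HasDerivAt (fun t : ℝ => (1 - t) / ε j - 1) (-1 / ε j) t := by
      simpa using (((hasDerivAt_id t).const_sub 1).div_const (ε j)).sub_const 1
    have h2 := (hθd ((1 - t) / ε j - 1)).hasDerivAt.comp t h1
    have h3 := (((hκd t).hasDerivAt.const_sub 1).div_const (k : ℝ)).mul h2
    have h4 : deriv (η j) t = _ := h3.deriv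
    rw [h4]
    have h5 : χ₀ t * θ ((1 - t) / ε j - 1) = χ₀ t := by
      rcases le_or_gt t (1 / 2) with ht | ht
      · have : θ ((1 - t) / ε j - 1) = 1 := by
          apply Real.smoothTransition.one_of_one_le
          rw [le_sub_iff_add_le, le_div_iff₀ (hε0 j)]
          linarith [hε1 j]
        rw [this, mul_one]
      · rw [hχ₀ t ht, zero_mul]
    rw [← h5]
    simp only [η, χ₀, Function.comp]
    have := (hε0 j).ne'
    field_simp
    ring
  refine ⟨χ₀, 1 + 2 ^ (k + 1) * L, η, ?_, hχ₀, ?_, ?_, ?_, ?_⟩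
  · exact ((continuous_id.mul (hκ.continuous_deriv le_rfl)).add
      (continuous_const.mul hκ.continuous)).div_const _
  · intro j
    exact ((contDiff_const.sub hκ).div_const _).mul (hθ.comp (by fun_prop))
  · intro j
    refine ⟨1 - ε j, by linarith [hε0 j], fun t ht => ?_⟩
    have : θ ((1 - t) / ε j - 1) = 0 := by
      apply Real.smoothTransition.zero_of_nonpos
      rw [sub_nonpos, div_le_one (hε0 j)]
      linarith
    simp [η, this]
  · intro j t ht0 ht1
    rw [hform]
    have h0 : 0 ≤ θ ((1 - t) / ε j - 1) := Real.smoothTransition.nonneg _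
    have h1 : θ ((1 - t) / ε j - 1) ≤ 1 := Real.smoothTransition.le_one _
    have hL0 : 0 ≤ L := (norm_nonneg _).trans (hL 0 (by simp))
    have hp : (0 : ℝ) ≤ 2 ^ (k + 1) * L := by positivity
    by_cases hx : (1 - t) / ε j - 1 ∈ Icc (0 : ℝ) 1
    · have hx2 : 1 - t ≤ 2 * ε j := by
        have := hx.2
        rw [sub_le_iff_le_add, div_le_iff₀ (hε0 j)] at this
        linarith
      have ht : 1 / 2 ≤ t := by linarith [hε1 j]
      have htp : 0 < t := by linarith
      have hκt : κ t = (t ^ k)⁻¹ := by simp only [κ, hmt t ht]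
      have htk : t ^ k ≤ 1 := pow_le_one₀ ht0 ht1.le
      have htk0 : 0 < t ^ k := pow_pos htp k
      have ha : 0 ≤ (κ t - 1) / k := by
        rw [hκt]
        apply div_nonneg _ hk0.le
        rw [sub_nonneg]
        exact (one_le_inv₀ htk0).2 htk
      have hb : (κ t - 1) / k ≤ 2 ^ k * (2 * ε j) := by
        rw [hκt, div_le_iff₀ hk0]
        have b1 : 1 + (k : ℝ) * (t - 1) ≤ t ^ k := by
          have := one_add_mul_le_pow (a := t - 1) (by linarith) k
          simpa using this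
        have b2 : (t ^ k)⁻¹ ≤ 2 ^ k := by
          rw [← inv_pow]
          gcongr
          rw [inv_le_comm₀ htp (by norm_num)]
          linarith
        have b3 : (t ^ k)⁻¹ - 1 = (t ^ k)⁻¹ * (1 - t ^ k) := by field_simp
        rw [b3]
        calc _ ≤ 2 ^ k * (k * (2 * ε j)) := by
              gcongr
              nlinarith
          _ = _ := by ring
      have hc : deriv θ ((1 - t) / ε j - 1) ≤ L := (le_abs_self _).trans (hL _ hx)
      have hd := hθ'0 ((1 - t) / ε j - 1)
      have he := hε0 j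
      constructor
      · positivity
      · have : t * ((κ t - 1) / k) * (deriv θ ((1 - t) / ε j - 1) / ε j) ≤
            1 * (2 ^ k * (2 * ε j)) * (L / ε j) := by gcongr
        have h2 : 1 * (2 ^ k * (2 * ε j)) * (L / ε j) = 2 ^ (k + 1) * L := by
          field_simp; ring
        linarith
    · have : deriv θ ((1 - t) / ε j - 1) = 0 := by
        rw [mem_Icc, not_and_or, not_le, not_le] at hx
        rcases hx with hx | hx
        · exact hθ'n _ hx
        · exact hθ'z _ hx
      rw [this]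
      constructor <;> simp <;> linarith
  · intro t ht
    have hεlim : Tendsto ε atTop (𝓝 0) := by
      have := tendsto_one_div_add_atTop_nhds_zero_nat (𝕜 := ℝ).const_mul (1 / 8)
      simp only [mul_zero] at this
      refine this.congr fun j => ?_
      simp only [ε]
      field_simp
    filter_upwards [hεlim.eventually (gt_mem_nhds (by linarith : 0 < (1 - t) / 2))] with j hj
    have hx : 1 < (1 - t) / ε j - 1 := by
      rw [lt_sub_iff_add_lt, lt_div_iff₀ (hε0 j)]
      linarith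
    rw [hform, hθ'z _ hx]
    have : θ ((1 - t) / ε j - 1) = 1 := Real.smoothTransition.one_of_one_le hx.le
    simp [this]

end Pool.Agent.Lib.MP_7906d6_an
end

-- part Pool.Agent.Lib.MP_7906d6_an.Bell
section

/-!
The transformation rule of the Bergman projection under a proper self map of the ball, in weak
form, and the resulting extension of `u` and `u * F` past the sphere.
-/

namespace Pool.Agent.Lib.MP_7906d6_an

open Filter Metric Set Topology MeasureTheory Module

set_option linter.unusedSectionVars false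

variable {E : Type} [NormedAddCommGroup E] [InnerProductSpace ℂ E] [FiniteDimensional ℂ E]
  [MeasurableSpace E] [BorelSpace E] (μ : Measure E) [μ.IsAddHaarMeasure]

theorem integrableOn_of_vanish {φ : E → ℂ} (hφ : ContinuousOn φ (ball 0 1)) {r : ℝ} (hr : r < 1)
    (h0 : ∀ z, r < ‖z‖ → ‖z‖ < 1 → φ z = 0) : IntegrableOn φ (ball 0 1) μ := by
  have : ProperSpace E := FiniteDimensional.proper ℂ E
  have h1 : IntegrableOn φ (closedBall 0 r) μ :=
    (hφ.mono (closedBall_subset_ball hr)).integrableOn_compact (isCompact_closedBall 0 r)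
  refine h1.of_forall_diff_eq_zero measurableSet_ball ?_
  rintro z ⟨hz1, hz2⟩
  exact h0 z (by simpa using hz2) (by simpa using hz1)

theorem stokes {φ : E → ℂ} (hφ : ContDiffOn ℝ 1 φ (ball 0 1)) {r : ℝ} (hr : r < 1)
    (h0 : ∀ z, r < ‖z‖ → ‖z‖ < 1 → φ z = 0) (v : E) :
    IntegrableOn (fun z => fderiv ℝ φ z v) (ball 0 1) μ ∧
      ∫ z in ball 0 1, fderiv ℝ φ z v ∂μ = 0 := by
  classical
  have : ProperSpace E := FiniteDimensional.proper ℂ E
  let S : E → ℂ := fun z => if ‖z‖ < 1 then φ z else 0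
  have hS1 : ∀ z, ‖z‖ < 1 → S =ᶠ[𝓝 z] φ := by
    intro z hz
    filter_upwards [continuous_norm.continuousAt.eventually (gt_mem_nhds hz)] with y hy
    simp [S, hy]
  have hS2 : ∀ z, r < ‖z‖ → S =ᶠ[𝓝 z] fun _ => 0 := by
    intro z hz
    filter_upwards [continuous_norm.continuousAt.eventually (lt_mem_nhds hz)] with y hy
    by_cases h : ‖y‖ < 1
    · simp [S, h, h0 y hy h]
    · simp [S, h]
  have hS : ContDiff ℝ 1 S := by
    rw [contDiff_iff_contDiffAt]
    intro z
    by_cases h : ‖z‖ < 1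
    · exact (hφ.contDiffAt (isOpen_ball.mem_nhds (mem_ball_zero_iff.2 h))).congr_of_eventuallyEq
        (hS1 z h)
    · exact contDiffAt_const.congr_of_eventuallyEq (hS2 z (by linarith))
  have hc : HasCompactSupport S := by
    refine HasCompactSupport.intro (isCompact_closedBall 0 r) fun z hz => ?_
    exact (hS2 z (by simpa using hz)).self_of_nhds
  have hi : Integrable (fun z => fderiv ℝ S z v) μ :=
    ((hS.continuous_fderiv (by simp)).clm_apply continuous_const).integrable_of_hasCompactSupport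
      (hc.fderiv_apply ℝ v)
  have hz : ∫ z, fderiv ℝ S z v ∂μ = 0 := by
    have := integral_mul_fderiv_eq_neg_fderiv_mul_of_integrable (μ := μ) (f := fun _ => (1 : ℂ))
      (g := S) (v := v) (by simp) (by simpa using hi)
      (by simpa using hS.continuous.integrable_of_hasCompactSupport hc)
      (fun _ _ => differentiableAt_const _) (fun z _ => hS.differentiable (by simp) z)
    simpa using this
  have heq : EqOn (fun z => fderiv ℝ S z v) (fun z => fderiv ℝ φ z v) (ball 0 1) := by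
    intro z hz
    simp only [(hS1 z (mem_ball_zero_iff.1 hz)).fderiv_eq]
  refine ⟨hi.integrableOn.congr_fun heq measurableSet_ball, ?_⟩
  rw [← setIntegral_congr_fun measurableSet_ball heq,
    setIntegral_eq_integral_of_forall_compl_eq_zero, hz]
  intro z hz
  rw [(hS2 z (by rw [mem_ball_zero_iff] at hz; linarith)).fderiv_eq]
  simp

theorem wirtinger_prod {F : E → E} {h Y : E → ℂ} {η : ℝ → ℝ} {z : E}
    (hF : DifferentiableAt ℂ F z) (hh : DifferentiableAt ℂ h z) (hY : DifferentiableAt ℂ Y z)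
    (hη : Differentiable ℝ η) (v : E) :
    fderiv ℝ (fun z => (η (‖F z‖ ^ 2) : ℂ) * starRingEnd ℂ (h z) * Y z) z v - Complex.I *
      fderiv ℝ (fun z => (η (‖F z‖ ^ 2) : ℂ) * starRingEnd ℂ (h z) * Y z) z (Complex.I • v) =
    2 * starRingEnd ℂ (h z) * (((deriv η (‖F z‖ ^ 2) : ℝ) : ℂ) * inner ℂ (F z) (fderiv ℂ F z v) * Y z
      + (η (‖F z‖ ^ 2) : ℂ) * fderiv ℂ Y z v) := by
  have f1 := hF.hasFDerivAt.restrictScalars ℝ
  have f2 := Complex.reCLM.hasFDerivAt.comp z (f1.inner ℂ f1)
  have e2 : (Complex.reCLM ∘ fun t => inner ℂ (F t) (F t)) = fun t => ‖F t‖ ^ 2 := by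
    ext t
    simp only [Function.comp, Complex.reCLM_apply]
    exact inner_self_eq_norm_sq (𝕜 := ℂ) (F t)
  rw [e2] at f2
  have f3 := Complex.ofRealCLM.hasFDerivAt.comp z
    ((hη (‖F z‖ ^ 2)).hasDerivAt.comp_hasFDerivAt z f2)
  have f4 := Complex.conjCLE.hasFDerivAt.comp z (hh.hasFDerivAt.restrictScalars ℝ)
  have f5 := (f3.mul f4).mul (hY.hasFDerivAt.restrictScalars ℝ)
  have f6 : fderiv ℝ (fun z => (η (‖F z‖ ^ 2) : ℂ) * starRingEnd ℂ (h z) * Y z) z = _ := f5.fderiv
  rw [f6]
  have hc : ∀ x, inner ℂ (fderiv ℂ F z x) (F z) = starRingEnd ℂ (inner ℂ (F z) (fderiv ℂ F z x)) :=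
    fun x => (inner_conj_symm _ _).symm
  simp only [_root_.add_apply, _root_.smul_apply, ContinuousLinearMap.comp_apply,
    ContinuousLinearMap.coe_restrictScalars', ContinuousLinearMap.prod_apply,
    fderivInnerCLM_apply, Complex.reCLM_apply, Complex.ofRealCLM_apply, smul_eq_mul,
    ContinuousLinearEquiv.coe_coe, Complex.conjCLE_apply, Pi.mul_apply, Function.comp, hc,
    map_smul, inner_smul_right, inner_smul_left]
  generalize inner ℂ (F z) (fderiv ℂ F z v) = x
  have e1 : (((x + starRingEnd ℂ x).re : ℝ) : ℂ) = x + starRingEnd ℂ x := by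
    rw [Complex.add_conj]; simp
  have e3 : (((Complex.I * x + starRingEnd ℂ Complex.I * starRingEnd ℂ x).re : ℝ) : ℂ) =
      Complex.I * x + starRingEnd ℂ (Complex.I * x) := by
    rw [← map_mul, Complex.add_conj]; simp
  simp only [Complex.ofReal_mul, e1, e3]
  simp only [map_mul, Complex.conj_I]
  ring_nf
  simp only [Complex.I_sq]
  ring

variable {n : ℕ} (e : Basis (Fin n) ℂ E)

theorem bell_identity {F : E → E} (hF : PH F) {P h : E → ℂ} {a : ℕ} (hP : Differentiable ℂ P)
    (hPa : ∀ w, fderiv ℂ P w w = a * P w) (hh : DifferentiableOn ℂ h (ball 0 1))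
    {η : ℝ → ℝ} (hη : ContDiff ℝ 1 η) {ρ : ℝ} (hρ : ρ < 1) (hη0 : ∀ t, ρ < t → η t = 0) :
    ∫ z in ball 0 1, jac e F z * P (F z) * starRingEnd ℂ (h z) *
      ((‖F z‖ ^ 2 * deriv η (‖F z‖ ^ 2) + (n + a : ℕ) * η (‖F z‖ ^ 2) : ℝ) : ℂ) ∂μ = 0 := by
  have : CompleteSpace E := FiniteDimensional.complete ℂ E
  let Y : Fin n → E → ℂ := fun k z => P (F z) * Xc e F k z
  have hY : ∀ k, DifferentiableOn ℂ (Y k) (ball 0 1) := fun k =>
    (hP.comp_differentiableOn hF.diff).mul (Xc_differentiableOn e isOpen_ball hF.diff k)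
  let φ : Fin n → E → ℂ := fun k z => (η (‖F z‖ ^ 2) : ℂ) * starRingEnd ℂ (h z) * Y k z
  have hφ : ∀ k, ContDiffOn ℝ 1 (φ k) (ball 0 1) := by
    intro k
    have c1 : ContDiffOn ℝ 1 F (ball 0 1) :=
      (contDiffOn_of_differentiableOn isOpen_ball 1 hF.diff).restrict_scalars ℝ
    have c2 : ContDiffOn ℝ 1 h (ball 0 1) :=
      (contDiffOn_of_differentiableOn isOpen_ball 1 hh).restrict_scalars ℝ
    have c3 : ContDiffOn ℝ 1 (Y k) (ball 0 1) :=
      (contDiffOn_of_differentiableOn isOpen_ball 1 (hY k)).restrict_scalars ℝ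
    exact ((Complex.ofRealCLM.contDiff.comp_contDiffOn (hη.comp_contDiffOn (c1.norm_sq ℂ))).mul
      (Complex.conjCLE.contDiff.comp_contDiffOn c2)).mul c3
  obtain ⟨r, hr1, hr⟩ := hF.prop √ρ (by
    rw [Real.sqrt_lt' one_pos]; simpa using hρ)
  have hφ0 : ∀ k z, r < ‖z‖ → ‖z‖ < 1 → φ k z = 0 := by
    intro k z h1 h2
    have : ρ < ‖F z‖ ^ 2 := by
      by_contra h3
      exact absurd (hr z h2 (Real.le_sqrt_of_sq_le (not_lt.1 h3))) (not_le.2 h1)
    simp [φ, hη0 _ this]
  have hst := fun k v => stokes μ (hφ k) hr1 (hφ0 k) v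
  have hsum : ∫ z in ball 0 1, ∑ k, (fderiv ℝ (φ k) z (e k) -
      Complex.I * fderiv ℝ (φ k) z (Complex.I • e k)) ∂μ = 0 := by
    rw [integral_finsetSum _ (f := fun k z => fderiv ℝ (φ k) z (e k) -
      Complex.I * fderiv ℝ (φ k) z (Complex.I • e k))
      (fun k _ => (hst k _).1.sub ((hst k _).1.const_mul _))]
    refine Finset.sum_eq_zero fun k _ => ?_
    rw [integral_sub (hst k _).1 ((hst k _).1.const_mul _), integral_const_mul, (hst k _).2,
      (hst k _).2]
    simp
  have hpt : ∀ z ∈ ball (0 : E) 1, ∑ k, (fderiv ℝ (φ k) z (e k) -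
      Complex.I * fderiv ℝ (φ k) z (Complex.I • e k)) =
      2 * (jac e F z * P (F z) * starRingEnd ℂ (h z) *
      ((‖F z‖ ^ 2 * deriv η (‖F z‖ ^ 2) + (n + a : ℕ) * η (‖F z‖ ^ 2) : ℝ) : ℂ)) := by
    intro z hz
    have hn := isOpen_ball.mem_nhds hz
    have dF := hF.diff.differentiableAt hn
    have dX := fun k => (Xc_differentiableOn e isOpen_ball hF.diff k).differentiableAt hn
    have w := fun k => wirtinger_prod dF (hh.differentiableAt hn) ((hY k).differentiableAt hn)
      (hη.differentiable (by simp)) (e k)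
    have dY : ∀ k, fderiv ℂ (Y k) z (e k) = P (F z) * fderiv ℂ (Xc e F k) z (e k) +
        Xc e F k z * fderiv ℂ P (F z) (fderiv ℂ F z (e k)) := by
      intro k
      have := (((hP (F z)).hasFDerivAt.comp z dF.hasFDerivAt).mul (dX k).hasFDerivAt).fderiv
      change fderiv ℂ (Y k) z = _ at this
      rw [this]
      simp
    have s1 : ∑ k, Xc e F k z * inner ℂ (F z) (fderiv ℂ F z (e k)) =
        jac e F z * ((‖F z‖ ^ 2 : ℝ) : ℂ) := by
      have := congrArg (fun y => inner ℂ (F z) y) (fderiv_X e F z)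
      simp only [map_sum, map_smul, inner_sum, inner_smul_right] at this
      rw [this, inner_self_eq_norm_sq_to_K]
      simp
    have s2 : ∑ k, Xc e F k z * fderiv ℂ P (F z) (fderiv ℂ F z (e k)) =
        jac e F z * (a * P (F z)) := by
      have := congrArg (fderiv ℂ P (F z)) (fderiv_X e F z)
      simp only [map_sum, map_smul, smul_eq_mul, hPa] at this
      exact this
    have s3 := div_X e isOpen_ball hF.diff hz
    simp only [φ, w, dY]
    have : ∀ k, 2 * starRingEnd ℂ (h z) * (((deriv η (‖F z‖ ^ 2) : ℝ) : ℂ) *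
        inner ℂ (F z) (fderiv ℂ F z (e k)) * Y k z + (η (‖F z‖ ^ 2) : ℂ) *
        (P (F z) * fderiv ℂ (Xc e F k) z (e k) +
        Xc e F k z * fderiv ℂ P (F z) (fderiv ℂ F z (e k)))) =
        2 * starRingEnd ℂ (h z) * ((deriv η (‖F z‖ ^ 2) : ℝ) : ℂ) * P (F z) *
          (Xc e F k z * inner ℂ (F z) (fderiv ℂ F z (e k))) +
        2 * starRingEnd ℂ (h z) * (η (‖F z‖ ^ 2) : ℂ) * P (F z) * fderiv ℂ (Xc e F k) z (e k) +
        2 * starRingEnd ℂ (h z) * (η (‖F z‖ ^ 2) : ℂ) *
          (Xc e F k z * fderiv ℂ P (F z) (fderiv ℂ F z (e k))) := by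
      intro k; simp only [Y]; ring
    simp only [this, Finset.sum_add_distrib, ← Finset.mul_sum, s1, s2, s3]
    push_cast
    ring
  rw [setIntegral_congr_fun measurableSet_ball hpt, integral_const_mul] at hsum
  simpa using hsum

theorem bell_pair {F : E → E} (hF : PH F) (hn : 1 ≤ n) {P : E → ℂ} {a : ℕ}
    (hP : Differentiable ℂ P) (hPa : ∀ w, fderiv ℂ P w w = a * P w) :
    ∃ (χ₀ : ℝ → ℝ) (C r : ℝ) (χ : ℕ → ℝ → ℝ), Continuous χ₀ ∧ 0 < r ∧ r < 1 ∧
      (∀ z, r < ‖z‖ → ‖z‖ < 1 → χ₀ (‖F z‖ ^ 2) = 0) ∧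
      (∀ j t, 0 ≤ t → t < 1 → 0 ≤ χ j t ∧ χ j t ≤ C) ∧ (∀ t < 1, ∀ᶠ j in atTop, χ j t = 1) ∧
      ∀ h : E → ℂ, DifferentiableOn ℂ h (ball 0 1) → ∀ j,
        IntegrableOn (fun z => jac e F z * P (F z) * starRingEnd ℂ (h z) *
          ((χ j (‖F z‖ ^ 2) : ℝ) : ℂ)) (ball 0 1) μ ∧
        ∫ z in ball 0 1, jac e F z * P (F z) * starRingEnd ℂ (h z) *
          ((χ j (‖F z‖ ^ 2) : ℝ) : ℂ) ∂μ =
        ∫ z in ball 0 1, jac e F z * P (F z) * starRingEnd ℂ (h z) *
          ((χ₀ (‖F z‖ ^ 2) : ℝ) : ℂ) ∂μ := by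
  obtain ⟨χ₀, C, η, h1, h2, h3, h4, h5, h6⟩ := cutoffs (n + a) (by omega)
  obtain ⟨r, hr1, hr⟩ := hF.prop (3 / 4) (by norm_num)
  have hvan : ∀ z, max r (1 / 2) < ‖z‖ → ‖z‖ < 1 → χ₀ (‖F z‖ ^ 2) = 0 := by
    intro z a1 a2
    apply h2
    have : 3 / 4 < ‖F z‖ := by
      by_contra a3
      exact absurd (hr z a2 (not_lt.1 a3)) (not_le.2 ((le_max_left _ _).trans_lt a1))
    nlinarith
  refine ⟨χ₀, C, max r (1 / 2), fun j t => t * deriv (η j) t + (n + a : ℕ) * η j t + χ₀ t, h1,
    lt_max_of_lt_right (by norm_num), max_lt hr1 (by norm_num), hvan, h5, h6, ?_⟩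
  intro h hh j
  have hbase : ContinuousOn (fun z => jac e F z * P (F z) * starRingEnd ℂ (h z)) (ball 0 1) :=
    ((jac_differentiableOn e isOpen_ball hF.diff).continuousOn.mul
      (hP.comp_differentiableOn hF.diff).continuousOn).mul
      (Complex.continuous_conj.comp_continuousOn hh.continuousOn)
  have hFc : ContinuousOn (fun z => ‖F z‖ ^ 2) (ball 0 1) := hF.diff.continuousOn.norm.pow 2
  have i0 : IntegrableOn (fun z => jac e F z * P (F z) * starRingEnd ℂ (h z) *
      ((χ₀ (‖F z‖ ^ 2) : ℝ) : ℂ)) (ball 0 1) μ :=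
    integrableOn_of_vanish μ (hbase.mul (Complex.continuous_ofReal.comp_continuousOn
      (h1.comp_continuousOn hFc))) (max_lt hr1 (by norm_num : (1 / 2 : ℝ) < 1))
      (fun z a1 a2 => by simp [hvan z a1 a2])
  obtain ⟨ρ, hρ, hρ0⟩ := h4 j
  have i1 : IntegrableOn (fun z => jac e F z * P (F z) * starRingEnd ℂ (h z) *
      ((‖F z‖ ^ 2 * deriv (η j) (‖F z‖ ^ 2) + (n + a : ℕ) * η j (‖F z‖ ^ 2) : ℝ) : ℂ))
      (ball 0 1) μ := by
    obtain ⟨r', hr1', hr'⟩ := hF.prop √ρ (by rw [Real.sqrt_lt' one_pos]; simpa using hρ)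
    have c1 : Continuous fun t : ℝ => t * deriv (η j) t + (n + a : ℕ) * η j t :=
      (continuous_id.mul ((h3 j).continuous_deriv le_rfl)).add
        (continuous_const.mul (h3 j).continuous)
    refine integrableOn_of_vanish μ (hbase.mul (Complex.continuous_ofReal.comp_continuousOn
      (c1.comp_continuousOn hFc))) hr1' (fun z a1 a2 => ?_)
    have a3 : ρ < ‖F z‖ ^ 2 := by
      by_contra a3
      exact absurd (hr' z a2 (Real.le_sqrt_of_sq_le (not_lt.1 a3))) (not_le.2 a1)
    have a4 : deriv (η j) (‖F z‖ ^ 2) = 0 := by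
      have : η j =ᶠ[𝓝 (‖F z‖ ^ 2)] fun _ => 0 := by
        filter_upwards [lt_mem_nhds a3] with t ht using hρ0 t ht
      rw [this.deriv_eq]; simp
    simp [a4, hρ0 _ a3]
  have hb := bell_identity μ e hF hP hPa hh (h3 j) hρ hρ0
  have hsplit : (fun z => jac e F z * P (F z) * starRingEnd ℂ (h z) *
      ((‖F z‖ ^ 2 * deriv (η j) (‖F z‖ ^ 2) + (n + a : ℕ) * η j (‖F z‖ ^ 2) +
        χ₀ (‖F z‖ ^ 2) : ℝ) : ℂ)) = fun z => jac e F z * P (F z) * starRingEnd ℂ (h z) *
      ((‖F z‖ ^ 2 * deriv (η j) (‖F z‖ ^ 2) + (n + a : ℕ) * η j (‖F z‖ ^ 2) : ℝ) : ℂ) +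
      jac e F z * P (F z) * starRingEnd ℂ (h z) * ((χ₀ (‖F z‖ ^ 2) : ℝ) : ℂ) := by
    ext z
    rw [Complex.ofReal_add, mul_add]
  simp only [hsplit]
  exact ⟨i1.add i0, by rw [integral_add i1 i0, hb, zero_add]⟩

theorem jac_integrable {F : E → E} (hF : PH F) (hn : 1 ≤ n) :
    IntegrableOn (jac e F) (ball 0 1) μ := by
  obtain ⟨χ₀, C, r, χ, -, -, -, -, h5, h6, h7⟩ := bell_pair μ e hF hn (P := fun _ => 1) (a := 0)
    (differentiable_const _) (by simp)
  have hu := jac_differentiableOn e isOpen_ball hF.diff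
  have h8 := h7 _ hu
  have hsq : ∀ (c : ℝ) z, jac e F z * 1 * starRingEnd ℂ (jac e F z) * ((c : ℝ) : ℂ) =
      ((‖jac e F z‖ ^ 2 * c : ℝ) : ℂ) := by
    intro c z
    rw [mul_one, Complex.mul_conj, Complex.normSq_eq_norm_sq]
    push_cast; ring
  simp only [hsq, integral_complex_ofReal, Complex.ofReal_inj] at h8
  set C₀ := ∫ z in ball 0 1, ‖jac e F z‖ ^ 2 * χ₀ (‖F z‖ ^ 2) ∂μ
  have hint : ∀ j, IntegrableOn (fun z => ‖jac e F z‖ ^ 2 * χ j (‖F z‖ ^ 2)) (ball 0 1) μ :=
    fun j => (h8 j).1.re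
  have hlt : ∀ z ∈ ball (0 : E) 1, ‖F z‖ ^ 2 < 1 := fun z hz =>
    pow_lt_one₀ (norm_nonneg _) (hF.norm_lt (mem_ball_zero_iff.1 hz)) two_ne_zero
  have hl : ∀ j, ∫⁻ z in ball 0 1, ENNReal.ofReal (‖jac e F z‖ ^ 2 * χ j (‖F z‖ ^ 2)) ∂μ =
      ENNReal.ofReal C₀ := by
    intro j
    rw [← ofReal_integral_eq_lintegral_ofReal (hint j), (h8 j).2]
    filter_upwards [ae_restrict_mem measurableSet_ball] with z hz
    exact mul_nonneg (by positivity) (h5 j _ (by positivity) (hlt z hz)).1
  have hfat := lintegral_liminf_le' (μ := μ.restrict (ball 0 1)) (u := atTop)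
    (f := fun j z => ENNReal.ofReal (‖jac e F z‖ ^ 2 * χ j (‖F z‖ ^ 2)))
    (fun j => (hint j).aestronglyMeasurable.aemeasurable.ennreal_ofReal)
  simp only [hl, liminf_const] at hfat
  have hsq2 : IntegrableOn (fun z => ‖jac e F z‖ ^ 2) (ball 0 1) μ := by
    refine ⟨(hu.continuousOn.norm.pow 2).aestronglyMeasurable measurableSet_ball, ?_⟩
    rw [hasFiniteIntegral_iff_ofReal (Eventually.of_forall fun z => by positivity)]
    refine lt_of_le_of_lt (le_of_eq_of_le ?_ hfat) ENNReal.ofReal_lt_top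
    refine lintegral_congr_ae ?_
    filter_upwards [ae_restrict_mem measurableSet_ball] with z hz
    symm
    apply Tendsto.liminf_eq
    refine tendsto_const_nhds.congr' ?_
    filter_upwards [h6 _ (hlt z hz)] with j hj
    rw [hj, mul_one]
  have : IsFiniteMeasure (μ.restrict (ball (0 : E) 1)) := by
    have : ProperSpace E := FiniteDimensional.proper ℂ E
    exact isFiniteMeasure_restrict.2 measure_ball_lt_top.ne
  refine Integrable.mono' (g := fun z => 1 + ‖jac e F z‖ ^ 2) ((integrable_const 1).add hsq2)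
    (hu.continuousOn.aestronglyMeasurable measurableSet_ball) ?_
  exact Eventually.of_forall fun z => by nlinarith [norm_nonneg (jac e F z)]

include μ in
theorem bell_extension {F : E → E} (hF : PH F) (hn : 1 ≤ n) {P : E → ℂ} {a : ℕ}
    (hP : Differentiable ℂ P) (hPa : ∀ w, fderiv ℂ P w w = a * P w) :
    ∃ R > 1, ∃ G : E → ℂ, DifferentiableOn ℂ G (ball 0 R) ∧
      EqOn G (fun z => jac e F z * P (F z)) (ball 0 1) := by
  have : ProperSpace E := FiniteDimensional.proper ℂ E
  obtain ⟨χ₀, C, r, χ, h1, hr0, hr1, h4, h5, h6, h7⟩ := bell_pair μ e hF hn hP hPa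
  have hu := jac_differentiableOn e isOpen_ball hF.diff
  have hg : DifferentiableOn ℂ (fun z => jac e F z * P (F z)) (ball 0 1) :=
    hu.mul (hP.comp_differentiableOn hF.diff)
  obtain ⟨CP, hCP⟩ := (isCompact_closedBall (0 : E) 1).exists_bound_of_continuousOn
    hP.continuous.continuousOn
  have hgi : IntegrableOn (fun z => jac e F z * P (F z)) (ball 0 1) μ := by
    refine Integrable.mul_bdd (c := CP) (jac_integrable μ e hF hn)
      ((hP.comp_differentiableOn hF.diff).continuousOn.aestronglyMeasurable measurableSet_ball) ?_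
    filter_upwards [ae_restrict_mem measurableSet_ball] with z hz
    exact hCP _ (ball_subset_closedBall (hF.maps hz))
  have hlt : ∀ z ∈ ball (0 : E) 1, ‖F z‖ ^ 2 < 1 := fun z hz =>
    pow_lt_one₀ (norm_nonneg _) (hF.norm_lt (mem_ball_zero_iff.1 hz)) two_ne_zero
  obtain ⟨C₀, hC₀⟩ := isCompact_Icc.exists_bound_of_continuousOn
    (h1.continuousOn (s := Icc (0 : ℝ) 1))
  refine exists_extension μ hg hgi hr0 hr1
    (A := C₀ * ∫ z in ball 0 1, ‖jac e F z * P (F z)‖ ∂μ) ?_
  intro h M hh hM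
  obtain ⟨Ch, hCh⟩ := (isCompact_closedBall (0 : E) 1).exists_bound_of_continuousOn
    hh.continuous.continuousOn
  have h8 := h7 h hh.differentiableOn
  have hlim := tendsto_integral_of_dominated_convergence (μ := μ.restrict (ball 0 1))
    (F := fun j z => jac e F z * P (F z) * starRingEnd ℂ (h z) * ((χ j (‖F z‖ ^ 2) : ℝ) : ℂ))
    (f := fun z => jac e F z * P (F z) * starRingEnd ℂ (h z))
    (fun z => ‖jac e F z * P (F z)‖ * (Ch * C)) (fun j => (h8 j).1.aestronglyMeasurable)
    (hgi.norm.mul_const _) (fun j => by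
      filter_upwards [ae_restrict_mem measurableSet_ball] with z hz
      have a1 := h5 j _ (by positivity) (hlt z hz)
      have a2 := hCh z (ball_subset_closedBall hz)
      rw [norm_mul, norm_mul (jac e F z * P (F z)), Complex.norm_conj, Complex.norm_real,
        Real.norm_of_nonneg a1.1, mul_assoc]
      gcongr
      · exact a1.1
      · exact (norm_nonneg _).trans a2
      · exact a1.2) (by
      filter_upwards [ae_restrict_mem measurableSet_ball] with z hz
      refine tendsto_const_nhds.congr' ?_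
      filter_upwards [h6 _ (hlt z hz)] with j hj
      simp [hj])
  simp only [fun j => (h8 j).2] at hlim
  rw [← tendsto_nhds_unique tendsto_const_nhds hlim]
  have hM0 : 0 ≤ M := (norm_nonneg _).trans (hM 0 (by simpa using hr0.le))
  have hC0 : 0 ≤ C₀ := (norm_nonneg _).trans (hC₀ 0 (by simp))
  calc _ ≤ ∫ z in ball 0 1, ‖jac e F z * P (F z)‖ * (M * C₀) ∂μ := by
        refine norm_integral_le_of_norm_le (hgi.norm.mul_const _) ?_
        filter_upwards [ae_restrict_mem measurableSet_ball] with z hz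
        rcases le_or_gt ‖z‖ r with hzr | hzr
        · rw [norm_mul, norm_mul (jac e F z * P (F z)), Complex.norm_conj, Complex.norm_real,
            mul_assoc]
          gcongr
          · exact hM z hzr
          · exact hC₀ _ ⟨by positivity, (hlt z hz).le⟩
        · rw [h4 z hzr (mem_ball_zero_iff.1 hz)]
          simp only [Complex.ofReal_zero, mul_zero, norm_zero]
          positivity
    _ = _ := by rw [integral_mul_const]; ring

end Pool.Agent.Lib.MP_7906d6_an
end

-- part Pool.Agent.Lib.MP_7906d6_an.Alexander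
section

/-!
Proper holomorphic self maps of the ball in dimension at least two are automorphisms, hence are
determined by their first order jet.
-/

namespace Pool.Agent.Lib.MP_7906d6_an

open Filter Metric Set Topology MeasureTheory Module

set_option linter.unusedSectionVars false

variable {E : Type} [NormedAddCommGroup E] [InnerProductSpace ℂ E] [FiniteDimensional ℂ E]

theorem frequently_ball {ζ : E} (hζ : ‖ζ‖ = 1) : ∃ᶠ z in 𝓝 ζ, ‖z‖ < 1 := by
  have : ζ ∈ closure (ball (0 : E) 1) := by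
    rw [closure_ball 0 one_ne_zero]; simp [hζ]
  simpa using mem_closure_iff_frequently.1 this

/-- Local biholomorphic extension at some boundary point. -/
theorem exists_local_extension {F : E → E} (hF : PH F) (hn : 1 ≤ finrank ℂ E) :
    ∃ (ζ : E) (W : Set E) (Φ : E → E), ‖ζ‖ = 1 ∧ IsOpen W ∧ ζ ∈ W ∧ DifferentiableOn ℂ Φ W ∧
      (∀ z ∈ W, ‖z‖ < 1 → Φ z = F z) ∧ (∀ z ∈ W, ‖z‖ = 1 → ‖Φ z‖ = 1) ∧
      (fderiv ℂ Φ ζ).det ≠ 0 := by
  have : Nontrivial E := Module.nontrivial_of_finrank_pos (R := ℂ) hn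
  borelize E
  let μ : Measure E := Measure.addHaar
  let e := Module.finBasis ℂ E
  obtain ⟨R₀, hR₀, u, hu, hu'⟩ := bell_extension μ e hF hn (P := fun _ => 1) (a := 0)
    (differentiable_const _) (by simp)
  have hG := fun i => bell_extension μ e hF hn (P := LinearMap.toContinuousLinearMap (e.coord i))
    (a := 1) (ContinuousLinearMap.differentiable _)
    (fun w => by rw [ContinuousLinearMap.fderiv]; simp)
  choose R hR G hG hG' using hG
  have huj : ∀ z, ‖z‖ < 1 → u z = jac e F z := fun z hz => by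
    simpa using hu' (mem_ball_zero_iff.2 hz)
  obtain ⟨ζ, hζ, hζ0⟩ : ∃ ζ : E, ‖ζ‖ = 1 ∧ u ζ ≠ 0 := by
    by_contra h
    push Not at h
    obtain ⟨z, hz, hinj⟩ := hF.exists_injective
    have h1 : ‖u z‖ ≤ 0 := by
      refine Complex.norm_le_of_forall_mem_frontier_norm_le (U := ball 0 1) isBounded_ball
        (hu.mono ((closure_ball_subset_closedBall).trans
          (closedBall_subset_ball hR₀))).diffContOnCl ?_
        (subset_closure (mem_ball_zero_iff.2 hz))
      intro y hy
      rw [frontier_ball 0 one_ne_zero] at hy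
      simp [h y (by simpa using hy)]
    rw [norm_le_zero_iff, huj z hz, jac_eq_det, LinearMap.det_eq_zero_iff_ker_ne_bot] at h1
    exact h1 (LinearMap.ker_eq_bot.2 hinj)
  let W : Set E := (ball 0 R₀ ∩ u ⁻¹' {0}ᶜ) ∩ ⋂ i, ball 0 (R i)
  have hW : IsOpen W :=
    (hu.continuousOn.isOpen_inter_preimage isOpen_ball isOpen_compl_singleton).inter
      (isOpen_iInter_of_finite fun _ => isOpen_ball)
  have hζW : ζ ∈ W := ⟨⟨by simpa [hζ] using hR₀, hζ0⟩, mem_iInter.2 fun i => by
    simpa [hζ] using hR i⟩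
  let Φ : E → E := fun z => (u z)⁻¹ • ∑ i, G i z • e i
  have huW : DifferentiableOn ℂ u W := hu.mono fun z hz => hz.1.1
  have hΦ : DifferentiableOn ℂ Φ W := by
    refine (huW.inv fun z hz => hz.1.2).smul (DifferentiableOn.fun_sum fun i _ => ?_)
    exact ((hG i).mono fun z hz => mem_iInter.1 hz.2 i).smul_const _
  have hΦF : ∀ z ∈ W, ‖z‖ < 1 → Φ z = F z := by
    intro z hz hz1
    have h1 : ∀ i, G i z = u z * e.repr (F z) i := fun i => by
      rw [huj z hz1]; simpa using hG' i (mem_ball_zero_iff.2 hz1)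
    have h0 : u z ≠ 0 := hz.1.2
    simp only [Φ, h1, mul_smul, ← Finset.smul_sum, e.sum_repr, inv_smul_smul₀ h0]
  refine ⟨ζ, W, Φ, hζ, hW, hζW, hΦ, hΦF, ?_, ?_⟩
  · intro z hz hz1
    have hc : ContinuousAt (fun y => ‖Φ y‖) z := (hΦ.differentiableAt (hW.mem_nhds hz)).continuousAt.norm
    have hfr := (frequently_ball hz1).and_eventually (hW.eventually_mem hz)
    apply le_antisymm
    · by_contra h
      push Not at h
      obtain ⟨y, ⟨a1, a2⟩, a3⟩ := (hfr.and_eventually (hc.eventually (lt_mem_nhds h))).exists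
      rw [hΦF y a2 a1] at a3
      exact absurd (hF.norm_lt a1) (not_lt.2 a3.le)
    · by_contra h
      push Not at h
      obtain ⟨t, ht1, ht2⟩ := exists_between h
      obtain ⟨r, hr1, hr⟩ := hF.prop t ht2
      have hr' : ∀ᶠ y in 𝓝 z, r < ‖y‖ :=
        continuous_norm.continuousAt.eventually (lt_mem_nhds (by simpa [hz1] using hr1))
      obtain ⟨y, ⟨a1, a2⟩, a3, a4⟩ :=
        (hfr.and_eventually ((hc.eventually (gt_mem_nhds ht1)).and hr')).exists
      rw [hΦF y a2 a1] at a3
      exact absurd (hr y a1 a3.le) (not_le.2 a4)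
  · have hc : ContinuousAt (fun y => jac e Φ y - u y) ζ :=
      (((jac_differentiableOn e hW hΦ).sub huW).differentiableAt (hW.mem_nhds hζW)).continuousAt
    have h0 : jac e Φ ζ - u ζ = 0 := by
      by_contra h
      obtain ⟨y, ⟨a1, a2⟩, a3⟩ := (((frequently_ball hζ).and_eventually
        (hW.eventually_mem hζW)).and_eventually (hc.eventually_ne h)).exists
      apply a3
      have : Φ =ᶠ[𝓝 y] F := by
        filter_upwards [hW.eventually_mem a2,
          continuous_norm.continuousAt.eventually (gt_mem_nhds a1)] with x b1 b2 using hΦF x b1 b2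
      rw [huj y a1, jac_eq_det, jac_eq_det, this.fderiv_eq, sub_self]
    rw [sub_eq_zero, jac_eq_det] at h0
    rw [ContinuousLinearMap.det, h0]
    exact hζ0

/-- A local right inverse near a boundary point of the target. -/
theorem exists_local_inverse {F : E → E} (hF : PH F) (hn : 1 ≤ finrank ℂ E) :
    ∃ (a : E) (δ : ℝ) (H : E → E), ‖a‖ < 1 ∧ 4 * sq1 (F a) < δ ∧ H (F a) = a ∧
      ∀ w ∈ ball (F a) δ, ‖w‖ < 1 → DifferentiableAt ℂ H w ∧ ‖H w‖ < 1 ∧ F (H w) = w := by
  have : CompleteSpace E := FiniteDimensional.complete ℂ E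
  obtain ⟨ζ, W, Φ, hζ, hW, hζW, hΦ, hΦF, hΦS, hdet⟩ := exists_local_extension hF hn
  have h1 : ContDiffAt ℂ 1 Φ ζ :=
    (contDiffOn_of_differentiableOn hW 1 hΦ).contDiffAt (hW.mem_nhds hζW)
  have h2 : HasFDerivAt Φ (((fderiv ℂ Φ ζ).toContinuousLinearEquivOfDetNeZero hdet : E ≃L[ℂ] E) :
      E →L[ℂ] E) ζ := by
    simpa using (hΦ.differentiableAt (hW.mem_nhds hζW)).hasFDerivAt
  have hs := h1.hasStrictFDerivAt' h2 one_ne_zero
  set H := h1.localInverse h2 one_ne_zero with hH
  have hH1 : ContDiffAt ℂ 1 H (Φ ζ) := h1.to_localInverse h2 one_ne_zero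
  have hHζ : H (Φ ζ) = ζ := h1.localInverse_apply_image h2 one_ne_zero
  have hright : ∀ᶠ w in 𝓝 (Φ ζ), Φ (H w) = w := hs.eventually_right_inverse
  have hleft : ∀ᶠ z in 𝓝 ζ, H (Φ z) = z := hs.eventually_left_inverse
  have hWm : ∀ᶠ w in 𝓝 (Φ ζ), H w ∈ W :=
    hH1.continuousAt.eventually (by rw [hHζ]; exact hW.mem_nhds hζW)
  obtain ⟨δ, hδ, hball⟩ := Metric.eventually_nhds_iff_ball.1
    ((hH1.eventually (by simp)).and (hright.and hWm))
  have hΦc : ContinuousAt Φ ζ := h1.continuousAt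
  have hη : ‖Φ ζ‖ = 1 := hΦS ζ hζW hζ
  have e1 : ∀ᶠ z in 𝓝 ζ, Φ z ∈ ball (Φ ζ) (δ / 2) :=
    hΦc.eventually (ball_mem_nhds _ (by positivity))
  have e2 : ∀ᶠ z in 𝓝 ζ, 4 * sq1 (Φ z) < δ / 2 := by
    have : ContinuousAt (fun z => 4 * sq1 (Φ z)) ζ := by
      unfold sq1
      fun_prop
    exact this.eventually (gt_mem_nhds (by simp [sq1, hη]; positivity))
  obtain ⟨a, ha, ⟨⟨a1, a2⟩, a3, a4⟩⟩ := ((frequently_ball hζ).and_eventually
    ((e1.and e2).and (hleft.and (hW.eventually_mem hζW)))).exists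
  have hFa : Φ a = F a := hΦF a a4 ha
  rw [hFa] at a1 a2 a3
  have hsub : ball (F a) (δ / 2) ⊆ ball (Φ ζ) δ := by
    apply ball_subset_ball'
    rw [mem_ball] at a1
    linarith
  have hlt : ∀ w ∈ ball (F a) (δ / 2) ∩ ball 0 1, ‖H w‖ < 1 := by
    intro w hw
    by_contra h
    have hpre : IsPreconnected (ball (F a) (δ / 2) ∩ ball (0 : E) 1) :=
      ((convex_ball _ _).inter (convex_ball _ _)).isPreconnected
    have hcont : ContinuousOn (fun w => ‖H w‖) (ball (F a) (δ / 2) ∩ ball (0 : E) 1) :=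
      fun w hw => (hball w (hsub hw.1)).1.continuousAt.norm.continuousWithinAt
    have hmem : F a ∈ ball (F a) (δ / 2) ∩ ball (0 : E) 1 :=
      ⟨mem_ball_self (by positivity), hF.maps (mem_ball_zero_iff.2 ha)⟩
    obtain ⟨y, hy, hy1⟩ := hpre.intermediate_value hmem hw hcont
      (show (1 : ℝ) ∈ Icc _ _ from ⟨by simpa [a3] using ha.le, not_lt.1 h⟩)
    have b1 := hball y (hsub hy.1)
    have b2 := hΦS _ b1.2.2 hy1
    rw [b1.2.1] at b2
    exact absurd (mem_ball_zero_iff.1 hy.2) (by simp [b2])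
  refine ⟨a, δ / 2, H, ha, a2, a3, fun w hw hw1 => ?_⟩
  have b1 := hball w (hsub hw)
  have b2 := hlt w ⟨hw, mem_ball_zero_iff.2 hw1⟩
  exact ⟨b1.1.differentiableAt one_ne_zero, b2, by rw [← hΦF _ b1.2.2 b2, b1.2.1]⟩

theorem fderiv_comp_id {K G : E → E} {x y : E} (hK : DifferentiableAt ℂ K x) (hx : K x = y)
    (hG : DifferentiableAt ℂ G y) (h : ∀ᶠ w in 𝓝 x, G (K w) = w) (v : E) :
    fderiv ℂ G y (fderiv ℂ K x v) = v := by
  have h1 := (hx ▸ hG.hasFDerivAt).comp x hK.hasFDerivAt
  have h2 : HasFDerivAt (G ∘ K) (ContinuousLinearMap.id ℂ E) x :=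
    (hasFDerivAt_id x).congr_of_eventuallyEq h
  have := congrArg (fun L => L v) (h1.unique h2)
  simpa [hx] using this

theorem norm_fderiv_le {G : E → E} (hd : DifferentiableOn ℂ G (ball 0 1))
    (hm : MapsTo G (ball 0 1) (ball 0 1)) (h0 : G 0 = 0) (v : E) : ‖fderiv ℂ G 0 v‖ ≤ ‖v‖ := by
  have := Complex.norm_fderiv_le_one_of_mapsTo_ball hd
    (by rw [h0]; exact hm.mono_right ball_subset_closedBall) one_pos
  exact ((fderiv ℂ G 0).le_opNorm v).trans (mul_le_of_le_one_left (norm_nonneg _) this)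

theorem alexander {F : E → E} (hF : PH F) (hn : 2 ≤ finrank ℂ E) :
    ∃ (a b : E) (U : E →L[ℂ] E), ‖a‖ < 1 ∧ ‖b‖ < 1 ∧ (∀ v, ‖U v‖ = ‖v‖) ∧
      ∀ z, ‖z‖ < 1 → mob b (F (mob a z)) = U z := by
  obtain ⟨a, δ, H, ha, hδ, hHa, hH⟩ := exists_local_inverse hF (by omega)
  set b := F a with hb
  have hb1 : ‖b‖ < 1 := hF.norm_lt ha
  let G : E → E := fun z => mob b (F (mob a z))
  let K : E → E := fun w => mob a (H (mob b w))
  have hGd : DifferentiableOn ℂ G (ball 0 1) :=
    (mob_differentiableOn hb1).comp (hF.diff.comp (mob_differentiableOn ha) (mob_mapsTo ha))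
      (hF.maps.comp (mob_mapsTo ha))
  have hGm : MapsTo G (ball 0 1) (ball 0 1) :=
    (mob_mapsTo hb1).comp (hF.maps.comp (mob_mapsTo ha))
  have hG0 : G 0 = 0 := by simp only [G, mob_zero, ← hb, mob_self hb1]
  have hK0 : K 0 = 0 := by simp only [K, mob_zero, hHa, mob_self ha]
  have hK : ∀ w, ‖w‖ < 1 → ‖inner ℂ b w‖ ≤ 1 / 2 →
      DifferentiableAt ℂ K w ∧ ‖K w‖ < 1 ∧ G (K w) = w := by
    intro w hw hc
    obtain ⟨c1, c2, c3⟩ := hH (mob b w) (by
      rw [mem_ball, dist_eq_norm]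
      exact (norm_mob_sub_le hb1 hw.le hc).trans_lt hδ) (norm_mob_lt hb1 hw)
    refine ⟨DifferentiableAt.comp (g := mob a) w (mob_differentiableAt (den_ne ha c2.le))
      (c1.comp w (mob_differentiableAt (den_ne hb1 hw.le))), norm_mob_lt ha c2, ?_⟩
    simp only [G, K, mob_mob ha c2, c3, mob_mob hb1 hw]
  have hKd := (hK 0 (by simp) (by simp)).1
  set A := fderiv ℂ G 0
  set L := fderiv ℂ K 0
  have hAL : ∀ v, A (L v) = v := by
    refine fderiv_comp_id hKd hK0 (hGd.differentiableAt (ball_mem_nhds 0 one_pos)) ?_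
    have c1 : ContinuousAt (fun w => ‖inner ℂ b w‖) 0 := by fun_prop
    filter_upwards [continuous_norm.continuousAt.eventually
      (gt_mem_nhds (show ‖(0 : E)‖ < 1 by simp)),
      c1.eventually (gt_mem_nhds (show ‖inner ℂ b (0 : E)‖ < 1 / 2 by simp))] with w h1 h2
    exact (hK w h1 h2.le).2.2
  have hA : ∀ v, ‖A v‖ ≤ ‖v‖ := norm_fderiv_le hGd hGm hG0
  have hcone : ∀ v, ‖inner ℂ b v‖ ≤ ‖v‖ / 2 → ‖L v‖ = ‖v‖ := by
    intro v hv
    refine le_antisymm ?_ (by simpa [hAL] using hA (L v))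
    rcases eq_or_ne v 0 with rfl | hv0
    · simp
    have hvp : 0 < ‖v‖ := norm_pos_iff.2 hv0
    have hmem : ∀ t ∈ ball (0 : ℂ) (1 / ‖v‖), ‖t • v‖ < 1 ∧ ‖inner ℂ b (t • v)‖ ≤ 1 / 2 := by
      intro t ht
      rw [mem_ball_zero_iff, lt_div_iff₀ hvp] at ht
      rw [inner_smul_right, norm_smul, norm_mul]
      exact ⟨ht, by nlinarith [norm_nonneg t]⟩
    have hder : HasDerivAt (fun t : ℂ => K (t • v)) (L v) 0 := by
      have h1 : HasDerivAt (fun t : ℂ => t • v) v 0 := by
        simpa using (hasDerivAt_id (0 : ℂ)).smul_const v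
      have h2 : HasFDerivAt K L ((0 : ℂ) • v) := by simpa using hKd.hasFDerivAt
      exact h2.comp_hasDerivAt (0 : ℂ) h1
    have := Complex.norm_deriv_le_div_of_mapsTo_ball (f := fun t : ℂ => K (t • v)) (c := 0)
      (R₁ := 1 / ‖v‖) (R₂ := 1)
      (fun t ht => (DifferentiableAt.comp (f := fun t : ℂ => t • v) t
        (hK _ (hmem t ht).1 (hmem t ht).2).1 (by fun_prop)).differentiableWithinAt)
      (fun t ht => by simpa [hK0] using (hK _ (hmem t ht).1 (hmem t ht).2).2.1.le)
      (by positivity)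
    rw [hder.deriv] at this
    simpa using this
  obtain ⟨v₀, hv₀, hv₀1⟩ : ∃ v₀ : E, inner ℂ b v₀ = 0 ∧ ‖v₀‖ = 1 := by
    have := LinearMap.ker_ne_bot_of_finrank_lt (f := (innerSL ℂ b).toLinearMap)
      (by rw [finrank_self]; omega)
    obtain ⟨x, hx, hx0⟩ := (Submodule.ne_bot_iff _).1 this
    have hx' : inner ℂ b x = 0 := hx
    refine ⟨((‖x‖⁻¹ : ℝ) : ℂ) • x, by simp [hx'], ?_⟩
    rw [norm_smul, Complex.norm_real, norm_inv, norm_norm, inv_mul_cancel₀ (norm_ne_zero_iff.2 hx0)]
  have hsmall : ∀ y, ‖y‖ ≤ 1 / 3 → ‖L y‖ = ‖y‖ := by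
    have hc : ∀ y, ‖y‖ ≤ 1 / 3 → ‖L (v₀ + y)‖ = ‖v₀ + y‖ := by
      intro y hy
      apply hcone
      rw [inner_add_right, hv₀, zero_add]
      have c1 := norm_inner_le_norm (𝕜 := ℂ) b y
      have c2 := norm_sub_le (v₀ + y) y
      rw [add_sub_cancel_right, hv₀1] at c2
      nlinarith [norm_nonneg b, norm_nonneg y]
    intro y hy
    have c1 := hc y hy
    have c2 := hc (-y) (by simpa using hy)
    have c3 := hc 0 (by simp)
    rw [← sub_eq_add_neg] at c2
    rw [add_zero] at c3
    have p1 := parallelogram_law_with_norm ℂ v₀ y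
    have p2 := parallelogram_law_with_norm ℂ (L v₀) (L y)
    rw [← map_add, ← map_sub, c1, c2, c3, p1] at p2
    have : ‖L y‖ ^ 2 = ‖y‖ ^ 2 := by nlinarith
    exact (pow_left_inj₀ (norm_nonneg _) (norm_nonneg _) two_ne_zero).1 this
  have hL : ∀ v, ‖L v‖ = ‖v‖ := by
    intro v
    have hp : 0 < 3 * (‖v‖ + 1) := by positivity
    have c1 := hsmall ((((3 * (‖v‖ + 1))⁻¹ : ℝ) : ℂ) • v) (by
      rw [norm_smul, Complex.norm_real, Real.norm_of_nonneg (by positivity), inv_mul_le_iff₀ hp]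
      linarith)
    rw [map_smul, norm_smul, norm_smul] at c1
    refine mul_left_cancel₀ ?_ c1
    rw [Complex.norm_real, norm_ne_zero_iff]
    positivity
  have hsurj : Function.Surjective L := by
    apply (LinearMap.injective_iff_surjective (f := (L : E →ₗ[ℂ] E))).1
    intro x y hxy
    have := congrArg A hxy
    simpa [hAL] using this
  have hAiso : ∀ v, ‖A v‖ = ‖v‖ := by
    intro v
    obtain ⟨x, rfl⟩ := hsurj v
    rw [hAL, hL]
  exact ⟨a, b, A, ha, hb1, hAiso, fun z hz =>
    eq_fderiv_of_norm hGd hGm hG0 hAiso (mem_ball_zero_iff.2 hz)⟩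

theorem unique_one_jet {F G : E → E} (hF : PH F) (hG : PH G) (hn : 2 ≤ finrank ℂ E)
    (h0 : F 0 = G 0) (h1 : fderiv ℂ F 0 = fderiv ℂ G 0) : EqOn F G (ball 0 1) := by
  obtain ⟨a, b, U, ha, hb, hU, hFU⟩ := alexander hF hn
  have hinj : Function.Injective U := by
    rw [injective_iff_map_eq_zero]
    intro x hx
    rw [← norm_eq_zero, ← hU, hx, norm_zero]
  let Ue : E ≃L[ℂ] E := (LinearEquiv.ofInjectiveEndo (U : E →ₗ[ℂ] E) hinj).toContinuousLinearEquiv
  have hUe : ∀ x, Ue x = U x := fun x => rfl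
  have hUs : ∀ x, ‖Ue.symm x‖ = ‖x‖ := fun x => by rw [← hU, ← hUe, Ue.apply_symm_apply]
  set c := F 0 with hc
  have hc1 : ‖c‖ < 1 := hF.norm_lt (by simp)
  let H : E → E := fun w => mob a (Ue.symm (mob b (mob c w)))
  have hm1 : MapsTo (fun w => Ue.symm (mob b (mob c w))) (ball 0 1) (ball 0 1) := by
    intro w hw
    rw [mem_ball_zero_iff, hUs]
    exact mem_ball_zero_iff.1 (mob_mapsTo hb (mob_mapsTo hc1 hw))
  have hHd : DifferentiableOn ℂ H (ball 0 1) :=
    (mob_differentiableOn ha).comp (Ue.symm.differentiable.comp_differentiableOn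
      ((mob_differentiableOn hb).comp (mob_differentiableOn hc1) (mob_mapsTo hc1))) hm1
  have hHm : MapsTo H (ball 0 1) (ball 0 1) := (mob_mapsTo ha).comp hm1
  have hHF : ∀ y, ‖y‖ < 1 → H (mob c (F y)) = y := by
    intro y hy
    have := hFU _ (norm_mob_lt ha hy)
    rw [mob_mob ha hy] at this
    simp only [H, mob_mob hc1 (hF.norm_lt hy), this, ← hUe, Ue.symm_apply_apply, mob_mob ha hy]
  have hH0 : H 0 = 0 := by simpa [← hc, mob_self hc1] using hHF 0 (by simp)
  have d1 : DifferentiableOn ℂ (fun y => mob c (F y)) (ball 0 1) :=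
    (mob_differentiableOn hc1).comp hF.diff hF.maps
  have d2 : DifferentiableOn ℂ (fun y => mob c (G y)) (ball 0 1) :=
    (mob_differentiableOn hc1).comp hG.diff hG.maps
  have m1 : MapsTo (fun y => mob c (F y)) (ball 0 1) (ball 0 1) := (mob_mapsTo hc1).comp hF.maps
  have m2 : MapsTo (fun y => mob c (G y)) (ball 0 1) (ball 0 1) := (mob_mapsTo hc1).comp hG.maps
  have z1 : mob c (F 0) = 0 := mob_self hc1
  have z2 : mob c (G 0) = 0 := by rw [← h0]; exact mob_self hc1
  have hiso : ∀ v, ‖fderiv ℂ (fun y => mob c (F y)) 0 v‖ = ‖v‖ := by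
    intro v
    refine le_antisymm (norm_fderiv_le d1 m1 z1 v) ?_
    have := fderiv_comp_id (G := H) (d1.differentiableAt (ball_mem_nhds 0 one_pos)) z1
      (hHd.differentiableAt (ball_mem_nhds 0 one_pos)) (by
        filter_upwards [ball_mem_nhds (0 : E) one_pos] with y hy
          using hHF y (mem_ball_zero_iff.1 hy)) v
    conv_lhs => rw [← this]
    exact norm_fderiv_le hHd hHm hH0 _
  have hder : fderiv ℂ (fun y => mob c (G y)) 0 = fderiv ℂ (fun y => mob c (F y)) 0 := by
    have dm : DifferentiableAt ℂ (mob c) c := mob_differentiableAt (den_ne hc1 hc1.le)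
    have a1 := fderiv_comp 0 (g := mob c) (f := F) dm (hF.differentiableAt (by simp))
    have a2 := fderiv_comp 0 (g := mob c) (f := G) (h0 ▸ dm) (hG.differentiableAt (by simp))
    rw [← h0, ← h1] at a2
    exact a2.trans a1.symm
  intro y hy
  have e1 := eq_fderiv_of_norm d1 m1 z1 hiso hy
  have e2 := eq_fderiv_of_norm d2 m2 z2 (by rw [hder]; exact hiso) hy
  rw [hder, ← e1] at e2
  have := congrArg (mob c) e2
  rw [mob_mob hc1 (mem_ball_zero_iff.1 (hG.maps hy)),
    mob_mob hc1 (mem_ball_zero_iff.1 (hF.maps hy))] at this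
  exact this.symm

end Pool.Agent.Lib.MP_7906d6_an
end
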