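import Mathlib

/-!
One-variable lemmas for rational inner maps from the disc to a ball.
-/

namespace Pool.Agent.Lib.MP_7906d6_an.Rat

open Metric Set Filter Topology Polynomial Complex
open scoped ComplexConjugate

/-- Mean value lemma. -/
theorem mv {f : ℂ → ℂ} (hf : DifferentiableOn ℂ f (closedBall 0 1)) (h0 : f 0 = 0)
    (hre : ∀ t : ℂ, ‖t‖ = 1 → t ≠ 1 → 0 ≤ (f t).re) : ∀ t : ℂ, ‖t‖ = 1 → (f t).re = 0 := by
  have hd : DiffContOnCl ℂ f (ball 0 |(1 : ℝ)|) := by
    rw [abs_one]
    exact DifferentiableOn.diffContOnCl (by rwa [closure_ball 0 one_ne_zero])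
  have hav := hd.circleAverage
  rw [h0, Real.circleAverage_def, smul_eq_zero] at hav
  have hpi : (0 : ℝ) < 2 * Real.pi := by positivity
  have hint : ∫ θ in (0 : ℝ)..2 * Real.pi, f (circleMap 0 1 θ) = 0 :=
    hav.resolve_left (inv_ne_zero hpi.ne')
  have hn : ∀ θ, ‖circleMap 0 1 θ‖ = 1 := fun θ => by simp
  have hc : Continuous fun θ => f (circleMap 0 1 θ) :=
    hf.continuousOn.comp_continuous (continuous_circleMap 0 1)
      fun θ => mem_closedBall_zero_iff.2 (hn θ).le
  have hcr : Continuous fun θ => (f (circleMap 0 1 θ)).re := continuous_re.comp hc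
  have hz : ∫ θ in (0 : ℝ)..2 * Real.pi, (f (circleMap 0 1 θ)).re = 0 := by
    have := (reCLM.intervalIntegral_comp_comm (hc.intervalIntegrable (μ := MeasureTheory.volume)
      0 (2 * Real.pi)))
    simp only [reCLM_apply] at this
    rw [this, hint, zero_re]
  have hpos : ∀ θ ∈ Icc 0 (2 * Real.pi), 0 ≤ (f (circleMap 0 1 θ)).re := by
    have h1 : Ioo 0 (2 * Real.pi) ⊆ {θ | 0 ≤ (f (circleMap 0 1 θ)).re} := by
      intro θ hθ
      refine hre _ (hn θ) fun h => ?_
      have h2 : circleMap 0 1 θ = circleMap 0 1 0 := by rw [h]; simp [circleMap]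
      have := eq_of_circleMap_eq one_ne_zero (by rw [sub_zero, abs_of_pos hθ.1]; exact hθ.2) h2
      exact hθ.1.ne' this
    have h2 := closure_minimal h1 (isClosed_le continuous_const hcr)
    rwa [closure_Ioo hpi.ne] at h2
  intro t ht
  have : t ∈ circleMap 0 1 '' Ioc 0 (2 * Real.pi) := by
    rw [image_circleMap_Ioc]; simpa using ht
  obtain ⟨θ, hθ, rfl⟩ := this
  by_contra hne
  have := intervalIntegral.integral_lt_integral_of_continuousOn_of_le_of_exists_lt hpi
    (continuous_const (y := (0 : ℝ))).continuousOn hcr.continuousOn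
    (fun x hx => hpos x (Ioc_subset_Icc_self hx))
    ⟨θ, Ioc_subset_Icc_self hθ, lt_of_le_of_ne (hpos θ (Ioc_subset_Icc_self hθ)) (Ne.symm hne)⟩
  simp [hz] at this

/-- An entire function vanishing on a circle vanishes. -/
theorem circle_zero {f : ℂ → ℂ} (hf : Differentiable ℂ f) {ρ : ℝ} (hρ : 0 < ρ)
    (h : ∀ t : ℂ, ‖t‖ = ρ → f t = 0) (t : ℂ) : f t = 0 := by
  have h1 : EqOn f 0 (ball 0 ρ) :=
    eqOn_of_eqOn_frontier isBounded_ball hf.diffContOnCl diffContOnCl_const (by
      rw [frontier_ball 0 hρ.ne']; intro z hz; exact h z (by simpa using hz))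
  have h2 : f = 0 := AnalyticOnNhd.eq_of_eventuallyEq (z₀ := 0) (fun z _ => hf.analyticAt z)
    analyticOnNhd_const (h1.eventuallyEq_of_mem (ball_mem_nhds 0 hρ))
  simp [h2]

theorem poly_circle_zero {P : ℂ[X]} {ρ : ℝ} (hρ : 0 < ρ)
    (h : ∀ t : ℂ, ‖t‖ = ρ → t ≠ 1 → P.eval t = 0) : P = 0 := by
  have : (X - C 1) * P = 0 := by
    refine Polynomial.funext fun t => ?_
    rw [eval_zero]
    refine circle_zero ((X - C 1) * P).differentiable hρ (fun s hs => ?_) t
    by_cases h1 : s = 1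
    · simp [h1]
    · simp [h s hs h1]
  exact (mul_eq_zero.1 this).resolve_left (X_sub_C_ne_zero 1)

variable {N : ℕ}

/-- Squared Euclidean norm. -/
noncomputable def nsq {ι : Type*} [Fintype ι] (a : ι → ℂ) : ℝ := ∑ j, normSq (a j)

theorem nsq_coe {ι : Type*} [Fintype ι] (a : ι → ℂ) : (nsq a : ℂ) = ∑ j, a j * conj (a j) := by
  simp [nsq, mul_conj]

theorem nsq_nonneg {ι : Type*} [Fintype ι] (a : ι → ℂ) : 0 ≤ nsq a :=
  Finset.sum_nonneg fun _ _ => normSq_nonneg _

theorem nsq_eq_zero {ι : Type*} [Fintype ι] {a : ι → ℂ} (h : nsq a = 0) (j : ι) : a j = 0 :=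
  normSq_eq_zero.1 ((Finset.sum_eq_zero_iff_of_nonneg fun _ _ => normSq_nonneg _).1 h j
    (Finset.mem_univ j))

theorem nsq_sub {ι : Type*} [Fintype ι] (a b : ι → ℂ) :
    nsq (a - b) = nsq a + nsq b - 2 * (∑ j, a j * conj (b j)).re := by
  simp only [nsq, Pi.sub_apply, normSq_sub, re_sum, Finset.mul_sum, ← Finset.sum_add_distrib,
    ← Finset.sum_sub_distrib]

theorem re_le_one {ι : Type*} [Fintype ι] {a b : ι → ℂ} (ha : nsq a = 1) (hb : nsq b = 1) :
    (∑ j, a j * conj (b j)).re ≤ 1 := by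
  have := nsq_nonneg (a - b)
  rw [nsq_sub] at this
  linarith

theorem eq_of_re_eq_one {ι : Type*} [Fintype ι] {a b : ι → ℂ} (ha : nsq a = 1) (hb : nsq b = 1)
    (h : (∑ j, a j * conj (b j)).re = 1) (j : ι) : a j = b j := by
  have : nsq (a - b) = 0 := by rw [nsq_sub]; linarith
  exact sub_eq_zero.1 (nsq_eq_zero this j)

/-- `φ` maps the disc into the ball, continuously, with radial boundary norm one. -/
structure Inner (φ : ℂ → Fin N → ℂ) : Prop where
  cont : ContinuousOn φ (ball 0 1)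
  lt : ∀ t, ‖t‖ < 1 → nsq (φ t) < 1
  lim : ∀ t : ℂ, ‖t‖ = 1 → Tendsto (fun ρ : ℝ => nsq (φ (ρ * t))) (𝓝[<] 1) (𝓝 1)

/-- `A / B` represents `φ` on the disc with degree at most `k`. -/
structure IsRep (φ : ℂ → Fin N → ℂ) (k : ℕ) (A : Fin N → ℂ[X]) (B : ℂ[X]) : Prop where
  ne : B ≠ 0
  degA : ∀ j, (A j).natDegree ≤ k
  degB : B.natDegree ≤ k
  eq : ∀ t, ‖t‖ < 1 → ∀ j, (A j).eval t = B.eval t * φ t j

/-- A representation of least degree. -/
structure MinRep (φ : ℂ → Fin N → ℂ) (k : ℕ) (A : Fin N → ℂ[X]) (B : ℂ[X]) : Prop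
    extends IsRep φ k A B where
  min : ∀ l < k, ∀ A' B', ¬ IsRep φ l A' B'

theorem exists_minRep {φ : ℂ → Fin N → ℂ} {k : ℕ} {A : Fin N → ℂ[X]} {B : ℂ[X]}
    (h : IsRep φ k A B) : ∃ δ A' B', MinRep φ δ A' B' := by
  classical
  have hex : ∃ k, ∃ A B, IsRep φ k A B := ⟨k, A, B, h⟩
  obtain ⟨A', B', h'⟩ := Nat.find_spec hex
  exact ⟨_, A', B', h', fun l hl A'' B'' h'' => Nat.find_min hex hl ⟨A'', B'', h''⟩⟩

theorem tendsto_radial {t : ℂ} (g : ℂ → ℝ) (hg : Continuous g) :
    Tendsto (fun ρ : ℝ => g (ρ * t)) (𝓝[<] 1) (𝓝 (g t)) := by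
  have : Continuous fun ρ : ℝ => g (ρ * t) := by fun_prop
  simpa using (this.tendsto 1).mono_left nhdsWithin_le_nhds

theorem radial_mem {t : ℂ} (ht : ‖t‖ = 1) : ∀ᶠ ρ : ℝ in 𝓝[<] 1, ‖(ρ : ℂ) * t‖ < 1 := by
  filter_upwards [Ioo_mem_nhdsLT (zero_lt_one' ℝ)] with ρ hρ
  rw [norm_mul, ht, norm_real, Real.norm_eq_abs, abs_of_pos hρ.1, mul_one]
  exact hρ.2

theorem IsRep.nsq_in {φ : ℂ → Fin N → ℂ} {k : ℕ} {A : Fin N → ℂ[X]} {B : ℂ[X]}
    (h : IsRep φ k A B) {t : ℂ} (ht : ‖t‖ < 1) :
    nsq (fun j => (A j).eval t) = normSq (B.eval t) * nsq (φ t) := by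
  simp [nsq, h.eq t ht, Finset.mul_sum]

theorem IsRep.circle {φ : ℂ → Fin N → ℂ} {k : ℕ} {A : Fin N → ℂ[X]} {B : ℂ[X]}
    (h : IsRep φ k A B) (hφ : Inner φ) {t : ℂ} (ht : ‖t‖ = 1) :
    nsq (fun j => (A j).eval t) = normSq (B.eval t) := by
  have h1 := tendsto_radial (t := t) (fun s => nsq (fun j => (A j).eval s))
    (by unfold nsq; fun_prop)
  have h2 := (tendsto_radial (t := t) (fun s => normSq (B.eval s)) (by fun_prop)).mul
    (hφ.lim t ht)
  rw [mul_one] at h2
  refine tendsto_nhds_unique h1 (h2.congr' ?_)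
  filter_upwards [radial_mem ht] with ρ hρ
  exact (h.nsq_in hρ).symm

theorem MinRep.ne_zero {φ : ℂ → Fin N → ℂ} {k : ℕ} {A : Fin N → ℂ[X]} {B : ℂ[X]}
    (h : MinRep φ k A B) (hφ : Inner φ) {t : ℂ} (ht : ‖t‖ ≤ 1) : B.eval t ≠ 0 := by
  intro hB
  have hA : ∀ j, (A j).eval t = 0 := by
    refine nsq_eq_zero ?_
    rcases ht.lt_or_eq with h1 | h1
    · rw [h.nsq_in h1, hB]; simp
    · rw [h.circle hφ h1, hB]; simp
  obtain ⟨B', hB'⟩ := dvd_iff_isRoot.2 hB
  choose A' hA' using fun j => dvd_iff_isRoot.2 (hA j)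
  have hne : B' ≠ 0 := by rintro rfl; exact h.ne (by simpa using hB')
  have hdeg : ∀ P P' : ℂ[X], P = (X - C t) * P' → P' ≠ 0 → P.natDegree = P'.natDegree + 1 := by
    rintro P P' rfl h0
    rw [natDegree_mul (X_sub_C_ne_zero t) h0, natDegree_X_sub_C, add_comm]
  have hk := hdeg _ _ hB' hne
  have hk1 := h.degB
  refine h.min (k - 1) (by omega) A' B' ⟨hne, fun j => ?_, by omega, fun s hs j => ?_⟩
  · by_cases h0 : A' j = 0
    · simp [h0]
    · have := hdeg _ _ (hA' j) h0
      have := h.degA j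
      omega
  · have key : ∀ s, ‖s‖ < 1 → s ≠ t → (A' j).eval s = B'.eval s * φ s j := by
      intro s hs hst
      have := h.eq s hs j
      rw [hA' j, hB'] at this
      simp only [eval_mul, eval_sub, eval_X, eval_C, mul_assoc] at this
      exact mul_left_cancel₀ (sub_ne_zero.2 hst) this
    by_cases hst : s = t
    · subst hst
      have hc : ContinuousAt (fun s => B'.eval s * φ s j) s :=
        B'.continuous.continuousAt.mul ((continuous_apply j).continuousAt.comp
          (hφ.cont.continuousAt (isOpen_ball.mem_nhds (mem_ball_zero_iff.2 hs))))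
      refine tendsto_nhds_unique (l := 𝓝[≠] s)
        ((A' j).continuous.continuousAt.tendsto.mono_left nhdsWithin_le_nhds)
        ((hc.tendsto.mono_left nhdsWithin_le_nhds).congr' ?_)
      filter_upwards [self_mem_nhdsWithin, mem_nhdsWithin_of_mem_nhds
        (isOpen_ball.mem_nhds (mem_ball_zero_iff.2 hs))] with u hu hu1
      exact (key u (mem_ball_zero_iff.1 hu1) hu).symm
    · exact key s hs hst

theorem MinRep.nsq_circle {φ : ℂ → Fin N → ℂ} {k : ℕ} {A : Fin N → ℂ[X]} {B : ℂ[X]}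
    (h : MinRep φ k A B) (hφ : Inner φ) {t : ℂ} (ht : ‖t‖ = 1) :
    nsq (fun j => (A j).eval t / B.eval t) = 1 := by
  have h1 := h.circle hφ ht
  have h2 : normSq (B.eval t) ≠ 0 := by simpa using h.ne_zero hφ ht.le
  simp only [nsq, map_div₀, ← Finset.sum_div] at h1 ⊢
  rw [h1, div_self h2]

theorem conj_mul_self {t : ℂ} (ht : ‖t‖ = 1) : t * conj t = 1 := by
  rw [mul_conj, normSq_eq_norm_sq, ht]; simp

/-- Hopf type lemma. -/
theorem MinRep.hopf {φ : ℂ → Fin N → ℂ} {k : ℕ} {A : Fin N → ℂ[X]} {B : ℂ[X]}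
    (h : MinRep φ k A B) (hφ : Inner φ) {a : Fin N → ℂ} (ha : nsq a = 1) :
    ¬ (X - C 1) ^ 2 ∣ B - ∑ j, A j * C (conj (a j)) := by
  rintro ⟨P, hP⟩
  have hev : ∀ t : ℂ, ‖t‖ = 1 → t ≠ 1 → (-t * P.eval t / B.eval t).re =
      (1 - (∑ j, (A j).eval t / B.eval t * conj (a j)).re) / normSq (t - 1) := by
    intro t ht h1
    have hB := h.ne_zero hφ ht.le
    have h2 := congrArg (eval t) hP
    simp only [eval_sub, eval_finsetSum, eval_mul, eval_C, eval_pow, eval_X] at h2
    have h3 : t - 1 ≠ 0 := sub_ne_zero.2 h1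
    have h4 : ((normSq (t - 1) : ℝ) : ℂ) * (-t) = (t - 1) ^ 2 := by
      rw [← mul_conj, map_sub, map_one]
      linear_combination (1 - t) * conj_mul_self ht
    have h5 : ((normSq (t - 1) : ℝ) : ℂ) ≠ 0 := by simpa using h3
    have h0 : t ≠ 0 := by rintro rfl; simp at ht
    have : -t * P.eval t / B.eval t =
        (1 - ∑ j, (A j).eval t / B.eval t * conj (a j)) / (normSq (t - 1) : ℝ) := by
      have e : ∑ j, (A j).eval t / B.eval t * conj (a j) =
          (∑ j, (A j).eval t * conj (a j)) / B.eval t := by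
        rw [Finset.sum_div]; exact Finset.sum_congr rfl fun j _ => by ring
      rw [e, eq_div_iff h5]
      field_simp
      linear_combination (-1) * h2 + P.eval t * h4
    rw [this, div_ofReal_re, sub_re, one_re]
  have hz := mv (f := fun t => -t * P.eval t / B.eval t)
    (DifferentiableOn.div (by fun_prop) B.differentiableOn
      fun t ht => h.ne_zero hφ (mem_closedBall_zero_iff.1 ht)) (by simp) (fun t ht h1 => by
      rw [hev t ht h1]
      exact div_nonneg (sub_nonneg.2 (re_le_one (h.nsq_circle hφ ht) ha)) (normSq_nonneg _))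
  have hA : ∀ j, A j - C (a j) * B = 0 := by
    intro j
    refine poly_circle_zero one_pos fun t ht h1 => ?_
    have h2 := hz t ht
    rw [hev t ht h1, div_eq_zero_iff] at h2
    have h3 : normSq (t - 1) ≠ 0 := by simpa using sub_ne_zero.2 h1
    have h4 := eq_of_re_eq_one (h.nsq_circle hφ ht) ha (by linarith [h2.resolve_right h3]) j
    have hB := h.ne_zero hφ ht.le
    simp only [eval_sub, eval_mul, eval_C]
    rw [← h4]; field_simp; ring
  have h0 : φ 0 = a := by
    funext j
    have h1 := h.eq 0 (by simp) j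
    rw [sub_eq_zero.1 (hA j), eval_mul, eval_C, mul_comm] at h1
    exact (mul_left_cancel₀ (h.ne_zero hφ (by simp)) h1).symm
  have := hφ.lt 0 (by simp)
  rw [h0, ha] at this
  exact lt_irrefl _ this

/-- A map of degree `k` on the disc is determined by its `k`-jet. -/
theorem MinRep.jet {φ ψ : ℂ → Fin N → ℂ} {k l : ℕ} {A A' : Fin N → ℂ[X]} {B B' : ℂ[X]}
    (h : MinRep φ k A B) (hφ : Inner φ) (h' : MinRep ψ l A' B') (hψ : Inner ψ)
    (hd : ∀ j, X ^ (k + 1) ∣ A j * B' - A' j * B) {t : ℂ} (ht : ‖t‖ < 1) : φ t = ψ t := by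
  choose H hH using hd
  set S : Fin N → ℂ → ℂ := fun j w =>
    ∑ i ∈ Finset.range (k + 1), conj ((A j).coeff i) * w ^ (k - i) with hS
  have hS1 : ∀ j w, ‖w‖ = 1 → S j w = w ^ k * conj ((A j).eval w) := by
    intro j w hw
    rw [eval_eq_sum_range' (Nat.lt_succ_of_le (h.degA j)), map_sum, Finset.mul_sum]
    refine Finset.sum_congr rfl fun i hi => ?_
    have hi' : i ≤ k := Nat.lt_succ_iff.1 (Finset.mem_range.1 hi)
    obtain ⟨m, rfl⟩ := Nat.exists_eq_add_of_le hi'
    rw [Nat.add_sub_cancel_left, map_mul, map_pow, pow_add]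
    have : w ^ i * conj w ^ i = 1 := by rw [← mul_pow, conj_mul_self hw, one_pow]
    linear_combination (-(conj ((A j).coeff i)) * w ^ m) * this
  have hev : ∀ w : ℂ, ‖w‖ = 1 → (w * (∑ j, (H j).eval w * S j w) / B'.eval w).re =
      normSq (B.eval w) *
        (1 - (∑ j, (A' j).eval w / B'.eval w * conj ((A j).eval w / B.eval w)).re) := by
    intro w hw
    have hB := h.ne_zero hφ hw.le
    have hB' := h'.ne_zero hψ hw.le
    have hBc : conj (B.eval w) ≠ 0 := by simpa using hB
    have h1 : ((nsq (fun j => (A j).eval w / B.eval w) : ℝ) : ℂ) = 1 := by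
      rw [h.nsq_circle hφ hw]; simp
    rw [nsq_coe] at h1
    have : w * (∑ j, (H j).eval w * S j w) / B'.eval w = (normSq (B.eval w) : ℝ) *
        (1 - ∑ j, (A' j).eval w / B'.eval w * conj ((A j).eval w / B.eval w)) := by
      rw [← h1, ← Finset.sum_sub_distrib, Finset.mul_sum, Finset.mul_sum, Finset.sum_div]
      refine Finset.sum_congr rfl fun j _ => ?_
      have h2 := congrArg (eval w) (hH j)
      simp only [eval_sub, eval_mul, eval_pow, eval_X] at h2
      rw [hS1 j w hw, ← mul_conj, map_div₀]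
      field_simp
      linear_combination (-(conj ((A j).eval w))) * h2
    rw [this, re_ofReal_mul, sub_re, one_re]
  have hz := mv (f := fun w => w * (∑ j, (H j).eval w * S j w) / B'.eval w)
    (DifferentiableOn.div (by simp only [hS]; fun_prop) B'.differentiableOn
      fun t ht => h'.ne_zero hψ (mem_closedBall_zero_iff.1 ht)) (by simp) (fun t ht _ => by
      rw [hev t ht]
      exact mul_nonneg (normSq_nonneg _)
        (sub_nonneg.2 (re_le_one (h'.nsq_circle hψ ht) (h.nsq_circle hφ ht))))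
  funext j
  have hA : A j * B' - A' j * B = 0 := by
    refine poly_circle_zero one_pos fun w hw _ => ?_
    have h2 := hz w hw
    have hB := h.ne_zero hφ hw.le
    have hB' := h'.ne_zero hψ hw.le
    rw [hev w hw, mul_eq_zero] at h2
    have h3 : normSq (B.eval w) ≠ 0 := by simpa using hB
    have h4 := eq_of_re_eq_one (h'.nsq_circle hψ hw) (h.nsq_circle hφ hw)
      (by linarith [h2.resolve_left h3]) j
    simp only [eval_sub, eval_mul]
    field_simp at h4
    linear_combination (-1) * h4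
  have h1 := congrArg (eval t) hA
  simp only [eval_sub, eval_mul, eval_zero, h.eq t ht j, h'.eq t ht j] at h1
  have hB := h.ne_zero hφ ht.le
  have hB' := h'.ne_zero hψ ht.le
  refine mul_left_cancel₀ (mul_ne_zero hB hB') ?_
  linear_combination h1

/-- The Pick kernel of a map of degree `k` is independent at any `k` points. -/
theorem MinRep.pick {φ : ℂ → Fin N → ℂ} {k : ℕ} {A : Fin N → ℂ[X]} {B : ℂ[X]}
    (h : MinRep φ k A B) (hφ : Inner φ) {z : Fin k → ℂ} (hz : Function.Injective z)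
    (hz1 : ∀ i, ‖z i‖ < 1) {c : Fin k → ℂ}
    (hc : ∀ w, ‖w‖ < 1 →
      ∑ i, c i * ((1 - ∑ j, φ (z i) j * conj (φ w j)) / (1 - z i * conj w)) = 0) : c = 0 := by
  classical
  set F : Fin N → ℂ → ℂ := fun j w => (A j).eval w / B.eval w with hF
  have hFφ : ∀ w, ‖w‖ < 1 → ∀ j, φ w j = F j w := by
    intro w hw j
    simp only [hF]
    rw [h.eq w hw j, mul_div_cancel_left₀ _ (h.ne_zero hφ hw.le)]
  set Ω : Set ℂ := {w | B.eval w ≠ 0} with hΩ
  have hΩo : IsOpen Ω := isOpen_ne_fun B.continuous continuous_const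
  have hsub : closedBall (0 : ℂ) 1 ⊆ Ω := fun w hw =>
    h.ne_zero hφ (mem_closedBall_zero_iff.1 hw)
  have hFd : ∀ j, DifferentiableOn ℂ (F j) Ω := fun j =>
    (A j).differentiableOn.div B.differentiableOn fun w hw => hw
  have hden : ∀ i w, ‖w‖ ≤ 1 → 1 - z i * conj w ≠ 0 := by
    intro i w hw h0
    have h1 : ‖z i * conj w‖ = 1 := by rw [← sub_eq_zero.1 h0]; simp
    rw [norm_mul, norm_conj] at h1
    nlinarith [hz1 i, norm_nonneg (z i), norm_nonneg w]
  have hden' : ∀ i w, ‖w‖ ≤ 1 → 1 - conj (z i) * w ≠ 0 := by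
    intro i w hw h0
    apply hden i w hw
    simpa using congrArg conj h0
  have hc1 : ∀ w, ‖w‖ ≤ 1 →
      ∑ i, c i * ((1 - ∑ j, F j (z i) * conj (F j w)) / (1 - z i * conj w)) = 0 := by
    have hcont : ContinuousOn (fun w => ∑ i, c i *
        ((1 - ∑ j, F j (z i) * conj (F j w)) / (1 - z i * conj w))) (closedBall 0 1) := by
      refine continuousOn_finsetSum _ fun i _ => continuousOn_const.mul (ContinuousOn.div
        (continuousOn_const.sub (continuousOn_finsetSum _ fun j _ => continuousOn_const.mul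
          (continuous_conj.comp_continuousOn ((hFd j).continuousOn.mono hsub))))
        (by fun_prop) fun w hw => hden i w (mem_closedBall_zero_iff.1 hw))
    have heq : EqOn (fun w => ∑ i, c i *
        ((1 - ∑ j, F j (z i) * conj (F j w)) / (1 - z i * conj w))) (fun _ => 0) (ball 0 1) := by
      intro w hw
      have hw' := mem_ball_zero_iff.1 hw
      simpa only [hFφ w hw', hFφ _ (hz1 _)] using hc w hw'
    intro w hw
    exact heq.of_subset_closure hcont continuousOn_const ball_subset_closedBall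
      (by rw [closure_ball 0 one_ne_zero]) (mem_closedBall_zero_iff.2 hw)
  set G : Fin N → ℂ → ℂ := fun j w => ∑ i, c i * dslope (F j) (z i) w with hG
  set v : Fin N → ℂ → ℂ := fun j w =>
    ∑ i, conj (c i) * conj (F j (z i)) / (1 - conj (z i) * w) with hv
  have hne : ∀ i w, ‖w‖ = 1 → w - z i ≠ 0 := by
    intro i w hw h0
    have := hz1 i
    rw [← sub_eq_zero.1 h0, hw] at this
    exact lt_irrefl _ this
  have hGc : ∀ j w, ‖w‖ = 1 → G j w = ∑ i, c i * ((F j w - F j (z i)) / (w - z i)) := by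
    intro j w hw
    refine Finset.sum_congr rfl fun i _ => ?_
    rw [dslope_of_ne _ (sub_ne_zero.1 (hne i w hw)), slope_def_field]
  have hev : ∀ w : ℂ, ‖w‖ = 1 → -w * ∑ j, v j w * G j w = (nsq fun j => G j w : ℝ) := by
    intro w hw
    have hww := conj_mul_self hw
    set κ : ℂ := ∑ i, c i / (1 - z i * conj w) with hκ
    have hF1 : ∑ j, F j w * conj (F j w) = 1 := by
      have := h.nsq_circle hφ hw
      rw [← nsq_coe, this]; simp
    have hvc : ∀ j, conj (v j w) = ∑ i, c i * F j (z i) / (1 - z i * conj w) := by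
      intro j; simp [hv]
    have e1 : ∀ j, conj (v j w) - κ * F j w = -w * G j w := by
      intro j
      rw [hvc, hGc j w hw, hκ, Finset.sum_mul, Finset.mul_sum, ← Finset.sum_sub_distrib]
      refine Finset.sum_congr rfl fun i _ => ?_
      have h1 := hden i w hw.le
      have h2 := hne i w hw
      field_simp
      linear_combination (c i * z i * (F j (z i) - F j w)) * hww
    have e2 : ∑ j, conj (v j w) * conj (F j w) = κ := by
      have h1 := hc1 w hw.le
      simp only [hvc, Finset.sum_mul]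
      rw [Finset.sum_comm, hκ, eq_comm, ← sub_eq_zero, ← Finset.sum_sub_distrib, ← h1]
      refine Finset.sum_congr rfl fun i _ => ?_
      rw [sub_div, mul_sub, Finset.sum_div, Finset.mul_sum, mul_one_div]
      congr 1
      exact Finset.sum_congr rfl fun j _ => by ring
    have e3 : ∑ j, conj (F j w) * (w * G j w) = 0 := by
      have : ∀ j, conj (F j w) * (w * G j w) =
          κ * (F j w * conj (F j w)) - conj (v j w) * conj (F j w) := fun j => by
        linear_combination conj (F j w) * e1 j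
      simp only [this, Finset.sum_sub_distrib, ← Finset.mul_sum, hF1, e2, mul_one, sub_self]
    have e4 : ∀ j, G j w * conj (G j w) =
        -w * (v j w * G j w) + conj κ * (conj (F j w) * (w * G j w)) := by
      intro j
      have h1 := congrArg conj (e1 j)
      simp only [map_sub, map_mul, map_neg, conj_conj] at h1
      linear_combination (w * G j w) * h1 - (G j w * conj (G j w)) * hww
    rw [nsq_coe]
    simp only [e4, Finset.sum_add_distrib, ← Finset.mul_sum, e3, mul_zero, add_zero]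
  have hdiff : DifferentiableOn ℂ (fun w => -w * ∑ j, v j w * G j w) (closedBall 0 1) := by
    refine DifferentiableOn.mul (by fun_prop) (DifferentiableOn.fun_sum fun j _ =>
      DifferentiableOn.mul (DifferentiableOn.fun_sum fun i _ => DifferentiableOn.div
        (by fun_prop) (by fun_prop) fun w hw => hden' i w (mem_closedBall_zero_iff.1 hw))
        (DifferentiableOn.fun_sum fun i _ => DifferentiableOn.const_mul ?_ _))
    exact ((differentiableOn_dslope (hΩo.mem_nhds (hsub (mem_closedBall_zero_iff.2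
      (hz1 i).le)))).2 (hFd j)).mono hsub
  have hz0 := mv hdiff (by simp) fun t ht _ => by
    rw [hev t ht, ofReal_re]; exact nsq_nonneg _
  set Pr : Fin k → ℂ[X] := fun i => ∏ l ∈ Finset.univ.erase i, (X - C (z l)) with hPr
  have hPrdeg : ∀ i, (Pr i).natDegree ≤ k - 1 := by
    intro i
    refine (natDegree_prod_le _ _).trans ?_
    simp [Finset.card_erase_of_mem]
  set Bp : ℂ[X] := ∑ i, C (c i) * Pr i with hBp
  set Ap : Fin N → ℂ[X] := fun j => ∑ i, C (c i * F j (z i)) * Pr i with hAp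
  have hid : ∀ j, A j * Bp - Ap j * B = 0 := by
    intro j
    refine poly_circle_zero one_pos fun w hw _ => ?_
    have h1 := hz0 w hw
    rw [hev w hw, ofReal_re] at h1
    have h2 := nsq_eq_zero h1 j
    simp only [hGc j w hw] at h2
    have hB := h.ne_zero hφ hw.le
    have h3 : (A j).eval w = F j w * B.eval w := by simp only [hF]; field_simp
    have h4 : ∀ i, (Pr i).eval w = (∏ l, (w - z l)) / (w - z i) := by
      intro i
      rw [eq_div_iff (hne i w hw), ← Finset.prod_erase_mul _ _ (Finset.mem_univ i)]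
      simp [hPr, eval_prod]
    simp only [hBp, hAp, eval_sub, eval_mul, eval_finsetSum, eval_C, h3, h4]
    have h5 : ∑ i, c i * ((F j w - F j (z i)) / (w - z i)) * (∏ l, (w - z l)) =
        F j w * ∑ i, c i * ((∏ l, (w - z l)) / (w - z i)) -
          ∑ i, c i * F j (z i) * ((∏ l, (w - z l)) / (w - z i)) := by
      rw [Finset.mul_sum, ← Finset.sum_sub_distrib]
      exact Finset.sum_congr rfl fun i _ => by ring
    rw [← Finset.sum_mul, h2] at h5
    linear_combination (-B.eval w) * h5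
  by_contra hc0
  obtain ⟨i, hi⟩ := Function.ne_iff.1 hc0
  have hBp0 : Bp ≠ 0 := by
    intro h0
    have h1 := congrArg (eval (z i)) h0
    simp only [hBp, eval_finsetSum, eval_mul, eval_C, eval_zero] at h1
    rw [Finset.sum_eq_single i] at h1
    · refine mul_ne_zero hi ?_ h1
      simp only [hPr, eval_prod, eval_sub, eval_X, eval_C]
      exact Finset.prod_ne_zero_iff.2 fun l hl =>
        sub_ne_zero.2 fun e => (Finset.mem_erase.1 hl).1 (hz e).symm
    · intro l _ hl
      simp only [hPr, eval_prod, eval_sub, eval_X, eval_C]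
      rw [Finset.prod_eq_zero (i := i) (by simp [hl.symm]) (sub_self _), mul_zero]
    · simp
  have hdeg : ∀ a : Fin k → ℂ, (∑ i, C (a i) * Pr i).natDegree ≤ k - 1 := fun a =>
    natDegree_sum_le_of_forall_le _ _ fun i _ => (natDegree_C_mul_le _ _).trans (hPrdeg i)
  refine h.min (k - 1) (by have := i.pos; omega) Ap Bp ⟨hBp0, fun j => hdeg _, hdeg _,
    fun t ht j => ?_⟩
  have h1 := congrArg (eval t) (hid j)
  simp only [eval_sub, eval_mul, eval_zero, h.eq t ht j] at h1
  refine mul_left_cancel₀ (h.ne_zero hφ ht.le) ?_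
  linear_combination (-1) * h1

/-- A polynomial that is `O(t ^ k)` at the origin is divisible by `X ^ k`. -/
theorem X_pow_dvd_of_isBigO {P : ℂ[X]} {k : ℕ}
    (h : (fun t => P.eval t) =O[𝓝 0] fun t : ℂ => ‖t‖ ^ k) : X ^ k ∣ P := by
  induction k generalizing P with
  | zero => simp
  | succ k ih =>
    have h0 : P.eval 0 = 0 := by
      obtain ⟨c, hc⟩ := h.bound
      simpa using hc.self_of_nhds
    obtain ⟨Q, rfl⟩ := X_dvd_iff.2 ((coeff_zero_eq_eval_zero P).trans h0)
    rw [pow_succ']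
    refine mul_dvd_mul_left _ (ih ?_)
    obtain ⟨c, hc⟩ := h.bound
    have hcl : ∀ᶠ t in 𝓝[≠] (0 : ℂ), ‖Q.eval t‖ ≤ c * ‖t‖ ^ k := by
      filter_upwards [self_mem_nhdsWithin, mem_nhdsWithin_of_mem_nhds hc] with t ht h1
      have ht' : 0 < ‖t‖ := norm_pos_iff.2 ht
      simp only [eval_mul, eval_X, norm_mul, norm_pow, norm_norm] at h1
      refine le_of_mul_le_mul_left ?_ ht'
      calc _ ≤ _ := h1
        _ = _ := by ring
    have hz : ‖Q.eval 0‖ ≤ c * ‖(0 : ℂ)‖ ^ k :=
      le_of_tendsto_of_tendsto (b := 𝓝[≠] (0 : ℂ))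
        ((Q.continuous.norm.tendsto 0).mono_left nhdsWithin_le_nhds)
        ((Continuous.tendsto (f := fun t : ℂ => c * ‖t‖ ^ k) (by fun_prop) 0).mono_left
          nhdsWithin_le_nhds) hcl
    refine Asymptotics.IsBigO.of_bound c ?_
    rw [← nhdsNE_sup_pure, eventually_sup]
    exact ⟨by simpa using hcl, by simpa using hz⟩

end Pool.Agent.Lib.MP_7906d6_an.Rat
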