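import Mathlib
import Pool.Agent.Lib.MP_7906d6_an.RatDisc

/-!
Polynomial functions on complex vector spaces.
-/

namespace Pool.Agent.Lib.MP_7906d6_an.Rat

open Polynomial Complex Matrix
open scoped ComplexConjugate

/-- Scalar polynomial functions. -/
inductive IsP {E : Type*} [AddCommGroup E] [Module ℂ E] : (E → ℂ) → Prop
  | const (c : ℂ) : IsP fun _ => c
  | lin (L : E →ₗ[ℂ] ℂ) : IsP fun x => L x
  | add {F G : E → ℂ} : IsP F → IsP G → IsP fun x => F x + G x
  | mul {F G : E → ℂ} : IsP F → IsP G → IsP fun x => F x * G x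

/-- Polynomial maps. -/
@[fun_prop]
def PM {Y E : Type*} [AddCommGroup Y] [Module ℂ Y] [AddCommGroup E] [Module ℂ E]
    (G : Y → E) : Prop :=
  ∀ L : E →ₗ[ℂ] ℂ, IsP fun x => L (G x)

variable {Y E E' : Type*} [AddCommGroup Y] [Module ℂ Y] [AddCommGroup E] [Module ℂ E]
  [AddCommGroup E'] [Module ℂ E']

theorem PM.isP {F : E → ℂ} (h : PM F) : IsP F := h LinearMap.id

theorem IsP.pm {F : E → ℂ} (h : IsP F) : PM F := fun L => by
  have : (fun x => L (F x)) = fun x => F x * L 1 := by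
    funext x
    rw [← smul_eq_mul, ← map_smul, smul_eq_mul, mul_one]
  rw [this]
  exact h.mul (.const _)

theorem IsP.comp {F : E → ℂ} (h : IsP F) {G : Y → E} (hG : PM G) : IsP fun x => F (G x) := by
  induction h with
  | const c => exact .const c
  | lin L => exact hG L
  | add _ _ h1 h2 => exact h1.add h2
  | mul _ _ h1 h2 => exact h1.mul h2

@[fun_prop] theorem PM.id' : PM fun x : E => x := fun L => .lin L

@[fun_prop] theorem PM.const (c : E) : PM fun _ : Y => c := fun _ => .const _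

@[fun_prop] theorem PM.comp {F : E → E'} {G : Y → E} (hF : PM F) (hG : PM G) :
    PM fun x => F (G x) := fun L => (hF L).comp hG

theorem PM.lin (A : E →ₗ[ℂ] E') {G : Y → E} (hG : PM G) : PM fun x => A (G x) :=
  fun L => hG (L.comp A)

@[fun_prop] theorem PM.add {F G : Y → E} (hF : PM F) (hG : PM G) : PM fun x => F x + G x :=
  fun L => by simpa only [map_add] using (hF L).add (hG L)

@[fun_prop] theorem PM.smul {F : Y → ℂ} {G : Y → E} (hF : PM F) (hG : PM G) :
    PM fun x => F x • G x := fun L => by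
  simpa only [map_smul, smul_eq_mul] using hF.isP.mul (hG L)

@[fun_prop] theorem PM.neg {F : Y → E} (hF : PM F) : PM fun x => -F x := by
  simpa using (PM.const (-1 : ℂ)).smul hF

@[fun_prop] theorem PM.sub {F G : Y → E} (hF : PM F) (hG : PM G) : PM fun x => F x - G x := by
  simpa only [sub_eq_add_neg] using hF.add hG.neg

@[fun_prop] theorem PM.mul {F G : Y → ℂ} (hF : PM F) (hG : PM G) : PM fun x => F x * G x :=
  (hF.isP.mul hG.isP).pm

@[fun_prop] theorem PM.pow {F : Y → ℂ} (hF : PM F) (k : ℕ) : PM fun x => F x ^ k := by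
  induction k with
  | zero => simpa using PM.const (1 : ℂ)
  | succ k ih => simpa only [pow_succ] using ih.mul hF

@[fun_prop] theorem PM.div {F : Y → ℂ} (hF : PM F) (c : ℂ) : PM fun x => F x / c := by
  simpa only [div_eq_mul_inv] using hF.mul (PM.const _)

@[fun_prop] theorem PM.sum {ι : Type*} {s : Finset ι} {F : ι → Y → E} (hF : ∀ i, PM (F i)) :
    PM fun x => ∑ i ∈ s, F i x := by
  classical
  induction s using Finset.induction_on with
  | empty => simpa using PM.const (0 : E)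
  | insert a s ha ih => simpa only [Finset.sum_insert ha] using (hF a).add ih

@[fun_prop] theorem PM.prod {ι : Type*} {s : Finset ι} {F : ι → Y → ℂ} (hF : ∀ i, PM (F i)) :
    PM fun x => ∏ i ∈ s, F i x := by
  classical
  induction s using Finset.induction_on with
  | empty => simpa using PM.const (1 : ℂ)
  | insert a s ha ih => simpa only [Finset.prod_insert ha] using (hF a).mul ih

@[fun_prop] theorem PM.fst {F : Y → E × E'} (hF : PM F) : PM fun x => (F x).1 :=
  hF.lin (LinearMap.fst ℂ E E')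

@[fun_prop] theorem PM.snd {F : Y → E × E'} (hF : PM F) : PM fun x => (F x).2 :=
  hF.lin (LinearMap.snd ℂ E E')

@[fun_prop] theorem PM.pair {F : Y → E} {G : Y → E'} (hF : PM F) (hG : PM G) :
    PM fun x => (F x, G x) := by
  simpa using (hF.lin (LinearMap.inl ℂ E E')).add (hG.lin (LinearMap.inr ℂ E E'))

@[fun_prop] theorem PM.proj {ι : Type*} (i : ι) : PM fun x : ι → E => x i :=
  PM.id'.lin (LinearMap.proj (R := ℂ) (φ := fun _ : ι => E) i)

@[fun_prop] theorem PM.pi {ι : Type*} [Fintype ι] {F : Y → ι → E} (hF : ∀ i, PM fun x => F x i) :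
    PM fun x i => F x i := by
  classical
  have := PM.sum (s := Finset.univ) fun i => (hF i).lin (LinearMap.single ℂ (fun _ : ι => E) i)
  simpa only [LinearMap.coe_single, Finset.univ_sum_single] using this

@[fun_prop] theorem PM.dot {ι : Type*} [Fintype ι] {F G : Y → ι → ℂ} (hF : PM F) (hG : PM G) :
    PM fun x => F x ⬝ᵥ G x := by
  unfold dotProduct; fun_prop

@[fun_prop] theorem PM.eval {σ : Type*} {G : Y → σ → ℂ} (hG : PM G) (P : MvPolynomial σ ℂ) :
    PM fun x => MvPolynomial.eval (G x) P := by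
  simp only [MvPolynomial.eval_eq]; fun_prop

theorem PM.det {ι : Type*} [Fintype ι] [DecidableEq ι] {G : ι → ι → Y → ℂ}
    (hG : ∀ i j, PM (G i j)) : PM fun x => (Matrix.of fun i j => G i j x).det := by
  simp only [det_apply', of_apply]; fun_prop

theorem PM.poly {F : ℂ → ℂ} (h : PM F) : ∃ p : ℂ[X], ∀ t, F t = p.eval t := by
  replace h := h.isP
  induction h with
  | const c => exact ⟨C c, by simp⟩
  | lin L => exact ⟨X * C (L 1), fun t => by
      rw [eval_mul, eval_X, eval_C, ← smul_eq_mul, ← map_smul, smul_eq_mul, mul_one]⟩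
  | add _ _ h1 h2 =>
    obtain ⟨p, hp⟩ := h1
    obtain ⟨q, hq⟩ := h2
    exact ⟨p + q, by simp [hp, hq]⟩
  | mul _ _ h1 h2 =>
    obtain ⟨p, hp⟩ := h1
    obtain ⟨q, hq⟩ := h2
    exact ⟨p * q, by simp [hp, hq]⟩

theorem PM.exists_ne {F G : E → ℂ} (hF : PM F) (hG : PM G) {x y : E} (hx : F x ≠ 0)
    (hy : G y ≠ 0) : ∃ z, F z ≠ 0 ∧ G z ≠ 0 := by
  obtain ⟨p, hp⟩ := PM.poly (F := fun t => F (x + t • (y - x))) (by fun_prop)
  obtain ⟨q, hq⟩ := PM.poly (F := fun t => G (x + t • (y - x))) (by fun_prop)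
  have h1 : p ≠ 0 := by rintro rfl; simpa [hx] using hp 0
  have h2 : q ≠ 0 := by rintro rfl; simpa [hy] using hq 1
  by_contra! h
  refine mul_ne_zero h1 h2 (Polynomial.funext fun t => ?_)
  rw [eval_mul, ← hp, ← hq, eval_zero, mul_eq_zero, or_iff_not_imp_left]
  exact h _

theorem PM.cancel {F G : E → ℂ} (hF : PM F) (hG : PM G) {y : E} (hy : G y ≠ 0)
    (h : ∀ x, G x * F x = 0) (x : E) : F x = 0 := by
  by_contra hx
  obtain ⟨z, h1, h2⟩ := hF.exists_ne hG hx hy
  exact mul_ne_zero h2 h1 (h z)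

theorem PM.exists_forall_ne {ι : Type*} [Fintype ι] {F : ι → E → ℂ} (hF : ∀ i, PM (F i))
    (h : ∀ i, ∃ x, F i x ≠ 0) : ∃ z, ∀ i, F i z ≠ 0 := by
  classical
  have : ∀ s : Finset ι, ∃ z, ∏ i ∈ s, F i z ≠ 0 := by
    intro s
    induction s using Finset.induction_on with
    | empty => exact ⟨0, by simp⟩
    | insert a s ha ih =>
      obtain ⟨y, hy⟩ := ih
      obtain ⟨x, hx⟩ := h a
      obtain ⟨z, h1, h2⟩ := (hF a).exists_ne (G := fun z => ∏ i ∈ s, F i z) (by fun_prop) hx hy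
      exact ⟨z, by rw [Finset.prod_insert ha]; exact mul_ne_zero h1 h2⟩
  obtain ⟨z, hz⟩ := this Finset.univ
  exact ⟨z, fun i => Finset.prod_ne_zero_iff.1 hz i (Finset.mem_univ i)⟩

/-- Division lemma. -/
theorem PM.taylor {F : E → ℂ} (hF : PM F) {a d : Y → E} {h : Y → ℂ} (ha : PM a) (hd : PM d)
    (hh : PM h) : ∃ Q : Y → ℂ, PM Q ∧ ∀ x, F (a x + h x • d x) = F (a x) + h x * Q x := by
  replace hF := hF.isP
  induction hF with
  | const c => exact ⟨fun _ => 0, by fun_prop, by simp⟩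
  | lin L => exact ⟨fun x => L (d x), hd.lin L, by simp⟩
  | add _ _ h1 h2 =>
    obtain ⟨p, hp, e1⟩ := h1
    obtain ⟨q, hq, e2⟩ := h2
    exact ⟨fun x => p x + q x, by fun_prop, fun x => by simp only [e1, e2]; ring⟩
  | @mul F G hF hG h1 h2 =>
    obtain ⟨p, hp, e1⟩ := h1
    obtain ⟨q, hq, e2⟩ := h2
    have := hF.pm
    have := hG.pm
    exact ⟨fun x => p x * G (a x) + F (a x) * q x + h x * p x * q x, by fun_prop,
      fun x => by simp only [e1, e2]; ring⟩

theorem PM.conj {ι : Type*} {F : (ι → ℂ) → ℂ} (hF : PM F) : PM fun x => conj (F (star x)) := by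
  replace hF := hF.isP
  refine IsP.pm ?_
  induction hF with
  | const c => exact .const _
  | lin L =>
    exact .lin (E := ι → ℂ) ⟨⟨fun x => conj (L (star x)), by simp⟩, by simp⟩
  | add _ _ h1 h2 => simpa only [map_add] using h1.add h2
  | mul _ _ h1 h2 => simpa only [map_mul] using h1.mul h2

/-- Homogenisation. -/
theorem PM.homog {F : E → ℂ} (hF : PM F) : ∃ (D : ℕ) (H : ℂ × E → ℂ), PM H ∧
    ∀ s x, s ≠ 0 → H (s, x) = s ^ D * F (s⁻¹ • x) := by
  replace hF := hF.isP
  induction hF with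
  | const c => exact ⟨0, fun _ => c, by fun_prop, by simp⟩
  | lin L => exact ⟨1, fun y => L y.2, PM.lin L (by fun_prop), fun s x hs => by
      simp [hs]⟩
  | add _ _ h1 h2 =>
    obtain ⟨a, p, hp, e1⟩ := h1
    obtain ⟨b, q, hq, e2⟩ := h2
    exact ⟨a + b, fun y => p y * y.1 ^ b + q y * y.1 ^ a, by fun_prop,
      fun s x hs => by simp only [e1 s x hs, e2 s x hs]; ring⟩
  | mul _ _ h1 h2 =>
    obtain ⟨a, p, hp, e1⟩ := h1
    obtain ⟨b, q, hq, e2⟩ := h2
    exact ⟨a + b, fun y => p y * q y, by fun_prop,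
      fun s x hs => by simp only [e1 s x hs, e2 s x hs]; ring⟩

theorem PM.homog_pi {κ : Type*} [Fintype κ] {F : E → κ → ℂ} (hF : PM F) :
    ∃ (D : ℕ) (H : ℂ × E → κ → ℂ), PM H ∧ ∀ s x, s ≠ 0 → H (s, x) = s ^ D • F (s⁻¹ • x) := by
  choose D H hH e using fun k => PM.homog (F := fun x => F x k) (by fun_prop)
  refine ⟨∑ k, D k, fun y k => H k y * y.1 ^ (∑ k, D k - D k), by fun_prop, fun s x hs => ?_⟩
  funext k
  have : D k ≤ ∑ k, D k := Finset.single_le_sum (fun _ _ => Nat.zero_le _) (Finset.mem_univ k)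
  obtain ⟨c, hc⟩ := Nat.exists_eq_add_of_le this
  simp only [e k s x hs, hc, Pi.smul_apply, smul_eq_mul, Nat.add_sub_cancel_left]
  ring

theorem PM.real_zero {F : ℂ → ℂ} (hF : PM F) (h : ∀ t : ℝ, F t = 0) (t : ℂ) : F t = 0 := by
  obtain ⟨p, hp⟩ := hF.poly
  have : p = 0 := p.eq_zero_of_infinite_isRoot
    ((Set.infinite_range_of_injective ofReal_injective).mono (by
      rintro _ ⟨s, rfl⟩; exact (hp s).symm.trans (h s)))
  simp [hp, this]

theorem PM.circle_zero {F : ℂ → ℂ} (hF : PM F) {ρ : ℝ} (hρ : 0 < ρ)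
    (h : ∀ t : ℂ, ‖t‖ = ρ → F t = 0) (t : ℂ) : F t = 0 := by
  obtain ⟨p, hp⟩ := hF.poly
  have : p = 0 := poly_circle_zero hρ fun s hs _ => (hp s).symm.trans (h s hs)
  simp [hp, this]

/-- A polynomial vanishing on the real form vanishes. -/
theorem PM.realForm {ι : Type*} {F : (ι → ℂ) × (ι → ℂ) → ℂ} (hF : PM F)
    (h : ∀ z, F (z, star z) = 0) (y : (ι → ℂ) × (ι → ℂ)) : F y = 0 := by
  obtain ⟨z, w⟩ := y
  set a : ι → ℂ := (2⁻¹ : ℂ) • (z + star w) with ha
  set b : ι → ℂ := (-(2⁻¹ * I)) • (z - star w) with hb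
  have := PM.real_zero (F := fun t => F (a + t • b, star a + t • star b)) (by fun_prop)
    (fun t => by simpa using h (a + (t : ℂ) • b)) I
  convert this using 3 <;> funext i <;> simp [ha, hb]
  · linear_combination (2⁻¹ * (z i - conj (w i))) * I_mul_I
  · linear_combination (2⁻¹ * (w i - conj (z i))) * I_mul_I

/-- A family whose square minors all vanish is dependent. -/
theorem exists_rel {A κ : Type*} [CommRing A] [Nontrivial A] {k : ℕ} (v : Fin k → κ → A)
    (h : ∀ c : Fin k → κ, (Matrix.of fun i j => v i (c j)).det = 0) :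
    ∃ l : Fin k → A, l ≠ 0 ∧ ∀ x, ∑ i, l i * v i x = 0 := by
  induction k with
  | zero => simpa using h Fin.elim0
  | succ k ih =>
    by_cases h1 : ∀ c : Fin k → κ, (Matrix.of fun i j => v (Fin.succ i) (c j)).det = 0
    · obtain ⟨l, hl, e⟩ := ih _ h1
      refine ⟨Fin.cons 0 l, fun h0 => hl (funext fun i => ?_), fun x => ?_⟩
      · simpa using congrFun h0 i.succ
      · simpa [Fin.sum_univ_succ] using e x
    · push Not at h1
      obtain ⟨c, hc⟩ := h1
      refine ⟨fun i => (-1) ^ (i : ℕ) * (Matrix.of fun a j => v (i.succAbove a) (c j)).det,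
        fun h0 => hc (by simpa using congrFun h0 0), fun x => ?_⟩
      have := h (Fin.cons x c)
      rw [det_succ_column_zero] at this
      rw [← this]
      refine Finset.sum_congr rfl fun i _ => ?_
      rw [mul_right_comm]
      rfl

theorem exists_det {κ ι : Type*} [Fintype ι] [DecidableEq ι] (v : ι → κ → ℂ)
    (h : ∀ l : ι → ℂ, (∀ x, ∑ i, l i * v i x = 0) → l = 0) :
    ∃ c : ι → κ, (Matrix.of fun i j => v i (c j)).det ≠ 0 := by
  by_contra! h0
  set e := Fintype.equivFin ι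
  obtain ⟨l, hl, h1⟩ := exists_rel (fun i => v (e.symm i)) fun c => by
    rw [← h0 (c ∘ e), ← det_submatrix_equiv_self e]
    congr 1
    ext i j
    simp
  refine hl (funext fun i => ?_)
  have := h (l ∘ e) fun x => by
    rw [← h1 x]
    exact Fintype.sum_equiv e _ _ (by simp)
  simpa using congrFun this (e.symm i)

/-- The algebra of polynomial functions. -/
def polyFun (E : Type*) [AddCommGroup E] [Module ℂ E] : Subring (E → ℂ) where
  carrier := {F | PM F}
  mul_mem' := PM.mul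
  one_mem' := PM.const 1
  add_mem' := PM.add
  zero_mem' := PM.const 0
  neg_mem' := PM.neg

theorem exists_det_or_rel {κ : Type*} {k : ℕ} (v : Fin k → κ → E → ℂ) (hv : ∀ i j, PM (v i j)) :
    (∃ (c : Fin k → κ) (y : E), (Matrix.of fun i j => v i (c j) y).det ≠ 0) ∨
      ∃ l : Fin k → E → ℂ, (∀ i, PM (l i)) ∧ (∃ i y, l i y ≠ 0) ∧
        ∀ j y, ∑ i, l i y * v i j y = 0 := by
  rw [or_iff_not_imp_left]
  intro h
  push Not at h
  obtain ⟨l, hl, e⟩ := exists_rel (A := polyFun E) (fun i j => ⟨v i j, hv i j⟩) fun c => by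
    ext y
    exact (RingHom.map_det ((Pi.evalRingHom _ y).comp (polyFun E).subtype) _).trans (h c y)
  refine ⟨fun i => l i, fun i => (l i).2, ?_, fun j y => ?_⟩
  · by_contra! h0
    exact hl (by ext i y; exact h0 i y)
  · simpa using congrArg ((Pi.evalRingHom _ y).comp (polyFun E).subtype) (e j)

theorem cayley {n : Type*} [Fintype n] [DecidableEq n] {Z : Matrix n n ℂ} (hZ : Zᴴ = -Z)
    (h : (1 - Z).det ≠ 0) : ((1 + Z) * (1 - Z)⁻¹)ᴴ * ((1 + Z) * (1 - Z)⁻¹) = 1 := by
  have h1 : (1 - Z)ᴴ = 1 + Z := by simp [hZ]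
  have h2 : (1 + Z)ᴴ = 1 - Z := by simp [hZ, sub_eq_add_neg]
  have h3 : IsUnit (1 + Z).det := by rw [← h1, det_conjTranspose]; simpa using h
  have h4 : (1 - Z) * (1 + Z) = (1 + Z) * (1 - Z) := by noncomm_ring
  rw [conjTranspose_mul, conjTranspose_nonsing_inv, h1, h2, Matrix.mul_assoc,
    ← Matrix.mul_assoc (1 - Z), h4, Matrix.mul_assoc, mul_nonsing_inv _ h.isUnit, Matrix.mul_one,
    nonsing_inv_mul _ h3]

/-- The unitary group is Zariski dense. -/
theorem PM.exists_unitary {n : Type*} [Fintype n] [DecidableEq n] {F : Matrix n n ℂ → ℂ}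
    (hF : PM F) {M₀ : Matrix n n ℂ} (h0 : F M₀ ≠ 0) : ∃ M, Mᴴ * M = 1 ∧ F M ≠ 0 := by
  by_contra! h
  have hent : ∀ {G : ℂ → Matrix n n ℂ}, PM G → ∀ i j, PM fun t => G t i j := fun hG i j =>
    hG.lin (Matrix.entryLinearMap ℂ ℂ i j)
  have hof : ∀ {G : ℂ → Matrix n n ℂ}, (∀ i j, PM fun t => G t i j) → PM G := fun hG =>
    PM.pi (E := n → ℂ) fun i => PM.pi fun j => hG i j
  have hdet : PM fun M : Matrix n n ℂ => M.det :=
    PM.det fun i j => PM.id'.lin (Matrix.entryLinearMap ℂ ℂ i j)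
  obtain ⟨D, H, hH, e⟩ := hF.homog
  have key : ∀ Z : Matrix n n ℂ, (1 - Z).det ≠ 0 → F ((1 + Z) * (1 - Z)⁻¹) = 0 := by
    intro Z hZ
    set A : Matrix n n ℂ := (2⁻¹ : ℂ) • (Z - Zᴴ) with hA
    set B : Matrix n n ℂ := (-(2⁻¹ * I)) • (Z + Zᴴ) with hB
    have hAB : A + I • B = Z := by
      ext i j
      simp [hA, hB]
      linear_combination (-(2⁻¹ * (Z i j + conj (Z j i)))) * I_mul_I
    have hW : PM fun t : ℂ => 1 - (A + t • B) := by fun_prop
    have hadj : PM fun t : ℂ => (1 + (A + t • B)) * (1 - (A + t • B)).adjugate := by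
      refine hof fun i j => ?_
      simp only [mul_apply, adjugate_apply]
      refine PM.sum fun k => (hent (by fun_prop) i k).mul (hdet.comp (hof fun a b => ?_))
      simp only [updateRow_apply]
      split_ifs
      · fun_prop
      · exact hent hW a b
    have e1 : ∀ W : Matrix n n ℂ, (1 - W).det ≠ 0 →
        H ((1 - W).det, (1 + W) * (1 - W).adjugate) =
          (1 - W).det ^ D * F ((1 + W) * (1 - W)⁻¹) := by
      intro W hW
      rw [e _ _ hW, Matrix.inv_def, Matrix.mul_smul, Ring.inverse_eq_inv']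
    have := PM.real_zero (F := fun t => (1 - (A + t • B)).det *
      H ((1 - (A + t • B)).det, (1 + (A + t • B)) * (1 - (A + t • B)).adjugate))
      ((hdet.comp hW).mul (hH.comp ((hdet.comp hW).pair hadj))) (fun t => by
        by_cases hd : (1 - (A + (t : ℂ) • B)).det = 0
        · rw [hd, zero_mul]
        · rw [e1 _ hd, h _ (cayley ?_ hd), mul_zero, mul_zero]
          ext i j
          simp [hA, hB]
          ring) I
    simp only [hAB, e1 Z hZ] at this
    simpa [hZ] using this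
  obtain ⟨M, h1, h2⟩ := hF.exists_ne (G := fun M => (1 + M).det) (hdet.comp (by fun_prop)) h0
    (y := 0) (by simp)
  have h3 : 1 - (1 - (2 : ℂ) • (1 + M)⁻¹) = (2 : ℂ) • (1 + M)⁻¹ := by simp
  have h4 : ((2 : ℂ) • (1 + M)⁻¹) * ((2⁻¹ : ℂ) • (1 + M)) = 1 := by
    rw [Matrix.smul_mul, Matrix.mul_smul, nonsing_inv_mul _ h2.isUnit, smul_smul]
    simp
  have := key (1 - (2 : ℂ) • (1 + M)⁻¹) (by rw [h3]; exact (isUnit_det_of_right_inverse h4).ne_zero)
  rw [h3, inv_eq_right_inv h4, Matrix.add_mul, Matrix.sub_mul, h4] at this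
  refine h1 (this ▸ congrArg F ?_)
  ext i j
  simp
  ring

theorem PM.hasDerivAt {Q : E → ℂ} (hQ : PM Q) (d : E) :
    ∃ Q' : E → ℂ, PM Q' ∧ ∀ y, HasDerivAt (fun t : ℂ => Q (y + t • d)) (Q' y) 0 := by
  replace hQ := hQ.isP
  induction hQ with
  | const c => exact ⟨fun _ => 0, by fun_prop, fun y => hasDerivAt_const _ _⟩
  | lin L =>
    refine ⟨fun _ => L d, by fun_prop, fun y => ?_⟩
    simpa using ((hasDerivAt_id (0 : ℂ)).mul_const (L d)).const_add (L y)
  | add _ _ h1 h2 =>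
    obtain ⟨p, hp, e1⟩ := h1
    obtain ⟨q, hq, e2⟩ := h2
    exact ⟨fun y => p y + q y, by fun_prop, fun y => (e1 y).add (e2 y)⟩
  | @mul F G hF hG h1 h2 =>
    obtain ⟨p, hp, e1⟩ := h1
    obtain ⟨q, hq, e2⟩ := h2
    have := hF.pm
    have := hG.pm
    exact ⟨fun y => p y * G y + F y * q y, by fun_prop, fun y => by
      simpa using (e1 y).fun_mul (e2 y)⟩

theorem PM.divide {F g : E → ℂ} (hF : PM F) (hg : PM g) {d : E}
    (hd : ∀ y (t : ℂ), g (y + t • d) = g y + t) (h : ∀ y, g y = 0 → F y = 0) :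
    ∃ Q : E → ℂ, PM Q ∧ ∀ y, F y = g y * Q y := by
  obtain ⟨Q, hQ, e⟩ := hF.taylor (a := fun y => y + (-g y) • d) (d := fun _ => d) (h := g)
    (by fun_prop) (by fun_prop) hg
  refine ⟨Q, hQ, fun y => ?_⟩
  have := e y
  rw [h (y + (-g y) • d) (by rw [hd]; ring), zero_add] at this
  simpa using this

theorem PM.maxpow {F g : E → ℂ} (hF : PM F) (hg : PM g) {d : E}
    (hd : ∀ y (t : ℂ), g (y + t • d) = g y + t) {y₀ : E} (h0 : F y₀ ≠ 0) :
    ∃ (e : ℕ) (Q : E → ℂ), PM Q ∧ (∀ y, F y = g y ^ e * Q y) ∧ ∃ y, g y = 0 ∧ Q y ≠ 0 := by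
  by_contra! h
  have : ∀ e : ℕ, ∃ Q : E → ℂ, PM Q ∧ ∀ y, F y = g y ^ e * Q y := by
    intro e
    induction e with
    | zero => exact ⟨F, hF, by simp⟩
    | succ e ih =>
      obtain ⟨Q, hQ, e1⟩ := ih
      obtain ⟨R, hR, e2⟩ := hQ.divide hg hd (h e Q hQ e1)
      exact ⟨R, hR, fun y => by rw [e1, e2]; ring⟩
  obtain ⟨p, hp⟩ := PM.poly (F := fun t => F (y₀ + t • d)) (by fun_prop)
  have h1 : p ≠ 0 := by rintro rfl; simpa [h0] using hp 0
  obtain ⟨Q, hQ, e1⟩ := this (p.natDegree + 1)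
  obtain ⟨q, hq⟩ := PM.poly (F := fun t => Q (y₀ + t • d)) (by fun_prop)
  have h2 : p = (X + C (g y₀)) ^ (p.natDegree + 1) * q := Polynomial.funext fun t => by
    rw [← hp, e1, hd, hq]; simp [add_comm]
  have := natDegree_le_of_dvd ⟨q, h2⟩ h1
  rw [natDegree_pow, natDegree_X_add_C] at this
  omega

theorem monomial_indep {ι S : Type*} [Fintype ι] [DecidableEq ι] [Fintype S] (i₀ : ι) {k : ℕ}
    {m : S → Multiset ι} (hm : Function.Injective m) (hk : ∀ s, (m s).card = k)
    (c : S → ℂ) (h : ∀ x : ι → ℂ,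
      ∑ s, c s * ((m s).map fun a => if a = i₀ then 1 else x a).prod = 0) : c = 0 := by
  let χ : S → (ι → ℂ) →* ℂ := fun s =>
    { toFun := fun x => ((m s).map fun a => if a = i₀ then 1 else x a).prod
      map_one' := by simp
      map_mul' := fun x y => by
        rw [← Multiset.prod_map_mul]
        congr 2
        funext a
        split_ifs <;> simp }
  have hinj : Function.Injective χ := by
    intro s s' hs
    have h1 : ∀ a, a ≠ i₀ → (m s).count a = (m s').count a := by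
      intro a ha
      have h2 : ∀ m : Multiset ι, (m.map fun b => if b = i₀ then (1 : ℂ) else
          Function.update (1 : ι → ℂ) a 2 b).prod = 2 ^ m.count a := by
        intro m
        rw [Multiset.prod_map_eq_pow_single a fun b hb _ => by simp [hb]]
        simp [ha]
      have h3 := DFunLike.congr_fun hs (Function.update (1 : ι → ℂ) a 2)
      simp only [χ, MonoidHom.coe_mk, OneHom.coe_mk, h2] at h3
      exact Nat.pow_right_injective le_rfl (by exact_mod_cast h3)
    refine hm (Multiset.ext' fun a => ?_)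
    by_cases ha : a = i₀
    · have h2 : ∀ s, (m s).count i₀ + ∑ b ∈ Finset.univ.erase i₀, (m s).count b = k := fun s => by
        rw [Finset.add_sum_erase _ (fun b => (m s).count b) (Finset.mem_univ _),
          Multiset.sum_count_eq_card (by simp), hk]
      have h3 := h2 s
      rw [Finset.sum_congr rfl fun b hb => h1 b (Finset.mem_erase.1 hb).1] at h3
      have h4 := h2 s'
      subst ha
      exact Nat.add_right_cancel (h3.trans h4.symm)
    · exact h1 a ha
  funext s
  exact Fintype.linearIndependent_iff.1 ((linearIndependent_monoidHom (ι → ℂ) ℂ).comp χ hinj) c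
    (by funext x; simpa [χ] using h x) s

theorem deriv_sum_zero {S : Type*} [Fintype S] {c f' : S → ℂ} {f : S → ℂ → ℂ}
    (hf : ∀ s, HasDerivAt (f s) (f' s) 0) (h : ∀ t, ∑ s, c s * f s t = 0) :
    ∑ s, c s * f' s = 0 := by
  have := HasDerivAt.fun_sum (u := Finset.univ) fun s _ => (hf s).const_mul (c s)
  simp only [h] at this
  exact this.unique (hasDerivAt_const _ _)

/-- Rank bound for multiples of the cube of the pairing. -/
theorem cubic {ι S : Type*} [Fintype ι] [DecidableEq ι] [Fintype S] [DecidableEq S] (i₀ : ι)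
    {m : S → Multiset ι} (hm : Function.Injective m) (hm3 : ∀ s, (m s).card = 3)
    {T : (ι → ℂ) × (ι → ℂ) → ℂ} (hT : PM T) {y₀} (h0 : T y₀ ≠ 0)
    (hz : ∀ y, y.1 ⬝ᵥ y.2 = 0 → T y = 0) :
    ∃ x : S → ι → ℂ, ∀ c : S → ℂ,
      (∀ ω, ∑ s, c s * ((x s ⬝ᵥ ω) ^ 2 * T (x s, ω)) = 0) → c = 0 := by
  obtain ⟨y₁, h1, hγ⟩ := hT.exists_ne (G := fun y => y.2 i₀) (by fun_prop) h0 (y := (0, 1))
    (by simp)
  obtain ⟨J, hJ⟩ : ∃ J : (ι → ℂ) → ι → ℂ, ∀ ω a, J ω a = if a = i₀ then y₁.2 i₀ else ω a :=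
    ⟨_, fun _ _ => rfl⟩
  have hJp : PM J := PM.pi fun a => by
    simp only [hJ]
    by_cases h : a = i₀
    · simp only [if_pos h]; fun_prop
    · simp only [if_neg h]; fun_prop
  have hJ1 : J y₁.2 = y₁.2 := by funext a; rw [hJ]; split_ifs with h <;> simp [h]
  obtain ⟨g, hg⟩ : ∃ g : (ι → ℂ) × (ι → ℂ) → ℂ, ∀ y, g y = y.1 ⬝ᵥ J y.2 := ⟨_, fun _ => rfl⟩
  have hgp : PM g := by rw [funext hg]; fun_prop
  obtain ⟨d, hd'⟩ : ∃ d : ι → ℂ, d = Pi.single i₀ (y₁.2 i₀)⁻¹ := ⟨_, rfl⟩
  have hd : ∀ x ω (t : ℂ), g (x + t • d, ω) = g (x, ω) + t := by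
    intro x ω t
    simp [hg, hd', hJ, hγ]
  have hd2 : ∀ y (t : ℂ), g (y + t • (d, 0)) = g y + t := fun ⟨x, ω⟩ t => by
    simpa using hd x ω t
  obtain ⟨e, R, hR, eR, y, hy, hRy⟩ := PM.maxpow (F := fun y => T (y.1, J y.2)) (by fun_prop) hgp
    hd2 (y₀ := y₁) (by simpa [hJ1] using h1)
  have he : e ≠ 0 := by
    rintro rfl
    exact hRy (by simpa using (eR y).symm.trans (hz _ ((hg y).symm.trans hy)))
  let Cl : ((ι → ℂ) × (ι → ℂ) → ℂ) → Prop := fun F => ∀ (x : S → ι → ℂ) (c : S → ℂ),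
    (∀ ω, ∑ s, c s * ((x s ⬝ᵥ ω) ^ 2 * T (x s, ω)) = 0) → ∀ ω, ∑ s, c s * F (x s, ω) = 0
  have key : ∀ l : List ι, l.length ≤ 3 → ∃ (k : ℕ) (Q : (ι → ℂ) × (ι → ℂ) → ℂ) (μ : ℂ),
      PM Q ∧ μ ≠ 0 ∧ 3 ≤ k + l.length ∧ Cl (fun y => g y ^ k * Q y) ∧ ∀ y, g y = 0 →
        Q y = μ * (l.map fun a => if a = i₀ then 1 else y.1 a).prod * R y := by
    intro l
    induction l with
    | nil =>
      refine fun _ => ⟨2 + e, R, 1, hR, one_ne_zero, by omega, fun x c h ω => ?_, by simp⟩
      rw [← h (J ω)]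
      refine Finset.sum_congr rfl fun s _ => ?_
      have := eR (x s, ω)
      simp only at this
      simp only [this, hg]
      ring
    | cons a l ih =>
      intro hl
      rw [List.length_cons] at hl
      obtain ⟨k, Q, μ, hQ, hμ, hk, hCl, eQ⟩ := ih (by omega)
      by_cases ha : a = i₀
      · exact ⟨k, Q, μ, hQ, hμ, by simp; omega, hCl, by simpa [ha] using eQ⟩
      obtain ⟨k, rfl⟩ : ∃ j, k = j + 1 := ⟨k - 1, by omega⟩
      obtain ⟨Q', hQ', eQ'⟩ := hQ.hasDerivAt (0, Pi.single a 1)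
      refine ⟨k, fun y => (k + 1) * y.1 a * Q y + g y * Q' y, (k + 1) * μ, by fun_prop,
        mul_ne_zero (Nat.cast_add_one_ne_zero k) hμ, by simp; omega, fun x c h ω => ?_,
        fun y hy => by simp [eQ y hy, hy, ha]; ring⟩
      have hga : ∀ s (t : ℂ), g (x s, ω + t • Pi.single a 1) = g (x s, ω) + t * x s a := by
        intro s t
        have : J (ω + t • Pi.single a 1) = J ω + t • Pi.single a 1 := by
          funext b
          by_cases hb : b = i₀
          · simp [hJ, hb, Ne.symm ha]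
          · simp [hJ, hb]
        simp [hg, this]
      refine Eq.trans (Finset.sum_congr rfl fun s _ => ?_) (deriv_sum_zero (c := c) (fun s =>
        ((((hasDerivAt_id' (0 : ℂ)).mul_const (x s a)).const_add (g (x s, ω))).fun_pow
          (k + 1)).fun_mul (eQ' (x s, ω))) fun t => ?_)
      · simp only [zero_mul, add_zero, zero_smul, one_mul, Nat.add_sub_cancel, Nat.cast_add,
          Nat.cast_one]
        ring
      · rw [← hCl x c h (ω + t • Pi.single a 1)]
        refine Finset.sum_congr rfl fun s _ => ?_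
        simp only [hga, Prod.smul_mk, smul_zero, Prod.mk_add_mk, add_zero]
  choose k Q μ hQ hμ _ hCl eQ using fun s : S => key (m s).toList (by simp [hm3])
  obtain ⟨x, hx⟩ := exists_det (fun s x => g (x, y.2) ^ k s * Q s (x, y.2)) fun c hc => by
    by_contra hc0
    obtain ⟨s₀, hs₀, hmin⟩ := Finset.exists_min_image (Finset.univ.filter fun s => c s ≠ 0) k
      (by simpa [Finset.Nonempty, funext_iff] using hc0)
    simp only [Finset.mem_filter, Finset.mem_univ, true_and] at hs₀ hmin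
    have h2 := PM.cancel (F := fun x => ∑ s, c s * (g (x, y.2) ^ (k s - k s₀) * Q s (x, y.2)))
      (G := fun x => g (x, y.2) ^ k s₀) (by fun_prop) (by fun_prop) (y := y.1 + (1 : ℂ) • d)
      (by rw [hd, hy]; simp) fun x => by
        rw [← hc x, Finset.mul_sum]
        refine Finset.sum_congr rfl fun s _ => ?_
        by_cases h : c s = 0
        · simp [h]
        · obtain ⟨j, hj⟩ := Nat.exists_eq_add_of_le (hmin s h)
          rw [hj, Nat.add_sub_cancel_left]
          ring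
    have h3 := monomial_indep i₀ hm hm3 (fun s => c s * 0 ^ (k s - k s₀) * μ s)
      (PM.cancel (G := fun x => R (x + (-g (x, y.2)) • d, y.2)) ?_ (by fun_prop) (y := y.1)
        (by simpa [hy] using hRy) fun x => ?_)
    · exact mul_ne_zero hs₀ (hμ s₀) (by simpa using congrFun h3 s₀)
    · refine PM.sum fun s => (PM.const _).mul ?_
      induction m s using Multiset.induction_on with
      | empty => simpa using PM.const (1 : ℂ)
      | cons a m ih =>
        simp only [Multiset.map_cons, Multiset.prod_cons]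
        refine PM.mul ?_ ih
        split_ifs <;> fun_prop
    · have h4 : g (x + (-g (x, y.2)) • d, y.2) = 0 := by rw [hd]; ring
      rw [Finset.mul_sum]
      refine Eq.trans (Finset.sum_congr rfl fun s _ => ?_) (h2 (x + (-g (x, y.2)) • d))
      rw [h4, eQ s _ h4, Multiset.prod_map_toList]
      have : (fun a => if a = i₀ then 1 else (x + (-g (x, y.2)) • d) a) =
          fun a => if a = i₀ then 1 else x a := by
        funext a
        split_ifs with ha <;> simp [hd', ha]
      simp only [this]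
      ring
  refine ⟨x, fun c hc => Matrix.eq_zero_of_mulVec_eq_zero hx (funext fun s => ?_)⟩
  simpa [mulVec, dotProduct, mul_comm] using hCl s x c hc y.2

end Pool.Agent.Lib.MP_7906d6_an.Rat
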