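import Mathlib
import Pool.Agent.Lib.MP_7906d6_an.RatPoly

/-!
Degree estimate for polarised sphere maps.
-/

namespace Pool.Agent.Lib.MP_7906d6_an.Rat

open Polynomial Complex Matrix
open scoped ComplexConjugate

variable {Y E E' : Type*} [AddCommGroup Y] [Module ℂ Y] [AddCommGroup E] [Module ℂ E]
  [AddCommGroup E'] [Module ℂ E']

variable {V κ ι : Type*} [Fintype V] [Fintype κ] [Fintype ι]

/-- Conjugate with signature `(-, +, …, +)`. -/
def cj (A : Option κ → ℂ) : Option κ → ℂ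
  | none => -conj (A none)
  | some j => conj (A (some j))

omit [Fintype κ] in
theorem cj_smul (c : ℂ) (A : Option κ → ℂ) : cj (c • A) = conj c • cj A := by
  funext k; cases k <;> simp [cj]

omit [Fintype κ] in
theorem cj_sum {S : Type*} [Fintype S] (A : S → Option κ → ℂ) :
    cj (∑ s, A s) = ∑ s, cj (A s) := by
  funext k; cases k <;> simp [cj]

theorem dot_cj (A B : Option κ → ℂ) :
    A ⬝ᵥ cj B = ∑ j, A (some j) * conj (B (some j)) - A none * conj (B none) := by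
  simp only [dotProduct, Fintype.sum_option, cj]; ring

theorem dot_cj_conj (A B : Option κ → ℂ) : A ⬝ᵥ cj B = conj (B ⬝ᵥ cj A) := by
  simp [dot_cj, mul_comm]

theorem iso {a A : Option κ → ℂ} (h0 : a none ≠ 0) (h1 : a ⬝ᵥ cj a = 0) (h2 : A ⬝ᵥ cj a = 0)
    (h3 : A ⬝ᵥ cj A = 0) : ∃ ν : ℂ, A = ν • a := by
  refine ⟨A none / a none, ?_⟩
  set ν := A none / a none with hν
  have h4 : a ⬝ᵥ cj A = 0 := by rw [dot_cj_conj, h2, map_zero]
  have h5 : A none = ν * a none := by rw [hν]; field_simp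
  have h6 : nsq (fun j => A (some j) - ν * a (some j)) = 0 := by
    rw [← ofReal_eq_zero, nsq_coe]
    rw [dot_cj] at h1 h2 h3 h4
    have : ∀ j, (A (some j) - ν * a (some j)) * conj (A (some j) - ν * a (some j)) =
        A (some j) * conj (A (some j)) - conj ν * (A (some j) * conj (a (some j))) -
          ν * (a (some j) * conj (A (some j))) + ν * conj ν * (a (some j) * conj (a (some j))) :=
      fun j => by rw [map_sub, map_mul]; ring
    simp only [this, Finset.sum_add_distrib, Finset.sum_sub_distrib, ← Finset.mul_sum]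
    rw [h5, map_mul] at h3
    rw [h5] at h2
    rw [h5, map_mul] at h4
    linear_combination h3 - conj ν * h2 - ν * h4 + ν * conj ν * h1
  funext k
  cases k with
  | none => exact h5
  | some j => exact sub_eq_zero.1 (nsq_eq_zero h6 j)

theorem count {S : Type*} [Fintype S] {a : Option κ → ℂ} {w : S → Option κ → ℂ}
    (h0 : a none ≠ 0) (h1 : a ⬝ᵥ cj a = 0) (h2 : ∀ s, w s ⬝ᵥ cj a = 0)
    (h3 : ∀ (c : S → ℂ) (μ : ℂ), ∑ s, c s • w s = μ • a → c = 0) :
    Fintype.card S + 1 ≤ Fintype.card κ := by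
  classical
  have : LinearIndependent ℂ fun o : Option (Option S) =>
      o.elim (Pi.single none 1) fun o' => o'.elim a w := by
    rw [Fintype.linearIndependent_iff]
    intro c hc
    simp only [Fintype.sum_option, Option.elim] at hc
    have e1 : c none = 0 := by
      have := congrArg (· ⬝ᵥ cj a) hc
      simpa [sum_dotProduct, h1, h2, cj, h0] using this
    have e2 := h3 (fun s => c (some (some s))) (-c (some none)) (by
      rw [e1, zero_smul, zero_add] at hc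
      rw [neg_smul, eq_neg_iff_add_eq_zero, add_comm, hc])
    have e3 : ∀ s, c (some (some s)) = 0 := congrFun e2
    rintro (_ | _ | s)
    · exact e1
    · simpa [e1, e3, h0] using congrFun hc none
    · exact e3 s
  simpa using this.fintype_card_le_finrank

theorem PM.tangent {S : Type*} [Fintype S] {γ : ℂ → S → ℂ} (hγ : PM γ) : ∃ G : S → ℂ,
    ∀ (A : S → ℂ) (ρ : ℂ → ℂ), PM ρ → (∀ σ, A ⬝ᵥ γ σ = σ * ρ σ) → A ⬝ᵥ G = ρ 0 := by
  choose Γ hΓ e using fun k => PM.taylor (F := fun σ => γ σ k) (a := fun _ : ℂ => (0 : ℂ))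
    (d := fun _ => 1) (h := fun σ => σ) (by fun_prop) (by fun_prop) (by fun_prop) (by fun_prop)
  refine ⟨fun k => Γ k 0, fun A ρ hρ h => sub_eq_zero.1 (PM.cancel
    (F := fun σ => (A ⬝ᵥ fun k => Γ k σ) - ρ σ) (G := fun σ => σ) (by fun_prop) (by fun_prop)
    one_ne_zero (fun σ => ?_) 0)⟩
  have : γ σ = γ 0 + σ • fun k => Γ k σ := by funext k; simpa using e k σ
  have h1 := h σ
  rw [this, dotProduct_add, h 0, dotProduct_smul, smul_eq_mul] at h1
  linear_combination h1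

/-- Polarised sphere map. -/
structure IsData (f : (V → ℂ) → Option κ → ℂ) (g : ℂ × (V → ℂ) → Option κ → ℂ)
    (U : (V → ℂ) × ℂ × (V → ℂ) → ℂ) : Prop where
  pf : PM f
  pg : PM g
  pU : PM U
  hg : ∀ w, g (1, star w) = cj (f w)
  hU : ∀ z s ζ, f z ⬝ᵥ g (s, ζ) = (z ⬝ᵥ ζ - s) * U (z, s, ζ)

/-- Orthonormal frame. -/
structure Frame [DecidableEq ι] (b : V → ℂ) (e : ι → V → ℂ) : Prop where
  bb : b ⬝ᵥ star b = 1
  be : ∀ a, b ⬝ᵥ star (e a) = 0
  eb : ∀ a, e a ⬝ᵥ star b = 0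
  ee : ∀ a c, e a ⬝ᵥ star (e c) = if a = c then 1 else 0

theorem exists_frame [DecidableEq ι] (ε : Option ι ≃ V) {F : (V → ℂ) × (ι → V → ℂ) → ℂ}
    (hF : PM F) {y} (hy : F y ≠ 0) : ∃ b e, Frame b e ∧ F (b, e) ≠ 0 := by
  classical
  have hent : ∀ i j, PM fun M : Matrix V V ℂ => M i j := fun i j =>
    PM.id'.lin (Matrix.entryLinearMap ℂ ℂ i j)
  obtain ⟨M, hM, h⟩ := PM.exists_unitary
    (F := fun M : Matrix V V ℂ => F (fun i => M i (ε none), fun a i => M i (ε (some a))))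
    (hF.comp (PM.pair (PM.pi fun i => hent _ _) (PM.pi fun a => PM.pi fun i => hent _ _)))
    (M₀ := Matrix.of fun i j => (ε.symm j).elim (y.1 i) fun a => y.2 a i) (by simpa using hy)
  have key : ∀ j k, (fun i => M i (ε j)) ⬝ᵥ star (fun i => M i (ε k)) = if j = k then 1 else 0 := by
    intro j k
    have := congrFun (congrFun hM (ε k)) (ε j)
    simp only [mul_apply, conjTranspose_apply, one_apply, ε.apply_eq_iff_eq] at this
    simpa [dotProduct, mul_comm, eq_comm] using this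
  exact ⟨_, _, ⟨by simpa using key none none, fun a => by simpa using key none (some a),
    fun a => by simpa using key (some a) none, fun a c => by simpa using key (some a) (some c)⟩, h⟩

variable {f : (V → ℂ) → Option κ → ℂ} {g : ℂ × (V → ℂ) → Option κ → ℂ}
  {U : (V → ℂ) × ℂ × (V → ℂ) → ℂ} [DecidableEq ι] {b : V → ℂ} {e : ι → V → ℂ}

theorem IsData.pair (h : IsData f g U) (z w : V → ℂ) :
    f z ⬝ᵥ cj (f w) = (z ⬝ᵥ star w - 1) * U (z, 1, star w) := by rw [← h.hg, h.hU]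

theorem IsData.case1 (h : IsData f g U) (hb : Frame b e) (hq : f b none ≠ 0) {δ : ℕ}
    (t : Fin δ → ℂ) (hind : ∀ a (c : Fin δ → ℂ) (ν : ℂ),
      ∑ i, c i • f (b + t i • e a) = ν • f b → c = 0) :
    Fintype.card ι * δ + 1 ≤ Fintype.card κ := by
  have h1 : f b ⬝ᵥ cj (f b) = 0 := by simp [h.pair, hb.bb]
  have h2 : ∀ a (s : ℂ), f (b + s • e a) ⬝ᵥ cj (f b) = 0 := by simp [h.pair, hb.bb, hb.eb]
  have := count (w := fun s : ι × Fin δ => f (b + t s.2 • e s.1)) hq h1 (fun s => h2 _ _)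
    fun c μ hc => by
      set Z : ι → Option κ → ℂ := fun a => ∑ i, c (a, i) • f (b + t i • e a) with hZ
      have h3 : ∑ a, Z a = μ • f b := by rw [← hc, Fintype.sum_prod_type]
      have h4 : ∀ a, Z a ⬝ᵥ cj (f b) = 0 := by simp [hZ, sum_dotProduct, h2]
      have h5 : ∀ a a', a' ≠ a → Z a ⬝ᵥ cj (Z a') = 0 := by
        intro a a' ha
        simp [hZ, sum_dotProduct, dotProduct_sum, cj_sum, cj_smul, h.pair, hb.bb, hb.eb, hb.be,
          hb.ee, ha.symm]
      funext ⟨a, i⟩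
      have h6 : Z a ⬝ᵥ cj (Z a) = 0 := by
        have := congrArg (fun B => Z a ⬝ᵥ cj B) h3
        simp only [cj_sum, cj_smul, dotProduct_sum, dotProduct_smul, h4, smul_zero] at this
        rwa [Finset.sum_eq_single a (fun a' _ => h5 a a') (by simp)] at this
      obtain ⟨ν, hν⟩ := iso hq h1 (h4 a) h6
      exact congrFun (hind a _ ν hν) i
  simpa using this

theorem IsData.case2 (h : IsData f g U) (hb : Frame b e) (hq : f b none ≠ 0)
    (hU0 : U (b, 1, star b) ≠ 0) {k : ℕ} {s : Fin k → ℂ} (hs : ∀ i, s i ≠ 0)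
    {l : Fin k → (V → ℂ) → ℂ} (hl : ∀ i, PM (l i))
    (hrel : ∀ u, ∑ i, l i u • f (b + s i • u) = 0) {K : (V → ℂ) × ℂ × (V → ℂ) → ℂ} (hK : PM K)
    (hK1 : ∀ u σ ζ, ∑ i, l i u * U (b + s i • u, σ, ζ) = (u ⬝ᵥ ζ) * K (u, σ, ζ))
    {a₀ : ι} {ζ₀ : V → ℂ} (hne : (e a₀ ⬝ᵥ ζ₀) * K (e a₀, b ⬝ᵥ ζ₀, ζ₀) ≠ 0) :
    Fintype.card ι + (Fintype.card ι + 2).choose 3 + 1 ≤ Fintype.card κ := by
  have pf := h.pf
  have pg := h.pg
  have pU := h.pU
  obtain ⟨Yv, hY⟩ : ∃ Yv : (V → ℂ) → Option κ → ℂ,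
      ∀ u, Yv u = ∑ i, (l i u / s i) • f (b + s i • u) := ⟨_, fun _ => rfl⟩
  have pairY : ∀ u ζ, Yv u ⬝ᵥ g (b ⬝ᵥ ζ, ζ) = (u ⬝ᵥ ζ) ^ 2 * K (u, b ⬝ᵥ ζ, ζ) := by
    intro u ζ
    rw [hY, sum_dotProduct, sq, mul_assoc, ← hK1, Finset.mul_sum]
    refine Finset.sum_congr rfl fun i _ => ?_
    have := hs i
    rw [smul_dotProduct, h.hU, add_dotProduct, smul_dotProduct, smul_eq_mul, smul_eq_mul]
    field_simp
    ring
  obtain ⟨Ev, hE⟩ : ∃ Ev : (ι → ℂ) → V → ℂ, ∀ x, Ev x = ∑ a, x a • e a := ⟨_, fun _ => rfl⟩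
  have pE : PM Ev := by rw [funext hE]; fun_prop
  obtain ⟨ζ, hζ⟩ : ∃ ζ : Fin k → (ι → ℂ) → V → ℂ,
      ∀ j ω, ζ j ω = star b + conj (s j) • ∑ a, ω a • star (e a) := ⟨_, fun _ _ => rfl⟩
  have pζ : ∀ j, PM (ζ j) := fun j => by rw [funext (hζ j)]; fun_prop
  have hζs : ∀ j ω, ζ j ω = star (b + s j • Ev (star ω)) := by simp [hζ, hE]
  have hbζ : ∀ j ω, b ⬝ᵥ ζ j ω = 1 := by simp [hζ, dotProduct_sum, hb.bb, hb.be]
  have hEb : ∀ x, Ev x ⬝ᵥ star b = 0 := by simp [hE, sum_dotProduct, hb.eb]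
  have hEe : ∀ x c, Ev x ⬝ᵥ star (e c) = x c := by simp [hE, sum_dotProduct, hb.ee]
  have hEζ : ∀ j x ω, Ev x ⬝ᵥ ζ j ω = conj (s j) * (x ⬝ᵥ ω) := by
    intro j x ω
    simp only [hζ, dotProduct_add, dotProduct_smul, dotProduct_sum, hEb, hEe, smul_eq_mul]
    simp [dotProduct, mul_comm]
  obtain ⟨L, hL⟩ : ∃ L : Fin k → (ι → ℂ) → ℂ, ∀ j ω, L j ω = conj (l j (Ev (star ω))) :=
    ⟨_, fun _ _ => rfl⟩
  have pL : ∀ j, PM (L j) := fun j => by
    rw [funext (hL j)]; exact PM.conj ((hl j).comp pE)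
  have pairζ : ∀ u j ω, Yv u ⬝ᵥ g (1, ζ j ω) = (u ⬝ᵥ ζ j ω) ^ 2 * K (u, 1, ζ j ω) := by
    intro u j ω
    simpa only [hbζ] using pairY u (ζ j ω)
  have relc : ∀ ω, ∑ j, L j ω • g (1, ζ j ω) = 0 := by
    intro ω
    have := congrArg cj (hrel (Ev (star ω)))
    rw [cj_sum] at this
    simp only [cj_smul, ← h.hg, ← hζs, ← hL] at this
    rw [this]
    funext o; cases o <;> simp [cj]
  obtain ⟨T, hT⟩ : ∃ T : (ι → ℂ) × (ι → ℂ) → ℂ,
      ∀ y, T y = ∑ j, L j y.2 * conj (s j) * K (Ev y.1, 1, ζ j y.2) := ⟨_, fun _ => rfl⟩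
  have pT : PM T := by rw [funext hT]; fun_prop
  have pairT : ∀ x ω, Yv (Ev x) ⬝ᵥ cj (Yv (Ev (star ω))) = (x ⬝ᵥ ω) ^ 2 * T (x, ω) := by
    intro x ω
    rw [hY (Ev (star ω)), cj_sum, dotProduct_sum, hT, Finset.mul_sum]
    refine Finset.sum_congr rfl fun j _ => ?_
    have : conj (s j) ≠ 0 := by simpa using hs j
    rw [cj_smul, ← h.hg, ← hζs, dotProduct_smul, pairζ, hEζ, map_div₀, ← hL, smul_eq_mul]
    field_simp
  have hTz : ∀ y, y.1 ⬝ᵥ y.2 = 0 → T y = 0 := by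
    have hW : ∀ (τ : ℂ) (y : (ι → ℂ) × (ι → ℂ)), ∑ j, L j y.2 * ((τ + conj (s j)) ^ 2 *
        K (Ev y.1 + (τ * (y.1 ⬝ᵥ y.2)) • b, 1, ζ j y.2)) = 0 := fun τ =>
      PM.cancel (G := fun y => (y.1 ⬝ᵥ y.2) ^ 2) (by fun_prop) (by fun_prop)
        (y := (Pi.single a₀ 1, Pi.single a₀ 1)) (by simp) fun y => by
          have := congrArg (Yv (Ev y.1 + (τ * (y.1 ⬝ᵥ y.2)) • b) ⬝ᵥ ·) (relc y.2)
          simp only [dotProduct_sum, dotProduct_smul, pairζ, dotProduct_zero, add_dotProduct,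
            smul_dotProduct, hEζ, hbζ, smul_eq_mul] at this
          rw [← this, Finset.mul_sum]
          exact Finset.sum_congr rfl fun j _ => by ring
    intro y hy
    have h1 := hW 1 y
    have h2 := hW (-1) y
    simp only [hy, mul_zero, zero_smul, add_zero] at h1 h2
    have : 4 * T y = 0 := by
      rw [hT, Finset.mul_sum, ← sub_zero 0]
      nth_rw 1 [← h1, ← h2]
      rw [← Finset.sum_sub_distrib]
      exact Finset.sum_congr rfl fun j _ => by ring
    simpa using this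
  have h1 : f b ⬝ᵥ cj (f b) = 0 := by simp [h.pair, hb.bb]
  have hYb : ∀ x, Yv (Ev x) ⬝ᵥ cj (f b) = 0 := by
    intro x
    have := pairY (Ev x) (star b)
    rwa [hb.bb, h.hg, hEb, zero_pow two_ne_zero, zero_mul] at this
  have hT0 : T (Pi.single a₀ 1, Pi.single a₀ 1) ≠ 0 := by
    intro h0
    have h2 := pairT (Pi.single a₀ 1) (Pi.single a₀ 1)
    have h3 : Ev (Pi.single a₀ 1) = e a₀ := by simp [hE, Pi.single_apply]
    rw [h0, mul_zero, show star (Pi.single a₀ 1 : ι → ℂ) = Pi.single a₀ 1 by simp] at h2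
    obtain ⟨ν, hν⟩ := iso hq h1 (hYb _) h2
    have h4 := pairY (e a₀) ζ₀
    rw [← h3, hν, h3, smul_dotProduct, h.hU, sub_self, zero_mul, smul_zero, sq, mul_assoc] at h4
    exact mul_ne_zero (left_ne_zero_of_mul hne) hne h4.symm
  obtain ⟨x, hx⟩ := cubic a₀ (m := fun s : Sym ι 3 => (s : Multiset ι)) Subtype.val_injective
    (fun s => s.2) pT hT0 hTz
  choose G hG using fun c => PM.tangent (γ := fun σ : ℂ => g (1, star b + σ • star (e c)))
    (by fun_prop)
  choose F hF using fun a => PM.tangent (γ := fun τ : ℂ => f (b + τ • e a)) (by fun_prop)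
  have hFG : ∀ a c, F a ⬝ᵥ G c = if a = c then U (b, 1, star b) else 0 := by
    intro a c
    rw [dotProduct_comm, hF a (G c) (fun τ => (if a = c then 1 else 0) *
      U (b + τ • e a, 1, star b)) (by fun_prop) fun τ => ?_]
    · simp
    · rw [dotProduct_comm, hG c _ (fun σ => τ * ((if a = c then 1 else 0) *
        U (b + τ • e a, 1, star b + σ • star (e c)))) (by fun_prop) fun σ => ?_]
      · simp
      · simp only [h.hU, add_dotProduct, dotProduct_add, smul_dotProduct, dotProduct_smul, hb.bb,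
          hb.be, hb.eb, hb.ee, smul_eq_mul]
        ring
  have hFb : ∀ a, F a ⬝ᵥ cj (f b) = 0 := fun a => by
    rw [dotProduct_comm, hF a _ (fun _ => 0) (by fun_prop) fun τ => ?_]
    rw [dotProduct_comm]
    simp [h.pair, hb.bb, hb.eb]
  have hbG : ∀ c, f b ⬝ᵥ G c = 0 := fun c =>
    hG c _ (fun _ => 0) (by fun_prop) fun σ => by simp [h.hU, hb.bb, hb.be]
  have hYG : ∀ x c, Yv (Ev x) ⬝ᵥ G c = 0 := fun x c => by
    rw [hG c _ (fun σ => σ * (x c ^ 2 * K (Ev x, 1, star b + σ • star (e c)))) (by fun_prop)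
      fun σ => ?_, zero_mul]
    have := pairY (Ev x) (star b + σ • star (e c))
    simp only [dotProduct_add, dotProduct_smul, hb.bb, hb.be, hEb, hEe, smul_eq_mul, mul_zero,
      add_zero, zero_add] at this
    rw [this]
    ring
  have := count (w := Sum.elim F fun s => Yv (Ev (x s))) hq h1
    (by rintro (a | s); exacts [hFb a, hYb _]) fun c μ hc => by
      rw [Fintype.sum_sum_type] at hc
      simp only [Sum.elim_inl, Sum.elim_inr] at hc
      have e1 : ∀ a, c (Sum.inl a) = 0 := fun a => by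
        have := congrArg (· ⬝ᵥ G a) hc
        simpa [sum_dotProduct, hFG, hYG, hbG, hU0] using this
      have e2 := hx (fun s => c (Sum.inr s)) fun ω => by
        have := congrArg (· ⬝ᵥ cj (Yv (Ev (star ω)))) hc
        simp only [e1, zero_smul, Finset.sum_const_zero, zero_add, sum_dotProduct,
          smul_dotProduct, pairT, smul_eq_mul] at this
        rw [this, dot_cj_conj, hYb, map_zero, mul_zero]
      funext o
      cases o with
      | inl a => exact e1 a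
      | inr s => exact congrFun e2 s
  rwa [Fintype.card_sum, Sym.card_sym_eq_choose] at this

theorem IsData.main (h : IsData f g U) (ε : Option ι ≃ V) (a₀ : ι) {z₀ : V → ℂ}
    (hq : f z₀ none ≠ 0) (hopf : ∀ b, b ⬝ᵥ star b = 1 → f b none ≠ 0 → U (b, 1, star b) ≠ 0)
    {δ : ℕ} {t : Fin δ → ℂ} (ht : ∀ i, t i ≠ 0) {u₀ : V → ℂ}
    (hp : ∀ c : Fin δ → ℂ, (∀ y, ∑ i, c i * U (t i • u₀, y) = 0) → c = 0) :
    Fintype.card ι * δ + 1 ≤ Fintype.card κ ∨
      Fintype.card ι + (Fintype.card ι + 2).choose 3 + 1 ≤ Fintype.card κ := by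
  classical
  have pf := h.pf
  have pU := h.pU
  obtain ⟨t', ht0, ht1⟩ : ∃ t' : Fin (δ + 1) → ℂ, t' 0 = 0 ∧ ∀ i, t' (Fin.succ i) = t i :=
    ⟨Fin.cons 0 t, rfl, fun _ => rfl⟩
  rcases exists_det_or_rel (fun i k (y : (V → ℂ) × (V → ℂ)) => f (y.1 + t' i • y.2) k)
    (by fun_prop) with ⟨c, y₀, hc⟩ | ⟨l, hl, hl0, hrel⟩
  · left
    have pΔ : PM fun y : (V → ℂ) × (V → ℂ) =>
        (Matrix.of fun i j => f (y.1 + t' i • y.2) (c j)).det := PM.det (by fun_prop)
    obtain ⟨y₁, h1, h2⟩ := pΔ.exists_ne (G := fun y => f y.1 none) (by fun_prop) hc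
      (y := (z₀, 0)) hq
    obtain ⟨b, e, hb, h3⟩ := exists_frame ε (F := fun y => f y.1 none *
      ∏ a, (Matrix.of fun i j => f (y.1 + t' i • y.2 a) (c j)).det)
      (PM.mul (by fun_prop) (PM.prod fun a => PM.det (by fun_prop))) (y := (y₁.1, fun _ => y₁.2))
      (mul_ne_zero h2 (Finset.prod_ne_zero_iff.2 fun _ _ => h1))
    refine h.case1 hb (left_ne_zero_of_mul h3) t fun a c' ν hc' => funext fun i => ?_
    have := Matrix.eq_zero_of_vecMul_eq_zero (v := Fin.cons (-ν) c')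
      (Finset.prod_ne_zero_iff.1 (right_ne_zero_of_mul h3) a (Finset.mem_univ a))
      (funext fun j => by
        have := congrFun hc' (c j)
        simp only [Finset.sum_apply, Pi.smul_apply, smul_eq_mul] at this
        simp [vecMul, dotProduct, Fin.sum_univ_succ, ht0, ht1, this])
    simpa using congrFun this i.succ
  right
  have hid : ∀ (y : (V → ℂ) × (V → ℂ)) σ ζ,
      (y.1 ⬝ᵥ ζ - σ) * ∑ i, l i y * U (y.1 + t' i • y.2, σ, ζ) +
        (y.2 ⬝ᵥ ζ) * ∑ i, l i y * t' i * U (y.1 + t' i • y.2, σ, ζ) = 0 := by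
    intro y σ ζ
    have h1 : ∑ i, l i y • f (y.1 + t' i • y.2) = 0 := by
      funext k; simpa using hrel k y
    have := congrArg (· ⬝ᵥ g (σ, ζ)) h1
    simp only [sum_dotProduct, smul_dotProduct, h.hU, zero_dotProduct, add_dotProduct,
      smul_eq_mul] at this
    rw [← this, Finset.mul_sum, Finset.mul_sum, ← Finset.sum_add_distrib]
    exact Finset.sum_congr rfl fun i _ => by ring
  obtain ⟨K, hK, eK⟩ := PM.divide (E := ((V → ℂ) × (V → ℂ)) × ℂ × (V → ℂ))
    (F := fun y => ∑ i, l i y.1 * t' i * U (y.1.1 + t' i • y.1.2, y.2))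
    (g := fun y => y.2.1 - y.1.1 ⬝ᵥ y.2.2) (d := (0, 1, 0)) (by fun_prop) (by fun_prop)
    (fun y s => by simp; ring) fun y hy => by
      have := PM.cancel (E := ((V → ℂ) × (V → ℂ)) × (V → ℂ))
        (F := fun y => ∑ i, l i y.1 * t' i * U (y.1.1 + t' i • y.1.2, y.1.1 ⬝ᵥ y.2, y.2))
        (G := fun y => y.1.2 ⬝ᵥ y.2) (by fun_prop) (by fun_prop)
        (y := ((0, Pi.single (ε none) 1), Pi.single (ε none) 1)) (by simp)
        (fun y => by simpa using hid y.1 (y.1.1 ⬝ᵥ y.2) y.2) (y.1, y.2.2)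
      simpa only [← sub_eq_zero.1 hy] using this
  have eS := PM.cancel (E := ((V → ℂ) × (V → ℂ)) × ℂ × (V → ℂ))
    (F := fun y => ∑ i, l i y.1 * U (y.1.1 + t' i • y.1.2, y.2) - (y.1.2 ⬝ᵥ y.2.2) * K y)
    (G := fun y => y.2.1 - y.1.1 ⬝ᵥ y.2.2) (by fun_prop) (by fun_prop) (y := (0, 1, 0)) (by simp)
    fun y => by
      have h1 := hid y.1 y.2.1 y.2.2
      rw [eK y] at h1
      linear_combination -h1
  have hK0 : ∃ y, K y ≠ 0 := by
    by_contra! h0
    obtain ⟨c, hc⟩ := exists_det (fun i y => U (t i • u₀, y)) hp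
    have h1 : ∀ i y, l (Fin.succ i) y = 0 := fun i => PM.cancel
      (G := fun y => (Matrix.of fun i j => U (y.1 + t i • y.2, c j)).det) (hl _)
      (PM.det (by fun_prop)) (y := (0, u₀)) (by simpa using hc) fun y => by
        rw [mul_eq_zero, or_iff_not_imp_left]
        intro hd
        have := Matrix.eq_zero_of_vecMul_eq_zero (v := fun i => l i.succ y * t i) hd
          (funext fun j => by
            have := eK (y, c j)
            simpa [h0, vecMul, dotProduct, Fin.sum_univ_succ, ht0, ht1] using this)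
        simpa [ht] using congrFun this i
    obtain ⟨b, e, hb, h2⟩ := exists_frame ε (F := fun y => f y.1 none) (by fun_prop)
      (y := (z₀, 0)) hq
    have h3 := PM.cancel (E := ((V → ℂ) × (V → ℂ)) × ℂ × (V → ℂ)) (F := fun y => l 0 y.1)
      (G := fun y => U (y.1.1, y.2)) ((hl 0).comp (by fun_prop)) (by fun_prop)
      (y := ((b, 0), 1, star b)) (hopf b hb.bb h2) fun y => by
        simpa [h0, Fin.sum_univ_succ, h1, ht0, mul_comm] using eS y
    obtain ⟨i, y, hi⟩ := hl0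
    exact hi (Fin.cases (h3 (y, 0)) (fun i => h1 i y) i)
  obtain ⟨y₀, hy₀⟩ := hK0
  obtain ⟨y₁, h1, h2⟩ := hK.exists_ne
    (G := fun y => ∏ i, (y.1.1 ⬝ᵥ y.2.2 - y.2.1 + t' i * (y.1.2 ⬝ᵥ y.2.2))) (by fun_prop) hy₀
    (y := (0, 1, 0)) (by simp)
  obtain ⟨⟨⟨β, η⟩, σ, ζ⟩, h3, h4⟩ := PM.exists_ne (F := fun y => K y *
    ∏ i, (y.1.1 ⬝ᵥ y.2.2 - y.2.1 + t' i * (y.1.2 ⬝ᵥ y.2.2))) (G := fun y => y.1.2 ⬝ᵥ y.2.2)
    (by fun_prop) (by fun_prop) (mul_ne_zero h1 h2)
    (y := ((0, Pi.single (ε none) 1), 0, Pi.single (ε none) 1)) (by simp)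
  simp only at h3 h4
  obtain ⟨c, hc⟩ : ∃ c, c * (η ⬝ᵥ ζ) = β ⬝ᵥ ζ - σ := ⟨_, div_mul_cancel₀ _ h4⟩
  obtain ⟨y₂, h5, h6⟩ := PM.exists_ne (E := (V → ℂ) × (ι → V → ℂ)) (F := fun y => f y.1 none)
    (G := fun y => (y.2 a₀ ⬝ᵥ ζ) * K ((y.1 + c • y.2 a₀, y.2 a₀), y.1 ⬝ᵥ ζ, ζ)) (by fun_prop)
    (by fun_prop) (x := (z₀, 0)) hq (y := (β - c • η, fun _ => η))
    (mul_ne_zero h4 (by simpa [hc] using left_ne_zero_of_mul h3))
  obtain ⟨b, e, hb, h7⟩ := exists_frame ε (F := fun y => f y.1 none *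
    ((y.2 a₀ ⬝ᵥ ζ) * K ((y.1 + c • y.2 a₀, y.2 a₀), y.1 ⬝ᵥ ζ, ζ))) (by fun_prop)
    (mul_ne_zero h5 h6)
  have hsh : ∀ i (u : V → ℂ), b + (t' i + c) • u = b + c • u + t' i • u := fun i u => by
    rw [add_smul]; abel
  refine h.case2 hb (left_ne_zero_of_mul h7) (hopf b hb.bb (left_ne_zero_of_mul h7))
    (s := fun i => t' i + c) (l := fun i u => l i (b + c • u, u))
    (K := fun y => K ((b + c • y.1, y.1), y.2)) (fun i h0 => ?_)
    (fun i => (hl i).comp (by fun_prop)) (fun u => ?_) (by fun_prop) (fun u σ ζ => ?_)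
    (right_ne_zero_of_mul h7)
  · refine Finset.prod_ne_zero_iff.1 (right_ne_zero_of_mul h3) i (Finset.mem_univ i) ?_
    linear_combination (η ⬝ᵥ ζ) * h0 - hc
  · funext k
    simpa [hsh] using hrel k (b + c • u, u)
  · simpa only [hsh] using sub_eq_zero.1 (eS ((b + c • u, u), σ, ζ))

/-- Polarisation of a polynomial map sending the sphere into the null cone. -/
theorem exists_data [Nonempty V] (pf : PM f)
    (hs : ∀ z, z ⬝ᵥ star z = 1 → f z ⬝ᵥ cj (f z) = 0) : ∃ g U, IsData f g U := by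
  classical
  have p1 : PM fun ζ : V → ℂ => cj (f (star ζ)) := PM.pi fun k => by
    cases k with
    | none => exact (PM.conj (F := fun z => f z none) (by fun_prop)).neg
    | some j => exact PM.conj (F := fun z => f z (some j)) (by fun_prop)
  obtain ⟨D, g, pg, hg⟩ := p1.homog_pi
  obtain ⟨i₀⟩ := ‹Nonempty V›
  have h1 := PM.cancel (E := (V → ℂ) × (V → ℂ)) (F := fun y => f y.1 ⬝ᵥ g (y.1 ⬝ᵥ y.2, y.2))
    (G := fun y => y.1 ⬝ᵥ y.2) (by fun_prop) (by fun_prop)
    (y := (Pi.single i₀ 1, Pi.single i₀ 1)) (by simp) (PM.realForm (by fun_prop) fun z => by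
      rw [mul_eq_zero, or_iff_not_imp_left]
      intro hz
      have hn : z ⬝ᵥ star z = (nsq z : ℝ) := by simp [nsq_coe, dotProduct]
      simp only [hn] at hz ⊢
      have hpos : 0 < nsq z := (nsq_nonneg z).lt_of_ne' (by simpa using hz)
      have := PM.circle_zero (F := fun s => f (s • z) ⬝ᵥ g (s * (nsq z : ℝ), star z))
        (by fun_prop) (ρ := (√(nsq z))⁻¹) (by positivity) (fun s hs' => by
          have h2 : s * conj s * (nsq z : ℝ) = 1 := by
            rw [mul_conj, normSq_eq_norm_sq, hs', inv_pow, Real.sq_sqrt hpos.le, ← ofReal_mul,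
              inv_mul_cancel₀ hpos.ne', ofReal_one]
          have h3 : (s * (nsq z : ℝ))⁻¹ = conj s :=
            inv_eq_of_mul_eq_one_right (by linear_combination h2)
          have h4 : s * (nsq z : ℝ) ≠ 0 := by
            intro h0
            exact one_ne_zero (by linear_combination -h2 + conj s * h0 : (1 : ℂ) = 0)
          rw [hg _ _ h4, h3, dotProduct_smul]
          have := hs (s • z) (by simp [hn, ← h2]; ring)
          simp [this]) 1
      simpa using this)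
  obtain ⟨U, pU, hU⟩ := PM.divide (E := (V → ℂ) × ℂ × (V → ℂ)) (F := fun y => f y.1 ⬝ᵥ g y.2)
    (g := fun y => y.1 ⬝ᵥ y.2.2 - y.2.1) (d := (0, -1, 0)) (by fun_prop) (by fun_prop)
    (fun y s => by simp; ring) fun y hy => by
      simpa only [sub_eq_zero.1 hy] using h1 (y.1, y.2.2)
  exact ⟨g, U, pf, pg, pU, fun w => by simp [hg], fun z s ζ => hU (z, s, ζ)⟩

end Pool.Agent.Lib.MP_7906d6_an.Rat
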