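import Mathlib
import Pool.Agent.Lib.MP_7906d6_an.RatAlg
import Pool.Agent.Lib.MP_7906d6_an.Holo

/-!
Degree on discs and jet determination for rational proper maps between balls.
-/

namespace Pool.Agent.Lib.MP_7906d6_an.Rat

open Metric Set Filter Topology Polynomial Complex Matrix
open scoped ComplexConjugate

variable {V : Type*} [Fintype V] {N : ℕ}

theorem nsq_smul (t : ℂ) (u : V → ℂ) : nsq (t • u) = ‖t‖ ^ 2 * nsq u := by
  simp [nsq, Finset.mul_sum, normSq_eq_norm_sq, mul_pow]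

theorem dot_star (u : V → ℂ) : u ⬝ᵥ star u = (nsq u : ℝ) := by simp [nsq_coe, dotProduct]

/-- `f = (q, p)` presents `Φ = p / q`, and `Φ` is inner on each disc through the origin. -/
structure RatData (Φ : (V → ℂ) → Fin N → ℂ) (f : (V → ℂ) → Option (Fin N) → ℂ) : Prop where
  pf : PM f
  ne : ∀ z, nsq z < 1 → f z none ≠ 0
  eq : ∀ z, nsq z < 1 → ∀ j, f z (some j) = f z none * Φ z j
  inner : ∀ u, nsq u = 1 → Inner fun t : ℂ => Φ (t • u)

variable {Φ : (V → ℂ) → Fin N → ℂ} {f : (V → ℂ) → Option (Fin N) → ℂ}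

theorem nsq_smul_lt {u : V → ℂ} (hu : nsq u = 1) {t : ℂ} (ht : ‖t‖ < 1) : nsq (t • u) < 1 := by
  rw [nsq_smul, hu, mul_one]
  exact pow_lt_one₀ (norm_nonneg _) ht two_ne_zero

theorem RatData.rep (h : RatData Φ f) {u : V → ℂ} (hu : nsq u = 1) :
    ∃ (k : ℕ) (P : Option (Fin N) → ℂ[X]), (∀ o (t : ℂ), f (t • u) o = (P o).eval t) ∧
      IsRep (fun t : ℂ => Φ (t • u)) k (fun j => P (some j)) (P none) := by
  have := h.pf
  choose P hP using fun o => PM.poly (F := fun t : ℂ => f (t • u) o) (by fun_prop)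
  have hd : ∀ o, (P o).natDegree ≤ Finset.univ.sup fun o => (P o).natDegree := fun o =>
    Finset.le_sup (f := fun o => (P o).natDegree) (Finset.mem_univ o)
  refine ⟨_, P, hP, fun h0 => ?_, fun j => hd _, hd _, fun t ht j => ?_⟩
  · exact h.ne _ (nsq_smul_lt hu (t := 0) (by simp)) (by rw [hP, h0, eval_zero])
  · rw [← hP, ← hP, h.eq _ (nsq_smul_lt hu ht)]

theorem RatData.sphere (h : RatData Φ f) (z : V → ℂ) (hz : z ⬝ᵥ star z = 1) :
    f z ⬝ᵥ cj (f z) = 0 := by
  have hu : nsq z = 1 := by exact_mod_cast (dot_star z).symm.trans hz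
  obtain ⟨k, P, hP, hr⟩ := h.rep hu
  have := congrArg ofReal (hr.circle (h.inner z hu) (t := 1) (by simp))
  rw [nsq_coe, ← mul_conj] at this
  simp only [← hP, one_smul] at this
  rw [dot_cj, this, sub_self]

theorem eq_of_disc {P Q : ℂ[X]} (h : ∀ t : ℂ, ‖t‖ < 1 → P.eval t = Q.eval t) : P = Q :=
  sub_eq_zero.1 (poly_circle_zero (ρ := 1 / 2) (by norm_num) fun t ht _ => by
    rw [eval_sub, h t (by rw [ht]; norm_num), sub_self])

variable {g : ℂ × (V → ℂ) → Option (Fin N) → ℂ} {U : (V → ℂ) × ℂ × (V → ℂ) → ℂ}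

theorem RatData.hopf (h : RatData Φ f) (hd : IsData f g U) (b : V → ℂ) (hb : b ⬝ᵥ star b = 1)
    (hq : f b none ≠ 0) : U (b, 1, star b) ≠ 0 := by
  intro h0
  have hu : nsq b = 1 := by exact_mod_cast (dot_star b).symm.trans hb
  obtain ⟨k, P, hP, hr⟩ := h.rep hu
  obtain ⟨δ, A, B, hm⟩ := exists_minRep hr
  have hq' : conj (f b none) ≠ 0 := by simpa using hq
  have hs := h.sphere b hb
  rw [dot_cj] at hs
  refine hm.hopf (h.inner b hu) (a := fun j => f b (some j) / f b none) ?_ ?_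
  · have : (nsq (fun j => f b (some j) / f b none) : ℂ) = 1 := by
      simp only [nsq_coe, map_div₀, div_mul_div_comm, ← Finset.sum_div]
      rw [sub_eq_zero.1 hs, div_self (mul_ne_zero hq hq')]
    exact_mod_cast this
  have pU := hd.pU
  obtain ⟨W, hW⟩ := PM.poly (F := fun t : ℂ => U (t • b, 1, star b)) (by fun_prop)
  obtain ⟨W', hW'⟩ : X - C 1 ∣ W := dvd_iff_isRoot.2 (by simpa [h0] using (hW 1).symm)
  refine (prime_X_sub_C (1 : ℂ)).pow_dvd_of_dvd_mul_left 2 (a := P none * C (conj (f b none)))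
    (fun h1 => ?_) ⟨-(B * W'), eq_of_disc fun t ht => ?_⟩
  · have := dvd_iff_isRoot.1 h1
    simp only [IsRoot.def, eval_mul, eval_C, ← hP, one_smul] at this
    exact mul_ne_zero hq hq' this
  · have h1 := hd.pair (t • b) b
    rw [dot_cj, hW, hW', smul_dotProduct, hb] at h1
    simp only [h.eq _ (nsq_smul_lt hu ht), eval_mul, eval_sub, eval_X, eval_C, smul_eq_mul,
      mul_assoc, ← Finset.mul_sum] at h1
    simp only [eval_mul, eval_sub, eval_X, eval_C, eval_finsetSum, eval_pow, eval_neg, ← hP,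
      hm.eq t ht, map_div₀, mul_assoc, ← Finset.mul_sum, ← mul_div_assoc, ← Finset.sum_div]
    field_simp
    linear_combination (-B.eval t) * h1

theorem RatData.pick (h : RatData Φ f) (hd : IsData f g U) {u : V → ℂ} (hu : nsq u = 1) {δ : ℕ}
    {A : Fin N → ℂ[X]} {B : ℂ[X]} (hm : MinRep (fun t : ℂ => Φ (t • u)) δ A B) {t : Fin δ → ℂ}
    (ht : Function.Injective t) (ht1 : ∀ i, ‖t i‖ < 1) (c : Fin δ → ℂ)
    (hc : ∀ y, ∑ i, c i * U (t i • u, y) = 0) : c = 0 := by
  have := hm.pick (h.inner u hu) ht ht1 (c := fun i => c i * f (t i • u) none) fun w hw => by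
    have hq : conj (f (w • u) none) ≠ 0 := by simpa using h.ne _ (nsq_smul_lt hu hw)
    refine mul_left_cancel₀ hq ?_
    rw [mul_zero, Finset.mul_sum]
    refine Eq.trans (Finset.sum_congr rfl fun i _ => ?_) (hc (1, star (w • u)))
    have h1 := hd.pair (t i • u) (w • u)
    have h2 : 1 - t i * conj w ≠ 0 := by
      intro h0
      have h1 : ‖t i * conj w‖ = 1 := by rw [← sub_eq_zero.1 h0]; simp
      rw [norm_mul, norm_conj] at h1
      nlinarith [ht1 i, norm_nonneg (t i), norm_nonneg w]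
    have h3 : (t i • u) ⬝ᵥ star (w • u) = t i * conj w := by simp [dot_star, hu, mul_comm]
    rw [dot_cj, h3] at h1
    simp only [h.eq _ (nsq_smul_lt hu hw), h.eq _ (nsq_smul_lt hu (ht1 i)), map_mul,
      mul_mul_mul_comm (f (t i • u) none), ← Finset.mul_sum] at h1
    field_simp
    linear_combination (-c i) * h1
  funext i
  exact (mul_eq_zero.1 (congrFun this i)).resolve_right (h.ne _ (nsq_smul_lt hu (ht1 i)))

/-- The degree estimate on discs through the origin. -/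
theorem RatData.degree {m : ℕ} {Φ : (Fin (m + 2) → ℂ) → Fin N → ℂ}
    {f : (Fin (m + 2) → ℂ) → Option (Fin N) → ℂ} (h : RatData Φ f) {u : Fin (m + 2) → ℂ}
    (hu : nsq u = 1) {δ : ℕ} {A : Fin N → ℂ[X]} {B : ℂ[X]}
    (hm : MinRep (fun t : ℂ => Φ (t • u)) δ A B) :
    (m + 1) * δ + 1 ≤ N ∨ m + 1 + (m + 3).choose 3 + 1 ≤ N := by
  obtain ⟨g, U, hd⟩ := exists_data h.pf h.sphere
  have hpos : (0 : ℝ) < δ + 1 := by positivity
  have := hd.main (finSuccEquiv (m + 1)).symm 0 (h.ne 0 (by simp [nsq])) (h.hopf hd)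
    (t := fun i : Fin δ => (((i + 1 : ℝ) / (δ + 1) : ℝ) : ℂ))
    (fun i => ofReal_ne_zero.2 (by positivity)) (h.pick hd hu hm (fun i j hij => ?_) fun i => ?_)
  · simpa using this
  · have := (div_left_inj' hpos.ne').1 (ofReal_injective hij)
    exact Fin.ext (by exact_mod_cast add_right_cancel this)
  · rw [norm_real, Real.norm_of_nonneg (by positivity), div_lt_one hpos]
    exact_mod_cast Nat.succ_lt_succ i.2

theorem RatData.eq_of_isBigO {Ψ : (V → ℂ) → Fin N → ℂ} {f' : (V → ℂ) → Option (Fin N) → ℂ}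
    (h : RatData Φ f) (h' : RatData Ψ f') {u : V → ℂ} (hu : nsq u = 1) {r : ℕ}
    (hr : ∀ δ A B, MinRep (fun t : ℂ => Φ (t • u)) δ A B → δ ≤ r)
    (hO : ∀ j, (fun t : ℂ => Φ (t • u) j - Ψ (t • u) j) =O[𝓝 0] fun t => ‖t‖ ^ (r + 1))
    {t : ℂ} (ht : ‖t‖ < 1) : Φ (t • u) = Ψ (t • u) := by
  obtain ⟨_, _, -, h1⟩ := h.rep hu
  obtain ⟨_, _, -, h2⟩ := h'.rep hu
  obtain ⟨δ, A, B, hm⟩ := exists_minRep h1
  obtain ⟨δ', A', B', hm'⟩ := exists_minRep h2
  refine hm.jet (h.inner u hu) hm' (h'.inner u hu) (fun j => (pow_dvd_pow _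
    (Nat.succ_le_succ (hr _ _ _ hm))).trans (X_pow_dvd_of_isBigO ?_)) ht
  have h3 := (((B * B').continuous.tendsto 0).isBigO_one ℝ).mul (hO j)
  simp only [one_mul] at h3
  refine h3.congr' ?_ EventuallyEq.rfl
  filter_upwards [ball_mem_nhds (0 : ℂ) one_pos] with s hs
  rw [mem_ball_zero_iff] at hs
  simp only [eval_mul, eval_sub, hm.eq s hs, hm'.eq s hs]
  ring

theorem nsq_eq_norm {ι : Type*} [Fintype ι] (z : EuclideanSpace ℂ ι) : nsq z.ofLp = ‖z‖ ^ 2 := by
  simp [nsq, EuclideanSpace.norm_sq_eq, normSq_eq_norm_sq]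

section Jet

variable {E G : Type} [NormedAddCommGroup E] [NormedSpace ℂ E] [FiniteDimensional ℂ E]
  [NormedAddCommGroup G] [NormedSpace ℂ G] [CompleteSpace G]

theorem contDiffAt_zero {F : E → G} (hF : DifferentiableOn ℂ F (ball 0 1)) (k : ℕ) :
    ContDiffAt ℂ k F 0 :=
  (contDiffOn_of_differentiableOn isOpen_ball k hF).contDiffAt (ball_mem_nhds 0 one_pos)

theorem isBigO_of_jet {F : E → G} (hF : DifferentiableOn ℂ F (ball 0 1)) {r : ℕ}
    (h : ∀ k ≤ r, iteratedFDeriv ℂ k F 0 = 0) (u : E) :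
    (fun t : ℂ => F (t • u)) =O[𝓝 0] fun t => ‖t‖ ^ (r + 1) := by
  set L : ℂ →L[ℂ] E := ContinuousLinearMap.toSpanSingleton ℂ u with hL
  have ho : IsOpen (L ⁻¹' ball 0 1) := isOpen_ball.preimage L.continuous
  have h0 : (0 : ℂ) ∈ L ⁻¹' ball 0 1 := by simp
  have ha : AnalyticAt ℂ (F ∘ L) 0 :=
    (hF.comp L.differentiableOn (mapsTo_preimage _ _)).analyticAt (ho.mem_nhds h0)
  obtain ⟨g, hg, e⟩ := (natCast_le_analyticOrderAt ha).1
    ((natCast_le_analyticOrderAt_iff_iteratedDeriv_eq_zero (n := r + 1) ha).2 fun k hk => by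
      have := L.iteratedFDerivWithin_comp_right (contDiffOn_of_differentiableOn isOpen_ball k hF)
        isOpen_ball.uniqueDiffOn ho.uniqueDiffOn h0 (i := k) le_rfl
      rw [iteratedFDerivWithin_of_isOpen k ho h0, iteratedFDerivWithin_of_isOpen k isOpen_ball h0,
        map_zero, h k (Nat.lt_succ_iff.1 hk)] at this
      rw [iteratedDeriv_eq_iteratedFDeriv, this]
      rfl)
  have h1 := (Asymptotics.isBigO_refl (fun t : ℂ => t ^ (r + 1)) (𝓝 0)).smul
    (hg.continuousAt.tendsto.isBigO_one ℂ)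
  refine Asymptotics.isBigO_norm_right.2 (h1.congr' ?_ EventuallyEq.rfl) |>.congr_right (by simp)
  filter_upwards [e] with t ht
  simpa [hL] using ht.symm

end Jet

/-- Components of the generalised Whitney map. -/
noncomputable def whit (m d : ℕ) (s : ℂ) :
    Option (Fin d × Fin m) → MvPolynomial (Fin (m + 1)) ℂ
  | none => .C s * .X 0 ^ d
  | some (j, i) => .X 0 ^ (j : ℕ) * .X i.succ

theorem nsq_whit (m d : ℕ) {s : ℂ} (hs : normSq s = 1) (z : Fin (m + 1) → ℂ) :
    1 - nsq (fun o => MvPolynomial.eval z (whit m d s o)) =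
      (1 - nsq z) * ∑ j ∈ Finset.range d, normSq (z 0) ^ j := by
  have := geom_sum_mul (normSq (z 0)) d
  simp only [nsq, Fintype.sum_option, Fintype.sum_prod_type, whit, map_mul, map_pow,
    MvPolynomial.eval_C, MvPolynomial.eval_X, hs, ← Finset.mul_sum, ← Finset.sum_mul,
    Fin.sum_univ_succ, Finset.sum_range]
  rw [Finset.sum_range] at this
  linear_combination this

end Pool.Agent.Lib.MP_7906d6_an.Rat
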