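import Mathlib
import Pool.Agent.Lib.MP_7906d6_an.RatMain

/-!
A degree estimate for polarised sphere maps in all target dimensions.
-/

namespace Pool.Agent.Lib.MP_7906d6_an.Rat

open Polynomial Complex Matrix
open scoped ComplexConjugate

/-- Rank bound for multiples of a power of the pairing. -/
theorem powrank {ι S : Type*} [Fintype ι] [DecidableEq ι] [Fintype S] [DecidableEq S] (i₀ : ι)
    {r : ℕ} {m : S → Multiset ι} (hm : Function.Injective m) (hm3 : ∀ s, (m s).card = r)
    {T : (ι → ℂ) × (ι → ℂ) → ℂ} (hT : PM T) {y₀} (h0 : T y₀ ≠ 0) :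
    ∃ x : S → ι → ℂ, ∀ c : S → ℂ,
      (∀ ω, ∑ s, c s * ((x s ⬝ᵥ ω) ^ r * T (x s, ω)) = 0) → c = 0 := by
  obtain ⟨y₁, h1, hγ⟩ := hT.exists_ne (G := fun y => y.2 i₀) (by fun_prop) h0 (y := (0, 1))
    (by simp)
  obtain ⟨J, hJ⟩ : ∃ J : (ι → ℂ) → ι → ℂ, ∀ ω a, J ω a = if a = i₀ then y₁.2 i₀ else ω a :=
    ⟨_, fun _ _ => rfl⟩
  have hJp : PM J := PM.pi fun a => by
    simp only [hJ]
    by_cases h : a = i₀
    · simp only [if_pos h]; fun_prop
    · simp only [if_neg h]; fun_prop
  have hJ1 : J y₁.2 = y₁.2 := by funext a; rw [hJ]; split_ifs with h <;> simp [h]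
  obtain ⟨g, hg⟩ : ∃ g : (ι → ℂ) × (ι → ℂ) → ℂ, ∀ y, g y = y.1 ⬝ᵥ J y.2 := ⟨_, fun _ => rfl⟩
  have hgp : PM g := by rw [funext hg]; fun_prop
  obtain ⟨d, hd'⟩ : ∃ d : ι → ℂ, d = Pi.single i₀ (y₁.2 i₀)⁻¹ := ⟨_, rfl⟩
  have hd : ∀ x ω (t : ℂ), g (x + t • d, ω) = g (x, ω) + t := by
    intro x ω t
    simp [hg, hd', hJ, hγ]
  have hd2 : ∀ y (t : ℂ), g (y + t • (d, 0)) = g y + t := fun ⟨x, ω⟩ t => by
    simpa using hd x ω t
  obtain ⟨e, R, hR, eR, y, hy, hRy⟩ := PM.maxpow (F := fun y => T (y.1, J y.2)) (by fun_prop) hgp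
    hd2 (y₀ := y₁) (by simpa [hJ1] using h1)
  let Cl : ((ι → ℂ) × (ι → ℂ) → ℂ) → Prop := fun F => ∀ (x : S → ι → ℂ) (c : S → ℂ),
    (∀ ω, ∑ s, c s * ((x s ⬝ᵥ ω) ^ r * T (x s, ω)) = 0) → ∀ ω, ∑ s, c s * F (x s, ω) = 0
  have key : ∀ l : List ι, l.length ≤ r → ∃ (k : ℕ) (Q : (ι → ℂ) × (ι → ℂ) → ℂ) (μ : ℂ),
      PM Q ∧ μ ≠ 0 ∧ r ≤ k + l.length ∧ Cl (fun y => g y ^ k * Q y) ∧ ∀ y, g y = 0 →
        Q y = μ * (l.map fun a => if a = i₀ then 1 else y.1 a).prod * R y := by
    intro l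
    induction l with
    | nil =>
      refine fun _ => ⟨r + e, R, 1, hR, one_ne_zero, by omega, fun x c h ω => ?_, by simp⟩
      rw [← h (J ω)]
      refine Finset.sum_congr rfl fun s _ => ?_
      have := eR (x s, ω)
      simp only at this
      simp only [this, hg]
      ring
    | cons a l ih =>
      intro hl
      rw [List.length_cons] at hl
      obtain ⟨k, Q, μ, hQ, hμ, hk, hCl, eQ⟩ := ih (by omega)
      by_cases ha : a = i₀
      · exact ⟨k, Q, μ, hQ, hμ, by simp; omega, hCl, by simpa [ha] using eQ⟩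
      obtain ⟨k, rfl⟩ : ∃ j, k = j + 1 := ⟨k - 1, by omega⟩
      obtain ⟨Q', hQ', eQ'⟩ := hQ.hasDerivAt (0, Pi.single a 1)
      refine ⟨k, fun y => (k + 1) * y.1 a * Q y + g y * Q' y, (k + 1) * μ, by fun_prop,
        mul_ne_zero (Nat.cast_add_one_ne_zero k) hμ, by simp; omega, fun x c h ω => ?_,
        fun y hy => by simp [eQ y hy, hy, ha]; ring⟩
      have hga : ∀ s (t : ℂ), g (x s, ω + t • Pi.single a 1) = g (x s, ω) + t * x s a := by
        intro s t
        have : J (ω + t • Pi.single a 1) = J ω + t • Pi.single a 1 := by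
          funext b
          by_cases hb : b = i₀
          · simp [hJ, hb, Ne.symm ha]
          · simp [hJ, hb]
        simp [hg, this]
      refine Eq.trans (Finset.sum_congr rfl fun s _ => ?_) (deriv_sum_zero (c := c) (fun s =>
        ((((hasDerivAt_id' (0 : ℂ)).mul_const (x s a)).const_add (g (x s, ω))).fun_pow
          (k + 1)).fun_mul (eQ' (x s, ω))) fun t => ?_)
      · simp only [zero_mul, add_zero, zero_smul, one_mul, Nat.add_sub_cancel, Nat.cast_add,
          Nat.cast_one]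
        ring
      · rw [← hCl x c h (ω + t • Pi.single a 1)]
        refine Finset.sum_congr rfl fun s _ => ?_
        simp only [hga, Prod.smul_mk, smul_zero, Prod.mk_add_mk, add_zero]
  choose k Q μ hQ hμ _ hCl eQ using fun s : S => key (m s).toList (by simp [hm3])
  obtain ⟨x, hx⟩ := exists_det (fun s x => g (x, y.2) ^ k s * Q s (x, y.2)) fun c hc => by
    by_contra hc0
    obtain ⟨s₀, hs₀, hmin⟩ := Finset.exists_min_image (Finset.univ.filter fun s => c s ≠ 0) k
      (by simpa [Finset.Nonempty, funext_iff] using hc0)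
    simp only [Finset.mem_filter, Finset.mem_univ, true_and] at hs₀ hmin
    have h2 := PM.cancel (F := fun x => ∑ s, c s * (g (x, y.2) ^ (k s - k s₀) * Q s (x, y.2)))
      (G := fun x => g (x, y.2) ^ k s₀) (by fun_prop) (by fun_prop) (y := y.1 + (1 : ℂ) • d)
      (by rw [hd, hy]; simp) fun x => by
        rw [← hc x, Finset.mul_sum]
        refine Finset.sum_congr rfl fun s _ => ?_
        by_cases h : c s = 0
        · simp [h]
        · obtain ⟨j, hj⟩ := Nat.exists_eq_add_of_le (hmin s h)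
          rw [hj, Nat.add_sub_cancel_left]
          ring
    have h3 := monomial_indep i₀ hm hm3 (fun s => c s * 0 ^ (k s - k s₀) * μ s)
      (PM.cancel (G := fun x => R (x + (-g (x, y.2)) • d, y.2)) ?_ (by fun_prop) (y := y.1)
        (by simpa [hy] using hRy) fun x => ?_)
    · exact mul_ne_zero hs₀ (hμ s₀) (by simpa using congrFun h3 s₀)
    · refine PM.sum fun s => (PM.const _).mul ?_
      induction m s using Multiset.induction_on with
      | empty => simpa using PM.const (1 : ℂ)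
      | cons a m ih =>
        simp only [Multiset.map_cons, Multiset.prod_cons]
        refine PM.mul ?_ ih
        split_ifs <;> fun_prop
    · have h4 : g (x + (-g (x, y.2)) • d, y.2) = 0 := by rw [hd]; ring
      rw [Finset.mul_sum]
      refine Eq.trans (Finset.sum_congr rfl fun s _ => ?_) (h2 (x + (-g (x, y.2)) • d))
      rw [h4, eQ s _ h4, Multiset.prod_map_toList]
      have : (fun a => if a = i₀ then 1 else (x + (-g (x, y.2)) • d) a) =
          fun a => if a = i₀ then 1 else x a := by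
        funext a
        split_ifs with ha <;> simp [hd', ha]
      simp only [this]
      ring
  refine ⟨x, fun c hc => Matrix.eq_zero_of_mulVec_eq_zero hx (funext fun s => ?_)⟩
  simpa [mulVec, dotProduct, mul_comm] using hCl s x c hc y.2

/-- Division by a power of a coordinate function that is prime to `η`. -/
theorem PM.coprime {E : Type*} [AddCommGroup E] [Module ℂ E] {γ η : E → ℂ} (hγ : PM γ)
    (hη : PM η) {d y₁ : E} (hd : ∀ y (t : ℂ), γ (y + t • d) = γ y + t)
    (hd' : ∀ y (t : ℂ), η (y + t • d) = η y) (h1 : η y₁ ≠ 0) (k : ℕ) {A B : E → ℂ} (hA : PM A)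
    (hB : PM B) (h : ∀ y, η y * A y = γ y ^ k * B y) :
    ∃ K : E → ℂ, PM K ∧ (∀ y, A y = γ y ^ k * K y) ∧ ∀ y, B y = η y * K y := by
  induction k generalizing A with
  | zero => exact ⟨A, hA, by simp, fun y => by simpa using (h y).symm⟩
  | succ k ih =>
    obtain ⟨Q, hQ, e⟩ := hA.divide hγ hd fun y hy => by
      have := PM.cancel (F := fun y => A (y + (-γ y) • d)) (G := η) (by fun_prop) hη h1
        (fun y => by
          have h2 := h (y + (-γ y) • d)
          rw [hd, hd', add_neg_cancel, zero_pow k.succ_ne_zero, zero_mul] at h2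
          exact h2) y
      simpa [hy] using this
    obtain ⟨K, hK, e1, e2⟩ := ih hQ fun y => sub_eq_zero.1 (PM.cancel
      (F := fun y => η y * Q y - γ y ^ k * B y) (G := γ) (by fun_prop) hγ
      (y := y₁ + (1 - γ y₁) • d) (by rw [hd]; simp) (fun y => by
        have h2 := h y
        rw [e] at h2
        linear_combination h2) y)
    exact ⟨K, hK, fun y => by rw [e, e1]; ring, e2⟩

theorem sum_prod_zero {S R : Type*} [Fintype S] {a t : S → ℂ} {J : ℕ}
    (h : ∀ j ≤ J, ∑ i, a i * t i ^ j = 0) (s : Finset R) (c : R → ℂ) (hs : s.card ≤ J) :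
    ∑ i, a i * ∏ r ∈ s, (t i - c r) = 0 := by
  classical
  induction s using Finset.induction_on generalizing a J with
  | empty => simpa using h 0 J.zero_le
  | insert r s hr ih =>
    rw [Finset.card_insert_of_notMem hr] at hs
    obtain ⟨J, rfl⟩ : ∃ j, J = j + 1 := ⟨J - 1, by omega⟩
    have := ih (a := fun i => a i * (t i - c r)) (J := J) (fun j hj => by
      have h1 := h j (by omega)
      have h2 := h (j + 1) (by omega)
      rw [← sub_zero 0]
      nth_rw 1 [← h2]
      rw [← mul_zero (c r), ← h1, Finset.mul_sum, ← Finset.sum_sub_distrib]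
      exact Finset.sum_congr rfl fun i _ => by ring) (by omega)
    simpa only [Finset.prod_insert hr, mul_assoc] using this

theorem exists_ker {M : Type*} [AddCommGroup M] [Module ℂ M] [FiniteDimensional ℂ M]
    (W : Submodule ℂ M) (L : M →ₗ[ℂ] ℂ) {k : ℕ} (h : k + 1 ≤ Module.finrank ℂ W) :
    ∃ Z : Fin k → M, (∀ i, Z i ∈ W) ∧ (∀ i, L (Z i) = 0) ∧ LinearIndependent ℂ Z := by
  have h1 := (L.domRestrict W).finrank_range_add_finrank_ker
  have h2 : Module.finrank ℂ (LinearMap.range (L.domRestrict W)) ≤ 1 := by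
    simpa using (LinearMap.range (L.domRestrict W)).finrank_le
  obtain ⟨Z, hZ⟩ := exists_linearIndependent_of_le_finrank (R := ℂ)
    (M := LinearMap.ker (L.domRestrict W)) (n := k) (by omega)
  exact ⟨_, fun i => (Z i).1.2, fun i => (Z i).2,
    (hZ.map' _ (Submodule.ker_subtype _)).map' _ W.ker_subtype⟩

variable {V κ ι : Type*} [Fintype V] [Fintype κ] [Fintype ι]
variable {f : (V → ℂ) → Option κ → ℂ} {g : ℂ × (V → ℂ) → Option κ → ℂ}
  {U : (V → ℂ) × ℂ × (V → ℂ) → ℂ} [DecidableEq ι] {b : V → ℂ} {e : ι → V → ℂ}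

omit [Fintype κ] in
theorem cj_add (A B : Option κ → ℂ) : cj (A + B) = cj A + cj B := by
  funext k; cases k <;> simp [cj, add_comm]

omit [Fintype κ] in
theorem cj_zero : cj (0 : Option κ → ℂ) = 0 := by
  funext k; cases k <;> simp [cj]

/-- The spans of the images of orthogonal tangent lines are orthogonal. -/
theorem IsData.orth (h : IsData f g U) (hb : Frame b e) (hq : f b none ≠ 0) {k : ℕ}
    (hk : ∀ a, k + 1 ≤ Module.finrank ℂ
      (Submodule.span ℂ (Set.range fun t : ℂ => f (b + t • e a)))) :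
    Fintype.card ι * k + 1 ≤ Fintype.card κ := by
  obtain ⟨W, hW⟩ : ∃ W : ι → Submodule ℂ (Option κ → ℂ),
      ∀ a, W a = Submodule.span ℂ (Set.range fun t : ℂ => f (b + t • e a)) := ⟨_, fun _ => rfl⟩
  have h0 : ∀ a, ∃ Z : Fin k → Option κ → ℂ, (∀ i, Z i ∈ W a) ∧ (∀ i, Z i none = 0) ∧
      LinearIndependent ℂ Z := by
    intro a
    exact exists_ker (W a) (LinearMap.proj none) (hW a ▸ hk a)
  choose Z hZ hZ0 hZi using h0
  have h1 : f b ⬝ᵥ cj (f b) = 0 := by simp [h.pair, hb.bb]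
  have h2 : ∀ a A, A ∈ W a → A ⬝ᵥ cj (f b) = 0 := by
    intro a A hA
    rw [hW] at hA
    induction hA using Submodule.span_induction with
    | mem _ hx => obtain ⟨t, rfl⟩ := hx; simp [h.pair, hb.bb, hb.eb]
    | zero => simp
    | add _ _ _ _ e1 e2 => simp [e1, e2]
    | smul _ _ _ e1 => simp [e1]
  have h3 : ∀ a a', a' ≠ a → ∀ A ∈ W a, ∀ B ∈ W a', A ⬝ᵥ cj B = 0 := by
    intro a a' ha A hA B hB
    rw [hW] at hA hB
    induction hA using Submodule.span_induction with
    | mem _ hx =>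
      obtain ⟨t, rfl⟩ := hx
      induction hB using Submodule.span_induction with
      | mem _ hx =>
        obtain ⟨s, rfl⟩ := hx
        simp [h.pair, hb.bb, hb.eb, hb.be, hb.ee, ha.symm]
      | zero => simp [cj_zero]
      | add _ _ _ _ e1 e2 => rw [cj_add, dotProduct_add, e1, e2, add_zero]
      | smul _ _ _ e1 => rw [cj_smul, dotProduct_smul, e1, smul_zero]
    | zero => simp
    | add _ _ _ _ e1 e2 => simp [e1, e2]
    | smul _ _ _ e1 => simp [e1]
  have := count (w := fun s : ι × Fin k => Z s.1 s.2) hq h1 (fun s => h2 _ _ (hZ _ _))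
    fun c μ hc => by
      obtain ⟨A, hA⟩ : ∃ A : ι → Option κ → ℂ, ∀ a, A a = ∑ i, c (a, i) • Z a i :=
        ⟨_, fun _ => rfl⟩
      have h4 : ∑ a, A a = μ • f b := by simp only [hA]; rw [← hc, Fintype.sum_prod_type]
      have h5 : ∀ a, A a ∈ W a := fun a =>
        hA a ▸ Submodule.sum_mem _ fun i _ => Submodule.smul_mem _ _ (hZ a i)
      funext ⟨a, i⟩
      have h6 : A a ⬝ᵥ cj (A a) = 0 := by
        have := congrArg (fun B => A a ⬝ᵥ cj B) h4
        simp only [cj_sum, cj_smul, dotProduct_sum, dotProduct_smul, h2 a _ (h5 a),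
          smul_zero] at this
        rwa [Finset.sum_eq_single a (fun a' _ ha => h3 a a' ha _ (h5 a) _ (h5 a'))
          (by simp)] at this
      obtain ⟨ν, hν⟩ := iso hq h1 (h2 a _ (h5 a)) h6
      have h7 : ν = 0 := by simpa [hA, hZ0, hq] using (congrFun hν none).symm
      rw [h7, zero_smul, hA] at hν
      exact Fintype.linearIndependent_iff.1 (hZi a) _ hν i
  simpa using this

omit [Fintype V] in
/-- Independent moment vectors force a large span. -/
theorem le_finrank_of_det {p J : ℕ} {t : Fin p → ℂ} {u : V → ℂ} {c : Fin p → Fin J × Option κ}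
    (hc : (Matrix.of fun i j => t i ^ ((c j).1 : ℕ) * f (b + t i • u) (c j).2).det ≠ 0) :
    p ≤ J * Module.finrank ℂ (Submodule.span ℂ (Set.range fun t : ℂ => f (b + t • u))) := by
  have : LinearIndependent ℂ fun (i : Fin p) (j : Fin J) => t i ^ (j : ℕ) •
      (⟨f (b + t i • u), Submodule.subset_span ⟨_, rfl⟩⟩ :
        Submodule.span ℂ (Set.range fun t : ℂ => f (b + t • u))) := by
    rw [Fintype.linearIndependent_iff]
    intro l hl i
    refine congrFun (Matrix.eq_zero_of_vecMul_eq_zero (v := l) hc (funext fun j => ?_)) i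
    have := congrFun (congrArg Subtype.val (congrFun hl (c j).1)) (c j).2
    simpa [vecMul, dotProduct] using this
  simpa [Module.finrank_pi_fintype] using this.fintype_card_le_finrank

/-- Either all syzygies on a generic line are short, or the target is large. -/
theorem IsData.upper (h : IsData f g U) (ε : Option ι ≃ V) {z₀ : V → ℂ} (hq : f z₀ none ≠ 0)
    {δ J k : ℕ} {t : Fin (δ + J) → ℂ} (ht : Function.Injective t) {u₀ : V → ℂ}
    (hp : ∀ c : Fin δ → ℂ, (∀ y, ∑ i, c i * U (t (Fin.castAdd J i) • u₀, y) = 0) → c = 0)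
    (hk : J * k < δ) :
    Fintype.card ι * (k + 1) + 1 ≤ Fintype.card κ ∨
      (Fintype.card V + J).choose (J + 1) ≤ Fintype.card κ := by
  classical
  have pf := h.pf
  have pU := h.pU
  rcases exists_det_or_rel (fun i (j : Fin J × Option κ) (y : (V → ℂ) × (V → ℂ)) =>
    t i ^ (j.1 : ℕ) * f (y.1 + t i • y.2) j.2) (by fun_prop) with
    ⟨c, y₀, hc⟩ | ⟨l, hl, hl0, hrel⟩
  · left
    have pΔ : PM fun y : (V → ℂ) × (V → ℂ) => (Matrix.of fun i j =>
        t i ^ ((c j).1 : ℕ) * f (y.1 + t i • y.2) (c j).2).det := PM.det (by fun_prop)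
    obtain ⟨y₁, h1, h2⟩ := pΔ.exists_ne (G := fun y => f y.1 none) (by fun_prop) hc
      (y := (z₀, 0)) hq
    obtain ⟨b, e, hb, h3⟩ := exists_frame ε (F := fun y => f y.1 none *
      ∏ a, (Matrix.of fun i j => t i ^ ((c j).1 : ℕ) * f (y.1 + t i • y.2 a) (c j).2).det)
      (PM.mul (by fun_prop) (PM.prod fun a => PM.det (by fun_prop))) (y := (y₁.1, fun _ => y₁.2))
      (mul_ne_zero h2 (Finset.prod_ne_zero_iff.2 fun _ _ => h1))
    refine h.orth hb (left_ne_zero_of_mul h3) fun a => ?_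
    have := le_finrank_of_det
      (Finset.prod_ne_zero_iff.1 (right_ne_zero_of_mul h3) a (Finset.mem_univ a))
    exact Nat.lt_of_mul_lt_mul_left (a := J) (lt_of_lt_of_le (by rw [mul_add]; omega) this)
  right
  obtain ⟨X, hX⟩ : ∃ X : ℕ → ((V → ℂ) × (V → ℂ)) × ℂ × (V → ℂ) → ℂ, ∀ j y,
      X j y = ∑ i, l i y.1 * U (y.1.1 + t i • y.1.2, y.2) * t i ^ j := ⟨_, fun _ _ => rfl⟩
  have pX : ∀ j, PM (X j) := fun j => by rw [funext (hX j)]; fun_prop
  obtain ⟨γ, hγ⟩ : ∃ γ : ((V → ℂ) × (V → ℂ)) × ℂ × (V → ℂ) → ℂ, ∀ y,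
      γ y = y.2.1 - y.1.1 ⬝ᵥ y.2.2 := ⟨_, fun _ => rfl⟩
  have pγ : PM γ := by rw [funext hγ]; fun_prop
  obtain ⟨η, hη⟩ : ∃ η : ((V → ℂ) × (V → ℂ)) × ℂ × (V → ℂ) → ℂ, ∀ y,
      η y = y.1.2 ⬝ᵥ y.2.2 := ⟨_, fun _ => rfl⟩
  have pη : PM η := by rw [funext hη]; fun_prop
  have hη1 : η ((0, Pi.single (ε none) 1), 0, Pi.single (ε none) 1) ≠ 0 := by simp [hη]
  have hid : ∀ j < J, ∀ y, η y * X (j + 1) y = γ y * X j y := by
    intro j hj y
    have h1 : ∑ i, (l i y.1 * t i ^ j) • f (y.1.1 + t i • y.1.2) = 0 := by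
      funext o; simpa [mul_assoc] using hrel (⟨j, hj⟩, o) y.1
    have := congrArg (· ⬝ᵥ g (y.2.1, y.2.2)) h1
    simp only [sum_dotProduct, smul_dotProduct, h.hU, zero_dotProduct, add_dotProduct,
      smul_eq_mul] at this
    rw [← sub_eq_zero, ← this, hX, hX, hη, hγ, Finset.mul_sum, Finset.mul_sum,
      ← Finset.sum_sub_distrib]
    exact Finset.sum_congr rfl fun i _ => by ring
  have hch : ∀ j ≤ J, ∃ K, PM K ∧ (∀ y, X j y = γ y ^ j * K y) ∧ ∀ y, X 0 y = η y ^ j * K y := by
    intro j hj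
    induction j with
    | zero => exact ⟨X 0, pX 0, by simp, by simp⟩
    | succ j ih =>
      obtain ⟨K, hK, e1, e2⟩ := ih (by omega)
      obtain ⟨K', hK', e3, e4⟩ := PM.coprime pγ pη (d := (0, 1, 0)) (fun y s => by
        simp [hγ]; ring) (fun y s => by simp [hη]) hη1 (j + 1) (pX (j + 1)) hK
        fun y => by rw [hid j (by omega), e1]; ring
      exact ⟨K', hK', e3, fun y => by rw [e2, e4]; ring⟩
  obtain ⟨K, hK, -, eK⟩ := hch J le_rfl
  have hK0 : ∃ y, K y ≠ 0 := by
    by_contra! h0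
    have hX0 : ∀ j ≤ J, ∀ y, X j y = 0 := by
      intro j hj
      induction j with
      | zero => exact fun y => by rw [eK, h0, mul_zero]
      | succ j ih =>
        exact PM.cancel (pX _) pη hη1 fun y => by rw [hid j (by omega), ih (by omega), mul_zero]
    have hs : ∀ (s : Finset (Fin J)) (y : ((V → ℂ) × (V → ℂ)) × ℂ × (V → ℂ)),
        ∑ i, l i y.1 * U (y.1.1 + t i • y.1.2, y.2) * ∏ r ∈ s, (t i - t (Fin.natAdd δ r)) = 0 := fun s y =>
      sum_prod_zero (J := J) (fun j hj => (hX j y).symm.trans (hX0 j hj y)) s _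
        (by simpa using s.card_le_univ)
    obtain ⟨c, hc⟩ := exists_det (fun i y => U (t (Fin.castAdd J i) • u₀, y)) hp
    have h1 : ∀ i y, l (Fin.castAdd J i) y = 0 := fun i => PM.cancel
      (G := fun y => (Matrix.of fun i j => U (y.1 + t (Fin.castAdd J i) • y.2, c j)).det) (hl _)
      (PM.det (by fun_prop)) (y := (0, u₀)) (by simpa using hc) fun y => by
        rw [mul_eq_zero, or_iff_not_imp_left]
        intro hd
        have := Matrix.eq_zero_of_vecMul_eq_zero (v := fun i => l (Fin.castAdd J i) y *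
          ∏ r, (t (Fin.castAdd J i) - t (Fin.natAdd δ r))) hd (funext fun j => by
            have := hs Finset.univ (y, c j)
            rw [Fin.sum_univ_add, Finset.sum_eq_zero (s := Finset.univ (α := Fin J)) fun r _ => by
              rw [Finset.prod_eq_zero (Finset.mem_univ r) (sub_self _), mul_zero], add_zero] at this
            simpa [vecMul, dotProduct, mul_right_comm] using this)
        refine (mul_eq_zero.1 (congrFun this i)).resolve_right
          (Finset.prod_ne_zero_iff.2 fun r _ h2 => ?_)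
        have := congrArg Fin.val (ht (sub_eq_zero.1 h2))
        simp only [Fin.val_castAdd, Fin.val_natAdd] at this
        omega
    obtain ⟨z₁, w₁, hz⟩ : ∃ z w, U (z, w) ≠ 0 := by
      by_contra! h2
      exact one_ne_zero (congrFun (hp 1 fun y => by simp [h2]) ⟨0, by omega⟩)
    have h2 : ∀ r y, l (Fin.natAdd δ r) y = 0 := fun r y => PM.cancel
      (E := ((V → ℂ) × (V → ℂ)) × ℂ × (V → ℂ)) (F := fun y => l (Fin.natAdd δ r) y.1)
      (G := fun y => U (y.1.1 + t (Fin.natAdd δ r) • y.1.2, y.2)) ((hl _).comp (by fun_prop))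
      (by fun_prop) (y := ((z₁, 0), w₁)) (by simpa using hz) (fun y => by
        have := hs (Finset.univ.erase r) y
        rw [Fin.sum_univ_add, Finset.sum_eq_zero fun i _ => by rw [h1, zero_mul, zero_mul],
          zero_add, Finset.sum_eq_single r (fun r' _ hr => by
            rw [Finset.prod_eq_zero (Finset.mem_erase.2 ⟨hr, Finset.mem_univ r'⟩) (sub_self _),
              mul_zero]) (by simp)] at this
        rw [mul_comm]
        refine (mul_eq_zero.1 this).resolve_right (Finset.prod_ne_zero_iff.2 fun r' hr h2 => ?_)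
        have := congrArg Fin.val (ht (sub_eq_zero.1 h2))
        simp only [Fin.val_natAdd] at this
        exact (Finset.mem_erase.1 hr).1 (Fin.ext (by omega))) (y, 0)
    obtain ⟨i, y, hi⟩ := hl0
    exact hi (Fin.addCases (motive := fun i => l i y = 0) (fun i => h1 i y) (fun r => h2 r y) i)
  obtain ⟨y₀, hy₀⟩ := hK0
  obtain ⟨y₁, h1, h2⟩ := hK.exists_ne (G := fun y => ∏ i, (t i * η y - γ y)) (by fun_prop) hy₀
    (y := (0, 1, 0)) (by simp [hη, hγ])
  obtain ⟨⟨⟨b₁, u₁⟩, σ, ζ⟩, h3, h4⟩ := PM.exists_ne (F := fun y => K y * ∏ i, (t i * η y - γ y))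
    (by fun_prop) pη (mul_ne_zero h1 h2) hη1
  simp only [hη, hγ] at h3 h4
  obtain ⟨c, hc⟩ : ∃ c, c * (u₁ ⬝ᵥ ζ) = b₁ ⬝ᵥ ζ - σ := ⟨_, div_mul_cancel₀ _ h4⟩
  have hs : ∀ i, t i + c ≠ 0 := fun i h0 =>
    Finset.prod_ne_zero_iff.1 (right_ne_zero_of_mul h3) i (Finset.mem_univ i)
      (by linear_combination (u₁ ⬝ᵥ ζ) * h0 - hc)
  obtain ⟨b, h5, h6⟩ := PM.exists_ne (F := fun b => f b none)
    (G := fun b => K ((b + c • u₁, u₁), b ⬝ᵥ ζ, ζ)) (by fun_prop) (by fun_prop) hq
    (y := b₁ - c • u₁) (by simpa [hc] using left_ne_zero_of_mul h3)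
  obtain ⟨x, hx⟩ := powrank (ε none) (r := J + 1)
    (m := fun s : Sym V (J + 1) => (s : Multiset V)) Subtype.val_injective (fun s => s.2)
    (T := fun y => K ((b + c • y.1, y.1), b ⬝ᵥ y.2, y.2)) (by fun_prop) (y₀ := (u₁, ζ)) h6
  obtain ⟨Yv, hY⟩ : ∃ Yv : (V → ℂ) → Option κ → ℂ, ∀ u, Yv u =
      ∑ i, (l i (b + c • u, u) / (t i + c)) • f (b + c • u + t i • u) := ⟨_, fun _ => rfl⟩
  have pairY : ∀ u ω, Yv u ⬝ᵥ g (b ⬝ᵥ ω, ω) =
      (u ⬝ᵥ ω) ^ (J + 1) * K ((b + c • u, u), b ⬝ᵥ ω, ω) := by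
    intro u ω
    have h7 := eK ((b + c • u, u), b ⬝ᵥ ω, ω)
    rw [hX, hη] at h7
    rw [hY, sum_dotProduct, pow_succ', mul_assoc, ← h7, Finset.mul_sum]
    refine Finset.sum_congr rfl fun i _ => ?_
    have := hs i
    simp only [smul_dotProduct, h.hU, add_dotProduct, smul_eq_mul]
    field_simp
    ring
  have : LinearIndependent ℂ fun o : Option (Sym V (J + 1)) => o.elim (f b) fun s => Yv (x s) := by
    rw [Fintype.linearIndependent_iff]
    intro a ha
    simp only [Fintype.sum_option, Option.elim] at ha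
    have e2 := hx (fun s => a (some s)) fun ω => by
      have := congrArg (· ⬝ᵥ g (b ⬝ᵥ ω, ω)) ha
      simpa [sum_dotProduct, pairY, h.hU] using this
    have e3 : ∀ s, a (some s) = 0 := congrFun e2
    rintro (_ | s)
    · simpa [e3, h5] using congrFun ha none
    · exact e3 s
  have h8 := this.fintype_card_le_finrank
  simp only [Fintype.card_option, Sym.card_sym_eq_choose, Module.finrank_fintype_fun_eq_card,
    add_le_add_iff_right] at h8
  exact h8

/-- The degree estimate on discs through the origin, for all target dimensions. -/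
theorem RatData.degree_le {m N J : ℕ} {Φ : (Fin (m + 2) → ℂ) → Fin N → ℂ}
    {f : (Fin (m + 2) → ℂ) → Option (Fin N) → ℂ} (h : RatData Φ f) {u : Fin (m + 2) → ℂ}
    (hu : nsq u = 1) {δ : ℕ} {A : Fin N → ℂ[X]} {B : ℂ[X]}
    (hm : MinRep (fun t : ℂ => Φ (t • u)) δ A B) (hN : N < (m + 2 + J).choose (J + 1)) :
    δ ≤ J * ((N - 1) / (m + 1)) := by
  obtain ⟨g, U, hd⟩ := exists_data h.pf h.sphere
  have hpos : (0 : ℝ) < δ + J + 1 := by positivity
  have ht : Function.Injective fun i : Fin (δ + J) => (((i : ℝ) / (δ + J + 1) : ℝ) : ℂ) :=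
    fun i j hij => Fin.ext (by
      exact_mod_cast (div_left_inj' hpos.ne').1 (ofReal_injective hij))
  by_contra! hk
  rcases hd.upper (finSuccEquiv (m + 1)).symm (h.ne 0 (by simp [nsq])) ht
    (h.pick hd hu hm (ht.comp (Fin.castAdd_injective _ _)) fun i => by
      rw [norm_real, Real.norm_of_nonneg (by positivity), div_lt_one hpos]
      have : (i : ℕ) < δ + J + 1 := by omega
      exact_mod_cast this) hk with h1 | h1
  · simp only [Fintype.card_fin] at h1
    have := Nat.lt_mul_div_succ (N - 1) m.add_one_pos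
    omega
  · simp only [Fintype.card_fin] at h1
    omega

end Pool.Agent.Lib.MP_7906d6_an.Rat
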