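import Pool.Agent.Lib.MP_7906d6_an.Iterate

/-!
Proper holomorphic maps of positive codimension that vanish to a given order at the origin and
extend continuously to the closed ball.
-/

namespace Pool.Agent.Lib.MP_7906d6_an

open Metric Module Filter Topology

variable {E : Type} [NormedAddCommGroup E] [InnerProductSpace ℂ E] [FiniteDimensional ℂ E]
  {G : Type} [NormedAddCommGroup G] [InnerProductSpace ℂ G] [FiniteDimensional ℂ G]

theorem stepC (h : finrank ℂ E < finrank ℂ G) : ∃ θ : ℝ, 0 ≤ θ ∧ θ < 1 ∧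
    ∀ (q : ℕ) (F : E → G) (ε : ℝ), Differentiable ℂ F → (∀ z, ‖z‖ = 1 → ‖F z‖ < 1) → 0 < ε →
      ∃ F' : E → G, (Differentiable ℂ F' ∧ (∀ z, ‖z‖ = 1 → ‖F' z‖ < 1)) ∧
      (∀ z, ‖z‖ = 1 → 1 - ‖F' z‖ ^ 2 ≤ θ * (1 - ‖F z‖ ^ 2) + ε) ∧
      (∀ z, ‖z‖ = 1 → ‖F' z - F z‖ ≤ √(1 - ‖F z‖ ^ 2)) ∧
      ∀ z, ‖z‖ ≤ 1 / 2 → ‖F' z - F z‖ ≤ ε * ‖z‖ ^ q := by
  have : ProperSpace E := FiniteDimensional.proper ℂ E
  obtain ⟨c, hc, hc1, H⟩ := approx h
  refine ⟨1 - c ^ 2 / 64, by nlinarith, by nlinarith, ?_⟩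
  intro q F ε hF hF1 hε
  have hFc := hF.continuous
  let φ : E → ℝ := fun z => √(1 - ‖F z‖ ^ 2) / 4
  have hφ : Continuous φ := by fun_prop
  have hpos : ∀ z, ‖z‖ = 1 → 0 < 1 - ‖F z‖ ^ 2 := fun z hz => by
    nlinarith [hF1 z hz, norm_nonneg (F z)]
  have hφ0 : ∀ z, ‖z‖ = 1 → 0 < φ z := fun z hz => by
    have := Real.sqrt_pos.2 (hpos z hz)
    positivity
  have hφ2 : ∀ z, ‖z‖ = 1 → φ z ^ 2 = (1 - ‖F z‖ ^ 2) / 16 := fun z hz => by
    simp only [φ]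
    rw [div_pow, Real.sq_sqrt (hpos z hz).le]
    norm_num
  have hφ1 : ∀ z, ‖z‖ = 1 → φ z ≤ 1 := fun z hz => by
    nlinarith [hφ2 z hz, hφ0 z hz, sq_nonneg ‖F z‖]
  obtain ⟨m, hm, hm1⟩ := (isCompact_sphere (0 : E) 1).exists_forall_le' hφ.continuousOn
    (fun z hz => hφ0 z (by simpa using hz))
  obtain ⟨g, hg, g1, g2, g3⟩ := H q F φ (min (ε / 2) (min (c * m / 2) (m ^ 2))) (1 / 2) hFc hφ
    (fun z hz => ⟨(hφ0 z hz).le, hφ1 z hz⟩) (by positivity) (by norm_num)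
  set η := min (ε / 2) (min (c * m / 2) (m ^ 2))
  have η1 : η ≤ ε / 2 := min_le_left _ _
  have η2 : η ≤ c * m / 2 := (min_le_right _ _).trans (min_le_left _ _)
  have η3 : η ≤ m ^ 2 := (min_le_right _ _).trans (min_le_right _ _)
  have key : ∀ z, ‖z‖ ≤ 1 → ‖F z‖ ^ 2 + ‖g z‖ ^ 2 - 2 * η ≤ ‖F z + g z‖ ^ 2 ∧
      ‖F z + g z‖ ^ 2 ≤ ‖F z‖ ^ 2 + ‖g z‖ ^ 2 + 2 * η := by
    intro z hz
    rw [norm_add_sq (𝕜 := ℂ)]
    have := abs_le.1 ((RCLike.abs_re_le_norm (inner ℂ (F z) (g z))).trans (g2 z hz))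
    constructor <;> linarith [this.1, this.2]
  have k5 : ∀ z, ‖z‖ = 1 → ‖g z‖ ≤ 2 * φ z := fun z hz => by
    have k2 := (g3 z hz).2
    have k3 := hm1 z (by simpa using hz)
    nlinarith
  refine ⟨fun z => F z + g z, ⟨hF.add hg, fun z hz => ?_⟩, fun z hz => ?_, fun z hz => ?_,
    fun z hz => ?_⟩
  · have k1 := (key z hz.le).2
    have k3 := hm1 z (by simpa using hz)
    have k4 := hφ2 z hz
    have k6 : ‖g z‖ ^ 2 ≤ (2 * φ z) ^ 2 := by gcongr; exact k5 z hz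
    have k7 : m ^ 2 ≤ φ z ^ 2 := by gcongr
    have k8 := hpos z hz
    have : ‖F z + g z‖ ^ 2 < 1 := by nlinarith
    nlinarith [norm_nonneg (F z + g z)]
  · have k1 := (key z hz.le).1
    have k2 := (g3 z hz).1
    have k3 := hm1 z (by simpa using hz)
    have k4 := hφ2 z hz
    have k5 : c * φ z / 2 ≤ ‖g z‖ := by nlinarith
    have k6 : (c * φ z / 2) ^ 2 ≤ ‖g z‖ ^ 2 := by
      have := hφ0 z hz
      gcongr
    have k7 : (c * φ z / 2) ^ 2 = c ^ 2 / 64 * (1 - ‖F z‖ ^ 2) := by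
      rw [div_pow, mul_pow, k4]; ring
    nlinarith
  · rw [add_sub_cancel_left]
    have := k5 z hz
    have := hφ0 z hz
    simp only [φ] at *
    linarith
  · rw [add_sub_cancel_left]
    refine (g1 z hz).trans ?_
    gcongr
    linarith

theorem exists_flatC [Nontrivial E] (h : finrank ℂ E < finrank ℂ G) (q : ℕ) :
    ∃ F : E → G, PH F ∧ ContinuousOn F (closedBall 0 1) ∧
      ∀ z, ‖z‖ ≤ 1 / 2 → ‖F z‖ ≤ ‖z‖ ^ (q + 1) := by
  have : ProperSpace E := FiniteDimensional.proper ℂ E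
  have : CompleteSpace G := FiniteDimensional.complete ℂ G
  obtain ⟨θ, hθ0, hθ1, H⟩ := stepC h
  set β := (1 + θ) / 2 with hβ
  have hβ0 : 0 < β := by positivity
  have hβ1 : β < 1 := by linarith
  let S := {F : E → G // Differentiable ℂ F ∧ ∀ z, ‖z‖ = 1 → ‖F z‖ < 1}
  have H' : ∀ (k : ℕ) (F : S), ∃ F' : S,
      (∀ z, ‖z‖ = 1 → 1 - ‖F'.1 z‖ ^ 2 ≤ θ * (1 - ‖F.1 z‖ ^ 2) + (1 - β) * β ^ k) ∧
      (∀ z, ‖z‖ = 1 → ‖F'.1 z - F.1 z‖ ≤ √(1 - ‖F.1 z‖ ^ 2)) ∧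
      ∀ z, ‖z‖ ≤ 1 / 2 → ‖F'.1 z - F.1 z‖ ≤ (1 - β) * β ^ k * ‖z‖ ^ (q + 1) := by
    intro k F
    have : 0 < 1 - β := by linarith
    obtain ⟨F', h1, h2⟩ := H (q + 1) F.1 ((1 - β) * β ^ k) F.2.1 F.2.2 (by positivity)
    exact ⟨⟨F', h1⟩, h2⟩
  choose nx n1 n2 n3 using H'
  let T : ℕ → S := fun k => Nat.rec ⟨fun _ => 0, differentiable_const _, by simp⟩ nx k
  let F : ℕ → E → G := fun k => (T k).1
  have F0 : ∀ z, F 0 z = 0 := fun z => rfl
  have Fd : ∀ k, Differentiable ℂ (F k) := fun k => (T k).2.1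
  have F1 : ∀ k z, ‖z‖ = 1 → 1 - ‖F k z‖ ^ 2 ≤ β ^ k := by
    intro k z hz
    induction k with
    | zero => simp [F0]
    | succ k ih =>
      have h1 : 1 - ‖F (k + 1) z‖ ^ 2 ≤ θ * (1 - ‖F k z‖ ^ 2) + (1 - β) * β ^ k := n1 k (T k) z hz
      have h2 : θ * (1 - ‖F k z‖ ^ 2) ≤ θ * β ^ k := by gcongr
      have h3 : β ^ (k + 1) = θ * β ^ k + (1 - β) * β ^ k := by rw [pow_succ, hβ]; ring
      linarith
  have mx : ∀ (f : E → G) (C : ℝ), Differentiable ℂ f → (∀ z, ‖z‖ = 1 → ‖f z‖ ≤ C) →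
      ∀ z, ‖z‖ ≤ 1 → ‖f z‖ ≤ C := by
    intro f C hf hC z hz
    refine Complex.norm_le_of_forall_mem_frontier_norm_le (U := ball 0 1) isBounded_ball
      hf.diffContOnCl (fun w hw => ?_) ?_
    · rw [frontier_ball _ one_ne_zero] at hw
      exact hC w (by simpa using hw)
    · rw [closure_ball _ one_ne_zero]
      simpa using hz
  have F2 : ∀ k z, ‖z‖ ≤ 1 → ‖F (k + 1) z - F k z‖ ≤ √β ^ k := fun k =>
    mx _ _ ((Fd (k + 1)).fun_sub (Fd k)) fun z hz => (n2 k (T k) z hz).trans (by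
      rw [← Real.sqrt_sq (by positivity : 0 ≤ √β ^ k), ← pow_mul, mul_comm, pow_mul,
        Real.sq_sqrt hβ0.le]
      exact Real.sqrt_le_sqrt (F1 k z hz))
  have F4 : ∀ k z, ‖z‖ ≤ 1 → ‖F k z‖ ≤ 1 := fun k =>
    mx _ _ (Fd k) fun z hz => ((T k).2.2 z hz).le
  let f : E → G := fun z => ∑' k, (F (k + 1) z - F k z)
  have hu : TendstoUniformlyOn F f atTop (closedBall 0 1) := by
    have h1 := tendstoUniformlyOn_tsum_nat (f := fun k z => F (k + 1) z - F k z)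
      (summable_geometric_of_lt_one (Real.sqrt_nonneg β) ((Real.sqrt_lt' one_pos).2 (by simpa)))
      (s := closedBall 0 1) fun k z hz => F2 k z (mem_closedBall_zero_iff.1 hz)
    convert h1 using 3 with N x
    rw [Finset.sum_range_sub (fun k => F k x), F0, sub_zero]
  have hpt : ∀ z, ‖z‖ ≤ 1 → Tendsto (fun k => F k z) atTop (𝓝 (f z)) := fun z hz =>
    hu.tendsto_at (by simpa)
  have hc : ContinuousOn f (closedBall 0 1) :=
    hu.continuousOn (Frequently.of_forall fun k => (Fd k).continuous.continuousOn)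
  have hd : DifferentiableOn ℂ f (ball 0 1) := by
    intro c hc
    rw [mem_ball_zero_iff] at hc
    refine (weierstrass (F := F) (R := 1 - ‖c‖) (by linarith)
      (fun k => (Fd k).differentiableOn) (hu.mono ?_)).differentiableWithinAt
    refine ball_subset_closedBall.trans (closedBall_subset_closedBall' ?_)
    rw [dist_zero_right]
    linarith
  have hflat : ∀ z, ‖z‖ ≤ 1 / 2 → ‖f z‖ ≤ ‖z‖ ^ (q + 1) := by
    intro z hz
    have h1 : HasSum (fun k : ℕ => (1 - β) * β ^ k * ‖z‖ ^ (q + 1)) (‖z‖ ^ (q + 1)) := by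
      have := ((hasSum_geometric_of_lt_one hβ0.le hβ1).mul_left (1 - β)).mul_right (‖z‖ ^ (q + 1))
      rwa [mul_inv_cancel₀ (by linarith), one_mul] at this
    exact tsum_of_norm_bounded h1 fun k => n3 k (T k) z hz
  refine ⟨f, ⟨hd, fun z hz => ?_, fun t ht => ?_⟩, hc, hflat⟩
  · rw [mem_ball_zero_iff] at hz ⊢
    refine lt_of_le_of_lt (Complex.norm_le_norm_of_mapsTo_ball hd (fun w hw => ?_) ?_ hz) hz
    · rw [mem_ball_zero_iff] at hw
      rw [mem_closedBall_zero_iff]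
      exact le_of_tendsto' (hpt w hw.le).norm fun k => F4 k w hw.le
    · simpa using hflat 0 (by simp)
  · have hK : IsCompact (closedBall (0 : E) 1 ∩ f ⁻¹' closedBall 0 t) :=
      (isCompact_closedBall _ _).of_isClosed_subset
        (hc.preimage_isClosed_of_isClosed isClosed_closedBall isClosed_closedBall)
        Set.inter_subset_left
    obtain ⟨m, hm, hm1⟩ := hK.exists_forall_le' (f := fun z => 1 - ‖z‖) (a := 0) (by fun_prop) (by
      rintro z ⟨h1, h2⟩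
      rw [mem_closedBall_zero_iff] at h1
      rw [sub_pos]
      refine lt_of_le_of_ne h1 fun h3 => ?_
      have h4 : 1 - ‖f z‖ ^ 2 ≤ 0 :=
        le_of_tendsto_of_tendsto' (((hpt z h1).norm.pow 2).const_sub 1)
          (tendsto_pow_atTop_nhds_zero_of_lt_one hβ0.le hβ1) fun k => F1 k z h3
      have h5 : ‖f z‖ ≤ t := mem_closedBall_zero_iff.1 h2
      nlinarith [norm_nonneg (f z)])
    refine ⟨1 - m, by linarith, fun z hz hzt => ?_⟩
    have := hm1 z ⟨by simpa using hz.le, mem_closedBall_zero_iff.2 hzt⟩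
    linarith

end Pool.Agent.Lib.MP_7906d6_an
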