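import Mathlib

/-!
Growth of a finite set of exponents under multiplication by the variables (binomial form).
-/

namespace Pool.Agent.Lib.MP_7906d6_an.Mac

open Finset

variable {σ : Type} [DecidableEq σ] [Fintype σ]

/-- All shifts by the variables in `s`. -/
def up (s : Finset σ) (M : Finset (σ → ℕ)) : Finset (σ → ℕ) :=
  s.biUnion fun l => M.image fun ν => ν + Pi.single l 1

theorem mem_up {s : Finset σ} {M : Finset (σ → ℕ)} {τ : σ → ℕ} :
    τ ∈ up s M ↔ ∃ l ∈ s, ∃ ν ∈ M, ν + Pi.single l 1 = τ := by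
  simp only [up, mem_biUnion, mem_image]

theorem card_shift (M : Finset (σ → ℕ)) (l : σ) :
    (M.image fun ν => ν + Pi.single l 1).card = M.card :=
  card_image_of_injective _ (add_left_injective _)

theorem up_succ {s : Finset σ} {i j : σ} (hi : i ∈ s) (hj : j ∈ s) (hij : i ≠ j)
    {M : Finset (σ → ℕ)} (hM : M.Nonempty) : M.card + 1 ≤ (up s M).card := by
  obtain ⟨ν, hν, hmax⟩ := exists_max_image M (fun ν => ν j) hM
  rw [← card_shift M i, ← card_insert_of_notMem (a := ν + Pi.single j 1)]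
  · refine card_le_card fun τ hτ => ?_
    rcases mem_insert.mp hτ with rfl | hτ
    · exact mem_up.mpr ⟨j, hj, ν, hν, rfl⟩
    · obtain ⟨μ, hμ, rfl⟩ := mem_image.mp hτ
      exact mem_up.mpr ⟨i, hi, μ, hμ, rfl⟩
  · intro h
    obtain ⟨μ, hμ, e⟩ := mem_image.mp h
    have h1 := congrFun e j
    have h2 := hmax μ hμ
    simp only [Pi.add_apply, Pi.single_eq_same, Pi.single_eq_of_ne hij.symm] at h1 h2
    omega

theorem sum_range_lt {R : Finset ℕ} (h : R ≠ range R.card) :
    ∑ t ∈ range R.card, t < ∑ t ∈ R, t := by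
  have h1 : (R \ range R.card).card = (range R.card \ R).card :=
    card_sdiff_comm (card_range _).symm
  have h2 : (range R.card \ R).Nonempty := by
    rw [sdiff_nonempty]
    exact fun h0 => h (eq_of_subset_of_card_le h0 (card_range _).ge).symm
  have h3 : ∑ t ∈ range R.card \ R, t < ∑ _t ∈ range R.card \ R, R.card :=
    sum_lt_sum_of_nonempty h2 fun t ht => mem_range.mp (mem_sdiff.mp ht).1
  have h4 : ∑ _t ∈ R \ range R.card, R.card ≤ ∑ t ∈ R \ range R.card, t :=
    sum_le_sum fun t ht => not_lt.mp fun h0 => (mem_sdiff.mp ht).2 (mem_range.mpr h0)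
  rw [sum_const] at h3 h4
  rw [← sum_inter_add_sum_sdiff R (range R.card), ← sum_inter_add_sum_sdiff (range R.card) R,
    inter_comm]
  rw [h1] at h4
  omega

section Compress

variable (i j : σ)

/-- The base point of the line through `ν` in the direction `e i - e j`. -/
def bs (ν : σ → ℕ) : σ → ℕ := fun l => if l = i then ν i + ν j else if l = j then 0 else ν l

/-- The point with parameter `t` on the line with base point `β`. -/
def pt (β : σ → ℕ) (t : ℕ) : σ → ℕ := fun l => if l = i then β i - t else if l = j then t else β l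

/-- The part of `M` on one line. -/
def fib (M : Finset (σ → ℕ)) (β : σ → ℕ) : Finset (σ → ℕ) := M.filter fun ν => bs i j ν = β

/-- The compression. -/
def cmp (M : Finset (σ → ℕ)) : Finset (σ → ℕ) :=
  ((M.image (bs i j)).biUnion fun β => (range (β i + 1)).image (pt i j β)).filter
    fun τ => τ j < (fib i j M (bs i j τ)).card

variable {i j} (hij : i ≠ j)
include hij

omit [Fintype σ] in
theorem pt_bs (ν : σ → ℕ) : pt i j (bs i j ν) (ν j) = ν := by
  funext l
  by_cases h1 : l = i
  · simp [pt, bs, h1]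
  · by_cases h2 : l = j
    · simp [pt, h2, hij.symm]
    · simp [pt, bs, h1, h2]

omit [Fintype σ] in
theorem bs_pt (ν : σ → ℕ) {t : ℕ} (ht : t ≤ ν i + ν j) :
    bs i j (pt i j (bs i j ν) t) = bs i j ν ∧ pt i j (bs i j ν) t j = t := by
  refine ⟨funext fun l => ?_, by simp [pt, hij.symm]⟩
  by_cases h1 : l = i
  · simp [pt, bs, h1, hij.symm, Nat.sub_add_cancel ht]
  · by_cases h2 : l = j
    · simp [bs, h2, hij.symm]
    · simp [pt, bs, h1, h2]

theorem fib_inj (M : Finset (σ → ℕ)) (β : σ → ℕ) :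
    Set.InjOn (fun ν : σ → ℕ => ν j) (fib i j M β) := by
  intro ν hν μ hμ e
  have h1 := (mem_filter.mp hν).2
  have h2 := (mem_filter.mp hμ).2
  rw [← pt_bs hij ν, ← pt_bs hij μ, h1, h2, show ν j = μ j from e]

theorem mem_cmp {M : Finset (σ → ℕ)} {τ : σ → ℕ} :
    τ ∈ cmp i j M ↔ τ j < (fib i j M (bs i j τ)).card := by
  rw [cmp, mem_filter, and_iff_right_iff_imp]
  intro h
  obtain ⟨μ, hμ⟩ := card_pos.mp ((Nat.zero_le _).trans_lt h)
  refine mem_biUnion.mpr ⟨bs i j τ, mem_image.mpr ⟨μ, (mem_filter.mp hμ).1, (mem_filter.mp hμ).2⟩,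
    mem_image.mpr ⟨τ j, mem_range.mpr ?_, pt_bs hij τ⟩⟩
  simp only [bs, if_true]
  omega

theorem img_cmp (M : Finset (σ → ℕ)) (β : σ → ℕ) :
    (fib i j (cmp i j M) β).image (fun ν => ν j) = range (fib i j M β).card := by
  ext t
  rw [mem_image, mem_range]
  constructor
  · rintro ⟨τ, hτ, rfl⟩
    obtain ⟨h1, h2⟩ := mem_filter.mp hτ
    rw [← h2]
    exact (mem_cmp hij).mp h1
  · intro ht
    obtain ⟨μ, hμ⟩ := card_pos.mp ((Nat.zero_le _).trans_lt ht)
    obtain rfl := (mem_filter.mp hμ).2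
    have h1 : (fib i j M (bs i j μ)).card ≤ (range (μ i + μ j + 1)).card :=
      card_le_card_of_injOn (fun ν => ν j) (fun ν hν => by
        have := congrFun (mem_filter.mp hν).2 i
        simp only [bs, if_true] at this
        exact mem_coe.mpr (mem_range.mpr (show ν j < _ by omega))) (fib_inj hij _ _)
    rw [card_range] at h1
    obtain ⟨h2, h3⟩ := bs_pt hij μ (t := t) (by omega)
    exact ⟨_, mem_filter.mpr ⟨(mem_cmp hij).mpr (by rw [h2, h3]; exact ht), h2⟩, h3⟩

theorem bs_cmp (M : Finset (σ → ℕ)) : ∀ τ ∈ cmp i j M, bs i j τ ∈ M.image (bs i j) := by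
  intro τ hτ
  obtain ⟨μ, hμ⟩ := card_pos.mp ((Nat.zero_le _).trans_lt ((mem_cmp hij).mp hτ))
  exact mem_image.mpr ⟨μ, (mem_filter.mp hμ).1, (mem_filter.mp hμ).2⟩

theorem card_cmp (M : Finset (σ → ℕ)) : (cmp i j M).card = M.card := by
  rw [card_eq_sum_card_fiberwise (f := bs i j) (t := M.image (bs i j)) (bs_cmp hij M),
    card_eq_sum_card_fiberwise (s := M) (f := bs i j) (t := M.image (bs i j))
      fun ν hν => mem_image_of_mem _ hν]
  refine sum_congr rfl fun β _ => ?_
  have := card_image_of_injOn (fib_inj hij (cmp i j M) β)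
  rw [img_cmp hij, card_range] at this
  exact this.symm

theorem sum_cmp {M : Finset (σ → ℕ)} {ν : σ → ℕ} (hν : ν + Pi.single j 1 ∈ M)
    (hν' : ν + Pi.single i 1 ∉ M) : ∑ τ ∈ cmp i j M, τ j < ∑ τ ∈ M, τ j := by
  rw [← sum_fiberwise_of_maps_to (g := bs i j) (t := M.image (bs i j)) (bs_cmp hij M),
    ← sum_fiberwise_of_maps_to (s := M) (g := bs i j) (t := M.image (bs i j))
      fun ν hν => mem_image_of_mem _ hν]
  have h1 : ∀ (X : Finset (σ → ℕ)) β, ∑ τ ∈ X with bs i j τ = β, τ j =
      ∑ t ∈ (fib i j X β).image (fun ν => ν j), t := fun X β =>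
    (sum_image (f := fun t => t) (fib_inj hij X β)).symm
  have h2 : ∀ β, (fib i j M β).card = ((fib i j M β).image fun ν => ν j).card := fun β =>
    (card_image_of_injOn (fib_inj hij M β)).symm
  simp only [h1, img_cmp hij]
  refine sum_lt_sum (fun β _ => ?_) ⟨_, mem_image_of_mem _ hν, ?_⟩
  · rw [h2]
    by_cases h : (fib i j M β).image (fun ν => ν j) =
        range ((fib i j M β).image fun ν => ν j).card
    · exact (sum_congr h.symm fun _ _ => rfl).le
    · exact (sum_range_lt h).le
  · rw [h2]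
    refine sum_range_lt fun h => hν' ?_
    have h3 : (ν + Pi.single j 1 : σ → ℕ) j ∈
        (fib i j M (bs i j (ν + Pi.single j 1))).image fun ν => ν j :=
      mem_image_of_mem _ (mem_filter.mpr ⟨hν, rfl⟩)
    rw [h, mem_range, Pi.add_apply, Pi.single_eq_same] at h3
    have h4 : ν j ∈ (fib i j M (bs i j (ν + Pi.single j 1))).image fun ν => ν j := by
      rw [h, mem_range]
      omega
    obtain ⟨μ, hμ, e⟩ := mem_image.mp h4
    obtain ⟨h5, h6⟩ := mem_filter.mp hμ
    have h7 : bs i j (ν + Pi.single i 1) = bs i j (ν + Pi.single j 1) := by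
      funext l
      by_cases h1 : l = i
      · simp [bs, h1, hij, hij.symm]
        omega
      · by_cases h2 : l = j
        · simp [bs, h2, hij.symm]
        · simp [bs, h1, h2]
    have h8 : (ν + Pi.single i 1 : σ → ℕ) j = μ j := by
      rw [Pi.add_apply, Pi.single_eq_of_ne hij.symm, add_zero]
      exact e.symm
    rwa [← pt_bs hij (ν + Pi.single i 1), h7, ← h6, h8, pt_bs hij]

theorem up_cmp {s : Finset σ} (hi : i ∈ s) (hj : j ∈ s) (M : Finset (σ → ℕ)) :
    up s (cmp i j M) ⊆ cmp i j (up s M) := by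
  intro τ hτ
  obtain ⟨l, hl, ν, hν, rfl⟩ := mem_up.mp hτ
  rw [mem_cmp hij] at hν ⊢
  have key : ∀ l' ∈ s, ((l = i ∨ l = j) ∧ (l' = i ∨ l' = j)) ∨ l' = l →
      ∀ μ ∈ fib i j M (bs i j ν),
        μ + Pi.single l' 1 ∈ fib i j (up s M) (bs i j (ν + Pi.single l 1)) := by
    intro l' hl' hc μ hμ
    obtain ⟨h1, h2⟩ := mem_filter.mp hμ
    refine mem_filter.mpr ⟨mem_up.mpr ⟨l', hl', μ, h1, rfl⟩, funext fun x => ?_⟩
    have h3 := congrFun h2 x
    simp only [bs, Pi.add_apply, Pi.single_apply] at h3 ⊢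
    by_cases hx : x = i
    · simp only [hx, if_true] at h3 ⊢
      rcases hc with ⟨rfl | rfl, rfl | rfl⟩ | rfl
      · omega
      · simp only [hij, hij.symm, if_true, if_false]; omega
      · simp only [hij, hij.symm, if_true, if_false]; omega
      · omega
      · omega
    · by_cases hx' : x = j
      · simp [hx', hij.symm]
      · simp only [hx, hx', if_false] at h3 ⊢
        rcases hc with ⟨rfl | rfl, rfl | rfl⟩ | rfl <;> simp [hx, hx', h3]
  by_cases hl' : l = i ∨ l = j
  · have h1 := up_succ (s := {i, j}) (i := i) (j := j) (by simp) (by simp) hij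
      (card_pos.mp ((Nat.zero_le _).trans_lt hν))
    have h2 : (up {i, j} (fib i j M (bs i j ν))).card ≤
        (fib i j (up s M) (bs i j (ν + Pi.single l 1))).card := by
      refine card_le_card fun τ hτ => ?_
      obtain ⟨l', h3, μ, hμ, rfl⟩ := mem_up.mp hτ
      have h4 : l' = i ∨ l' = j := by simpa using h3
      exact key l' (by rcases h4 with rfl | rfl <;> assumption) (Or.inl ⟨hl', h4⟩) μ hμ
    have h3 : (ν + Pi.single l 1 : σ → ℕ) j ≤ ν j + 1 := by
      rw [Pi.add_apply, Pi.single_apply]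
      split_ifs <;> omega
    omega
  · rw [Pi.add_apply, Pi.single_eq_of_ne fun h => hl' (Or.inr h.symm), add_zero]
    refine hν.trans_le ?_
    rw [← card_shift _ l]
    refine card_le_card fun τ hτ => ?_
    obtain ⟨μ, hμ, rfl⟩ := mem_image.mp hτ
    exact key l hl (Or.inr rfl) μ hμ

end Compress

theorem exists_stable {s : Finset σ} {j : σ} (hj : j ∈ s) (M : Finset (σ → ℕ)) :
    ∃ M' : Finset (σ → ℕ), M'.card = M.card ∧ (up s M').card ≤ (up s M).card ∧
      ∀ ν : σ → ℕ, ν + Pi.single j 1 ∈ M' → ∀ i ∈ s, ν + Pi.single i 1 ∈ M' := by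
  induction h : ∑ τ ∈ M, τ j using Nat.strong_induction_on generalizing M with
  | _ c ih =>
    by_cases hs : ∀ ν : σ → ℕ, ν + Pi.single j 1 ∈ M → ∀ i ∈ s, ν + Pi.single i 1 ∈ M
    · exact ⟨M, rfl, le_rfl, hs⟩
    push Not at hs
    obtain ⟨ν, hν, i, hi, hν'⟩ := hs
    have hij : i ≠ j := fun e => hν' (e ▸ hν)
    obtain ⟨M', h1, h2, h3⟩ := ih _ (h ▸ sum_cmp hij hν hν') (cmp i j M) rfl
    exact ⟨M', h1.trans (card_cmp hij M),
      h2.trans ((card_le_card (up_cmp hij hi hj M)).trans (card_cmp hij _).le), h3⟩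

/-- The binomial form of the growth bound. -/
theorem growth (c : ℕ) : ∀ (m : ℕ) (a : ℕ → ℕ) (s : Finset σ) (M : Finset (σ → ℕ)),
    (∀ i < m, a i ≤ c) → s.card = m + 2 → ∑ i ∈ range m, (a i).choose (i + 2) < M.card →
    M.card + ∑ i ∈ range m, (a i).choose (i + 1) + 1 ≤ (up s M).card := by
  have base : ∀ (m : ℕ) (s : Finset σ) (M : Finset (σ → ℕ)), s.card = m + 2 → 0 < M.card →
      M.card + 1 ≤ (up s M).card := fun m s M hs hM => by
    obtain ⟨i, hi, j, hj, hij⟩ := one_lt_card.mp (by omega : 1 < s.card)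
    exact up_succ hi hj hij (card_pos.mp hM)
  induction c with
  | zero =>
    intro m a s M ha hs hM
    rw [sum_eq_zero fun i hi => by
      rw [Nat.le_zero.mp (ha i (mem_range.mp hi)), Nat.choose_zero_succ]]
    exact base m s M hs (by omega)
  | succ c ih =>
    rintro (_ | m) a s M ha hs hM
    · exact base 0 s M hs (by omega)
    have hb : ∀ i < m + 1, a i - 1 ≤ c := fun i hi => Nat.sub_le_of_le_add (ha i hi)
    have hp : ∀ i k, (a i).choose (k + 2) = (a i - 1).choose (k + 1) + (a i - 1).choose (k + 2) :=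
      fun i k => by
        rcases a i with _ | b
        · simp
        · exact Nat.choose_succ_succ' b (k + 1)
    obtain ⟨j, hj⟩ := card_pos.mp (by omega : 0 < s.card)
    obtain ⟨M', h1, h2, h3⟩ := exists_stable hj M
    rw [← h1] at hM ⊢
    refine le_trans ?_ h2
    set M₀ := M'.filter fun ν => ν j = 0 with hM₀
    set M₁ := (M'.filter fun ν => ¬ ν j = 0).image fun ν => ν - Pi.single j 1 with hM₁
    have hback : ∀ ν ∈ M'.filter fun ν => ¬ ν j = 0, ν - Pi.single j 1 + Pi.single j 1 = ν := by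
      intro ν hν
      refine tsub_add_cancel_of_le fun l => ?_
      have := (mem_filter.mp hν).2
      rw [Pi.single_apply]
      split_ifs with h
      · rw [h]; exact Nat.pos_of_ne_zero this
      · exact Nat.zero_le _
    have c1 : M₀.card + M₁.card = M'.card := by
      rw [hM₁, card_image_of_injOn fun ν hν μ hμ e => by
        rw [← hback ν hν, ← hback μ hμ, show ν - Pi.single j 1 = μ - Pi.single j 1 from e]]
      exact card_filter_add_card_filter_not _
    have c2 : (up s M₁).card ≤ M'.card := by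
      refine card_le_card fun τ hτ => ?_
      obtain ⟨l, hl, ν, hν, rfl⟩ := mem_up.mp hτ
      obtain ⟨μ, hμ, rfl⟩ := mem_image.mp hν
      exact h3 _ (by rw [hback μ hμ]; exact (mem_filter.mp hμ).1) l hl
    have c3 : M'.card + (up (s.erase j) M₀).card ≤ (up s M').card := by
      rw [← card_shift M' j, ← card_union_of_disjoint]
      · refine card_le_card (union_subset (fun τ hτ => ?_) fun τ hτ => ?_)
        · obtain ⟨μ, hμ, rfl⟩ := mem_image.mp hτ
          exact mem_up.mpr ⟨j, hj, μ, hμ, rfl⟩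
        · obtain ⟨l, hl, ν, hν, rfl⟩ := mem_up.mp hτ
          exact mem_up.mpr ⟨l, mem_of_mem_erase hl, ν, (mem_filter.mp hν).1, rfl⟩
      · rw [disjoint_left]
        intro τ hτ hτ'
        obtain ⟨μ, -, rfl⟩ := mem_image.mp hτ
        obtain ⟨l, hl, ν, hν, e⟩ := mem_up.mp hτ'
        have h4 := congrFun e j
        rw [Pi.add_apply, Pi.add_apply, Pi.single_eq_same,
          Pi.single_eq_of_ne (ne_of_mem_erase hl).symm, (mem_filter.mp hν).2] at h4
        omega
    simp only [hp, sum_add_distrib] at hM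
    by_cases hc : ∑ i ∈ range (m + 1), (a i - 1).choose (i + 1) < M₀.card
    · rw [sum_range_succ'] at hc ⊢
      have := ih m (fun i => a (i + 1) - 1) (s.erase j) M₀ (fun i hi => hb _ (by omega))
        (by rw [card_erase_of_mem hj]; omega) (lt_of_le_of_lt (Nat.le_add_right _ _) hc)
      simp only [add_assoc, Nat.reduceAdd, hp, sum_add_distrib, zero_add,
        Nat.choose_one_right] at hc this ⊢
      omega
    · have := ih (m + 1) (fun i => a i - 1) s M₁ hb hs (by omega)
      omega

end Pool.Agent.Lib.MP_7906d6_an.Mac
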