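import Mathlib
import Pool.Agent.Lib.MP_7906d6_an.MacD

/-!
Growth ratios for finite sets of exponents.
-/

namespace Pool.Agent.Lib.MP_7906d6_an.Exp

open Finset Pool.Agent.Lib.MP_7906d6_an.Mac

variable {σ : Type} [DecidableEq σ] [Fintype σ]

theorem up_mono {s : Finset σ} {M M' : Finset (σ → ℕ)} (h : M ⊆ M') : up s M ⊆ up s M' := by
  intro τ hτ
  obtain ⟨l, hl, ν, hν, rfl⟩ := mem_up.mp hτ
  exact mem_up.mpr ⟨l, hl, ν, h hν, rfl⟩

theorem split {s : Finset σ} {j : σ} (hj : j ∈ s) (M : Finset (σ → ℕ)) :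
    ∃ M₀ M₁ : Finset (σ → ℕ), M₀.card + M₁.card = M.card ∧ (up s M₁).card ≤ M.card ∧
      M.card + (up (s.erase j) M₀).card ≤ (up s M).card := by
  obtain ⟨M', h1, h2, h3⟩ := exists_stable hj M
  rw [← h1]
  have hback : ∀ ν ∈ M'.filter fun ν => ¬ ν j = 0, ν - Pi.single j 1 + Pi.single j 1 = ν := by
    intro ν hν
    refine tsub_add_cancel_of_le fun l => ?_
    have := (mem_filter.mp hν).2
    rw [Pi.single_apply]
    split_ifs with h
    · rw [h]; exact Nat.pos_of_ne_zero this
    · exact Nat.zero_le _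
  refine ⟨M'.filter fun ν => ν j = 0,
    (M'.filter fun ν => ¬ ν j = 0).image fun ν => ν - Pi.single j 1, ?_, ?_, le_trans ?_ h2⟩
  · rw [card_image_of_injOn fun ν hν μ hμ e => by
      rw [← hback ν hν, ← hback μ hμ, show ν - Pi.single j 1 = μ - Pi.single j 1 from e]]
    exact card_filter_add_card_filter_not _
  · refine card_le_card fun τ hτ => ?_
    obtain ⟨l, hl, ν, hν, rfl⟩ := mem_up.mp hτ
    obtain ⟨μ, hμ, rfl⟩ := mem_image.mp hν
    exact h3 _ (by rw [hback μ hμ]; exact (mem_filter.mp hμ).1) l hl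
  · rw [← card_shift M' j, ← card_union_of_disjoint]
    · refine card_le_card (union_subset (fun τ hτ => ?_) fun τ hτ => ?_)
      · obtain ⟨μ, hμ, rfl⟩ := mem_image.mp hτ
        exact mem_up.mpr ⟨j, hj, μ, hμ, rfl⟩
      · obtain ⟨l, hl, ν, hν, rfl⟩ := mem_up.mp hτ
        exact mem_up.mpr ⟨l, mem_of_mem_erase hl, ν, (mem_filter.mp hν).1, rfl⟩
    · rw [disjoint_left]
      intro τ hτ hτ'
      obtain ⟨μ, -, rfl⟩ := mem_image.mp hτ
      obtain ⟨l, hl, ν, hν, e⟩ := mem_up.mp hτ'
      have h4 := congrFun e j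
      rw [Pi.add_apply, Pi.add_apply, Pi.single_eq_same,
        Pi.single_eq_of_ne (ne_of_mem_erase hl).symm, (mem_filter.mp hν).2] at h4
      omega

theorem thr {s : Finset σ} {ρ a : ℕ} (hs : s.card = ρ + 2) {M : Finset (σ → ℕ)}
    (h : a.choose (ρ + 1) < M.card) : (a + 1).choose (ρ + 1) < (up s M).card := by
  have h1 := growth a ρ (fun i => if i + 1 = ρ then a else 0) s M
    (fun i _ => by split_ifs <;> omega) hs
  rw [Nat.choose_succ_succ']
  rcases ρ with _ | ρ
  · simp only [range_zero, sum_empty, Nat.choose_zero_right] at h1 ⊢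
    omega
  · have h2 : ∀ c, ∑ i ∈ range (ρ + 1), (if i + 1 = ρ + 1 then a else 0).choose (i + c + 1) =
        a.choose (ρ + c + 1) := fun c => by
      rw [sum_range_succ, if_pos rfl, sum_eq_zero fun i hi => by
        rw [if_neg (by have := mem_range.mp hi; omega), Nat.choose_zero_succ], zero_add]
    have h3 := h2 0
    have h4 := h2 1
    simp only [add_zero, add_assoc, Nat.reduceAdd] at h h1 h3 h4 ⊢
    omega

theorem ratio (D : ℕ) : ∀ (ρ : ℕ) (s : Finset σ) (M : Finset (σ → ℕ)), s.card = ρ + 1 →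
    M.card ≤ (ρ + D).choose ρ → (ρ + 1 + D) * M.card ≤ (D + 1) * (up s M).card := by
  induction D with
  | zero =>
    intro ρ s M hs hM
    rw [add_zero, Nat.choose_self] at hM
    rcases M.eq_empty_or_nonempty with rfl | ⟨ν, hν⟩
    · simp
    have : s.card ≤ (up s M).card := card_le_card_of_injOn (fun l => ν + Pi.single l 1)
      (fun l hl => mem_coe.mpr (mem_up.mpr ⟨l, hl, ν, hν, rfl⟩)) fun l _ l' _ e => by
        by_contra h
        simpa [h] using congrFun e l
    nlinarith
  | succ D ih =>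
    intro ρ
    induction ρ with
    | zero =>
      intro s M hs _
      obtain ⟨j, hj⟩ := card_pos.mp (by omega : 0 < s.card)
      obtain ⟨M₀, M₁, -, -, h3⟩ := split hj M
      nlinarith
    | succ ρ ih' =>
      intro s M hs hM
      obtain ⟨j, hj⟩ := card_pos.mp (by omega : 0 < s.card)
      obtain ⟨M₀, M₁, h1, h2, h3⟩ := split hj M
      have hs' : (s.erase j).card = ρ + 1 := by rw [card_erase_of_mem hj]; omega
      have h4 := ih (ρ + 1) s M₁ hs (not_lt.mp fun h =>
        absurd ((thr hs h).trans_le (h2.trans hM)) (lt_irrefl _))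
      have h5 : (ρ + 1) * M.card ≤ (D + 1 + 1) * (up (s.erase j) M₀).card := by
        by_cases hc : M₀.card ≤ (ρ + (D + 1)).choose ρ
        · have := ih' _ M₀ hs' hc
          nlinarith
        · obtain ⟨M', h6, h7⟩ := exists_subset_card_eq (not_le.mp hc).le
          have h8 := ih' _ M' hs' h7.le
          have h9 := card_le_card (up_mono (s := s.erase j) h6)
          have h10 := Nat.add_one_mul_choose_eq (ρ + (D + 1)) ρ
          rw [h7] at h8
          rw [show ρ + (D + 1) + 1 = ρ + 1 + (D + 1) by ring] at h10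
          nlinarith
      nlinarith

/-- All shifts by the variables in `s`. -/
noncomputable def upF (s : Finset σ) (M : Finset (σ →₀ ℕ)) : Finset (σ →₀ ℕ) :=
  (s ×ˢ M).image fun x => Finsupp.single x.1 1 + x.2

omit [Fintype σ] in
theorem mem_upF {s : Finset σ} {M : Finset (σ →₀ ℕ)} {τ : σ →₀ ℕ} :
    τ ∈ upF s M ↔ ∃ l ∈ s, ∃ ν ∈ M, Finsupp.single l 1 + ν = τ := by
  simp only [upF, mem_image, mem_product, Prod.exists, and_assoc, exists_and_left]

theorem ratioF {D ρ : ℕ} {s : Finset σ} {M : Finset (σ →₀ ℕ)} (hs : s.card = ρ + 1)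
    (hM : M.card ≤ (ρ + D).choose ρ) : (ρ + 1 + D) * M.card ≤ (D + 1) * (upF s M).card := by
  obtain ⟨φ, hφ⟩ : ∃ φ : (σ →₀ ℕ) → σ → ℕ, ∀ ν i, φ ν i = ν i := ⟨_, fun _ _ => rfl⟩
  have hi : Function.Injective φ := fun ν μ e => Finsupp.ext fun i => by rw [← hφ, e, hφ]
  have h4 := ratio D ρ s (M.image φ) hs (by rwa [card_image_of_injective _ hi])
  rw [card_image_of_injective _ hi] at h4
  refine h4.trans (Nat.mul_le_mul_left _ ((card_le_card fun τ hτ => ?_).trans
    (card_image_le (f := φ))))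
  obtain ⟨l, hl, _, hν, rfl⟩ := mem_up.mp hτ
  obtain ⟨ν, hν', rfl⟩ := mem_image.mp hν
  refine mem_image.mpr ⟨_, mem_upF.mpr ⟨l, hl, ν, hν', rfl⟩, funext fun i => ?_⟩
  rw [Pi.add_apply, hφ, hφ, Finsupp.add_apply, Finsupp.single_eq_pi_single, add_comm]

theorem chain_count {I : Type} [Fintype I] (k : I → ℕ) (b : ℕ → ℕ)
    (hf : ∀ j, (univ.filter fun i => k i = j).card ≤ b j)
    (hb : ∀ j, 2 ≤ j → 3 * b (j + 1) ≤ b j) : 4 * ∑ i, (k i - 1) ≤ 9 * b 2 := by
  have key : ∀ d j, 2 ≤ j → (∀ i, k i < j + d) →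
      2 * (univ.filter fun i => j ≤ k i).card ≤ 3 * b j ∧ 4 * ∑ i, (k i + 1 - j) ≤ 9 * b j := by
    intro d
    induction d with
    | zero =>
      intro j _ h
      rw [filter_eq_empty_iff.mpr fun i _ => not_le.mpr (show k i < j from h i),
        sum_eq_zero fun i _ => by have := h i; omega]
      simp
    | succ d ih =>
      intro j hj h
      obtain ⟨h1, h2⟩ := ih (j + 1) (by omega) fun i => by have := h i; omega
      have h3 : (univ.filter fun i => j ≤ k i).card =
          (univ.filter fun i => k i = j).card + (univ.filter fun i => j + 1 ≤ k i).card := by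
        simp only [card_filter, ← sum_add_distrib]
        exact sum_congr rfl fun i _ => by split_ifs <;> omega
      have h4 : ∑ i, (k i + 1 - j) =
          (univ.filter fun i => j ≤ k i).card + ∑ i, (k i + 1 - (j + 1)) := by
        simp only [card_filter, ← sum_add_distrib]
        exact sum_congr rfl fun i _ => by split_ifs <;> omega
      have := hf j
      have := hb j hj
      omega
  exact (key (univ.sup k) 2 le_rfl fun i => by
    have := le_sup (f := k) (mem_univ i); omega).2

/-- The counting step. -/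
theorem comb {I : Type} [Fintype I] (k : I → ℕ) {t : ℕ} {A A' : Finset σ}
    (hA : A.card = 2 * (t + 1) + 1) (hA' : A'.card = 2 * (t + 1) + 1) (B : ℕ → Finset (σ →₀ ℕ))
    (hf : ∀ j, (univ.filter fun i => k i = j).card ≤ (B j).card)
    (hB : ∀ j, 2 ≤ j → upF A (B (j + 1)) ⊆ B j) :
    4 * ∑ i, (k i - 1) ≤ (upF A' (upF A (B 2))).card ∨
      (3 * (t + 1)).choose (t + 1) ≤ (upF A' (upF A (B 2))).card := by
  have h3 : ∀ {s : Finset σ} {M : Finset (σ →₀ ℕ)}, s.card = 2 * (t + 1) + 1 →
      M.card ≤ (2 * (t + 1) + t).choose (2 * (t + 1)) → 3 * M.card ≤ (upF s M).card :=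
    fun hs hM => Nat.le_of_mul_le_mul_left (c := t + 1) (by nlinarith [ratioF hs hM]) t.succ_pos
  by_cases hc : (upF A (B 2)).card ≤ (2 * (t + 1) + t).choose (2 * (t + 1))
  · left
    have h1 : ∀ M : Finset (σ →₀ ℕ), M.card ≤ (upF A M).card := fun M => by
      obtain ⟨a, ha⟩ := card_pos.mp (by omega : 0 < A.card)
      exact card_le_card_of_injOn (fun ν => Finsupp.single a 1 + ν)
        (fun ν hν => mem_coe.mpr (mem_upF.mpr ⟨a, ha, ν, hν, rfl⟩)) (add_right_injective _).injOn
    have h2 : ∀ j, 2 ≤ j → (B j).card ≤ (2 * (t + 1) + t).choose (2 * (t + 1)) := by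
      intro j hj
      induction j, hj using Nat.le_induction with
      | base => exact (h1 _).trans hc
      | succ j hj ih => exact (h1 _).trans ((card_le_card (hB j hj)).trans ih)
    have h4 := chain_count k (fun j => (B j).card) hf fun j hj =>
      (h3 hA (h2 _ (by omega))).trans (card_le_card (hB j hj))
    have h5 := h3 hA (h2 2 le_rfl)
    have h6 := h3 hA' hc
    omega
  · right
    obtain ⟨M, h1, h2⟩ := exists_subset_card_eq (not_le.mp hc).le
    have h4 := h3 hA' h2.le
    have h5 : (upF A' M).card ≤ (upF A' (upF A (B 2))).card :=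
      card_le_card (image_subset_image (product_subset_product_right h1))
    have h6 := Nat.choose_mul_succ_eq (2 * (t + 1) + t) (2 * (t + 1))
    rw [show 2 * (t + 1) + t + 1 - 2 * (t + 1) = t + 1 by omega,
      show 2 * (t + 1) + t + 1 = 3 * (t + 1) by ring,
      ← Nat.choose_symm_of_eq_add (show 3 * (t + 1) = t + 1 + 2 * (t + 1) by ring)] at h6
    exact Nat.le_of_mul_le_mul_left (c := t + 1) (by nlinarith) t.succ_pos

end Pool.Agent.Lib.MP_7906d6_an.Exp
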