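import Mathlib

/-!
Lowest exponents of polynomials and the counting step of the upper degree bound.
-/

namespace Pool.Agent.Lib.MP_7906d6_an.Mac

open MvPolynomial Finset

variable {σ A : Type} [LinearOrder σ] [CommRing A] {i j : σ}

/-- First the degree in the two marked variables, then the lexicographic order. -/
noncomputable def key (i j : σ) (ν : σ →₀ ℕ) : ℕ ×ₗ Lex (σ →₀ ℕ) := toLex (ν i + ν j, toLex ν)

/-- `ν` is the lowest exponent of `p`. -/
def Lo (i j : σ) (p : MvPolynomial σ A) (ν : σ →₀ ℕ) : Prop :=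
  ν ∈ p.support ∧ ∀ τ ∈ p.support, key i j ν ≤ key i j τ

omit [LinearOrder σ] in
theorem key_inj {ν τ : σ →₀ ℕ} (h : key i j ν = key i j τ) : ν = τ :=
  congrArg (fun x : ℕ ×ₗ Lex (σ →₀ ℕ) => ofLex (ofLex x).2) h

theorem key_add (ρ : σ →₀ ℕ) {ν τ : σ →₀ ℕ} (h : key i j ν ≤ key i j τ) :
    key i j (ρ + ν) ≤ key i j (ρ + τ) := by
  unfold key at h ⊢
  rw [Prod.Lex.toLex_le_toLex] at h ⊢
  simp only [Finsupp.add_apply, toLex_add] at h ⊢
  rcases h with h | ⟨h, h'⟩
  · left; omega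
  · right; exact ⟨by omega, add_le_add_right h' _⟩

theorem key_deg {ν τ : σ →₀ ℕ} (h : key i j ν ≤ key i j τ) : ν i + ν j ≤ τ i + τ j := by
  unfold key at h
  rw [Prod.Lex.toLex_le_toLex] at h
  rcases h with h | ⟨h, -⟩
  · exact h.le
  · exact h.le

theorem key_of_lt {ν τ : σ →₀ ℕ} (h : ν i + ν j < τ i + τ j) : key i j ν ≤ key i j τ := by
  unfold key
  rw [Prod.Lex.toLex_le_toLex]
  exact Or.inl h

theorem exists_lo (i j : σ) {p : MvPolynomial σ A} (hp : p ≠ 0) : ∃ ν, Lo i j p ν :=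
  Finset.exists_min_image p.support (key i j) (support_nonempty.mpr hp)

omit [LinearOrder σ] in
theorem mem_X_mul {k : σ} {p : MvPolynomial σ A} {τ : σ →₀ ℕ} :
    τ ∈ (X k * p).support ↔ ∃ ν ∈ p.support, Finsupp.single k 1 + ν = τ := by
  simp only [support_X_mul, Finset.mem_map, addLeftEmbedding_apply]

theorem Lo.X_mul {p : MvPolynomial σ A} {ν : σ →₀ ℕ} (h : Lo i j p ν) (k : σ) :
    Lo i j (X k * p) (Finsupp.single k 1 + ν) := by
  refine ⟨mem_X_mul.mpr ⟨ν, h.1, rfl⟩, fun τ hτ => ?_⟩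
  obtain ⟨ρ, hρ, rfl⟩ := mem_X_mul.mp hτ
  exact key_add _ (h.2 ρ hρ)

theorem coeff_euler (k : σ) (p : MvPolynomial σ A) (ν : σ →₀ ℕ) :
    coeff ν (X k * pderiv k p) = (ν k : A) * coeff ν p := by
  rw [coeff_X_mul']
  split_ifs with h
  · rw [coeff_pderiv, tsub_add_cancel_of_le (Finsupp.single_le_iff.mpr
      (Nat.pos_of_ne_zero (Finsupp.mem_support_iff.mp h))), mul_comm]
    congr 1
    rw [Finsupp.tsub_apply, Finsupp.single_eq_same]
    have := Nat.pos_of_ne_zero (Finsupp.mem_support_iff.mp h)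
    rw [← Nat.cast_succ, Nat.succ_eq_add_one, (by omega : ν k - 1 + 1 = ν k)]
  · rw [Finsupp.notMem_support_iff.mp h, Nat.cast_zero, zero_mul]

variable [IsDomain A]

theorem Lo.euler [CharZero A] {c p q : MvPolynomial σ A} {ν : σ →₀ ℕ} (h : Lo i j c ν) {v : σ}
    (hi : v ≠ i) (hj : v ≠ j) (hp : p.support ⊆ c.support) (hq : q.support ⊆ c.support) :
    Lo i j (X v * (2 * c + X i * pderiv i c + X j * pderiv j c) + (X i * p + X j * q))
      (Finsupp.single v 1 + ν) := by
  have hc : ∀ τ, coeff τ (2 * c + X i * pderiv i c + X j * pderiv j c) =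
      ((2 + τ i + τ j : ℕ) : A) * coeff τ c := fun τ => by
    rw [coeff_add, coeff_add, coeff_euler, coeff_euler, two_mul, coeff_add]
    push_cast
    ring
  have hd : ∀ τ ∈ (X i * p + X j * q).support,
      (Finsupp.single v 1 + ν : σ →₀ ℕ) i + (Finsupp.single v 1 + ν : σ →₀ ℕ) j <
        τ i + τ j := by
    intro τ hτ
    simp only [Finsupp.add_apply, Finsupp.single_eq_of_ne hi.symm, Finsupp.single_eq_of_ne hj.symm]
    rcases Finset.mem_union.mp (support_add hτ) with h1 | h1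
    · obtain ⟨ρ, hρ, rfl⟩ := mem_X_mul.mp h1
      have := key_deg (h.2 ρ (hp hρ))
      simp only [Finsupp.add_apply, Finsupp.single_eq_same]
      omega
    · obtain ⟨ρ, hρ, rfl⟩ := mem_X_mul.mp h1
      have := key_deg (h.2 ρ (hq hρ))
      simp only [Finsupp.add_apply, Finsupp.single_eq_same]
      omega
  refine ⟨?_, fun τ hτ => ?_⟩
  · rw [mem_support_iff, coeff_add, coeff_X_mul, hc,
      notMem_support_iff.mp fun h0 => lt_irrefl _ (hd _ h0), add_zero]
    exact mul_ne_zero (Nat.cast_ne_zero.mpr (by omega)) (mem_support_iff.mp h.1)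
  · rcases Finset.mem_union.mp (support_add hτ) with h1 | h1
    · obtain ⟨ρ, hρ, rfl⟩ := mem_X_mul.mp h1
      rw [mem_support_iff, hc] at hρ
      exact key_add _ (h.2 ρ (mem_support_iff.mpr (right_ne_zero_of_mul hρ)))
    · exact key_of_lt (hd τ h1)

theorem lo_indep {ι : Type} [Fintype ι] {p : ι → MvPolynomial σ A} {ν : ι → σ →₀ ℕ}
    (hν : Function.Injective ν) (h : ∀ a, Lo i j (p a) (ν a)) : LinearIndependent A p := by
  classical
  rw [Fintype.linearIndependent_iff]
  intro g hg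
  by_contra hne
  obtain ⟨a₀, ha₀⟩ := not_forall.mp hne
  obtain ⟨a, ha, hmin⟩ := Finset.exists_min_image (univ.filter fun a => g a ≠ 0)
    (fun a => key i j (ν a)) ⟨a₀, by simpa using ha₀⟩
  have h1 := congrArg (coeff (ν a)) hg
  rw [coeff_sum, Finset.sum_eq_single a, coeff_smul, coeff_zero, smul_eq_mul] at h1
  · exact mul_ne_zero (Finset.mem_filter.mp ha).2 (mem_support_iff.mp (h a).1) h1
  · intro b _ hb
    rw [coeff_smul, smul_eq_mul, mul_eq_zero, or_iff_not_imp_left]
    intro hgb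
    by_contra h2
    exact hb (hν (key_inj (le_antisymm ((h b).2 _ (mem_support_iff.mpr h2))
      (hmin b (by simpa using hgb)))))
  · intro hn
    exact absurd (Finset.mem_univ a) hn

/-- The lowest exponents of `span U`, and their shifts among the lowest exponents of `W`. -/
theorem core [CharZero A] [Fintype σ] {J : Type} [Fintype J] {U : J → MvPolynomial σ A}
    (hU : LinearIndependent A U) (W : Submodule A (MvPolynomial σ A)) [Module.Finite A W]
    (h0 : ∀ c ∈ Submodule.span A (Set.range U), X i * c ∈ W)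
    (h1 : ∀ c ∈ Submodule.span A (Set.range U), X j * c ∈ W)
    (h2 : ∀ c ∈ Submodule.span A (Set.range U), ∀ v, v ≠ i → v ≠ j →
      ∃ p q : MvPolynomial σ A, p.support ⊆ c.support ∧ q.support ⊆ c.support ∧
        X v * (2 * c + X i * pderiv i c + X j * pderiv j c) + (X i * p + X j * q) ∈ W) :
    ∃ M T : Finset (σ →₀ ℕ), Fintype.card J ≤ M.card ∧
      (∀ ν ∈ M, ∀ k, Finsupp.single k 1 + ν ∈ T) ∧ T.card ≤ Module.finrank A W := by
  classical
  obtain ⟨M, hM⟩ : ∃ M : Finset (σ →₀ ℕ), ∀ ν, ν ∈ M ↔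
      ∃ c ∈ Submodule.span A (Set.range U), Lo i j c ν := by
    refine ⟨(univ.biUnion fun a => (U a).support).filter fun ν =>
      ∃ c ∈ Submodule.span A (Set.range U), Lo i j c ν, fun ν => ?_⟩
    rw [Finset.mem_filter, and_iff_right_iff_imp]
    rintro ⟨c, hc, hl⟩
    obtain ⟨μ, rfl⟩ := (Submodule.mem_span_range_iff_exists_fun A).mp hc
    have h3 := mem_support_iff.mp hl.1
    rw [coeff_sum] at h3
    obtain ⟨a, -, ha⟩ := Finset.exists_ne_zero_of_sum_ne_zero h3
    rw [coeff_smul, smul_eq_mul] at ha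
    exact Finset.mem_biUnion.mpr ⟨a, Finset.mem_univ a,
      mem_support_iff.mpr (right_ne_zero_of_mul ha)⟩
  refine ⟨M, (M ×ˢ univ).image fun x : (σ →₀ ℕ) × σ => Finsupp.single x.2 1 + x.1, ?_,
    fun ν hν k => Finset.mem_image.mpr ⟨(ν, k), by simpa using hν, rfl⟩, ?_⟩
  · have : LinearIndependent A fun (a : J) (ν : M) => coeff ν.1 (U a) := by
      rw [Fintype.linearIndependent_iff] at hU ⊢
      intro g hg
      refine hU g ?_
      by_contra hne
      obtain ⟨ν, hν⟩ := exists_lo i j hne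
      have h3 := congrFun hg ⟨ν, (hM ν).mpr ⟨_,
        (Submodule.mem_span_range_iff_exists_fun A).mpr ⟨g, rfl⟩, hν⟩⟩
      refine mem_support_iff.mp hν.1 ?_
      rw [coeff_sum]
      simpa using h3
    simpa using this.fintype_card_le_finrank
  · have h3 : ∀ τ : ((M ×ˢ univ).image fun x : (σ →₀ ℕ) × σ => Finsupp.single x.2 1 + x.1),
        ∃ p ∈ W, Lo i j p τ.1 := by
      rintro ⟨τ, hτ⟩
      obtain ⟨⟨ν, k⟩, hx, rfl⟩ := Finset.mem_image.mp hτ
      obtain ⟨c, hc, hl⟩ := (hM ν).mp (Finset.mem_product.mp hx).1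
      by_cases hi : k = i
      · exact ⟨_, h0 c hc, hi ▸ hl.X_mul k⟩
      by_cases hj : k = j
      · exact ⟨_, h1 c hc, hj ▸ hl.X_mul k⟩
      obtain ⟨p, q, hp, hq, hW⟩ := h2 c hc k hi hj
      exact ⟨_, hW, hl.euler hi hj hp hq⟩
    choose p hp hl using h3
    have h4 : LinearIndependent A fun τ => (⟨p τ, hp τ⟩ : W) :=
      LinearIndependent.of_comp W.subtype (lo_indep Subtype.val_injective hl)
    simpa using h4.fintype_card_le_finrank

end Pool.Agent.Lib.MP_7906d6_an.Mac
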