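import Mathlib
import Pool.Agent.Lib.MP_7906d6_an.MacA

/-!
The generic line: coordinates adapted to it and the two derivations that move it.
-/

namespace Pool.Agent.Lib.MP_7906d6_an.Mac

open MvPolynomial Finset

section Der

variable {σ P : Type}

/-- A derivation of the coefficient ring applied to each coefficient. -/
noncomputable def dc (x : P) (p : MvPolynomial σ (MvPolynomial P ℂ)) :
    MvPolynomial σ (MvPolynomial P ℂ) :=
  ∑ ν ∈ p.support, monomial ν (pderiv x (coeff ν p))

theorem coeff_dc (x : P) (p : MvPolynomial σ (MvPolynomial P ℂ)) (ν : σ →₀ ℕ) :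
    coeff ν (dc x p) = pderiv x (coeff ν p) := by
  classical
  rw [dc, coeff_sum]
  simp only [coeff_monomial, Finset.sum_ite_eq']
  split_ifs with h
  · rfl
  · rw [notMem_support_iff.mp h, map_zero]

theorem support_dc (x : P) (p : MvPolynomial σ (MvPolynomial P ℂ)) :
    (dc x p).support ⊆ p.support := fun ν h => by
  rw [mem_support_iff] at h ⊢
  intro h0
  exact h (by rw [coeff_dc, h0, map_zero])

/-- The derivation that moves the line. -/
noncomputable def DD (x : P) (i v : σ) (p : MvPolynomial σ (MvPolynomial P ℂ)) :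
    MvPolynomial σ (MvPolynomial P ℂ) := dc x p + X v * pderiv i p

variable (x : P) (i v : σ) (p q : MvPolynomial σ (MvPolynomial P ℂ))

theorem dc_add : dc x (p + q) = dc x p + dc x q := by
  ext ν : 1
  simp only [coeff_dc, coeff_add, map_add]

theorem dc_mul : dc x (p * q) = p * dc x q + q * dc x p := by
  classical
  ext ν : 1
  rw [mul_comm q]
  simp only [coeff_dc, coeff_add, coeff_mul, map_sum, Derivation.leibniz, smul_eq_mul,
    Finset.sum_add_distrib]
  congr 1
  exact Finset.sum_congr rfl fun _ _ => mul_comm _ _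

theorem DD_add : DD x i v (p + q) = DD x i v p + DD x i v q := by
  simp only [DD, dc_add, map_add]
  ring

theorem DD_mul : DD x i v (p * q) = p * DD x i v q + q * DD x i v p := by
  simp only [DD, dc_mul, Derivation.leibniz, smul_eq_mul]
  ring

theorem DD_C (a : MvPolynomial P ℂ) : DD x i v (C a) = C (pderiv x a) := by
  classical
  rw [DD, pderiv_C, mul_zero, add_zero]
  ext ν : 1
  rw [coeff_dc, coeff_C, coeff_C]
  split_ifs
  · rfl
  · rw [map_zero]

theorem DD_X [DecidableEq σ] (k : σ) : DD x i v (X k) = if k = i then X v else 0 := by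
  have : dc x (X k : MvPolynomial σ (MvPolynomial P ℂ)) = 0 := by
    ext ν : 1
    rw [coeff_dc, coeff_X, coeff_zero]
    split_ifs <;> simp
  rw [DD, this, zero_add, pderiv_X, Pi.single_apply]
  split_ifs <;> simp

theorem DD_zero : DD x i v 0 = 0 := by
  simpa using DD_C x i v 0

theorem DD_sub : DD x i v (p - q) = DD x i v p - DD x i v q := by
  rw [eq_sub_iff_add_eq, ← DD_add, sub_add_cancel]

theorem DD_sum {ι : Type} (s : Finset ι) (f : ι → MvPolynomial σ (MvPolynomial P ℂ)) :
    DD x i v (∑ a ∈ s, f a) = ∑ a ∈ s, DD x i v (f a) :=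
  map_sum (AddMonoidHom.mk' (DD x i v) (DD_add x i v)) f s

theorem DD_aeval {τ : Type} (x' : P) (i' : σ) (φ : τ → MvPolynomial σ (MvPolynomial P ℂ))
    (c : MvPolynomial σ (MvPolynomial P ℂ)) (h : ∀ a, DD x' i' v (φ a) = c * DD x i v (φ a))
    (Q : MvPolynomial τ ℂ) : DD x' i' v (aeval φ Q) = c * DD x i v (aeval φ Q) := by
  induction Q using MvPolynomial.induction_on with
  | C a =>
    have : (algebraMap ℂ (MvPolynomial σ (MvPolynomial P ℂ)) a) = C (C a) := rfl
    rw [aeval_C, this, DD_C, DD_C, pderiv_C, pderiv_C, C_0, mul_zero]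
  | add p q hp hq => rw [map_add, DD_add, DD_add, hp, hq, mul_add]
  | mul_X p a hp => rw [map_mul, aeval_X, DD_mul, DD_mul, hp, h a]; ring

end Der

variable {m : ℕ} (u : Option (Fin m) → ℂ)

/-- The coefficient ring: parameters of the line. -/
abbrev AA (m : ℕ) : Type := MvPolynomial (Fin m ⊕ Fin m) ℂ

/-- Polynomials in the adapted dual coordinates. -/
abbrev RR (m : ℕ) : Type := MvPolynomial (Fin (m + 2)) (AA m)

/-- The point with parameter `t` on the generic line. -/
noncomputable def zz (t : ℂ) : Option (Fin m) → AA m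
  | none => C (t * u none)
  | some v => X (Sum.inl v) + C t * (C (u (some v)) + X (Sum.inr v))

/-- The dual coordinates in terms of the adapted ones. -/
noncomputable def ze : Option (Option (Fin m)) → RR m
  | none => ∑ v, C (X (Sum.inl v)) * X v.succ.succ - X 0
  | some none => C (C (u none)⁻¹) *
      (X 1 - ∑ v, C (C (u (some v)) + X (Sum.inr v)) * X v.succ.succ)
  | some (some v) => X v.succ.succ

/-- The substitution. -/
noncomputable def ph (t : ℂ) : Option (Fin m) ⊕ Option (Option (Fin m)) → RR m :=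
  Sum.elim (fun a => C (zz u t a)) (ze u)

theorem ne1 (v : Fin m) : v.succ.succ ≠ (1 : Fin (m + 2)) := fun h =>
  Fin.succ_ne_zero v (Fin.succ_injective _ h)

theorem D0_ze (v : Fin m) (a : Option (Option (Fin m))) :
    DD (Sum.inl v) 0 v.succ.succ (ze u a) = 0 := by
  rcases a with _ | _ | w
  · simp [ze, DD_sub, DD_sum, DD_mul, DD_C, DD_X, pderiv_X, Pi.single_apply, apply_ite C]
  · simp only [ze, DD_sub, DD_sum, DD_mul, DD_C, DD_X]
    simp
  · simp [ze, DD_X]

theorem D1_ze (v : Fin m) (a : Option (Option (Fin m))) :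
    DD (Sum.inr v) 1 v.succ.succ (ze u a) = 0 := by
  rcases a with _ | _ | w
  · simp [ze, DD_sub, DD_sum, DD_mul, DD_C, DD_X, ne1]
  · simp only [ze, DD_sub, DD_sum, DD_mul, DD_C, DD_X]
    simp [ne1, pderiv_X, Pi.single_apply, apply_ite C]
  · simp [ze, DD_X, ne1]

theorem D1_ph (t : ℂ) (v : Fin m) (a : Option (Fin m) ⊕ Option (Option (Fin m))) :
    DD (Sum.inr v) 1 v.succ.succ (ph u t a) =
      C (C t) * DD (Sum.inl v) 0 v.succ.succ (ph u t a) := by
  rcases a with (_ | w) | a
  · simp only [ph, Sum.elim_inl, zz, DD_C, pderiv_C, C_0, mul_zero]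
  · simp only [ph, Sum.elim_inl, zz, DD_C, ← C_mul]
    congr 1
    simp [pderiv_X, Pi.single_apply]
  · simp only [ph, Sum.elim_inr, D0_ze, D1_ze, mul_zero]

theorem ph_J (hu : u none ≠ 0) (t : ℂ) :
    ∑ a, ph u t (Sum.inl a) * ph u t (Sum.inr (some a)) - ph u t (Sum.inr none) =
      X 0 + C (C t) * X 1 := by
  have h : (C (C (t * u none)) * C (C (u none)⁻¹) : RR m) = C (C t) := by
    rw [← C_mul, ← C_mul, mul_inv_cancel_right₀ hu]
  simp only [ph, Sum.elim_inl, Sum.elim_inr, Fintype.sum_option, zz, ze, ← mul_assoc, h]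
  simp only [C_add, C_mul, add_mul, mul_add, mul_sub, Finset.sum_add_distrib, Finset.mul_sum,
    mul_assoc]
  ring

end Pool.Agent.Lib.MP_7906d6_an.Mac
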