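import Mathlib
import Pool.Agent.Lib.MP_7906d6_an.MacB

/-!
The growth statement for a polarised sphere map along the generic line.
-/

namespace Pool.Agent.Lib.MP_7906d6_an.Mac

open MvPolynomial Finset

/-- At least `k` exponents whose shifts by the variables lie in a set of size at most `d`. -/
def Grow (m k d : ℕ) : Prop :=
  ∃ M T : Finset (Fin (m + 2) →₀ ℕ), k ≤ M.card ∧
    (∀ ν ∈ M, ∀ a, Finsupp.single a 1 + ν ∈ T) ∧ T.card ≤ d

theorem low_coeff {P J Y : Type} [Fintype J] {μ : J → MvPolynomial P ℂ}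
    {a : Y → J → MvPolynomial P ℂ} (h : ∀ y, ∑ j, μ j * a y j = 0)
    (hi : ∀ c : J → ℂ, (∀ y, ∑ j, c j * constantCoeff (a y j) = 0) → c = 0) (j₀ : J) :
    μ j₀ = 0 := by
  classical
  by_contra hne
  obtain ⟨ρ₀, hρ₀⟩ := support_nonempty.mpr hne
  obtain ⟨ρ, hρ, hmin⟩ := Finset.exists_min_image (univ.biUnion fun j => (μ j).support)
    (fun ρ => ρ.degree) ⟨ρ₀, Finset.mem_biUnion.mpr ⟨j₀, Finset.mem_univ _, hρ₀⟩⟩
  obtain ⟨j₁, -, hj₁⟩ := Finset.mem_biUnion.mp hρ
  refine mem_support_iff.mp hj₁ (congrFun (hi (fun j => coeff ρ (μ j)) fun y => ?_) j₁)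
  have h1 := congrArg (coeff ρ) (h y)
  rw [coeff_sum, coeff_zero] at h1
  rw [← h1]
  refine Finset.sum_congr rfl fun j _ => ?_
  rw [coeff_mul, Finset.sum_eq_single (ρ, 0)]
  · rfl
  · rintro ⟨ρ₁, ρ₂⟩ hx hne'
    have h2 : ρ₁ + ρ₂ = ρ := Finset.HasAntidiagonal.mem_antidiagonal.mp hx
    rw [mul_eq_zero, or_iff_not_imp_left]
    intro h3
    have h4 := hmin ρ₁ (Finset.mem_biUnion.mpr ⟨j, Finset.mem_univ _, mem_support_iff.mpr h3⟩)
    rw [← h2, map_add] at h4
    have h5 : ρ₂ = 0 := (Finsupp.degree_eq_zero_iff _).mp (by omega)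
    exact absurd (by rw [← h2, h5, add_zero]) hne'
  · intro hn
    exact absurd (Finset.HasAntidiagonal.mem_antidiagonal.mpr (add_zero ρ)) hn

variable {m : ℕ} {u : Option (Fin m) → ℂ} {κ : Type} [Fintype κ]
  {F : κ → MvPolynomial (Option (Fin m)) ℂ} {G : κ → MvPolynomial (Option (Option (Fin m))) ℂ}
  {Q : MvPolynomial (Option (Fin m) ⊕ Option (Option (Fin m))) ℂ}

/-- The cofactor at the point `t` of the generic line. -/
noncomputable def UU (u : Option (Fin m) → ℂ)
    (Q : MvPolynomial (Option (Fin m) ⊕ Option (Option (Fin m))) ℂ) (t : ℂ) : RR m :=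
  aeval (ph u t) Q

theorem spec (hu : u none ≠ 0) (y : Option (Option (Fin m)) → ℂ) : ∃ χ : RR m →ₐ[AA m] AA m,
    ∀ t : ℂ, constantCoeff (χ (UU u Q t)) = eval (Sum.elim (fun a => t * u a) y) Q := by
  refine ⟨aeval fun i : Fin (m + 2) => C (Fin.cases (motive := fun _ => ℂ) (-y none)
    (Fin.cases (motive := fun _ => ℂ) (∑ a, u a * y (some a)) fun v => y (some (some v))) i),
    fun t => ?_⟩
  rw [UU, ← AlgHom.restrictScalars_apply ℂ, comp_aeval_apply, map_aeval]
  refine eval₂Hom_congr (RingHom.ext fun c => by simp) (funext fun a => ?_) rfl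
  rw [AlgHom.restrictScalars_apply]
  rcases a with (_ | v) | _ | _ | v
  · simp [ph, zz]
  · simp [ph, zz]
  · simp [ph, ze]
  · have h1 : (1 : Fin (m + 2)) = Fin.succ 0 := rfl
    simp only [ph, ze, Sum.elim_inr, map_mul, map_sub, map_sum, aeval_X, aeval_C, h1,
      Fin.cases_succ, Fin.cases_zero, Algebra.algebraMap_self, RingHom.id_apply, constantCoeff_C,
      map_add, constantCoeff_X, add_zero, Fintype.sum_option, add_sub_cancel_right]
    exact inv_mul_cancel_left₀ hu _
  · simp [ph, ze]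

theorem indep (hu : u none ≠ 0) {J : Type} [Fintype J] {t : J → ℂ}
    (h : ∀ c : J → ℂ, (∀ y, ∑ j, c j * eval (Sum.elim (fun a => t j * u a) y) Q = 0) → c = 0) :
    LinearIndependent (AA m) fun j => UU u Q (t j) := by
  rw [Fintype.linearIndependent_iff]
  intro μ hμ
  choose χ hχ using spec (Q := Q) hu
  refine low_coeff (a := fun y j => χ y (UU u Q (t j))) (fun y => ?_) fun c hc =>
    h c fun y => by simpa only [hχ] using hc y
  simpa only [map_sum, map_smul, smul_eq_mul, map_zero] using congrArg (χ y) hμ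

/-- `c` comes from a relation between the points. -/
def Rel (u : Option (Fin m) → ℂ) (Q : MvPolynomial (Option (Fin m) ⊕ Option (Option (Fin m))) ℂ)
    {J : Type} [Fintype J] (t : J → ℂ) (l : J → AA m) (c : RR m) : Prop :=
  ∑ j, l j • UU u Q (t j) = X 1 * c ∧ ∑ j, (l j * C (t j)) • UU u Q (t j) = -(X 0 * c)

theorem Rel.sum {J I : Type} [Fintype J] [Fintype I] {t : J → ℂ} {l : I → J → AA m}
    {c : I → RR m} (h : ∀ i, Rel u Q t (l i) (c i)) (μ : I → AA m) :
    Rel u Q t (fun j => ∑ i, μ i * l i j) (∑ i, μ i • c i) := by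
  constructor
  · simp only [Finset.sum_smul, mul_smul, Finset.mul_sum, mul_smul_comm]
    rw [Finset.sum_comm]
    exact Finset.sum_congr rfl fun i _ => by rw [← Finset.smul_sum, (h i).1]
  · simp only [Finset.sum_mul, Finset.sum_smul, mul_assoc, mul_smul (μ _), Finset.mul_sum,
      mul_smul_comm, ← Finset.sum_neg_distrib]
    rw [Finset.sum_comm]
    exact Finset.sum_congr rfl fun i _ => by rw [← Finset.smul_sum, (h i).2, smul_neg]

theorem Rel.euler {J : Type} [Fintype J] {t : J → ℂ} {l : J → AA m} {c : RR m}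
    (h : Rel u Q t l c) (v : Fin m) :
    X v.succ.succ * (2 * c + X 0 * pderiv 0 c + X 1 * pderiv 1 c) +
      (X 0 * dc (Sum.inl v) c + X 1 * dc (Sum.inr v) c) ∈
      Submodule.span (AA m) (Set.range fun j => UU u Q (t j)) := by
  have e4 : ∀ x i (μ : J → AA m), DD x i v.succ.succ (∑ j, μ j • UU u Q (t j)) =
      ∑ j, μ j • DD x i v.succ.succ (UU u Q (t j)) + ∑ j, pderiv x (μ j) • UU u Q (t j) := by
    intro x i μ
    rw [DD_sum, ← Finset.sum_add_distrib]
    exact Finset.sum_congr rfl fun j _ => by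
      rw [smul_eq_C_mul, DD_mul, DD_C, smul_eq_C_mul, smul_eq_C_mul, mul_comm (UU u Q (t j))]
  have e1 := e4 (Sum.inr v) 1 l
  have e0 := e4 (Sum.inl v) 0 fun j => l j * C (t j)
  have e2 : ∑ j, l j • DD (Sum.inr v) 1 v.succ.succ (UU u Q (t j)) =
      ∑ j, (l j * C (t j)) • DD (Sum.inl v) 0 v.succ.succ (UU u Q (t j)) :=
    Finset.sum_congr rfl fun j _ => by
      rw [mul_smul, smul_eq_C_mul _ (C (t j))]
      exact congrArg _ (DD_aeval _ _ _ _ _ (ph u (t j)) _ (D1_ph u (t j) v) Q)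
  rw [h.1, DD_mul, DD_X, if_pos rfl, e2, DD] at e1
  rw [h.2, ← zero_sub, DD_sub, DD_zero, DD_mul, DD_X, if_pos rfl, DD] at e0
  refine (congrArg (· ∈ _) ?_).mp (Submodule.sub_mem _
    ((Submodule.mem_span_range_iff_exists_fun _).mpr ⟨fun j => pderiv (Sum.inr v) (l j), rfl⟩)
    ((Submodule.mem_span_range_iff_exists_fun _).mpr
      ⟨fun j => pderiv (Sum.inl v) (l j * C (t j)), rfl⟩))
  linear_combination e0 - e1

theorem grow_of {J I : Type} [Fintype J] [Fintype I] {t : J → ℂ} {l : I → J → AA m}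
    {c : I → RR m} (h : ∀ i, Rel u Q t (l i) (c i)) (hc : LinearIndependent (AA m) c) :
    Grow m (Fintype.card I) (Set.finrank (AA m) (Set.range fun j => UU u Q (t j))) := by
  have : Module.Finite (AA m) (Submodule.span (AA m) (Set.range fun j => UU u Q (t j))) :=
    Module.Finite.span_of_finite _ (Set.finite_range _)
  refine core (i := 0) (j := 1) hc _ (fun x hx => ?_) (fun x hx => ?_) fun x hx v hv0 hv1 => ?_
  · obtain ⟨μ, rfl⟩ := (Submodule.mem_span_range_iff_exists_fun _).mp hx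
    rw [← Submodule.neg_mem_iff]
    exact (Submodule.mem_span_range_iff_exists_fun _).mpr ⟨_, (Rel.sum h μ).2⟩
  · obtain ⟨μ, rfl⟩ := (Submodule.mem_span_range_iff_exists_fun _).mp hx
    exact (Submodule.mem_span_range_iff_exists_fun _).mpr ⟨_, (Rel.sum h μ).1⟩
  · obtain ⟨μ, rfl⟩ := (Submodule.mem_span_range_iff_exists_fun _).mp hx
    obtain ⟨v, rfl⟩ := Fin.exists_succ_eq.mpr hv0
    obtain ⟨v, rfl⟩ := Fin.exists_succ_eq.mpr (show v ≠ 0 from fun h => hv1 (by rw [h]; rfl))
    exact ⟨_, _, support_dc _ _, support_dc _ _, (Rel.sum h μ).euler v⟩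

variable (hid : ∑ k, rename Sum.inl (F k) * rename Sum.inr (G k) =
  (∑ a, X (Sum.inl a) * X (Sum.inr (some a)) - X (Sum.inr none)) * Q)
include hid

theorem w_eq (hu : u none ≠ 0) (t : ℂ) : (X 0 + C (C t) * X 1) * UU u Q t =
    ∑ k, aeval (zz u t) (F k) • aeval (ze u) (G k) := by
  have h := congrArg (aeval (ph u t)) hid
  simp only [map_sum, map_mul, map_sub, aeval_X, aeval_rename] at h
  rw [ph_J u hu] at h
  rw [UU, ← h]
  refine Finset.sum_congr rfl fun k _ => ?_
  rw [smul_eq_C_mul]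
  congr 1
  exact aeval_algebraMap_apply (RR m) (zz u t) (F k)

theorem exists_rel (hu : u none ≠ 0) {J : Type} [Fintype J] (t : J → ℂ) {l : J → AA m}
    (hl : ∀ k, ∑ j, l j * aeval (zz u (t j)) (F k) = 0) : ∃ c, Rel u Q t l c := by
  have h1 : X 0 * ∑ j, l j • UU u Q (t j) + X 1 * ∑ j, (l j * C (t j)) • UU u Q (t j) = 0 := by
    have h2 : ∑ j, l j • ((X 0 + C (C (t j)) * X 1) * UU u Q (t j)) = 0 := by
      simp only [w_eq hid hu, Finset.smul_sum, ← mul_smul]
      rw [Finset.sum_comm]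
      exact Finset.sum_eq_zero fun k _ => by rw [← Finset.sum_smul, hl k, zero_smul]
    rw [← h2, Finset.mul_sum, Finset.mul_sum, ← Finset.sum_add_distrib]
    exact Finset.sum_congr rfl fun j _ => by
      simp only [smul_eq_C_mul, C_mul]
      ring
  have h3 : (X 1 : RR m) ∣ X 0 * ∑ j, l j • UU u Q (t j) :=
    ⟨-∑ j, (l j * C (t j)) • UU u Q (t j), by linear_combination h1⟩
  obtain ⟨c, hc⟩ := (X_dvd_mul_iff.mp h3).resolve_left fun h => by simpa using X_dvd_X.mp h
  refine ⟨c, hc, mul_left_cancel₀ (X_ne_zero (1 : Fin (m + 2))) ?_⟩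
  rw [hc] at h1
  linear_combination h1

/-- One step: a family of points on which the relations are seen faithfully. -/
theorem grow_step (hu : u none ≠ 0) {r : ℕ}
    (hr : ∀ s : Fin (r + 1) → ℂ, ¬ LinearIndependent (AA m) fun j k => aeval (zz u (s j)) (F k))
    {J : Type} [Fintype J] {t : J → ℂ} (hinj : ∀ l, Rel u Q t l 0 → l = 0) :
    Grow m (Fintype.card J - r) (Set.finrank (AA m) (Set.range fun j => UU u Q (t j))) := by
  classical
  obtain ⟨s, hs, hmax⟩ := exists_maximal_linearIndepOn (AA m)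
    fun j k => aeval (zz u (t j)) (F k)
  have h1 : Fintype.card s ≤ r := by
    by_contra h0
    obtain ⟨e⟩ : Nonempty (Fin (r + 1) ↪ s) :=
      Function.Embedding.nonempty_of_card_le (by rw [Fintype.card_fin]; omega)
    exact hr (fun j => t (e j)) (hs.comp e e.injective)
  have h2 : ∀ i : (sᶜ : Set J), ∃ l : J → AA m, l i ≠ 0 ∧ (∀ j ∉ s, j ≠ i → l j = 0) ∧
      ∀ k, ∑ j, l j * aeval (zz u (t j)) (F k) = 0 := by
    intro i
    obtain ⟨a, ha, hm⟩ := hmax i i.2
    obtain ⟨ρ, hρ, e⟩ := (Finsupp.mem_span_image_iff_linearCombination _).mp hm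
    have hρ' : ∀ j ∉ s, ρ j = 0 := fun j hj => (Finsupp.mem_supported' _ _).mp hρ j hj
    refine ⟨fun j => ρ j - if j = i then a else 0, ?_, fun j hj hne => ?_, fun k => ?_⟩
    · simpa [hρ' i i.2] using ha
    · simp [hρ' j hj, hne]
    · rw [Finsupp.linearCombination_apply, Finsupp.sum_fintype _ _ (fun _ => by simp)] at e
      have := congrFun e k
      simp only [Finset.sum_apply, Pi.smul_apply, smul_eq_mul] at this
      simp only [sub_mul, Finset.sum_sub_distrib, this, ite_mul, zero_mul, Finset.sum_ite_eq',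
        Finset.mem_univ, if_true, sub_self]
  choose l hl0 hl1 hl2 using h2
  choose c hc using fun i => exists_rel hid hu t (hl2 i)
  have h3 : LinearIndependent (AA m) c := by
    rw [Fintype.linearIndependent_iff]
    intro μ hμ i
    have h4 := congrFun (hinj _ (hμ ▸ Rel.sum hc μ)) i
    rw [Finset.sum_eq_single i (fun i' _ hne => by
      rw [hl1 i' i i.2 fun h => hne (Subtype.ext h.symm), mul_zero])
      (fun h => absurd (Finset.mem_univ i) h)] at h4
    exact (mul_eq_zero.mp h4).resolve_right (hl0 i)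
  obtain ⟨M, T, h5, h6⟩ := grow_of hc h3
  refine ⟨M, T, le_trans ?_ h5, h6⟩
  rw [Fintype.card_compl_set]
  omega

/-- With a maximal independent family of points one more point is free. -/
theorem grow_main (hu : u none ≠ 0) {r : ℕ}
    (hr : ∀ s : Fin (r + 2) → ℂ, ¬ LinearIndependent (AA m) fun j k => aeval (zz u (s j)) (F k))
    {S : Set ℂ} (hS : S.Infinite) (hS0 : ∀ τ ∈ S, UU u Q τ ≠ 0)
    {B : ℕ} (hB : ∀ k, Grow m (k - (r + 1)) k → k ≤ B) {δ : ℕ} {t : Fin δ → ℂ}
    (hU : LinearIndependent (AA m) fun j => UU u Q (t j)) :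
    ∃ k, δ ≤ k ∧ Grow m (k - r) k := by
  classical
  let p : ℕ → Prop := fun k => ∃ t : Fin k → ℂ, LinearIndependent (AA m) fun j => UU u Q (t j)
  have hp : ∀ k, p k → k ≤ B := by
    rintro k ⟨t, ht⟩
    have := grow_step hid hu hr (t := t) fun l hl => funext
      (Fintype.linearIndependent_iff.mp ht l (by rw [hl.1, mul_zero]))
    rw [← linearIndependent_iff_card_eq_finrank_span.mp ht, Fintype.card_fin] at this
    exact hB k this
  have h1 : p δ := ⟨t, hU⟩
  obtain ⟨s, hs⟩ := Nat.findGreatest_spec (hp δ h1) h1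
  refine ⟨Nat.findGreatest p B, Nat.le_findGreatest (hp δ h1) h1, ?_⟩
  obtain ⟨τ, hτS, hτ⟩ := hS.exists_notMem_finite (Set.finite_range s)
  have h2 : ¬ LinearIndependent (AA m) fun j => UU u Q ((Fin.cons τ s : Fin (_ + 1) → ℂ) j) :=
    fun h => absurd (Nat.le_findGreatest (P := p) (hp _ ⟨_, h⟩) ⟨_, h⟩) (by omega)
  obtain ⟨M, T, h3, h4, h5⟩ := grow_step hid hu hr (t := (Fin.cons τ s : Fin (_ + 1) → ℂ))
    fun l hl => by
      obtain ⟨e1, e2⟩ := hl
      rw [Fin.sum_univ_succ, mul_zero] at e1 e2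
      simp only [Fin.cons_zero, Fin.cons_succ, neg_zero] at e1 e2
      have e3 : ∀ j, l (Fin.succ j) = 0 := fun j => by
        have := Fintype.linearIndependent_iff.mp hs (fun j => l j.succ * C (s j - τ)) (by
          have e4 := congrArg (fun x : RR m => (C τ : AA m) • x) e1
          simp only [smul_add, Finset.smul_sum, smul_zero, ← mul_smul, mul_comm (C τ)] at e4
          simp only [C_sub, mul_sub, sub_smul, Finset.sum_sub_distrib]
          linear_combination e2 - e4) j
        refine (mul_eq_zero.mp this).resolve_right fun h => hτ ⟨j, ?_⟩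
        exact sub_eq_zero.mp (C_eq_zero.mp h)
      simp only [e3, zero_smul, Finset.sum_const_zero, add_zero, smul_eq_zero] at e1
      exact funext (Fin.cases (e1.resolve_right (hS0 τ hτS)) e3)
  rw [linearIndependent_iff_card_le_finrank_span, Fintype.card_fin] at h2
  rw [Fintype.card_fin] at h3
  exact ⟨M, T, by omega, h4, by omega⟩

end Pool.Agent.Lib.MP_7906d6_an.Mac
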