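import Mathlib
import Pool.Agent.Lib.MP_7906d6_an.RatMain
import Pool.Agent.Lib.MP_7906d6_an.MacC
import Pool.Agent.Lib.MP_7906d6_an.MacD

/-!
The degree estimate on discs through the origin, for all target dimensions.
-/

namespace Pool.Agent.Lib.MP_7906d6_an.Mac

open MvPolynomial Finset Matrix Pool.Agent.Lib.MP_7906d6_an.Rat
open scoped ComplexConjugate

theorem Grow.le {m k d : ℕ} (h : Grow m k d) {a : ℕ → ℕ}
    (ha : ∑ i ∈ range m, (a i).choose (i + 2) < k) :
    k + ∑ i ∈ range m, (a i).choose (i + 1) + 1 ≤ d := by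
  classical
  obtain ⟨M, T, h1, h2, h3⟩ := h
  obtain ⟨φ, hφ⟩ : ∃ φ : (Fin (m + 2) →₀ ℕ) → Fin (m + 2) → ℕ, ∀ ν i, φ ν i = ν i :=
    ⟨_, fun _ _ => rfl⟩
  have hi : Function.Injective φ := fun ν μ e => Finsupp.ext fun i => by rw [← hφ, e, hφ]
  have h4 := growth _ m a univ (M.image φ)
    (fun i hi => single_le_sum (fun _ _ => Nat.zero_le _) (mem_range.mpr hi)) (by simp)
    (by rw [card_image_of_injective _ hi]; exact ha.trans_le h1)
  rw [card_image_of_injective _ hi] at h4
  have h5 : (up univ (M.image φ)).card ≤ T.card := by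
    refine (card_le_card fun τ hτ => ?_).trans (card_image_le (f := φ))
    obtain ⟨l, -, _, hν, rfl⟩ := mem_up.mp hτ
    obtain ⟨ν, hν', rfl⟩ := mem_image.mp hν
    refine mem_image.mpr ⟨_, h2 ν hν' l, funext fun i => ?_⟩
    rw [Pi.add_apply, hφ, hφ, Finsupp.add_apply, Finsupp.single_eq_pi_single, add_comm]
  omega

theorem pm_mv {σ : Type} [Fintype σ] {F : (σ → ℂ) → ℂ} (h : PM F) :
    ∃ P : MvPolynomial σ ℂ, ∀ z, eval z P = F z := by
  classical
  replace h := h.isP
  induction h with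
  | const c => exact ⟨C c, by simp⟩
  | lin L => exact ⟨∑ a, C (L (Pi.single a 1)) * X a, fun z => by
      beta_reduce
      rw [LinearMap.pi_apply_eq_sum_univ]
      simp only [map_sum, map_mul, eval_C, eval_X, smul_eq_mul]
      refine sum_congr rfl fun a _ => ?_
      rw [mul_comm]
      congr 2
      ext b
      simp [Pi.single_apply, eq_comm]⟩
  | add _ _ h1 h2 =>
    obtain ⟨p, hp⟩ := h1
    obtain ⟨q, hq⟩ := h2
    exact ⟨p + q, by simp [hp, hq]⟩
  | mul _ _ h1 h2 =>
    obtain ⟨p, hp⟩ := h1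
    obtain ⟨q, hq⟩ := h2
    exact ⟨p * q, by simp [hp, hq]⟩

variable {V κ : Type} [Fintype V] [Fintype κ] {f : (V → ℂ) → Option κ → ℂ}
  {g : ℂ × (V → ℂ) → Option κ → ℂ} {U : (V → ℂ) × ℂ × (V → ℂ) → ℂ} {m : ℕ}

/-- The image of a line spans a small space. -/
theorem det_zero (h : IsData f g U) (ε : Option (Fin m) ≃ V) {z₀ : V → ℂ} (hq : f z₀ none ≠ 0)
    {δ : ℕ} (hN : Fintype.card κ < m * δ + 1) (s : Fin (δ + 1) → ℂ) (c : Fin (δ + 1) → Option κ)
    (b w : V → ℂ) : (Matrix.of fun i j => f (b + s i • w) (c j)).det = 0 := by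
  by_contra h0
  have pf := h.pf
  obtain ⟨t, ht⟩ : ∃ t : Fin (δ + 1) → ℂ, ∀ i, t i = s i - s 0 := ⟨_, fun _ => rfl⟩
  have ht0 : t 0 = 0 := by rw [ht, sub_self]
  have pΔ : PM fun y : (V → ℂ) × (V → ℂ) =>
      (Matrix.of fun i j => f (y.1 + t i • y.2) (c j)).det := PM.det (by fun_prop)
  obtain ⟨y₁, h1, h2⟩ := pΔ.exists_ne (G := fun y => f y.1 none) (by fun_prop)
    (x := (b + s 0 • w, w)) (by simpa [ht, sub_smul, add_assoc] using h0) (y := (z₀, 0)) hq
  obtain ⟨b, e, hb, h3⟩ := exists_frame ε (F := fun y => f y.1 none *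
    ∏ a, (Matrix.of fun i j => f (y.1 + t i • y.2 a) (c j)).det)
    (PM.mul (by fun_prop) (PM.prod fun a => PM.det (by fun_prop))) (y := (y₁.1, fun _ => y₁.2))
    (mul_ne_zero h2 (Finset.prod_ne_zero_iff.2 fun _ _ => h1))
  have h4 := h.case1 hb (left_ne_zero_of_mul h3) (fun i => t (Fin.succ i))
    fun a c' ν hc' => funext fun i => by
      have := Matrix.eq_zero_of_vecMul_eq_zero (v := Fin.cons (-ν) c')
        (Finset.prod_ne_zero_iff.1 (right_ne_zero_of_mul h3) a (Finset.mem_univ a))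
        (funext fun j => by
          have := congrFun hc' (c j)
          simp only [Finset.sum_apply, Pi.smul_apply, smul_eq_mul] at this
          simp [vecMul, dotProduct, Fin.sum_univ_succ, ht0, this])
      simpa using congrFun this i.succ
  rw [Fintype.card_fin] at h4
  omega

theorem bound (h : IsData f g U) (ε : Option (Fin (m + 1)) ≃ V) {z₀ : V → ℂ}
    (hq : f z₀ none ≠ 0) {r : ℕ} (hN : Fintype.card κ < (m + 1) * (r + 1) + 1) {a : ℕ → ℕ}
    (ha : r ≤ ∑ i ∈ range (m + 1), (a i).choose (i + 1)) {u : V → ℂ} (hu : u (ε none) ≠ 0)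
    (h0 : ∀ τ : ℂ, ‖τ‖ < 1 → ∃ y, U (τ • u, y) ≠ 0) {δ : ℕ} {t : Fin δ → ℂ}
    (hp : ∀ c : Fin δ → ℂ, (∀ y, ∑ i, c i * U (t i • u, y) = 0) → c = 0) :
    δ ≤ r + ∑ i ∈ range (m + 1), (a i).choose (i + 2) := by
  have pf := h.pf
  have pg := h.pg
  have pU := h.pU
  choose F hF using fun k => pm_mv (F := fun z : Option (Fin (m + 1)) → ℂ =>
    f (fun v => z (ε.symm v)) k) (by fun_prop)
  choose G hG using fun k => pm_mv (F := fun y : Option (Option (Fin (m + 1))) → ℂ =>
    g (y none, fun v => y (some (ε.symm v))) k) (by fun_prop)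
  obtain ⟨Q, hQ⟩ := pm_mv (F := fun x : Option (Fin (m + 1)) ⊕ Option (Option (Fin (m + 1))) → ℂ =>
    U (fun v => x (Sum.inl (ε.symm v)), x (Sum.inr none), fun v => x (Sum.inr (some (ε.symm v)))))
    (by fun_prop)
  have hid : ∑ k, rename Sum.inl (F k) * rename Sum.inr (G k) =
      (∑ a, X (Sum.inl a) * X (Sum.inr (some a)) - X (Sum.inr none)) * Q :=
    MvPolynomial.funext fun x => by
      simp only [map_sum, map_mul, map_sub, eval_X, eval_rename, hF, hG, hQ, Function.comp_apply]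
      rw [← ε.symm.sum_comp fun a => x (Sum.inl a) * x (Sum.inr (some a))]
      exact h.hU _ _ _
  have hi : ∀ {J : Type} [Fintype J] {t : J → ℂ},
      (∀ c : J → ℂ, (∀ y, ∑ i, c i * U (t i • u, y) = 0) → c = 0) →
      LinearIndependent (AA (m + 1)) fun j => UU (fun o => u (ε o)) Q (t j) := fun hp =>
    indep hu fun c hc => hp c fun y => by
      simpa [hQ, Pi.smul_def] using hc fun o => o.elim y.1 fun o => y.2 (ε o)
  refine (grow_main (u := fun o => u (ε o)) hid hu (r := r) (fun s hs => ?_)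
    (S := Metric.ball 0 1) (infinite_of_mem_nhds 0 (Metric.ball_mem_nhds 0 one_pos))
    (fun τ hτ => ?_) (B := r + 1 + ∑ i ∈ range (m + 1), (r + 1).choose (i + 2))
    (fun k hk => ?_) (hi hp)).elim fun k ⟨h1, h2⟩ => ?_
  · obtain ⟨l, hl, e⟩ := Rat.exists_rel (fun j k => aeval (zz (fun o => u (ε o)) (s j)) (F k))
      fun c => MvPolynomial.funext fun y => by
        rw [RingHom.map_det, map_zero, ← det_zero h ε hq hN s c
          (fun v => (ε.symm v).elim 0 fun w => y (Sum.inl w))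
          fun v => u v + (ε.symm v).elim 0 fun w => y (Sum.inr w)]
        congr 1
        ext i j
        simp only [RingHom.mapMatrix_apply, map_apply, of_apply]
        rw [← coe_aeval_eq_eval, RingHom.coe_coe, comp_aeval_apply, aeval_eq_eval, hF]
        congr 1
        funext v
        obtain ⟨o, rfl⟩ := ε.surjective v
        cases o <;> simp [zz]
    exact hl (funext (Fintype.linearIndependent_iff.mp hs l (funext fun k => by
      simpa only [Finset.sum_apply, Pi.smul_apply, smul_eq_mul, Pi.zero_apply] using e k)))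
  · obtain ⟨y, hy⟩ := h0 τ (mem_ball_zero_iff.mp hτ)
    exact (hi (J := Unit) (t := fun _ => τ) fun c hc => funext fun i => by
      simpa [hy] using hc y).ne_zero ()
  · by_contra h3
    have h4 := hk.le (a := fun _ => r + 1) (by omega)
    rw [sum_range_succ', zero_add, Nat.choose_one_right] at h4
    omega
  · by_contra h3
    have := h2.le (a := a) (by omega)
    omega

/-- The degree estimate on discs through the origin. -/
theorem degree_le {N : ℕ} {a : ℕ → ℕ} {Φ : (Fin (m + 2) → ℂ) → Fin N → ℂ}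
    {f : (Fin (m + 2) → ℂ) → Option (Fin N) → ℂ} (h : RatData Φ f) {u : Fin (m + 2) → ℂ}
    (hu : nsq u = 1) {δ : ℕ} {A : Fin N → Polynomial ℂ} {B : Polynomial ℂ}
    (hm : MinRep (fun t : ℂ => Φ (t • u)) δ A B)
    (ha : (N - 1) / (m + 1) ≤ ∑ i ∈ range (m + 1), (a i).choose (i + 1)) :
    δ ≤ (N - 1) / (m + 1) + ∑ i ∈ range (m + 1), (a i).choose (i + 2) := by
  obtain ⟨g, U, hd⟩ := exists_data h.pf h.sphere
  have hpos : (0 : ℝ) < δ + 1 := by positivity
  obtain ⟨i₀, hi₀⟩ : ∃ i, u i ≠ 0 := by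
    by_contra! h0
    simp [nsq, h0] at hu
  refine bound hd (finSuccEquiv' i₀).symm (h.ne 0 (by simp [nsq])) ?_ ha (by simpa using hi₀)
    (fun τ hτ => ⟨(1, star (τ • u)), fun h0 => ?_⟩)
    (t := fun i : Fin δ => (((i + 1 : ℝ) / (δ + 1) : ℝ) : ℂ))
    (h.pick hd hu hm (fun i j hij => ?_) fun i => ?_)
  · have := Nat.lt_mul_div_succ (N - 1) m.add_one_pos
    rw [Fintype.card_fin]
    omega
  · have h1 := hd.pair (τ • u) (τ • u)
    have h2 := nsq_smul_lt hu hτ
    have h3 := (h.inner u hu).lt τ hτ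
    have h4 : f (τ • u) none * conj (f (τ • u) none) ≠ 0 := by simpa using h.ne _ h2
    rw [h0, mul_zero, dot_cj] at h1
    simp only [h.eq _ h2, map_mul, mul_mul_mul_comm (f (τ • u) none) (Φ _ _), ← Finset.mul_sum,
      ← nsq_coe] at h1
    have h5 : (nsq (Φ (τ • u)) : ℂ) = 1 := mul_left_cancel₀ h4 (by linear_combination h1)
    exact h3.ne (by exact_mod_cast h5)
  · have := (div_left_inj' hpos.ne').1 (Complex.ofReal_injective hij)
    exact Fin.ext (by exact_mod_cast add_right_cancel this)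
  · rw [Complex.norm_real, Real.norm_of_nonneg (by positivity), div_lt_one hpos]
    exact_mod_cast Nat.succ_lt_succ i.2

end Pool.Agent.Lib.MP_7906d6_an.Mac
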