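import Mathlib
import Pool.Agent.Lib.MP_7906d6_an.ChainUp
import Pool.Agent.Lib.MP_7906d6_an.MacE

/-!
Tools: lowest exponents, polynomials over polynomial functions, coefficients, frames.
-/

namespace Pool.Agent.Lib.MP_7906d6_an.Exp

open MvPolynomial Finset Matrix Pool.Agent.Lib.MP_7906d6_an.Rat Pool.Agent.Lib.MP_7906d6_an.Mac
open scoped ComplexConjugate

section Lo

variable {σ A : Type} [LinearOrder σ] [CommRing A] {i j : σ} {p : MvPolynomial σ A}
  {ν τ : σ →₀ ℕ}

theorem lo_unique (h : Lo i j p ν) (h' : Lo i j p τ) : ν = τ :=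
  key_inj (le_antisymm (h.2 _ h'.1) (h'.2 _ h.1))

theorem lo_map {B : Type} [CommRing B] (φ : A →+* B) (h : Lo i j p ν) (h0 : φ (coeff ν p) ≠ 0) :
    Lo i j (map φ p) ν :=
  ⟨mem_support_iff.mpr (by rwa [coeff_map]), fun τ hτ => h.2 τ (support_map_subset _ _ hτ)⟩

omit [LinearOrder σ] in
theorem eq_mul_div {s : σ →₀ ℕ} (h : ∀ τ ∈ p.support, s ≤ τ) :
    p = monomial s 1 * p.divMonomial s := by
  have : p.modMonomial s = 0 := by
    ext τ
    by_cases hs : s ≤ τ
    · exact coeff_modMonomial_of_le p hs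
    · rw [coeff_modMonomial_of_not_le p hs]
      exact notMem_support_iff.mp fun h0 => hs (h τ h0)
  rw [eq_comm, ← add_zero (_ * _), ← this, divMonomial_add_modMonomial]

variable [IsDomain A]

theorem lo_mul {a : A} (ha : a ≠ 0) (γ : σ →₀ ℕ) (h : Lo i j p ν) :
    Lo i j (monomial γ a * p) (γ + ν) := by
  refine ⟨mem_support_iff.mpr ?_, fun τ hτ => ?_⟩
  · rw [coeff_monomial_mul]
    exact mul_ne_zero ha (mem_support_iff.mp h.1)
  · rw [mem_support_iff, coeff_monomial_mul'] at hτ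
    split_ifs at hτ with h1
    · rw [← add_tsub_cancel_of_le h1]
      exact key_add _ (h.2 _ (mem_support_iff.mpr (right_ne_zero_of_mul hτ)))
    · exact absurd rfl hτ

theorem lo_zero {ι : Type} [Fintype ι] {p : ι → MvPolynomial σ A} {ν : ι → σ →₀ ℕ}
    (hν : Function.Injective ν) (h : ∀ a, Lo i j (p a) (ν a)) {g : ι → A}
    (hg : ∀ b, ∑ a, g a * coeff (ν b) (p a) = 0) : g = 0 := by
  classical
  by_contra hne
  obtain ⟨a₀, ha₀⟩ := Function.ne_iff.mp hne
  obtain ⟨a, ha, hmin⟩ := Finset.exists_min_image (univ.filter fun a => g a ≠ 0)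
    (fun a => key i j (ν a)) ⟨a₀, by simpa using ha₀⟩
  have h1 := hg a
  rw [Finset.sum_eq_single a] at h1
  · exact mul_ne_zero (Finset.mem_filter.mp ha).2 (mem_support_iff.mp (h a).1) h1
  · intro b _ hb
    rw [mul_eq_zero, or_iff_not_imp_left]
    intro hgb
    by_contra h2
    exact hb (hν (key_inj (le_antisymm ((h b).2 _ (mem_support_iff.mpr h2))
      (hmin b (by simpa using hgb)))))
  · intro hn
    exact absurd (Finset.mem_univ a) hn

/-- The set of lowest exponents of a module of bounded degree. -/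
theorem loset [Fintype σ] (i j : σ) (W : Submodule A (MvPolynomial σ A)) {n : ℕ}
    (hW : W ≤ restrictTotalDegree σ A n) : ∃ M : Finset (σ →₀ ℕ),
      (∀ ν, ν ∈ M ↔ ∃ p ∈ W, Lo i j p ν) ∧ ∀ {I : Type} [Fintype I] (c : I → MvPolynomial σ A),
        (∀ a, c a ∈ W) → LinearIndependent A c → Fintype.card I ≤ M.card := by
  classical
  have hf : {ν | ∃ p ∈ W, Lo i j p ν}.Finite := (Finsupp.finite_of_degree_le n).subset (by
    rintro ν ⟨p, hp, hl⟩
    exact (le_totalDegree hl.1).trans ((mem_restrictTotalDegree σ n p).mp (hW hp)))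
  refine ⟨hf.toFinset, fun ν => hf.mem_toFinset, fun c hc hU => ?_⟩
  have : LinearIndependent A fun a (ν : hf.toFinset) => coeff ν.1 (c a) := by
    rw [Fintype.linearIndependent_iff] at hU ⊢
    intro g hg
    refine hU g ?_
    by_contra hne
    obtain ⟨ν, hν⟩ := exists_lo i j hne
    have h3 := congrFun hg ⟨ν, hf.mem_toFinset.mpr ⟨_,
      W.sum_mem fun a _ => W.smul_mem _ (hc a), hν⟩⟩
    refine mem_support_iff.mp hν.1 ?_
    rw [coeff_sum]
    simpa using h3
  simpa using this.fintype_card_le_finrank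

end Lo

/-- Splitting off the powers of the first two variables. -/
theorem peel {A : Type} [CommRing A] {m : ℕ} {S : MvPolynomial (Fin (m + 2)) A}
    {ν : Fin (m + 2) →₀ ℕ} (h : Lo 0 0 S ν) (h0 : ν 0 = 1) :
    ∃ K c : MvPolynomial (Fin (m + 2)) A, S = X 0 * (X 1 ^ ν 1 * K + X 0 * c) ∧
      ∀ τ, τ 0 = 0 → coeff τ K = coeff (Finsupp.single 0 1 + (Finsupp.single 1 (ν 1) + τ)) S := by
  have h1 := eq_mul_div (p := S) (s := Finsupp.single 0 1) fun τ hτ =>
    Finsupp.single_le_iff.mpr (by have := key_deg (h.2 τ hτ); omega)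
  set c := S.divMonomial (Finsupp.single 0 1) with hc
  have h3 : ∀ τ : Fin (m + 2) →₀ ℕ, τ 0 = 0 →
      coeff τ (c.modMonomial (Finsupp.single 0 1)) = coeff (Finsupp.single 0 1 + τ) S :=
    fun τ hτ => by
      rw [coeff_modMonomial_of_not_le _ (by rw [Finsupp.single_le_iff]; omega), coeff_divMonomial]
  have h2 := eq_mul_div (p := c.modMonomial (Finsupp.single 0 1)) (s := Finsupp.single 1 (ν 1))
    fun τ hτ => Finsupp.single_le_iff.mpr (by
      rw [mem_support_iff] at hτ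
      have h4 : τ 0 = 0 := by
        by_contra h4
        exact hτ (coeff_modMonomial_of_le _ (Finsupp.single_le_iff.mpr (by omega)))
      rw [h3 τ h4] at hτ
      have h5 := h.2 _ (mem_support_iff.mpr hτ)
      unfold key at h5
      rw [Prod.Lex.toLex_le_toLex] at h5
      simp only [Finsupp.add_apply, Finsupp.single_eq_same, h4, h0, add_zero, lt_self_iff_false,
        false_or, true_and] at h5
      by_contra h6
      refine absurd h5 (not_le.mpr (Finsupp.Lex.lt_iff.mpr ⟨1, fun k hk => ?_, ?_⟩))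
      · obtain rfl : k = 0 := Fin.ext (by have := Fin.lt_def.mp hk; simp at this ⊢; omega)
        simp [h4, h0]
      · simpa using h6)
  refine ⟨(c.modMonomial (Finsupp.single 0 1)).divMonomial (Finsupp.single 1 (ν 1)),
    c.divMonomial (Finsupp.single 0 1), ?_, fun τ hτ => ?_⟩
  · rw [X_pow_eq_monomial, ← h2, modMonomial_add_divMonomial_single]
    exact h1
  · rw [coeff_divMonomial, h3 _ (by simpa using hτ)]

section Fun

variable {E : Type} [AddCommGroup E] [Module ℂ E] {σ : Type}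

theorem polyFun_domain (E : Type) [AddCommGroup E] [Module ℂ E] : IsDomain (polyFun E) := by
  have : NoZeroDivisors (polyFun E) := ⟨fun {a b} h => by
    rw [or_iff_not_imp_left]
    intro ha
    obtain ⟨y, hy⟩ := Function.ne_iff.mp (Subtype.coe_ne_coe.mpr ha)
    exact Subtype.ext (funext (PM.cancel b.2 a.2 hy (congrFun (congrArg Subtype.val h))))⟩
  exact NoZeroDivisors.to_isDomain _

/-- Evaluation of a polynomial function. -/
def ev (y : E) : polyFun E →+* ℂ := (Pi.evalRingHom _ y).comp (polyFun E).subtype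

theorem ev_apply (y : E) (a : polyFun E) : ev y a = a.1 y := rfl

/-- Evaluation of a polynomial with polynomial functions as coefficients. -/
noncomputable def evv (y : E) (ξ : σ → ℂ) : MvPolynomial σ (polyFun E) →+* ℂ :=
  eval₂Hom (ev y) ξ

theorem evv_C (y : E) (ξ : σ → ℂ) (a : polyFun E) : evv y ξ (C a) = a.1 y := eval₂Hom_C _ _ _

theorem evv_X (y : E) (ξ : σ → ℂ) (a : σ) : evv y ξ (X a) = ξ a := eval₂Hom_X' _ _ _

theorem evv_map (y : E) (ξ : σ → ℂ) (p : MvPolynomial σ (polyFun E)) :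
    evv y ξ p = eval ξ (map (ev y) p) := (eval_map _ _ _).symm

theorem evv_ext {p q : MvPolynomial σ (polyFun E)} (h : ∀ y ξ, evv y ξ p = evv y ξ q) : p = q := by
  ext ν y
  have : map (ev y) p = map (ev y) q :=
    MvPolynomial.funext fun ξ => by rw [← evv_map, ← evv_map, h]
  simpa only [coeff_map, ev_apply] using congrArg (coeff ν) this

theorem pm_evv (p : MvPolynomial σ (polyFun E)) : PM fun x : E × (σ → ℂ) => evv x.1 x.2 p := by
  induction p using MvPolynomial.induction_on with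
  | C a =>
    have : PM a.1 := a.2
    simp only [evv_C]
    fun_prop
  | add p q hp hq => simp only [map_add]; fun_prop
  | mul_X p a hp => simp only [map_mul, evv_X]; fun_prop

theorem toMv [Fintype σ] {F : E × (σ → ℂ) → ℂ} (h : PM F) :
    ∃ p : MvPolynomial σ (polyFun E), ∀ y ξ, evv y ξ p = F (y, ξ) := by
  classical
  replace h := h.isP
  induction h with
  | const c => exact ⟨C ⟨fun _ => c, PM.const c⟩, fun y ξ => evv_C _ _ _⟩
  | lin L =>
    refine ⟨C ⟨fun y => L (y, 0), PM.lin L (by fun_prop)⟩ +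
      ∑ a, C ⟨fun _ => L (0, Pi.single a 1), PM.const _⟩ * X a, fun y ξ => ?_⟩
    have : (y, ξ) = (y, 0) + ∑ a, ξ a • ((0 : E), (Pi.single a 1 : σ → ℂ)) := by
      ext
      · simp [Prod.fst_sum]
      · simp [Prod.snd_sum, Pi.single_apply]
    simp only [map_add, map_sum, map_mul, evv_C, evv_X]
    rw [this, map_add, map_sum]
    simp only [map_smul, smul_eq_mul, mul_comm]
  | add _ _ h1 h2 =>
    obtain ⟨p, hp⟩ := h1
    obtain ⟨q, hq⟩ := h2
    exact ⟨p + q, by simp [hp, hq]⟩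
  | mul _ _ h1 h2 =>
    obtain ⟨p, hp⟩ := h1
    obtain ⟨q, hq⟩ := h2
    exact ⟨p * q, by simp [hp, hq]⟩

theorem pm_deg {F : E × ℂ → ℂ} (h : PM F) :
    ∃ D, ∀ y, ∃ p : Polynomial ℂ, p.natDegree ≤ D ∧ ∀ t, F (y, t) = p.eval t := by
  replace h := h.isP
  induction h with
  | const c => exact ⟨0, fun _ => ⟨.C c, by simp⟩⟩
  | lin L =>
    refine ⟨1, fun y => ⟨Polynomial.C (L (0, 1)) * Polynomial.X + Polynomial.C (L (y, 0)),
      Polynomial.natDegree_linear_le, fun t => ?_⟩⟩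
    have : (y, t) = t • ((0 : E), (1 : ℂ)) + (y, 0) := Prod.ext (by simp) (by simp)
    beta_reduce
    rw [this, map_add, map_smul, smul_eq_mul, mul_comm]
    simp
  | add _ _ h1 h2 =>
    obtain ⟨a, ha⟩ := h1
    obtain ⟨b, hb⟩ := h2
    refine ⟨a + b, fun y => ?_⟩
    obtain ⟨p, hp, e1⟩ := ha y
    obtain ⟨q, hq, e2⟩ := hb y
    exact ⟨p + q, (Polynomial.natDegree_add_le p q).trans (by omega), by simp [e1, e2]⟩
  | mul _ _ h1 h2 =>
    obtain ⟨a, ha⟩ := h1
    obtain ⟨b, hb⟩ := h2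
    refine ⟨a + b, fun y => ?_⟩
    obtain ⟨p, hp, e1⟩ := ha y
    obtain ⟨q, hq, e2⟩ := hb y
    exact ⟨p * q, Polynomial.natDegree_mul_le.trans (by omega), by simp [e1, e2]⟩

end Fun

theorem lagr (D : ℕ) : ∃ t lam : Fin (D + 1) → ℂ, (∀ j, t j ≠ 0) ∧
    ∀ p : Polynomial ℂ, p.natDegree ≤ D → ∑ j, lam j * p.eval (t j) = p.eval 0 := by
  refine ⟨fun j => (j : ℕ) + 1, fun j => (Lagrange.basis univ (fun j : Fin (D + 1) =>
    ((j : ℕ) + 1 : ℂ)) j).eval 0, fun j => Nat.cast_add_one_ne_zero _, fun p hp => ?_⟩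
  have := Lagrange.eq_interpolate (s := univ) (v := fun j : Fin (D + 1) => ((j : ℕ) + 1 : ℂ))
    (f := p) (fun i _ j _ h => Fin.ext (by exact_mod_cast add_right_cancel h))
    (Polynomial.degree_le_natDegree.trans_lt (by
      rw [card_univ, Fintype.card_fin]; exact_mod_cast Nat.lt_succ_of_le hp))
  conv_rhs => rw [this, Lagrange.interpolate_apply, Polynomial.eval_finsetSum]
  simp [mul_comm]

/-- Taylor coefficients of a polynomial map whose pairings contain a power of a linear form. -/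
theorem coefX {J κ : Type} [Fintype J] [Fintype κ] {Y : (J → ℂ) → κ → ℂ} (hY : PM Y) :
    ∃ Xv : (J →₀ ℕ) → κ → ℂ, ∀ (G : κ → ℂ) (a : J → ℂ) (r : ℕ) (Q : (J → ℂ) → ℂ), PM Q →
      (∀ x, Y x ⬝ᵥ G = (x ⬝ᵥ a) ^ r * Q x) → ∀ γ : J →₀ ℕ, γ.degree ≤ r → Xv γ ⬝ᵥ G =
        if γ.degree = r then γ.multinomial * γ.prod (fun i k => a i ^ k) * Q 0 else 0 := by
  classical
  choose P hP using fun o => pm_mv (F := fun x => Y x o) (by fun_prop)
  refine ⟨fun γ o => coeff γ (P o), fun G a r Q hQ h γ hγ => ?_⟩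
  obtain ⟨Q', hQ'⟩ := pm_mv hQ
  have h1 : ∑ o, P o * C (G o) = (∑ i, a i • X i) ^ r * Q' := MvPolynomial.funext fun x => by
    have := h x
    simp only [dotProduct] at this
    simp [hP, hQ', this, mul_comm]
  have h2 := congrArg (coeff γ) h1
  simp only [coeff_sum, mul_comm (P _), coeff_C_mul] at h2
  rw [dotProduct_comm, dotProduct, h2, coeff_mul, Finset.sum_eq_single (γ, 0),
    coeff_linearCombination_X_pow_of_fintype, ← hQ', eval_zero, ite_mul, zero_mul]
  · rfl
  · rintro ⟨α, β⟩ hx hne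
    have h3 : α + β = γ := Finset.HasAntidiagonal.mem_antidiagonal.mp hx
    rw [coeff_linearCombination_X_pow_of_fintype, if_neg, zero_mul]
    intro h4
    have h5 : α.degree = r := h4
    rw [← h3, map_add] at hγ
    have h6 : β = 0 := (Finsupp.degree_eq_zero_iff _).mp (by omega)
    exact hne (by rw [← h3, h6, add_zero])
  · intro hn
    exact absurd (Finset.HasAntidiagonal.mem_antidiagonal.mpr (add_zero γ)) hn

variable {κ : Type} [Fintype κ]

theorem span_orth {S S' : Set (Option κ → ℂ)} (h : ∀ x ∈ S, ∀ y ∈ S', x ⬝ᵥ cj y = 0) :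
    ∀ x ∈ Submodule.span ℂ S, ∀ y ∈ Submodule.span ℂ S', x ⬝ᵥ cj y = 0 := by
  intro x hx y hy
  induction hx using Submodule.span_induction with
  | mem x hx =>
    induction hy using Submodule.span_induction with
    | mem y hy => exact h x hx y hy
    | zero => simp [cj_zero]
    | add _ _ _ _ e1 e2 => rw [cj_add, dotProduct_add, e1, e2, add_zero]
    | smul _ _ _ e1 => rw [cj_smul, dotProduct_smul, e1, smul_zero]
  | zero => simp
  | add _ _ _ _ e1 e2 => simp [e1, e2]
  | smul _ _ _ e1 => simp [e1]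

/-- Mutually orthogonal spaces are independent modulo the null vector. -/
theorem orthcount {ι : Type} [Fintype ι] {S : ι → Type} [∀ a, Fintype (S a)]
    (W : ι → Submodule ℂ (Option κ → ℂ)) (w : ∀ a, S a → Option κ → ℂ) (hw : ∀ a s, w a s ∈ W a)
    {z : Option κ → ℂ} (h0 : z none ≠ 0) (h1 : z ⬝ᵥ cj z = 0) (h2 : ∀ a, ∀ x ∈ W a, x ⬝ᵥ cj z = 0)
    (h3 : ∀ a a', a' ≠ a → ∀ x ∈ W a, ∀ y ∈ W a', x ⬝ᵥ cj y = 0)
    (h4 : ∀ a (c : S a → ℂ) (μ : ℂ), ∑ s, c s • w a s = μ • z → c = 0) :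
    ∑ a, Fintype.card (S a) + 1 ≤ Fintype.card κ := by
  have := count (w := fun s : Σ a, S a => w s.1 s.2) h0 h1 (fun s => h2 _ _ (hw _ _))
    fun c μ hc => by
      obtain ⟨A, hA⟩ : ∃ A : ι → Option κ → ℂ, ∀ a, A a = ∑ s, c ⟨a, s⟩ • w a s :=
        ⟨_, fun _ => rfl⟩
      have h5 : ∑ a, A a = μ • z := by simp only [hA]; rw [← hc, Fintype.sum_sigma]
      have h6 : ∀ a, A a ∈ W a := fun a =>
        hA a ▸ Submodule.sum_mem _ fun i _ => Submodule.smul_mem _ _ (hw a i)
      funext ⟨a, s⟩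
      have h7 : A a ⬝ᵥ cj (A a) = 0 := by
        have := congrArg (fun B => A a ⬝ᵥ cj B) h5
        simp only [cj_sum, cj_smul, dotProduct_sum, dotProduct_smul, h2 a _ (h6 a),
          smul_zero] at this
        rwa [Finset.sum_eq_single a (fun a' _ ha => h3 a a' ha _ (h6 a) _ (h6 a'))
          (by simp)] at this
      obtain ⟨ν, hν⟩ := iso h0 h1 (h2 a _ (h6 a)) h7
      exact congrFun (h4 a _ ν (hA a ▸ hν)) s
  rwa [Fintype.card_sigma] at this

/-- A unitary frame off a given hypersurface. -/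
theorem exists_uframe {V : Type} [Fintype V] [DecidableEq V] {F : (V → V → ℂ) → ℂ} (hF : PM F)
    {y} (hy : F y ≠ 0) : ∃ E : V → V → ℂ,
      (∀ a c, E a ⬝ᵥ star (E c) = if a = c then 1 else 0) ∧
        (∀ ζ, ∑ a, (E a ⬝ᵥ ζ) • star (E a) = ζ) ∧ F E ≠ 0 := by
  obtain ⟨M, hM, h⟩ := PM.exists_unitary (n := V) hF hy
  refine ⟨M, fun a c => ?_, fun ζ => funext fun j => ?_, h⟩
  · have h1 : M * Mᴴ = 1 := mul_eq_one_comm.mp hM
    simpa [mul_apply, one_apply, dotProduct] using congrFun (congrFun h1 a) c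
  · have := congrFun (congrArg (· *ᵥ ζ) hM) j
    simp only [← mulVec_mulVec, one_mulVec] at this
    rw [← this]
    simp [mulVec, dotProduct, mul_comm]

end Pool.Agent.Lib.MP_7906d6_an.Exp
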