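import Mathlib
import Pool.Agent.Lib.MP_7906d6_an.ExpA
import Pool.Agent.Lib.MP_7906d6_an.ExpB

/-!
Orthogonal families of Taylor coefficients at a unitary frame.
-/

namespace Pool.Agent.Lib.MP_7906d6_an.Exp

open MvPolynomial Finset Matrix Pool.Agent.Lib.MP_7906d6_an.Rat Pool.Agent.Lib.MP_7906d6_an.Mac
open scoped ComplexConjugate

variable {V κ J : Type} [Fintype V] [Fintype κ] [Fintype J] {f : (V → ℂ) → Option κ → ℂ}
  {g : ℂ × (V → ℂ) → Option κ → ℂ} {U : (V → ℂ) × ℂ × (V → ℂ) → ℂ}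

/-- The vector attached to a relation between points of a line. -/
noncomputable def Yv (f : (V → ℂ) → Option κ → ℂ) (t l : J → ℂ) (b u : V → ℂ) : Option κ → ℂ :=
  ∑ j, (l j / t j) • f (b + t j • u)

/-- One more factor in the pairing with a vector that comes from a relation. -/
theorem gram (h : IsData f g U) {b : V → ℂ} (hb : b ⬝ᵥ star b = 1)
    {Y : (V → ℂ) → Option κ → ℂ} {K : (V → ℂ) × (V → ℂ) → ℂ} (pK : PM K) {k : ℕ}
    (hY : ∀ u ζ, Y u ⬝ᵥ g (b ⬝ᵥ ζ, ζ) = (u ⬝ᵥ ζ) ^ (k + 1) * K (u, ζ)) {t l : J → ℂ}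
    (ht : ∀ j, t j ≠ 0) {w d : V → ℂ} (hw : b ⬝ᵥ star w = 0) (hd : d ⬝ᵥ star w = 1)
    (hrel : ∑ j, l j • f (b + t j • w) = 0) : ∃ Q : (V → ℂ) → ℂ, PM Q ∧ ∀ u, u ⬝ᵥ star b = 0 →
      Y u ⬝ᵥ cj (Yv f t l b w) = (u ⬝ᵥ star w) ^ (k + 2) * Q u := by
  obtain ⟨ζ, hζ⟩ : ∃ ζ : J → V → ℂ, ∀ j, ζ j = star (b + t j • w) := ⟨_, fun _ => rfl⟩
  have h1 : ∀ u j, u ⬝ᵥ ζ j = u ⬝ᵥ star b + conj (t j) * (u ⬝ᵥ star w) := by simp [hζ]
  have h2 : ∀ u j, Y u ⬝ᵥ cj (f (b + t j • w)) = (u ⬝ᵥ ζ j) ^ (k + 1) * K (u, ζ j) := by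
    intro u j
    rw [← hY, h1, hb, hw, mul_zero, add_zero, hζ, h.hg]
  obtain ⟨π, hπ⟩ : ∃ π : (V → ℂ) → V → ℂ, ∀ u, π u = u - (u ⬝ᵥ star b) • b := ⟨_, fun _ => rfl⟩
  have pπ : PM π := by rw [funext hπ]; fun_prop
  have hW : ∀ (τ : ℂ) u, ∑ j, conj (l j) * K (π u + (τ * (u ⬝ᵥ star w)) • b, ζ j) *
      (conj (t j) + τ) ^ (k + 1) = 0 := fun τ =>
    PM.cancel (G := fun u => (u ⬝ᵥ star w) ^ (k + 1)) (by fun_prop) (by fun_prop) (y := d)
      (by simp [hd]) fun u => by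
        have := congrArg (fun B => Y (π u + (τ * (u ⬝ᵥ star w)) • b) ⬝ᵥ cj B) hrel
        simp only [cj_sum, cj_smul, cj_zero, dotProduct_sum, dotProduct_smul, dotProduct_zero, h2,
          h1, smul_eq_mul] at this
        rw [← this, Finset.mul_sum]
        refine Finset.sum_congr rfl fun j _ => ?_
        simp only [hπ, add_dotProduct, sub_dotProduct, smul_dotProduct, hb, hw, smul_eq_mul]
        rw [mul_comm, mul_assoc, ← mul_pow, mul_assoc, mul_comm (K _)]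
        congr 3
        ring
  obtain ⟨Q, hQ, e⟩ := PM.divide (F := fun u => ∑ j, conj (l j) * K (π u, ζ j) * conj (t j) ^ k)
    (g := fun u => u ⬝ᵥ star w) (d := d) (by fun_prop) (by fun_prop) (by simp [hd])
    fun u hu => by
      have := deriv_sum_zero (c := fun j => conj (l j) * K (π u, ζ j))
        (fun j => ((hasDerivAt_id' (0 : ℂ)).const_add (conj (t j))).fun_pow (k + 1))
        fun τ => by simpa [hu] using hW τ u
      refine mul_left_cancel₀ (Nat.cast_add_one_ne_zero k) ?_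
      rw [mul_zero, ← this, Finset.mul_sum]
      exact Finset.sum_congr rfl fun j _ => by simp; ring
  refine ⟨Q, hQ, fun u hu => ?_⟩
  have h3 := e u
  simp only [hπ, hu, zero_smul, sub_zero] at h3
  rw [pow_succ, mul_assoc, ← h3, Yv, cj_sum, dotProduct_sum, Finset.mul_sum]
  refine Finset.sum_congr rfl fun j _ => ?_
  have : conj (t j) ≠ 0 := by simpa using ht j
  rw [cj_smul, dotProduct_smul, h2, h1, hu, map_div₀, smul_eq_mul, zero_add, mul_pow]
  field_simp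
  ring

/-- Counting the polynomials `x ^ γ * p i`. -/
theorem axis_count [LinearOrder V] (v : V) {I : Type} [Fintype I] (k : I → ℕ)
    (p : I → MvPolynomial V ℂ)
    (hp : ∀ j, LinearIndependent ℂ fun i : {i // k i = j} => p i.1) {t : ℕ} {A A' : Finset V}
    (hA : A.card = 2 * (t + 1) + 1) (hA' : A'.card = 2 * (t + 1) + 1)
    (W : Submodule ℂ (MvPolynomial V ℂ))
    (hW : ∀ i (γ : V →₀ ℕ), ∀ a ∈ A, ∀ a' ∈ A', γ.degree + 2 = k i → (∀ j ∈ γ.support, j ∈ A) →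
      monomial (Finsupp.single a' 1 + (Finsupp.single a 1 + γ)) 1 * p i ∈ W) :
    ∃ T : Finset (V →₀ ℕ), min (4 * ∑ i, (k i - 1)) ((3 * (t + 1)).choose (t + 1)) ≤ T.card ∧
      ∃ q : T → MvPolynomial V ℂ, (∀ τ, q τ ∈ W) ∧ LinearIndependent ℂ q := by
  obtain ⟨P, hP⟩ : ∃ P : ℕ → Submodule ℂ (MvPolynomial V ℂ), ∀ j, P j = Submodule.span ℂ
      {q | ∃ i, ∃ γ : V →₀ ℕ, γ.degree + j = k i ∧ (∀ a ∈ γ.support, a ∈ A) ∧
        q = monomial γ 1 * p i} := ⟨_, fun _ => rfl⟩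
  choose B hB hB' using fun j => loset v v (P j)
    (n := univ.sup fun i => k i + (p i).totalDegree) (by
      rw [hP, Submodule.span_le]
      rintro _ ⟨i, γ, h1, -, rfl⟩
      refine (mem_restrictTotalDegree _ _ _).mpr ((totalDegree_mul _ _).trans (le_trans ?_
        (le_sup (f := fun i => k i + (p i).totalDegree) (mem_univ i))))
      have : (monomial γ (1 : ℂ)).totalDegree ≤ γ.degree := totalDegree_monomial_le _ _
      omega)
  have hX : ∀ (a : V) (γ : V →₀ ℕ) (q : MvPolynomial V ℂ),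
      X a * (monomial γ 1 * q) = monomial (Finsupp.single a 1 + γ) 1 * q := fun a γ q => by
    rw [← mul_assoc, X, monomial_mul, one_mul]
  refine ⟨upF A' (upF A (B 2)), min_le_iff.mpr (comb k hA hA' B (fun j => ?_) fun j _ τ hτ => ?_),
    ?_⟩
  · rw [← Fintype.card_subtype]
    exact hB' j _ (fun i => hP j ▸ Submodule.subset_span ⟨i.1, 0, by simp [i.2], by simp, by simp⟩)
      (hp j)
  · obtain ⟨a, ha, ν, hν, rfl⟩ := mem_upF.mp hτ
    obtain ⟨q, hq, hl⟩ := (hB _ _).mp hν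
    refine (hB _ _).mpr ⟨_, ?_, hl.X_mul a⟩
    have : P (j + 1) ≤ (P j).comap (LinearMap.mulLeft ℂ (X a)) := by
      rw [hP, Submodule.span_le]
      rintro _ ⟨i, γ, h1, h2, rfl⟩
      rw [hP]
      refine Submodule.subset_span ⟨i, _, ?_, fun c hc => ?_, hX a γ _⟩
      · rw [map_add, Finsupp.degree_single]; omega
      · rcases mem_union.mp (Finsupp.support_add hc) with h3 | h3
        · rwa [mem_singleton.mp (Finsupp.support_single_subset h3)]
        · exact h2 c h3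
    exact this hq
  · have h3 : ∀ τ : upF A' (upF A (B 2)), ∃ q ∈ W, Lo v v q τ.1 := by
      rintro ⟨τ, hτ⟩
      obtain ⟨a', ha', _, h1, rfl⟩ := mem_upF.mp hτ
      obtain ⟨a, ha, ν, hν, rfl⟩ := mem_upF.mp h1
      obtain ⟨q, hq, hl⟩ := (hB _ _).mp hν
      refine ⟨_, ?_, (hl.X_mul a).X_mul a'⟩
      have : P 2 ≤ W.comap (LinearMap.mulLeft ℂ (X a') ∘ₗ LinearMap.mulLeft ℂ (X a)) := by
        rw [hP, Submodule.span_le]
        rintro _ ⟨i, γ, h1, h2, rfl⟩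
        change X a' * (X a * _) ∈ W
        rw [hX, hX]
        exact hW i γ a ha a' ha' h1 h2
      exact this hq
    choose q hq hl using h3
    exact ⟨q, hq, lo_indep Subtype.val_injective hl⟩

/-- The dimension count at a unitary frame. -/
theorem geo {m : ℕ} {f : (Fin (m + 1) → ℂ) → Option κ → ℂ}
    {g : ℂ × (Fin (m + 1) → ℂ) → Option κ → ℂ} {U : (Fin (m + 1) → ℂ) × ℂ × (Fin (m + 1) → ℂ) → ℂ}
    (h : IsData f g U) {E : Fin (m + 1) → Fin (m + 1) → ℂ}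
    (hE : ∀ a c, E a ⬝ᵥ star (E c) = if a = c then 1 else 0)
    (hE' : ∀ ζ, ∑ a, (E a ⬝ᵥ ζ) • star (E a) = ζ) (hq : f (E 0) none ≠ 0)
    {I : Type} [Fintype I] {k : I → ℕ} (hk : ∀ i, 2 ≤ k i) {t : J → ℂ} (ht : ∀ j, t j ≠ 0)
    {l : I → (Fin (m + 1) → ℂ) → J → ℂ} (pl : ∀ i, PM (l i))
    (hrel : ∀ i u, ∑ j, l i u j • f (E 0 + t j • u) = 0)
    {K : I → (Fin (m + 1) → ℂ) × (Fin (m + 1) → ℂ) → ℂ} (pK : ∀ i, PM (K i))
    (hY : ∀ i u ζ, Yv f t (l i u) (E 0) u ⬝ᵥ g (E 0 ⬝ᵥ ζ, ζ) = (u ⬝ᵥ ζ) ^ k i * K i (u, ζ))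
    (hK : ∀ (c : Fin m) j (α : {i // k i = j} → ℂ), (∀ ζ, E c.succ ⬝ᵥ ζ = 0 →
      ∑ i, α i * K i (E c.succ, ζ) = 0) → α = 0)
    {S : Type} [Fintype S] {Z : Fin m → S → Option κ → ℂ}
    (hZ : ∀ c s, Z c s ∈ Submodule.span ℂ (Set.range fun τ : ℂ => f (E 0 + τ • E c.succ)))
    (hZ0 : ∀ c s, Z c s none = 0) (hZi : ∀ c, LinearIndependent ℂ (Z c))
    {t₀ : ℕ} {A A' : Finset (Fin (m + 1))} (hA : A.card = 2 * (t₀ + 1) + 1)
    (hA' : A'.card = 2 * (t₀ + 1) + 1) (hAA : Disjoint A A') (h0 : 0 ∉ A ∪ A') :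
    m * Fintype.card S + (m - (4 * t₀ + 6)) *
      min (4 * ∑ i, (k i - 1)) ((3 * (t₀ + 1)).choose (t₀ + 1)) + 1 ≤ Fintype.card κ := by
  have pf := h.pf
  have pg := h.pg
  obtain ⟨D, hD⟩ : ∃ D, D = A ∪ A' := ⟨_, rfl⟩
  rw [← hD] at h0
  obtain ⟨uu, huu⟩ : ∃ uu : Fin (m + 1) → (Fin (m + 1) → ℂ) → Fin (m + 1) → ℂ, ∀ c x,
      uu c x = E c + ∑ a, x a • ((if a ∈ D then 1 else 0 : ℂ) • E a) := ⟨_, fun _ _ => rfl⟩
  have puu : ∀ c, PM (uu c) := fun c => by rw [funext (huu c)]; fun_prop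
  have hu : ∀ c x ζ, uu c x ⬝ᵥ ζ = E c ⬝ᵥ ζ + x ⬝ᵥ fun a => if a ∈ D then E a ⬝ᵥ ζ else 0 := by
    intro c x ζ
    rw [huu, add_dotProduct, sum_dotProduct]
    simp only [smul_dotProduct, smul_eq_mul, ite_mul, one_mul, zero_mul]
    rfl
  have hu' : ∀ c x a, a ∉ D → uu c x ⬝ᵥ star (E a) = if c = a then 1 else 0 := by
    intro c x a ha
    rw [hu, hE, add_eq_left]
    refine Finset.sum_eq_zero fun j _ => ?_
    simp only [hE]
    split_ifs with h1 h2
    · exact absurd (h2 ▸ h1) ha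
    · exact mul_zero _
    · exact mul_zero _
  have hu'' : ∀ c x a, a ∉ D → E a ⬝ᵥ star (uu c x) = if c = a then 1 else 0 := by
    intro c x a ha
    rw [dotProduct_star, hu' c x a ha]
    split_ifs <;> simp
  choose Xv hXv using fun c i => coefX (Y := fun x => Yv f t (l i (uu c x)) (E 0) (uu c x)) (by
    unfold Yv; fun_prop)
  have P1 : ∀ c i (γ : Fin (m + 1) →₀ ℕ), γ.degree = k i → (∀ j ∈ γ.support, j ∈ D) → ∀ ζ,
      E c ⬝ᵥ ζ = 0 → Xv c i γ ⬝ᵥ g (E 0 ⬝ᵥ ζ, ζ) =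
        γ.multinomial * γ.prod (fun j n => (E j ⬝ᵥ ζ) ^ n) * K i (E c, ζ) := by
    intro c i γ h1 h2 ζ h3
    rw [hXv c i _ (fun a => if a ∈ D then E a ⬝ᵥ ζ else 0) (k i) (fun x => K i (uu c x, ζ))
      (by fun_prop) (fun x => by rw [hY, hu, h3, zero_add]) γ h1.le, if_pos h1,
      Finsupp.prod_congr fun j hj => by rw [if_pos (h2 j hj)]]
    simp [huu]
  obtain ⟨Gs, hG⟩ : ∃ Gs : Fin m → Set (Option κ → ℂ), ∀ c x, x ∈ Gs c ↔ c.succ ∉ D ∧
      ∃ i, ∃ γ : Fin (m + 1) →₀ ℕ, γ.degree = k i ∧ (∀ j ∈ γ.support, j ∈ D) ∧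
        (∀ a, ∃ j ∈ γ.support, j ≠ a) ∧ x = Xv c.succ i γ := ⟨fun _ => {x | _}, fun _ _ => Iff.rfl⟩
  have hGL : ∀ c, ∀ x ∈ Gs c, ∀ (σ : ℂ) (c' : Fin m), σ = 0 ∨ c' ≠ c →
      x ⬝ᵥ cj (f (E 0 + σ • E c'.succ)) = 0 := by
    intro c x hx σ c' hc
    obtain ⟨-, i, γ, h1, h2, h3, rfl⟩ := (hG c x).mp hx
    obtain ⟨j, hj, hj'⟩ := h3 c'.succ
    have h4 := P1 c.succ i γ h1 h2 (star (E 0 + σ • E c'.succ)) (by
      rcases hc with hc | hc
      · simp [hE, hc]
      · simp [hE, hc.symm])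
    rw [Finsupp.prod, Finset.prod_eq_zero hj (by
      have : j ≠ 0 := fun e => h0 (e ▸ h2 j hj)
      simpa [hE, hj', this] using Finsupp.mem_support_iff.mp hj), mul_zero, zero_mul] at h4
    rw [← h4, ← h.hg]
    simp [hE, (Fin.succ_ne_zero c').symm]
  have hGG : ∀ c c', c' ≠ c → ∀ x ∈ Gs c, ∀ y ∈ Gs c', x ⬝ᵥ cj y = 0 := by
    intro c c' hc x hx y hy
    obtain ⟨hc1, i, γ, h1, -, -, rfl⟩ := (hG c x).mp hx
    obtain ⟨hc2, i', γ', -, -, -, rfl⟩ := (hG c' y).mp hy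
    obtain ⟨n, hn⟩ : ∃ n, k i = n + 1 := ⟨k i - 1, by have := hk i; omega⟩
    rw [dot_cj_conj, hXv c'.succ i' _ 0 (γ'.degree + 1) (fun _ => 0) (by fun_prop) (fun x' => ?_)
      γ' (Nat.le_succ _), if_neg (Nat.lt_succ_self _).ne, map_zero]
    obtain ⟨Q, hQ, e⟩ := gram h (by simp [hE]) (Y := fun u => Yv f t (l i u) (E 0) u) (pK i)
      (hn ▸ hY i) ht (w := uu c'.succ x') (d := E c'.succ) (by simpa using hu'' c'.succ x' 0 h0)
      (by simpa using hu'' c'.succ x' _ hc2) (hrel i' _)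
    rw [dot_cj_conj, hXv c.succ i _ (fun a => if a ∈ D then E a ⬝ᵥ star (uu c'.succ x') else 0)
      (n + 2) (fun x => Q (uu c.succ x)) (by fun_prop) (fun x => by
        rw [e _ (by simpa using hu' c.succ x 0 h0), hu, hu'' _ _ _ hc1,
          if_neg fun h2 => hc (Fin.succ_injective _ h2), zero_add]) γ (by omega),
      if_neg (by omega), map_zero, mul_zero]
  have hT : ∀ c : Fin m, ∃ T : Finset (Fin (m + 1) →₀ ℕ), (if c.succ ∉ D then
      min (4 * ∑ i, (k i - 1)) ((3 * (t₀ + 1)).choose (t₀ + 1)) else 0) ≤ T.card ∧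
      ∃ x : T → Option κ → ℂ, (∀ τ, x τ ∈ Submodule.span ℂ (Gs c)) ∧ ∀ α : T → ℂ,
        ∑ τ, α τ • x τ ∈ Submodule.span ℂ (Set.range fun τ : ℂ => f (E 0 + τ • E c.succ)) →
          α = 0 := by
    intro c
    by_cases hc : c.succ ∈ D
    · exact ⟨∅, by simp [hc], 0, by simp, fun α _ => Subsingleton.elim _ _⟩
    rw [if_pos hc]
    obtain ⟨ζ, hζ⟩ : ∃ ζ : (Fin (m + 1) → ℂ) → Fin (m + 1) → ℂ, ∀ ξ,
        ζ ξ = ∑ j, ξ j • ((if j = c.succ then 0 else 1 : ℂ) • star (E j)) := ⟨_, fun _ => rfl⟩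
    have pζ : PM ζ := by rw [funext hζ]; fun_prop
    have h1 : ∀ ξ j, E j ⬝ᵥ ζ ξ = if j = c.succ then 0 else ξ j := fun ξ j => by
      rw [hζ, dotProduct_sum]
      simp only [dotProduct_smul, hE, smul_eq_mul, mul_ite, mul_one, mul_zero, Finset.sum_ite_eq,
        Finset.mem_univ, if_true]
    choose p hp using fun i => pm_mv (F := fun ξ => K i (E c.succ, ζ ξ)) (by fun_prop)
    choose G hG' using fun o => pm_mv (F := fun ξ => g (E 0 ⬝ᵥ ζ ξ, ζ ξ) o) (by fun_prop)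
    have hΘ : ∀ x ξ, eval ξ (Fintype.linearCombination ℂ G x) = x ⬝ᵥ g (E 0 ⬝ᵥ ζ ξ, ζ ξ) := by
      intro x ξ
      simp only [Fintype.linearCombination_apply, map_sum, smul_eval, hG', dotProduct]
    obtain ⟨T, h2, q, h3, h4⟩ := axis_count 0 k p (fun j => Fintype.linearIndependent_iff.mpr
      fun α hα => congrFun (hK c j α fun w hw => by
        have h5 : ζ (fun j => E j ⬝ᵥ w) = w := by
          rw [hζ]
          refine Eq.trans (Finset.sum_congr rfl fun j _ => ?_) (hE' w)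
          split_ifs with h6
          · simp [h6, hw]
          · rw [one_smul]
        simpa only [map_sum, smul_eval, hp, h5, map_zero] using
          congrArg (eval fun j => E j ⬝ᵥ w) hα)) hA hA'
      ((Submodule.span ℂ (Gs c)).map (Fintype.linearCombination ℂ G)) fun i γ a ha a' ha' h5 h6 => by
        obtain ⟨γ', hγ⟩ : ∃ γ', γ' = Finsupp.single a' 1 + (Finsupp.single a 1 + γ) := ⟨_, rfl⟩
        have h7 : γ'.degree = k i := by
          rw [hγ, map_add, map_add, Finsupp.degree_single, Finsupp.degree_single]; omega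
        have h8 : ∀ j ∈ γ'.support, j ∈ D := fun j hj => by
          by_contra h9
          rw [hD, mem_union, not_or] at h9
          have e1 : j ≠ a := fun e => h9.1 (e ▸ ha)
          have e2 : j ≠ a' := fun e => h9.2 (e ▸ ha')
          simp [hγ, e1, e2, Finsupp.notMem_support_iff.mp fun h => h9.1 (h6 j h)] at hj
        have h9 : (γ'.multinomial : ℂ) ≠ 0 :=
          Nat.cast_ne_zero.mpr (γ'.multinomial_eq ▸ (Nat.multinomial_pos _ _).ne')
        refine ⟨(γ'.multinomial : ℂ)⁻¹ • Xv c.succ i γ', Submodule.smul_mem _ _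
          (Submodule.subset_span ((hG _ _).mpr ⟨hc, i, γ', h7, h8, fun b => ?_, rfl⟩)),
          MvPolynomial.funext fun ξ => ?_⟩
        · by_cases hb : a = b
          · exact ⟨a', by simp [hγ], fun e => disjoint_left.mp hAA ha (hb ▸ e ▸ ha')⟩
          · exact ⟨a, by simp [hγ], hb⟩
        · rw [hΘ, smul_dotProduct, P1 _ _ _ h7 h8 _ (by simp [h1]), ← hγ, map_mul, eval_monomial,
            hp, Finsupp.prod_congr (g2 := fun j n => ξ j ^ n) fun j hj => by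
              rw [h1, if_neg fun e : j = c.succ => hc (e ▸ h8 j hj)], smul_eq_mul, ← mul_assoc, ← mul_assoc, inv_mul_cancel₀ h9]
    choose x hx hx' using h3
    refine ⟨T, h2, x, hx, fun α hα => funext (Fintype.linearIndependent_iff.mp h4 α ?_)⟩
    have h5 : Submodule.span ℂ (Set.range fun τ : ℂ => f (E 0 + τ • E c.succ)) ≤
        LinearMap.ker (Fintype.linearCombination ℂ G) := by
      rw [Submodule.span_le]
      rintro _ ⟨τ, rfl⟩
      exact MvPolynomial.funext fun ξ => by simp [hΘ, h.hU, h1]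
    simpa only [LinearMap.mem_ker, map_sum, map_smul, hx'] using h5 hα
  choose T hT x hx hx' using hT
  have hL : ∀ (σ σ' : ℂ) (c c' : Fin m), σ' = 0 ∨ c' ≠ c →
      f (E 0 + σ • E c.succ) ⬝ᵥ cj (f (E 0 + σ' • E c'.succ)) = 0 := by
    intro σ σ' c c' hc
    rcases hc with hc | hc
    · simp [h.pair, hE, hc]
    · simp [h.pair, hE, hc.symm, (Fin.succ_ne_zero c').symm]
  have := orthcount (S := fun c => S ⊕ T c)
    (fun c => Submodule.span ℂ ((Set.range fun τ : ℂ => f (E 0 + τ • E c.succ)) ∪ Gs c))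
    (fun c => Sum.elim (Z c) (x c)) (by
      rintro c (s | s)
      · exact Submodule.span_mono Set.subset_union_left (hZ c s)
      · exact Submodule.span_mono Set.subset_union_right (hx c s)) hq (by simp [h.pair, hE])
    (fun c y hy => span_orth (S' := {f (E 0)}) (by
      rintro _ (⟨σ, rfl⟩ | h1) _ rfl
      · simpa using hL σ 0 c c (Or.inl rfl)
      · simpa using hGL c _ h1 0 c (Or.inl rfl)) y hy _ (Submodule.subset_span rfl))
    (fun c c' hc => span_orth (by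
      rintro _ (⟨σ, rfl⟩ | h1) _ (⟨σ', rfl⟩ | h2)
      · exact hL σ σ' c c' (Or.inr hc)
      · rw [dot_cj_conj, hGL c' _ h2 σ c (Or.inr hc.symm), map_zero]
      · exact hGL c _ h1 σ' c' (Or.inr hc)
      · exact hGG c c' hc _ h1 _ h2))
    fun c α μ hα => by
      rw [Fintype.sum_sum_type] at hα
      simp only [Sum.elim_inl, Sum.elim_inr] at hα
      have e1 := hx' c (fun τ => α (Sum.inr τ)) (by
        rw [eq_sub_of_add_eq' hα]
        exact Submodule.sub_mem _ (Submodule.smul_mem _ _ (Submodule.subset_span ⟨0, by simp⟩))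
          (Submodule.sum_mem _ fun s _ => Submodule.smul_mem _ _ (hZ c s)))
      have e2 : ∀ τ, α (Sum.inr τ) = 0 := congrFun e1
      simp only [e2, zero_smul, Finset.sum_const_zero, add_zero] at hα
      have e3 : μ = 0 := by simpa [hZ0, hq] using (congrFun hα none).symm
      rw [e3, zero_smul] at hα
      funext o
      rcases o with s | s
      · exact Fintype.linearIndependent_iff.mp (hZi c) _ hα s
      · exact e2 s
  refine le_trans (Nat.succ_le_succ ?_) this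
  simp only [Fintype.card_sum, Fintype.card_coe, Finset.sum_add_distrib, sum_const, card_univ,
    Fintype.card_fin, smul_eq_mul, add_le_add_iff_left]
  refine le_trans ?_ (sum_le_sum fun c _ => hT c)
  rw [← sum_filter, sum_const, smul_eq_mul]
  refine Nat.mul_le_mul_right _ ?_
  have h1 := Fin.card_filter_univ_succ' fun a : Fin (m + 1) => a ∉ D
  have h2 : (univ.filter fun a : Fin (m + 1) => a ∉ D) = Dᶜ := by ext; simp
  rw [h2, card_compl, Fintype.card_fin, if_pos h0, hD, card_union_of_disjoint hAA] at h1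
  rw [hD]
  omega

end Pool.Agent.Lib.MP_7906d6_an.Exp
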