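import Mathlib
import Pool.Agent.Lib.MP_7906d6_an.ExpC

/-!
Relations between the points of the generic line.
-/

namespace Pool.Agent.Lib.MP_7906d6_an.Exp

open MvPolynomial Finset Matrix Pool.Agent.Lib.MP_7906d6_an.Rat Pool.Agent.Lib.MP_7906d6_an.Mac
open scoped ComplexConjugate

variable {m : ℕ}

/-- A base point and a direction. -/
abbrev Ln (m : ℕ) : Type := (Fin (m + 1) → ℂ) × (Fin (m + 1) → ℂ)

/-- Dual coordinates adapted to a direction. -/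
noncomputable def psi (u : Fin (m + 1) → ℂ) (ξ : Fin (m + 2) → ℂ) : Fin (m + 1) → ℂ :=
  vecCons (ξ 1 - ∑ a : Fin m, u a.succ * ξ a.succ.succ) fun a => u 0 * ξ a.succ.succ

/-- Dual coordinates adapted to a line. -/
noncomputable def dp (y : Ln m) (ξ : Fin (m + 2) → ℂ) : ℂ × (Fin (m + 1) → ℂ) :=
  (y.1 ⬝ᵥ psi y.2 ξ - ξ 0, psi y.2 ξ)

/-- The inverse substitution, up to a factor. -/
noncomputable def phi (u ζ : Fin (m + 1) → ℂ) (β : ℂ) : Fin (m + 2) → ℂ :=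
  vecCons β (vecCons (u ⬝ᵥ ζ) fun a => ζ a.succ)

theorem dot_psi (u : Fin (m + 1) → ℂ) (ξ : Fin (m + 2) → ℂ) : u ⬝ᵥ psi u ξ = u 0 * ξ 1 := by
  simp only [psi, dotProduct, Fin.sum_univ_succ, cons_val_zero, cons_val_succ, mul_sub,
    Finset.mul_sum, mul_left_comm (u 0), sub_add_cancel]

theorem pm_cons {Y : Type} [AddCommGroup Y] [Module ℂ Y] {n : ℕ} {F : Y → ℂ} {G : Y → Fin n → ℂ}
    (hF : PM F) (hG : PM G) : PM fun x => vecCons (F x) (G x) :=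
  PM.pi fun i => Fin.cases (by simpa using hF) (fun i => by simp only [cons_val_succ]; fun_prop) i

@[fun_prop] theorem pm_dp {Y : Type} [AddCommGroup Y] [Module ℂ Y] {F : Y → Ln m}
    {G : Y → Fin (m + 2) → ℂ} (hF : PM F) (hG : PM G) : PM fun x => dp (F x) (G x) := by
  have : PM fun x => psi (F x).2 (G x) := pm_cons (by fun_prop) (by fun_prop)
  unfold dp
  fun_prop

theorem dp_phi {y : Ln m} (hu : y.2 0 ≠ 0) (s : ℂ) (ζ : Fin (m + 1) → ℂ) :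
    dp y ((y.2 0)⁻¹ • phi y.2 ζ (y.2 0 * (y.1 ⬝ᵥ ζ - s))) = (s, ζ) := by
  have : ∀ β, psi y.2 ((y.2 0)⁻¹ • phi y.2 ζ β) = ζ := fun β => funext fun i => Fin.cases (by
    simp only [psi, phi, dotProduct, Fin.sum_univ_succ, cons_val_zero, cons_val_succ,
      cons_val_one, Pi.smul_apply, smul_eq_mul, mul_left_comm _ (y.2 0)⁻¹, ← Finset.mul_sum]
    field_simp
    ring) (fun i => by simp [psi, phi, hu]) i
  rw [dp, this]
  simp [phi, hu]

theorem phi_psi {u : Fin (m + 1) → ℂ} (hu : u 0 ≠ 0) {ξ : Fin (m + 2) → ℂ} (h0 : ξ 0 = 0) :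
    (u 0)⁻¹ • phi u (psi u ξ) 0 = ξ := funext fun i => Fin.cases (by simp [phi, h0])
  (fun i => Fin.cases (by simp [phi, dot_psi, hu]) (fun i => by simp [phi, psi, hu]) i) i

theorem kill {p : MvPolynomial (Fin (m + 2)) ℂ} (h : ∀ ξ, ξ 0 = 0 → ξ 1 = 0 → eval ξ p = 0)
    {τ : Fin (m + 2) →₀ ℕ} (h0 : τ 0 = 0) (h1 : τ 1 = 0) : coeff τ p = 0 := by
  have hf : Function.Injective fun a : Fin m => a.succ.succ :=
    (Fin.succ_injective _).comp (Fin.succ_injective _)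
  have h2 : killCompl hf p = 0 := MvPolynomial.funext fun w => by
    have := DFunLike.congr_fun (aeval_unique ((aeval w).comp (killCompl (R := ℂ) hf))) p
    rw [aeval_eq_eval] at this
    refine this.trans (h _ ?_ ?_)
    · simp [killCompl, Fin.succ_ne_zero]
    · simp [killCompl, ne1]
  have h3 : ↑τ.support ⊆ Set.range fun a : Fin m => a.succ.succ := fun i hi => by
    obtain ⟨i, rfl⟩ := Fin.exists_succ_eq.mpr fun e : i = 0 =>
      Finsupp.mem_support_iff.mp hi (e ▸ h0)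
    obtain ⟨i, rfl⟩ := Fin.exists_succ_eq.mpr fun e : i = 0 =>
      Finsupp.mem_support_iff.mp hi (e ▸ h1)
    exact ⟨i, rfl⟩
  rw [← Finsupp.mapDomain_comapDomain _ hf τ h3, ← coeff_killCompl hf, h2, coeff_zero]

theorem card_chain {M : Finset (Fin (m + 2) →₀ ℕ)} (h1 : ∀ ν ∈ M, 1 ≤ ν 0)
    (h2 : ∀ ν ∈ M, 2 ≤ ν 0 → ∃ τ ∈ M, τ + Finsupp.single 0 1 = ν + Finsupp.single 1 1) :
    M.card ≤ ∑ ν ∈ M.filter fun ν => ν 0 = 1, (ν 1 + 1) := by
  have key : ∀ j, ∀ ν ∈ M, ν 0 = j + 1 →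
      ∃ τ ∈ M, τ + Finsupp.single 0 j = ν + Finsupp.single 1 j := by
    intro j
    induction j with
    | zero => exact fun ν hν _ => ⟨ν, hν, by simp⟩
    | succ j ih =>
      intro ν hν h
      obtain ⟨τ, hτ, e⟩ := h2 ν hν (by omega)
      obtain ⟨ρ, hρ, e'⟩ := ih τ hτ (by
        have := DFunLike.congr_fun e 0
        simp at this
        omega)
      refine ⟨ρ, hρ, ?_⟩
      rw [Finsupp.single_add, Finsupp.single_add, ← add_assoc, e', add_right_comm, e, add_assoc,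
        add_comm (Finsupp.single 1 1)]
  choose! τ hτ e using fun ν hν => key (ν 0 - 1) ν hν (by have := h1 ν hν; omega)
  rw [sum_congr rfl fun ν _ => (card_range (ν 1 + 1)).symm, ← card_sigma]
  refine card_le_card_of_injOn (fun ν => ⟨τ ν, ν 0 - 1⟩) (fun ν hν => ?_) fun ν hν ν' hν' h => ?_
  · have e0 := DFunLike.congr_fun (e ν hν) 0
    have e1 := DFunLike.congr_fun (e ν hν) 1
    have := h1 ν hν
    simp at e0 e1
    simp only [coe_sigma, Set.mem_sigma_iff, coe_filter, Set.mem_ofPred_eq, coe_range, Set.mem_Iio]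
    exact ⟨⟨hτ ν hν, by omega⟩, by omega⟩
  · simp only [Sigma.mk.inj_iff, heq_eq_eq] at h
    have := e ν hν
    rw [h.1, h.2, e ν' hν'] at this
    exact (add_right_cancel this).symm

variable {κ J : Type} [Fintype κ] [Fintype J] {f : (Fin (m + 1) → ℂ) → Option κ → ℂ}
  {g : ℂ × (Fin (m + 1) → ℂ) → Option κ → ℂ} {U : (Fin (m + 1) → ℂ) × ℂ × (Fin (m + 1) → ℂ) → ℂ}
  {t lam : J → ℂ} {UT : J → MvPolynomial (Fin (m + 2)) (polyFun (Ln m))}
  {l : J → polyFun (Ln m)} {c : MvPolynomial (Fin (m + 2)) (polyFun (Ln m))}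

/-- Relations between the points of the generic line. -/
def RelM (f : (Fin (m + 1) → ℂ) → Option κ → ℂ) (t : J → ℂ) :
    Submodule (polyFun (Ln m)) (J → polyFun (Ln m)) where
  carrier := {l | ∀ y : Ln m, ∑ j, (l j).1 y • f (y.1 + t j • y.2) = 0}
  add_mem' := fun ha hb y => by simp [add_smul, sum_add_distrib, ha y, hb y]
  zero_mem' := by simp
  smul_mem' := fun a l hl y => by simp [mul_smul, ← smul_sum, hl y]

theorem evv_sum (y : Ln m) (ξ : Fin (m + 2) → ℂ) :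
    evv y ξ (∑ j, l j • UT j) = ∑ j, (l j).1 y * evv y ξ (UT j) := by
  simp only [map_sum, smul_eq_C_mul, map_mul, evv_C]

variable (h : IsData f g U) (hUT : ∀ j y ξ, evv y ξ (UT j) = t j * U (y.1 + t j • y.2, dp y ξ))
include h

theorem pair_dp (y : Ln m) (τ : ℂ) (ξ : Fin (m + 2) → ℂ) : f (y.1 + τ • y.2) ⬝ᵥ g (dp y ξ) =
    (ξ 0 + τ * (y.2 0 * ξ 1)) * U (y.1 + τ • y.2, dp y ξ) := by
  rw [dp, h.hU, add_dotProduct, smul_dotProduct, dot_psi, smul_eq_mul]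
  ring

include hUT

theorem relT (hl : l ∈ RelM f t) : ∃ c, ∑ j, l j • UT j = X 0 * c ∧ ∀ y ξ,
    ∑ j, (l j).1 y * U (y.1 + t j • y.2, dp y ξ) = -(y.2 0 * ξ 1 * evv y ξ c) := by
  have pU := h.pU
  have pl : ∀ j, PM (l j).1 := fun j => (l j).2
  obtain ⟨K, hK, e1, e2⟩ := PM.coprime (E := Ln m × (Fin (m + 2) → ℂ)) (γ := fun x => x.2 0)
    (η := fun x => x.1.2 0 * x.2 1) (by fun_prop) (by fun_prop) (d := (0, Pi.single 0 1))
    (y₁ := ((0, 1), 1)) (by simp) (by simp) (by simp) 1 (pm_evv (∑ j, l j • UT j))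
    (B := fun x => -∑ j, (l j).1 x.1 * U (x.1.1 + t j • x.1.2, dp x.1 x.2)) (by fun_prop)
    fun x => by
      have := congrArg (· ⬝ᵥ g (dp x.1 x.2)) (hl x.1)
      simp only [sum_dotProduct, smul_dotProduct, pair_dp h, zero_dotProduct, smul_eq_mul] at this
      rw [← sub_eq_zero, ← this, evv_sum, mul_neg, sub_neg_eq_add, Finset.mul_sum, Finset.mul_sum,
        ← sum_add_distrib]
      exact sum_congr rfl fun j _ => by rw [hUT]; ring
  obtain ⟨c, hc⟩ := toMv hK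
  exact ⟨c, evv_ext fun y ξ => by rw [map_mul, evv_X, hc, e1 (y, ξ), pow_one],
    fun y ξ => by rw [hc, ← e2 (y, ξ), neg_neg]⟩

theorem relT' (hl : l ∈ RelM f t) (hc : ∑ j, l j • UT j = X 0 * c) (y : Ln m)
    (ξ : Fin (m + 2) → ℂ) :
    ∑ j, (l j).1 y * U (y.1 + t j • y.2, dp y ξ) = -(y.2 0 * ξ 1 * evv y ξ c) := by
  have := polyFun_domain (Ln m)
  obtain ⟨c', e1, e2⟩ := relT h hUT hl
  rw [mul_left_cancel₀ (X_ne_zero 0) (hc.symm.trans e1), e2]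

theorem pairY (ht : ∀ j, t j ≠ 0) (hl : l ∈ RelM f t) (hc : ∑ j, l j • UT j = X 0 * c) (y : Ln m)
    {ξ : Fin (m + 2) → ℂ} (h0 : ξ 0 = 0) : Yv f t (fun j => (l j).1 y) y.1 y.2 ⬝ᵥ g (dp y ξ) =
      -((y.2 0 * ξ 1) ^ 2 * evv y ξ c) := by
  rw [sq, mul_assoc, ← mul_neg, ← relT' h hUT hl hc, Yv, sum_dotProduct, Finset.mul_sum]
  refine sum_congr rfl fun j _ => ?_
  have := ht j
  rw [smul_dotProduct, pair_dp h, h0, smul_eq_mul]
  field_simp
  ring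

/-- One step along a chain of relations. -/
theorem step (ht : ∀ j, t j ≠ 0) (a₀ : Fin m) {z₀ : Fin (m + 1) → ℂ} (hq : f z₀ none ≠ 0)
    (hl1 : ∀ y : Ln m, ∑ j, lam j • f (y.1 + t j • y.2) = f y.1)
    (hl2 : ∀ (y : Ln m) w, ∑ j, lam j * (t j * U (y.1 + t j • y.2, w)) = 0)
    (hl : l ∈ RelM f t) (hc : ∑ j, l j • UT j = X 0 * (X 0 * c)) :
    ∃ l' ∈ RelM f t, ∃ a, a ≠ 0 ∧ ∑ j, l' j • UT j = C a * (X 0 * (X 1 * c)) := by
  have := polyFun_domain (Ln m)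
  have pf := h.pf
  have pg := h.pg
  have pl : ∀ j, PM (l j).1 := fun j => (l j).2
  obtain ⟨Y, hY⟩ : ∃ Y : Ln m → Option κ → ℂ, ∀ y, Y y = Yv f t (fun j => (l j).1 y) y.1 y.2 :=
    ⟨_, fun _ => rfl⟩
  have pY : PM Y := by rw [funext hY]; unfold Yv; fun_prop
  have h1 : ∀ x : Ln m × (Fin (m + 1) → ℂ), Y x.1 ⬝ᵥ g (x.1.1 ⬝ᵥ x.2, x.2) = 0 :=
    PM.cancel (G := fun x => x.1.2 0) (by fun_prop) (by fun_prop) (y := ((0, 1), 0)) (by simp)
      fun x => by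
        rw [mul_eq_zero, or_iff_not_imp_left]
        intro hu
        rw [← dp_phi hu, hY, pairY h hUT ht hl hc _ (by simp [phi]), map_mul, evv_X]
        simp [phi]
  have h2 : ∀ y o, f y.1 none * Y y o = Y y none * f y.1 o := by
    intro y o
    by_contra hne
    obtain ⟨E₀, e1, e2⟩ := PM.exists_ne (F := fun E : Fin (m + 1) → Fin (m + 1) → ℂ => f (E 0) none)
      (G := fun E => f (E 0) none * Y (E 0, E a₀.succ) o - Y (E 0, E a₀.succ) none * f (E 0) o)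
      (by fun_prop) (by fun_prop) (x := fun _ => z₀) hq (y := vecCons y.1 fun _ => y.2)
      (by simpa [sub_eq_zero] using hne)
    obtain ⟨E, hE, -, e3⟩ := exists_uframe (F := fun E => f (E 0) none *
      (f (E 0) none * Y (E 0, E a₀.succ) o - Y (E 0, E a₀.succ) none * f (E 0) o)) (by fun_prop)
      (mul_ne_zero e1 e2)
    have h3 : ∀ s : ℂ, Y (E 0, E a₀.succ) ⬝ᵥ cj (f (E 0 + s • E a₀.succ)) = 0 := fun s => by
      rw [← h1 ((E 0, E a₀.succ), star (E 0 + s • E a₀.succ)), ← h.hg]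
      simp [hE, (Fin.succ_ne_zero a₀).symm]
    obtain ⟨ν, hν⟩ := iso (left_ne_zero_of_mul e3) (by simp [h.pair, hE]) (by simpa using h3 0)
      (A := Y (E 0, E a₀.succ)) (by
        nth_rw 2 [hY]
        simp [Yv, cj_sum, cj_smul, dotProduct_sum, h3])
    refine right_ne_zero_of_mul e3 ?_
    simp only [hν, Pi.smul_apply, smul_eq_mul]
    ring
  refine ⟨fun j => ⟨fun y => f y.1 none * ((l j).1 y / t j) - Y y none * lam j,
    show PM _ by fun_prop⟩, fun y => funext fun o => ?_,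
    ⟨fun y => -(f y.1 none * y.2 0), show PM _ by fun_prop⟩, fun h0 => ?_, evv_ext fun y ξ => ?_⟩
  · simp only [sub_smul, mul_smul, sum_sub_distrib, ← smul_sum, hl1]
    simpa [hY, Yv, sub_eq_zero] using h2 y o
  · simpa [hq] using congrFun (congrArg Subtype.val h0) (z₀, 1)
  · have h3 := relT' h hUT hl hc y ξ
    simp only [evv_sum, hUT, map_mul, evv_C, evv_X, sub_mul, sum_sub_distrib, mul_assoc,
      ← Finset.mul_sum, hl2] at h3 ⊢
    rw [sum_congr rfl fun j _ => by rw [← mul_assoc, div_mul_cancel₀ _ (ht j)], h3]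
    ring

/-- A relation with a lowest exponent of first order gives a family of vectors. -/
theorem lift (ht : ∀ j, t j ≠ 0) (hl : l ∈ RelM f t) {ν : Fin (m + 2) →₀ ℕ}
    (hν : Lo 0 0 (∑ j, l j • UT j) ν) (h0 : ν 0 = 1) :
    ∃ (l' : Ln m → J → ℂ) (K : Ln m × (Fin (m + 1) → ℂ) → ℂ) (n : ℕ)
      (K₀ : MvPolynomial (Fin (m + 2)) (polyFun (Ln m))), PM l' ∧ PM K ∧
      (∀ y, ∑ j, l' y j • f (y.1 + t j • y.2) = 0) ∧
      (∀ y ζ, Yv f t (l' y) y.1 y.2 ⬝ᵥ g (y.1 ⬝ᵥ ζ, ζ) = (y.2 ⬝ᵥ ζ) ^ (ν 1 + 2) * K (y, ζ)) ∧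
      (∀ τ, τ 0 = 0 → coeff τ K₀ =
        coeff (Finsupp.single 0 1 + (Finsupp.single 1 (ν 1) + τ)) (∑ j, l j • UT j)) ∧
      ∀ y ξ, y.2 0 ≠ 0 → ξ 0 = 0 → K (y, psi y.2 ξ) = -(y.2 0 ^ n) * evv y ξ K₀ := by
  have pf := h.pf
  have pg := h.pg
  have pl : ∀ j, PM (l j).1 := fun j => (l j).2
  obtain ⟨K₀, c, e1, e2⟩ := peel hν h0
  obtain ⟨n, H, pH, eH⟩ := (pm_evv K₀).homog
  have pφ : PM fun x : Ln m × (Fin (m + 1) → ℂ) => phi x.1.2 x.2 0 :=
    pm_cons (by fun_prop) (pm_cons (by fun_prop) (by fun_prop))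
  have hH : ∀ (y : Ln m) ζ, y.2 0 ≠ 0 → H (y.2 0, y.2 0 • y, phi y.2 ζ 0) =
      y.2 0 ^ n * evv y ((y.2 0)⁻¹ • phi y.2 ζ 0) K₀ := fun y ζ hu => by
    rw [eH _ _ hu, Prod.smul_mk, inv_smul_smul₀ hu]
  refine ⟨fun y j => y.2 0 ^ (n + ν 1) * (l j).1 y,
    fun x => -H (x.1.2 0, x.1.2 0 • x.1, phi x.1.2 x.2 0), n, K₀, by fun_prop, by fun_prop,
    fun y => by simp only [mul_smul, ← smul_sum, hl y, smul_zero], fun y ζ => ?_, e2,
    fun y ξ hu h1 => by simp only [hH y _ hu, phi_psi hu h1, neg_mul]⟩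
  refine sub_eq_zero.mp (PM.cancel (E := Ln m × (Fin (m + 1) → ℂ)) (F := fun x =>
    Yv f t (fun j => x.1.2 0 ^ (n + ν 1) * (l j).1 x.1) x.1.1 x.1.2 ⬝ᵥ g (x.1.1 ⬝ᵥ x.2, x.2) -
      (x.1.2 ⬝ᵥ x.2) ^ (ν 1 + 2) * -H (x.1.2 0, x.1.2 0 • x.1, phi x.1.2 x.2 0))
    (G := fun x => x.1.2 0) (by unfold Yv; fun_prop) (by fun_prop) (y := ((0, 1), 0)) (by simp)
    (fun x => ?_) (y, ζ))
  rw [mul_eq_zero, or_iff_not_imp_left]
  intro hu
  have h1 := pairY h hUT ht hl e1 x.1 (ξ := (x.1.2 0)⁻¹ • phi x.1.2 x.2 0) (by simp [phi])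
  have h2 := dp_phi hu (x.1.1 ⬝ᵥ x.2) x.2
  rw [sub_self, mul_zero] at h2
  have h3 : Yv f t (fun j => x.1.2 0 ^ (n + ν 1) * (l j).1 x.1) x.1.1 x.1.2 =
      x.1.2 0 ^ (n + ν 1) • Yv f t (fun j => (l j).1 x.1) x.1.1 x.1.2 := by
    simp only [Yv, smul_sum, ← mul_smul, mul_div_assoc]
  rw [h2] at h1
  rw [h3, smul_dotProduct, h1, hH _ _ hu]
  simp only [map_add, map_mul, map_pow, evv_X, Pi.smul_apply, smul_eq_mul, phi, cons_val_zero,
    cons_val_one, mul_pow, inv_pow]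
  field_simp
  ring

end Pool.Agent.Lib.MP_7906d6_an.Exp
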