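import Mathlib
import Pool.Agent.Lib.MP_7906d6_an.ExpD

/-!
The linear degree estimate in an exponential range of target dimensions.
-/

namespace Pool.Agent.Lib.MP_7906d6_an.Exp

open MvPolynomial Finset Matrix Pool.Agent.Lib.MP_7906d6_an.Rat Pool.Agent.Lib.MP_7906d6_an.Mac
open scoped ComplexConjugate

variable {m : ℕ} {κ : Type} [Fintype κ] {f : (Fin (m + 1) → ℂ) → Option κ → ℂ}
  {g : ℂ × (Fin (m + 1) → ℂ) → Option κ → ℂ} {U : (Fin (m + 1) → ℂ) × ℂ × (Fin (m + 1) → ℂ) → ℂ}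

theorem weights (h : IsData f g U) : ∃ (D : ℕ) (t lam : Fin (D + 1) → ℂ), (∀ j, t j ≠ 0) ∧
    (∀ y : Ln m, ∑ j, lam j • f (y.1 + t j • y.2) = f y.1) ∧
      ∀ (y : Ln m) w, ∑ j, lam j * (t j * U (y.1 + t j • y.2, w)) = 0 := by
  have pf := h.pf
  have pU := h.pU
  choose D hD using fun o => pm_deg (F := fun x : Ln m × ℂ => f (x.1.1 + x.2 • x.1.2) o)
    (by fun_prop)
  obtain ⟨D', hD'⟩ := pm_deg (F := fun x : (Ln m × ℂ × (Fin (m + 1) → ℂ)) × ℂ =>
    x.2 * U (x.1.1.1 + x.2 • x.1.1.2, x.1.2)) (by fun_prop)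
  obtain ⟨t, lam, ht, hl⟩ := lagr (D' + univ.sup D)
  refine ⟨_, t, lam, ht, fun y => funext fun o => ?_, fun y w => ?_⟩
  · obtain ⟨p, hp, e⟩ := hD o y
    simpa [← e] using hl p (hp.trans ((le_sup (mem_univ o)).trans (Nat.le_add_left _ _)))
  · obtain ⟨p, hp, e⟩ := hD' (y, w)
    simpa [← e] using hl p (hp.trans (Nat.le_add_right _ _))

/-- Independence over the ring of polynomial functions is seen by a determinant. -/
theorem det_of_indep {E S X : Type} [AddCommGroup E] [Module ℂ E] [Fintype S]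
    {v : S → X → polyFun E} (hv : LinearIndependent (polyFun E) v) :
    ∃ a : polyFun E, a ≠ 0 ∧ ∀ y, a.1 y ≠ 0 → LinearIndependent ℂ fun i x => (v i x).1 y := by
  obtain e := (Fintype.equivFin S).symm
  rcases exists_det_or_rel (fun i x y => (v (e i) x).1 y) (fun i x => (v (e i) x).2) with
    ⟨c, y, hc⟩ | ⟨l, hl, ⟨i, y, hi⟩, hrel⟩
  · refine ⟨⟨_, PM.det fun i j => (v (e i) (c j)).2⟩, fun h0 =>
      hc (congrFun (congrArg Subtype.val h0) y), fun y hy => (linearIndependent_equiv e).mp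
        (Fintype.linearIndependent_iff.mpr fun α hα => congrFun
          (Matrix.eq_zero_of_vecMul_eq_zero hy (funext fun j => ?_)))⟩
    simpa [vecMul, dotProduct] using congrFun hα (c j)
  · refine absurd (congrFun (congrArg Subtype.val (Fintype.linearIndependent_iff.mp
      (hv.comp e e.injective) (fun i => ⟨l i, hl i⟩) (funext fun x => Subtype.ext
        (funext fun y => ?_)) i)) y) hi
    simpa using hrel x y

section Steps

variable {J : Type} [Fintype J] {t lam : J → ℂ}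
  {UT : J → MvPolynomial (Fin (m + 2)) (polyFun (Ln m))}

theorem ut_indep (h : IsData f g U)
    (hUT : ∀ j y ξ, evv y ξ (UT j) = t j * U (y.1 + t j • y.2, dp y ξ)) (ht : ∀ j, t j ≠ 0)
    {u₀ : Fin (m + 1) → ℂ} (hp : ∀ c : J → ℂ, (∀ y, ∑ i, c i * U (t i • u₀, y) = 0) → c = 0) :
    LinearIndependent (polyFun (Ln m)) UT := by
  classical
  have pU := h.pU
  rw [Fintype.linearIndependent_iff]
  intro μ hμ i
  obtain ⟨c, hc⟩ := exists_det (fun i y => U (t i • u₀, y)) hp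
  have pΔ : PM fun y : Ln m => (Matrix.of fun i j => U (y.1 + t i • y.2, c j)).det :=
    PM.det (by fun_prop)
  obtain ⟨y₀, h3, h4⟩ := pΔ.exists_ne (G := fun y => y.2 0) (by fun_prop) (x := (0, u₀))
    (by simpa using hc) (y := (0, 1)) (by simp)
  refine Subtype.ext (funext (PM.cancel (μ i).2 (pΔ.mul (G := fun y => y.2 0) (by fun_prop))
    (mul_ne_zero h3 h4) fun y => ?_))
  rw [mul_eq_zero, or_iff_not_imp_left, mul_eq_zero, not_or]
  rintro ⟨h2, h1⟩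
  have := Matrix.eq_zero_of_vecMul_eq_zero (v := fun i => (μ i).1 y * t i) h2 (funext fun j => by
    have := congrArg (evv y ((y.2 0)⁻¹ • phi y.2 (c j).2 (y.2 0 * (y.1 ⬝ᵥ (c j).2 - (c j).1)))) hμ
    simp only [evv_sum, hUT, dp_phi h1, map_zero, ← mul_assoc] at this
    exact this)
  simpa [ht] using congrFun this i

theorem chain_card (h : IsData f g U)
    (hUT : ∀ j y ξ, evv y ξ (UT j) = t j * U (y.1 + t j • y.2, dp y ξ)) (ht : ∀ j, t j ≠ 0)
    (a₀ : Fin m) {z₀ : Fin (m + 1) → ℂ} (hq : f z₀ none ≠ 0)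
    (hl1 : ∀ y : Ln m, ∑ j, lam j • f (y.1 + t j • y.2) = f y.1)
    (hl2 : ∀ (y : Ln m) w, ∑ j, lam j * (t j * U (y.1 + t j • y.2, w)) = 0)
    {M : Finset (Fin (m + 2) →₀ ℕ)}
    (hM : ∀ ν, ν ∈ M ↔ ∃ l ∈ RelM f t, Lo 0 0 (∑ j, l j • UT j) ν) :
    M.card ≤ ∑ ν ∈ M.filter fun ν => ν 0 = 1, (ν 1 + 1) := by
  have := polyFun_domain (Ln m)
  refine card_chain (fun ν hν => ?_) fun ν hν h2 => ?_
  · obtain ⟨l, hl, h1⟩ := (hM ν).mp hν
    obtain ⟨c, hc, -⟩ := relT h hUT hl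
    obtain ⟨ρ, -, rfl⟩ := mem_X_mul.mp (hc ▸ h1.1)
    simp
  obtain ⟨l, hl, h1⟩ := (hM ν).mp hν
  obtain ⟨c, hc⟩ : ∃ c, ∑ j, l j • UT j = X 0 * (X 0 * c) :=
    ⟨_, (eq_mul_div (s := Finsupp.single 0 2) fun τ hτ => Finsupp.single_le_iff.mpr (by
      have := key_deg (h1.2 τ hτ); omega)).trans (by rw [← X_pow_eq_monomial, sq, mul_assoc])⟩
  obtain ⟨ρ, hρ⟩ := exists_lo (p := c) 0 0 (by
    rintro rfl
    simpa [hc] using h1.1)
  obtain ⟨l', hl', a, ha, e⟩ := step h hUT ht a₀ hq hl1 hl2 hl hc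
  refine ⟨_, (hM _).mpr ⟨l', hl', e ▸ lo_mul ha 0 ((hρ.X_mul 1).X_mul 0)⟩, ?_⟩
  rw [lo_unique h1 (hc ▸ (hρ.X_mul 0).X_mul 0)]
  abel

theorem class_indep {I : Type} [Fintype I] {ν : I → Fin (m + 2) →₀ ℕ} (hν : Function.Injective ν)
    {e : ℕ} (h0 : ∀ i, ν i 0 = 1) (h1 : ∀ i, ν i 1 = e)
    {S K : I → MvPolynomial (Fin (m + 2)) ℂ} (hS : ∀ i, Lo 0 0 (S i) (ν i))
    (hK : ∀ i τ, τ 0 = 0 →
      coeff τ (K i) = coeff (Finsupp.single 0 1 + (Finsupp.single 1 e + τ)) (S i))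
    {α : I → ℂ} (hα : ∀ ξ, ξ 0 = 0 → ξ 1 = 0 → ∑ i, α i * eval ξ (K i) = 0) : α = 0 := by
  refine lo_zero hν hS fun b => ?_
  obtain ⟨τ, hτ⟩ := exists_add_of_le (show Finsupp.single 0 1 + Finsupp.single 1 e ≤ ν b from
    fun j => Fin.cases (by simp [h0]) (fun j => Fin.cases (by simp [h1]) (fun j => by
      simp [ne1]) j) j)
  have e0 := DFunLike.congr_fun hτ 0
  have e1 := DFunLike.congr_fun hτ 1
  have := kill (p := ∑ i, α i • K i) (fun ξ h2 h3 => by simpa using hα ξ h2 h3) (τ := τ)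
    (by simpa [h0] using e0) (by simpa [h1] using e1)
  simpa only [coeff_sum, coeff_smul, smul_eq_mul, hK _ τ (by simpa [h0] using e0), ← add_assoc,
    ← hτ] using this

end Steps

/-- The relations are many unless the image of the generic line spans a large space. -/
theorem rel_rank (h : IsData f g U) {z₀ : Fin (m + 1) → ℂ} (hq : f z₀ none ≠ 0) {I J : Type}
    [Fintype I] [Fintype J] {t₁ : I → ℂ} {t₂ lam : J → ℂ}
    {UT : I ⊕ J → MvPolynomial (Fin (m + 2)) (polyFun (Ln m))} (hUT : ∀ j y ξ, evv y ξ (UT j) =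
      Sum.elim t₁ t₂ j * U (y.1 + Sum.elim t₁ t₂ j • y.2, dp y ξ))
    (hl1 : ∀ y : Ln m, ∑ j, lam j • f (y.1 + t₂ j • y.2) = f y.1)
    (hl2 : ∀ (y : Ln m) w, ∑ j, lam j * (t₂ j * U (y.1 + t₂ j • y.2, w)) = 0)
    (hUi : LinearIndependent (polyFun (Ln m)) fun i => UT (Sum.inl i))
    {v : I → Option κ → polyFun (Ln m)} (hv : ∀ i o y, (v i o).1 y =
      f y.1 none * f (y.1 + t₁ i • y.2) o - f (y.1 + t₁ i • y.2) none * f y.1 o) {s : Set I}
    (hmax : ∀ i ∉ s, ∃ a : polyFun (Ln m), a ≠ 0 ∧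
      a • v i ∈ Submodule.span (polyFun (Ln m)) (v '' s)) :
    ∃ c : (sᶜ : Set I) → MvPolynomial (Fin (m + 2)) (polyFun (Ln m)),
      (∀ i, c i ∈ (RelM f (Sum.elim t₁ t₂)).map (Fintype.linearCombination _ UT)) ∧
        LinearIndependent (polyFun (Ln m)) c := by
  classical
  have := polyFun_domain (Ln m)
  have pf := h.pf
  obtain ⟨q, hq'⟩ : ∃ q : polyFun (Ln m), ∀ y, q.1 y = f y.1 none :=
    ⟨⟨fun y => f y.1 none, show PM _ by fun_prop⟩, fun _ => rfl⟩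
  have hq0 : q ≠ 0 := fun h0 => hq (by rw [← hq' (z₀, 0), h0]; rfl)
  have h2 : ∀ i : (sᶜ : Set I), ∃ ρ : I → polyFun (Ln m), ρ i ≠ 0 ∧
      (∀ j ∉ s, j ≠ i → ρ j = 0) ∧ ∑ j, ρ j • UT (Sum.inl j) ∈
        (RelM f (Sum.elim t₁ t₂)).map (Fintype.linearCombination _ UT) := by
    intro i
    obtain ⟨a, ha, hm⟩ := hmax i i.2
    obtain ⟨ρ, hρ, e⟩ := (Finsupp.mem_span_image_iff_linearCombination _).mp hm
    have hρ' : ∀ j ∉ s, ρ j = 0 := fun j hj => (Finsupp.mem_supported' _ _).mp hρ j hj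
    obtain ⟨r, hr⟩ : ∃ r : I → polyFun (Ln m), ∀ j, r j = ρ j - if j = i then a else 0 :=
      ⟨_, fun _ => rfl⟩
    have pr : ∀ j, PM (r j).1 := fun j => (r j).2
    have h3 : ∑ j, r j • v j = 0 := by
      rw [Finsupp.linearCombination_apply, Finsupp.sum_fintype _ _ (fun _ => by simp)] at e
      simp [hr, sub_smul, e]
    refine ⟨fun j => q * r j, by simpa [hr, hρ' i i.2, hq0] using ha,
      fun j hj hne => by simp [hr, hρ' j hj, hne], Sum.elim (fun j => q * r j) fun j =>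
        ⟨fun y => -(∑ i, (r i).1 y * f (y.1 + t₁ i • y.2) none) * lam j, show PM _ by fun_prop⟩,
      fun y => funext fun o => ?_, evv_ext fun y ξ => ?_⟩
    · have h4 := congrArg (ev y) (congrFun h3 o)
      simp only [Finset.sum_apply, Pi.smul_apply, smul_eq_mul, map_sum, map_mul, ev_apply, hv,
        Pi.zero_apply, map_zero, mul_sub, sum_sub_distrib] at h4
      simp only [Fintype.sum_sum_type, Sum.elim_inl, Sum.elim_inr, mul_smul, ← smul_sum, hl1,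
        Subring.coe_mul, Pi.mul_apply, hq']
      simp only [Pi.add_apply, Pi.smul_apply, Finset.sum_apply, smul_eq_mul, Finset.mul_sum,
        neg_mul, Finset.sum_mul, Pi.zero_apply, mul_assoc, mul_left_comm (f y.1 none)]
      exact h4
    · simp only [Fintype.linearCombination_apply, Fintype.sum_sum_type, map_add, evv_sum,
        Sum.elim_inl, Sum.elim_inr, hUT, mul_assoc, ← Finset.mul_sum, hl2, mul_zero, add_zero]
  choose ρ hρ0 hρ1 hρ2 using h2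
  refine ⟨_, hρ2, Fintype.linearIndependent_iff.mpr fun μ hμ i => ?_⟩
  have h4 := Fintype.linearIndependent_iff.mp hUi (fun j => ∑ i, μ i * ρ i j) (by
    simp only [Finset.sum_smul, mul_smul]
    rw [sum_comm, ← hμ]
    simp only [smul_sum]) i
  rw [Finset.sum_eq_single i (fun i' _ hne => by
    rw [hρ1 i' i i.2 fun h => hne (Subtype.ext h.symm), mul_zero])
    (fun h => absurd (mem_univ i) h)] at h4
  exact (mul_eq_zero.mp h4).resolve_right (hρ0 i)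

theorem bound (h : IsData f g U) {z₀ : Fin (m + 1) → ℂ} (hq : f z₀ none ≠ 0) {δ : ℕ}
    {t₁ : Fin δ → ℂ} (ht₁ : ∀ i, t₁ i ≠ 0) {u₀ : Fin (m + 1) → ℂ}
    (hp : ∀ c : Fin δ → ℂ, (∀ y, ∑ i, c i * U (t₁ i • u₀, y) = 0) → c = 0) {t₀ : ℕ}
    (hm : 16 * (t₀ + 1) + 8 ≤ 3 * m) :
    m * δ + 1 ≤ Fintype.card κ ∨ (3 * (t₀ + 1)).choose (t₀ + 1) + 1 ≤ Fintype.card κ := by
  classical
  have := polyFun_domain (Ln m)
  have pf := h.pf
  have pU := h.pU
  obtain ⟨D, t₂, lam, ht₂, hl1, hl2⟩ := weights h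
  have ht : ∀ j, Sum.elim t₁ t₂ j ≠ 0 := by rintro (j | j) <;> simp [ht₁, ht₂]
  choose UT hUT using fun j => toMv (F := fun x : Ln m × (Fin (m + 2) → ℂ) =>
    Sum.elim t₁ t₂ j * U (x.1.1 + Sum.elim t₁ t₂ j • x.1.2, dp x.1 x.2)) (by fun_prop)
  obtain ⟨M, hM, hM'⟩ := loset 0 0 ((RelM f (Sum.elim t₁ t₂)).map (Fintype.linearCombination _ UT))
    (n := univ.sup fun j => (UT j).totalDegree) (by
      rintro _ ⟨l, -, rfl⟩
      exact Submodule.sum_mem _ fun j _ => Submodule.smul_mem _ _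
        ((mem_restrictTotalDegree _ _ _).mpr (le_sup (f := fun j => (UT j).totalDegree)
          (mem_univ j))))
  replace hM : ∀ ν, ν ∈ M ↔ ∃ l ∈ RelM f (Sum.elim t₁ t₂), Lo 0 0 (∑ j, l j • UT j) ν := fun ν =>
    (hM ν).trans ⟨by rintro ⟨_, ⟨l, hl, rfl⟩, h1⟩; exact ⟨l, hl, h1⟩, fun ⟨l, hl, h1⟩ =>
      ⟨_, ⟨l, hl, rfl⟩, h1⟩⟩
  have hcard := chain_card (lam := Sum.elim 0 lam) h hUT ht ⟨0, by omega⟩ hq
    (fun y => by simpa using hl1 y) (fun y w => by simpa using hl2 y w) hM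
  obtain ⟨v, hv⟩ : ∃ v : Fin δ → Option κ → polyFun (Ln m), ∀ i o y, (v i o).1 y =
      f y.1 none * f (y.1 + t₁ i • y.2) o - f (y.1 + t₁ i • y.2) none * f y.1 o :=
    ⟨fun i o => ⟨_, show PM (fun y : Ln m => f y.1 none * f (y.1 + t₁ i • y.2) o -
      f (y.1 + t₁ i • y.2) none * f y.1 o) by fun_prop⟩, fun _ _ _ => rfl⟩
  obtain ⟨s, hs, hmax⟩ := exists_maximal_linearIndepOn (polyFun (Ln m)) v
  obtain ⟨Δ, hΔ0, hΔ⟩ := det_of_indep hs
  obtain ⟨cc, hc1, hc2⟩ := rel_rank h hq hUT hl1 hl2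
    (ut_indep h (fun j => hUT (Sum.inl j)) ht₁ hp) hv hmax
  have h3 := hM' cc hc1 hc2
  rw [Fintype.card_compl_set, Fintype.card_fin] at h3
  obtain ⟨M₁, hM₁⟩ : ∃ M₁, M₁ = M.filter fun ν => ν 0 = 1 := ⟨_, rfl⟩
  rw [← hM₁, ← sum_coe_sort] at hcard
  have h4 : ∀ i : M₁, i.1 ∈ M ∧ i.1 0 = 1 := fun i => mem_filter.mp (hM₁.subset i.2)
  choose l hl hlo using fun i : M₁ => (hM _).mp (h4 i).1
  choose l' K n K₀ pl pK hrel hY hK₀ hK using fun i : M₁ => lift h hUT ht (hl i) (hlo i) (h4 i).2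
  obtain ⟨Θ, hΘ⟩ : ∃ Θ, Θ = Δ * ∏ i : M₁, coeff i.1 (∑ j, l i j • UT j) := ⟨_, rfl⟩
  have pΘ : PM Θ.1 := Θ.2
  obtain ⟨y₁, hy₁⟩ := Function.ne_iff.mp (Subtype.coe_ne_coe.mpr (hΘ ▸ mul_ne_zero hΔ0
    (prod_ne_zero_iff.mpr fun i _ => mem_support_iff.mp (hlo i).1) : Θ ≠ 0))
  obtain ⟨y₀, hy₀, hy₀'⟩ := pΘ.exists_ne (G := fun y => f y.1 none * y.2 0) (by fun_prop) hy₁
    (y := (z₀, 1)) (by simpa using hq)
  obtain ⟨E, hE, hE', hE0⟩ := exists_uframe (F := fun E => ∏ c : Fin m,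
    Θ.1 (E 0, E c.succ) * (f (E 0) none * E c.succ 0)) (by fun_prop)
    (y := vecCons y₀.1 fun _ => y₀.2) (prod_ne_zero_iff.mpr fun _ _ => mul_ne_zero hy₀ hy₀')
  have h5 : ∀ c : Fin m, (Δ.1 (E 0, E c.succ) ≠ 0 ∧ ∀ i : M₁, ev (E 0, E c.succ)
      (coeff i.1 (∑ j, l i j • UT j)) ≠ 0) ∧ f (E 0) none ≠ 0 ∧ E c.succ 0 ≠ 0 := fun c => by
    have := prod_ne_zero_iff.mp hE0 c (mem_univ c)
    rw [← ev_apply, hΘ] at this
    simpa only [map_mul, map_prod, mul_ne_zero_iff, prod_ne_zero_iff, mem_univ, true_imp_iff,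
      ev_apply] using this
  obtain ⟨A, hA1, hA⟩ := exists_subset_card_eq (s := univ.erase (0 : Fin (m + 1)))
    (n := 2 * (t₀ + 1) + 1) (by simp; omega)
  obtain ⟨A', hA1', hA'⟩ := exists_subset_card_eq (s := univ.erase (0 : Fin (m + 1)) \ A)
    (n := 2 * (t₀ + 1) + 1) (by rw [card_sdiff_of_subset hA1]; simp; omega)
  have h6 := geo h hE hE' (h5 ⟨0, by omega⟩).2.1 (k := fun i : M₁ => i.1 1 + 2)
    (fun _ => Nat.le_add_left _ _) ht (l := fun i w => l' i (E 0, w)) (by fun_prop)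
    (fun i w => hrel i (E 0, w)) (K := fun i x => K i ((E 0, x.1), x.2)) (by fun_prop)
    (fun i w => hY i (E 0, w)) (fun c j α hα => by
      obtain ⟨⟨-, h7⟩, -, h6⟩ := h5 c
      have h8 := class_indep (α := fun i => α i * -(E c.succ 0 ^ n i)) (e := j - 2)
        (Subtype.val_injective.comp Subtype.val_injective) (fun i => (h4 i.1).2)
        (fun i => (Nat.add_sub_cancel _ 2).symm.trans (congrArg (· - 2) i.2))
        (fun i => lo_map (ev (E 0, E c.succ)) (hlo i.1) (h7 i.1))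
        (K := fun i => map (ev (E 0, E c.succ)) (K₀ i.1))
        (fun i τ hτ => by
          rw [coeff_map, coeff_map, hK₀ _ τ hτ, show j - 2 = i.1.1 1 by have := i.2; omega])
        fun ξ e0 e1 => by
          simpa only [hK _ (E 0, E c.succ) ξ h6 e0, evv_map, mul_assoc] using
            hα (psi (E c.succ) ξ) (by rw [dot_psi, e1, mul_zero])
      funext i
      simpa [h6] using congrFun h8 i)
    (Z := fun c (i : s) o => (v i o).1 (E 0, E c.succ)) (fun c i => by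
      have : (fun o => (v i o).1 (E 0, E c.succ)) = f (E 0) none • f (E 0 + t₁ i • E c.succ) -
          f (E 0 + t₁ i • E c.succ) none • f (E 0) := funext fun o => hv _ _ _
      rw [this]
      exact Submodule.sub_mem _ (Submodule.smul_mem _ _ (Submodule.subset_span ⟨_, rfl⟩))
        (Submodule.smul_mem _ _ (Submodule.subset_span ⟨0, by simp⟩)))
    (fun c i => by rw [hv]; ring) (fun c => hΔ _ (h5 c).1.1) hA hA'
    (disjoint_left.mpr fun a h1 h2 => (mem_sdiff.mp (hA1' h2)).2 h1) (by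
      rw [mem_union, not_or]
      exact ⟨fun h => by simpa using hA1 h, fun h => by simpa using hA1' h⟩)
  obtain ⟨c, hc⟩ : ∃ c, m = c + (4 * t₀ + 6) := ⟨m - (4 * t₀ + 6), by omega⟩
  rw [show m - (4 * t₀ + 6) = c by omega] at h6
  obtain ⟨σ, hσ⟩ : ∃ σ, σ = ∑ i : M₁, (i.1 1 + 1) := ⟨_, rfl⟩
  simp only [Nat.add_succ_sub_one, ← hσ] at h6 hcard
  rcases min_choice (4 * σ) ((3 * (t₀ + 1)).choose (t₀ + 1)) with h7 | h7 <;> rw [h7] at h6
  · left
    have h8 : δ ≤ Fintype.card s + σ := by omega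
    nlinarith [Nat.mul_le_mul_left m h8, Nat.mul_le_mul_right σ (show m ≤ 4 * c by omega)]
  · right
    nlinarith [Nat.mul_le_mul_right ((3 * (t₀ + 1)).choose (t₀ + 1)) (show 1 ≤ c by omega)]

/-- The degree estimate on discs through the origin. -/
theorem degree_exp {N t : ℕ} {Φ : (Fin (m + 1) → ℂ) → Fin N → ℂ}
    {f : (Fin (m + 1) → ℂ) → Option (Fin N) → ℂ} (h : RatData Φ f) {u : Fin (m + 1) → ℂ}
    (hu : nsq u = 1) {δ : ℕ} {A : Fin N → Polynomial ℂ} {B : Polynomial ℂ}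
    (hm : MinRep (fun t : ℂ => Φ (t • u)) δ A B) (ht : 16 * (t + 1) + 8 ≤ 3 * m)
    (hN : N ≤ (3 * (t + 1)).choose (t + 1)) : m * δ + 1 ≤ N := by
  obtain ⟨g, U, hd⟩ := exists_data h.pf h.sphere
  have hpos : (0 : ℝ) < δ + 1 := by positivity
  have := bound hd (h.ne 0 (by simp [nsq]))
    (t₁ := fun i : Fin δ => (((i + 1 : ℝ) / (δ + 1) : ℝ) : ℂ))
    (fun i => Complex.ofReal_ne_zero.2 (by positivity))
    (h.pick hd hu hm (fun i j hij => ?_) fun i => ?_) ht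
  · rw [Fintype.card_fin] at this
    omega
  · have := (div_left_inj' hpos.ne').1 (Complex.ofReal_injective hij)
    exact Fin.ext (by exact_mod_cast add_right_cancel this)
  · rw [Complex.norm_real, Real.norm_of_nonneg (by positivity), div_lt_one hpos]
    exact_mod_cast Nat.succ_lt_succ i.2

end Pool.Agent.Lib.MP_7906d6_an.Exp
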