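import Mathlib

/-!
A polynomial map `ℂ^2 → ℂ^12` of degree `22` taking the unit sphere to the unit sphere.
The components are covariants of the binary icosahedral group, of degrees
`22, 22, 22, 21, 21, 21, 21, 20, 18, 18, 18, 18`.
-/

namespace Pool.Agent.Lib.MP_7906d6_an.Ico

section Ring

variable {R S : Type*} [CommRing R] [CommRing S]

/-- First family of icosahedral covariants. -/
def cA (x y : R) : Fin 12 → R := ![
    -(x ^ 22) + 228 * x ^ 17 * y ^ 5 - 494 * x ^ 12 * y ^ 10 - 228 * x ^ 7 * y ^ 15 - x ^ 2 * y ^ 20,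
    -(x ^ 21 * y) + 228 * x ^ 16 * y ^ 6 - 494 * x ^ 11 * y ^ 11 - 228 * x ^ 6 * y ^ 16 - x * y ^ 21,
    -(x ^ 20 * y ^ 2) + 228 * x ^ 15 * y ^ 7 - 494 * x ^ 10 * y ^ 12 - 228 * x ^ 5 * y ^ 17 - y ^ 22,
    -(171 * x ^ 17 * y ^ 4) + 741 * x ^ 12 * y ^ 9 + 513 * x ^ 7 * y ^ 14 + 3 * x ^ 2 * y ^ 19,
    -(x ^ 21) + 57 * x ^ 16 * y ^ 5 + 247 * x ^ 11 * y ^ 10 + 285 * x ^ 6 * y ^ 15 + 2 * x * y ^ 20,
    -(2 * x ^ 20 * y) + 285 * x ^ 15 * y ^ 6 - 247 * x ^ 10 * y ^ 11 + 57 * x ^ 5 * y ^ 16 + y ^ 21,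
    -(3 * x ^ 19 * y ^ 2) + 513 * x ^ 14 * y ^ 7 - 741 * x ^ 9 * y ^ 12 - 171 * x ^ 4 * y ^ 17,
    0,
    5 * x ^ 15 * y ^ 3 + 55 * x ^ 10 * y ^ 8 - 5 * x ^ 5 * y ^ 13,
    5 * x ^ 13 * y ^ 5 + 55 * x ^ 8 * y ^ 10 - 5 * x ^ 3 * y ^ 15,
    x ^ 17 * y + 9 * x ^ 12 * y ^ 6 - 23 * x ^ 7 * y ^ 11 + 2 * x ^ 2 * y ^ 16,
    2 * x ^ 16 * y ^ 2 + 23 * x ^ 11 * y ^ 7 + 9 * x ^ 6 * y ^ 12 - x * y ^ 17]

/-- Second family of icosahedral covariants. -/
def cB (x y : R) : Fin 12 → R := ![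
    x ^ 22 + 462 * x ^ 17 * y ^ 5 + 7854 * x ^ 12 * y ^ 10 - 2992 * x ^ 7 * y ^ 15 + 231 * x ^ 2 * y ^ 20,
    -(22 * x ^ 21 * y) - 1309 * x ^ 16 * y ^ 6 - 8568 * x ^ 11 * y ^ 11 + 1309 * x ^ 6 * y ^ 16 - 22 * x * y ^ 21,
    231 * x ^ 20 * y ^ 2 + 2992 * x ^ 15 * y ^ 7 + 7854 * x ^ 10 * y ^ 12 - 462 * x ^ 5 * y ^ 17 + y ^ 22,
    -(105 * x ^ 17 * y ^ 4) - 3570 * x ^ 12 * y ^ 9 + 2040 * x ^ 7 * y ^ 14 - 210 * x ^ 2 * y ^ 19,
    x ^ 21 + 357 * x ^ 16 * y ^ 5 + 4284 * x ^ 11 * y ^ 10 - 952 * x ^ 6 * y ^ 15 + 21 * x * y ^ 20,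
    -(21 * x ^ 20 * y) - 952 * x ^ 15 * y ^ 6 - 4284 * x ^ 10 * y ^ 11 + 357 * x ^ 5 * y ^ 16 - y ^ 21,
    210 * x ^ 19 * y ^ 2 + 2040 * x ^ 14 * y ^ 7 + 3570 * x ^ 9 * y ^ 12 - 105 * x ^ 4 * y ^ 17,
    -(x ^ 20) + 228 * x ^ 15 * y ^ 5 - 494 * x ^ 10 * y ^ 10 - 228 * x ^ 5 * y ^ 15 - y ^ 20,
    604 * x ^ 15 * y ^ 3 + 286 * x ^ 10 * y ^ 8 + 1708 * x ^ 5 * y ^ 13 - 17 * y ^ 18,
    -(17 * x ^ 18) - 1708 * x ^ 13 * y ^ 5 + 286 * x ^ 8 * y ^ 10 - 604 * x ^ 3 * y ^ 15,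
    46 * x ^ 17 * y - 1456 * x ^ 12 * y ^ 6 - 4628 * x ^ 7 * y ^ 11 - 163 * x ^ 2 * y ^ 16,
    -(163 * x ^ 16 * y ^ 2) + 4628 * x ^ 11 * y ^ 7 - 1456 * x ^ 6 * y ^ 12 - 46 * x * y ^ 17]

/-- Integer data: coefficient of `cB`. -/
def km : Fin 12 → ℤ := ![3228, 3228, 3228, 1216, 1216, 1216, 1216, 1, 46, 46, 46, 46]

/-- Integer data: rational part of the coefficient of `cA`. -/
def ku : Fin 12 → ℤ := ![-2959, -2959, -2959, 1883, 1883, 1883, 1883, 0, 689, 689, 689, 689]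

/-- Integer data: part of the coefficient of `cA` along the square root of `-3047`. -/
def kv : Fin 12 → ℤ := ![253, 253, 253, -161, -161, -161, -161, 0, -51, -51, -51, -51]

/-- Integer data: weights. -/
def kw : Fin 12 → ℕ := ![307496, 614992, 307496, 4275755, 12827265, 12827265, 4275755,
  792710606495808, 4344758880, 4344758880, 4344758880, 4344758880]

/-- `22` minus the degree of the component. -/
def ke : Fin 12 → ℕ := ![0, 0, 0, 1, 1, 1, 1, 2, 4, 4, 4, 4]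

theorem map_cA (φ : R →+* S) (x y : R) (i : Fin 12) : φ (cA x y i) = cA (φ x) (φ y) i := by
  fin_cases i <;> simp [cA, map_ofNat]

theorem map_cB (φ : R →+* S) (x y : R) (i : Fin 12) : φ (cB x y i) = cB (φ x) (φ y) i := by
  fin_cases i <;> simp [cB, map_ofNat]

theorem even_id (x y u v : R) :
    ∑ i, (kw i : R) * ((km i) ^ 2 * (cB x y i * cB u v i)
      + ((ku i) ^ 2 + 3047 * (kv i) ^ 2) * (cA x y i * cA u v i)
      + km i * ku i * (cA x y i * cB u v i + cB x y i * cA u v i)) * (x * u + y * v) ^ ke i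
      = 4540198785600000 * (x * u + y * v) ^ 22 := by
  simp only [Fin.sum_univ_succ, Fin.sum_univ_zero, cA, cB, km, ku, kv, kw, ke,
    Matrix.cons_val_zero, Matrix.cons_val_succ]
  push_cast
  ring

theorem odd_id (x y u v : R) :
    ∑ i, (kw i : R) * (km i * kv i * (cA x y i * cB u v i - cB x y i * cA u v i))
      * (x * u + y * v) ^ ke i = 0 := by
  simp only [Fin.sum_univ_succ, Fin.sum_univ_zero, cA, cB, km, kv, kw, ke,
    Matrix.cons_val_zero, Matrix.cons_val_succ]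
  push_cast
  ring

/-- The components before the real scaling; `w` is a square root of `-3047`. -/
def cmp (w x y : R) (i : Fin 12) : R := km i * cB x y i + (ku i + kv i * w) * cA x y i

theorem map_cmp (φ : R →+* S) (w x y : R) (i : Fin 12) :
    φ (cmp w x y i) = cmp (φ w) (φ x) (φ y) i := by
  simp [cmp, map_cA, map_cB]

theorem full_id {w : R} (hw : w ^ 2 = -3047) (x y u v : R) :
    ∑ i, (kw i : R) * (cmp w x y i * cmp (-w) u v i) * (x * u + y * v) ^ ke i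
      = 4540198785600000 * (x * u + y * v) ^ 22 := by
  rw [← even_id, ← sub_eq_zero, ← mul_zero w, ← odd_id x y u v, Finset.mul_sum,
    ← Finset.sum_sub_distrib]
  refine Finset.sum_congr rfl fun i _ => ?_
  simp only [cmp]
  linear_combination (-(kw i : R) * (kv i) ^ 2 * (cA x y i * cA u v i) * (x * u + y * v) ^ ke i) * hw

end Ring

open Complex MvPolynomial
open scoped ComplexConjugate

/-- A square root of `-3047`. -/
noncomputable def om : ℂ := I * Real.sqrt 3047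

theorem om_sq : om ^ 2 = -3047 := by
  rw [om, mul_pow, I_sq, ← ofReal_pow, Real.sq_sqrt (by norm_num)]
  norm_num

theorem conj_om : conj om = -om := by simp [om]

/-- The twelve components of the map. -/
noncomputable def P (i : Fin 12) : MvPolynomial (Fin 2) ℂ :=
  C (Real.sqrt (kw i / 4540198785600000) : ℂ) * cmp (C om) (X 0) (X 1) i

theorem eval_P (z : Fin 2 → ℂ) (i : Fin 12) :
    eval z (P i) = (Real.sqrt (kw i / 4540198785600000) : ℂ) * cmp om (z 0) (z 1) i := by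
  simp only [P, map_mul, eval_C, map_cmp, eval_X]

theorem norm_id (z : Fin 2 → ℂ) :
    ∑ i, normSq (eval z (P i)) * (normSq (z 0) + normSq (z 1)) ^ ke i
      = (normSq (z 0) + normSq (z 1)) ^ 22 := by
  have h := full_id om_sq (z 0) (z 1) (conj (z 0)) (conj (z 1))
  rw [mul_conj, mul_conj] at h
  apply ofReal_injective
  apply mul_left_cancel₀ (by norm_num : (4540198785600000 : ℂ) ≠ 0)
  push_cast
  rw [← h, Finset.mul_sum]
  refine Finset.sum_congr rfl fun i _ => ?_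
  have e : cmp (-om) (conj (z 0)) (conj (z 1)) i = conj (cmp om (z 0) (z 1) i) := by
    rw [map_cmp, conj_om]
  rw [eval_P, map_mul, normSq_ofReal, Real.mul_self_sqrt (by positivity), e, mul_conj]
  push_cast
  ring

theorem ke_le (i : Fin 12) : ke i ≤ 4 := by fin_cases i <;> simp [ke]

theorem eval_zero (i : Fin 12) : eval (0 : Fin 2 → ℂ) (P i) = 0 := by
  rw [eval_P]
  fin_cases i <;> simp [cmp, cA, cB]

theorem sphere (z : Fin 2 → ℂ) (hz : normSq (z 0) + normSq (z 1) = 1) :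
    ∑ i, normSq (eval z (P i)) = 1 := by
  simpa [hz] using norm_id z

theorem lt_iff (z : Fin 2 → ℂ) :
    ∑ i, normSq (eval z (P i)) < 1 ↔ normSq (z 0) + normSq (z 1) < 1 := by
  have h := norm_id z
  have h0 : 0 ≤ normSq (z 0) + normSq (z 1) := add_nonneg (normSq_nonneg _) (normSq_nonneg _)
  by_cases hz : z = 0
  · simp only [hz, eval_zero]
    simp
  have hp : 0 < normSq (z 0) + normSq (z 1) := by
    refine h0.lt_of_ne fun e => hz ?_
    have h1 := normSq_nonneg (z 0)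
    have h2 := normSq_nonneg (z 1)
    ext j
    fin_cases j
    · exact normSq_eq_zero.1 (show normSq (z 0) = 0 by linarith)
    · exact normSq_eq_zero.1 (show normSq (z 1) = 0 by linarith)
  set r := normSq (z 0) + normSq (z 1)
  constructor
  · intro hlt
    by_contra! hr
    have h1 : r ^ 22 ≤ (∑ i, normSq (eval z (P i))) * r ^ 4 := by
      rw [← h, Finset.sum_mul]
      exact Finset.sum_le_sum fun i _ =>
        mul_le_mul_of_nonneg_left (pow_le_pow_right₀ hr (ke_le i)) (normSq_nonneg _)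
    have h2 : r ^ 4 ≤ r ^ 22 := pow_le_pow_right₀ hr (by norm_num)
    nlinarith [pow_pos hp 4]
  · intro hr
    have h1 : (∑ i, normSq (eval z (P i))) * r ^ 4 ≤ r ^ 22 := by
      rw [← h, Finset.sum_mul]
      exact Finset.sum_le_sum fun i _ =>
        mul_le_mul_of_nonneg_left (pow_le_pow_of_le_one h0 hr.le (ke_le i)) (normSq_nonneg _)
    have h2 : r ^ 22 < r ^ 4 := pow_lt_pow_right_of_lt_one₀ hp hr (by norm_num)
    nlinarith [pow_pos hp 4]

theorem top_le (z : Fin 2 → ℂ) : normSq (eval z (P 0)) ≤ (normSq (z 0) + normSq (z 1)) ^ 22 := by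
  have h0 : 0 ≤ normSq (z 0) + normSq (z 1) := add_nonneg (normSq_nonneg _) (normSq_nonneg _)
  rw [← norm_id z]
  simpa [ke] using Finset.single_le_sum
    (f := fun i => normSq (eval z (P i)) * (normSq (z 0) + normSq (z 1)) ^ ke i)
    (fun i _ => mul_nonneg (normSq_nonneg _) (pow_nonneg h0 _)) (Finset.mem_univ 0)

theorem top_ne {z : Fin 2 → ℂ} (h0 : z 0 ≠ 0) (h1 : z 1 = 0) : eval z (P 0) ≠ 0 := by
  have e : cmp om (z 0) (z 1) 0 = (6187 - 253 * om) * z 0 ^ 22 := by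
    simp [cmp, cA, cB, km, ku, kv, h1]
    ring
  rw [eval_P, e]
  refine mul_ne_zero ?_ (mul_ne_zero (fun h => ?_) (pow_ne_zero _ h0))
  · simp [kw]
  · simpa [om] using congrArg re h

end Pool.Agent.Lib.MP_7906d6_an.Ico
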