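import Mathlib
import Pool.Agent.Lib.MP_7906d6_an.Holo

-- part Pool.Agent.Lib.MP_7906d6_an.LLL
section

/-!
A one-sided form of the symmetric local lemma on a finite product space.
-/

namespace Pool.Agent.Lib.MP_7906d6_an

open Finset Function

open Classical in
theorem lll {ι W : Type} [Fintype ι] [Fintype W] [Nonempty W] (A : ι → (ι → W) → Prop)
    (dep : ι → Finset ι) (hdep : ∀ i j, j ∉ dep i → ∀ ω w, A i (update ω j w) ↔ A i ω)
    {p d : ℝ} (hp0 : 0 ≤ p) (hd1 : 1 ≤ d)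
    (hp : ∀ j ω, (#{w | A j (update ω j w)} : ℝ) ≤ p * Fintype.card W)
    (hd : ∀ j, (#{i | j ∈ dep i} : ℝ) ≤ d) (hpd : 4 * p * d ≤ 1) : ∃ ω, ∀ j, ¬ A j ω := by
  let N : Finset ι → ℝ := fun S => #{ω : ι → W | ∀ i ∈ S, ¬ A i ω}
  let M : ι → Finset ι → ℝ := fun j S => #{ω : ι → W | A j ω ∧ ∀ i ∈ S, ¬ A i ω}
  have hN0 : ∀ S, 0 ≤ N S := fun S => Nat.cast_nonneg _
  have hW : (0 : ℝ) < Fintype.card W := by exact_mod_cast Fintype.card_pos
  have ha : ∀ j S, (∀ i ∈ S, j ∉ dep i) → M j S ≤ p * N S := by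
    intro j S hS
    let σ : (ι → W) × W ≃ (ι → W) × W :=
      { toFun := fun x => (update x.1 j x.2, x.1 j)
        invFun := fun x => (update x.1 j x.2, x.1 j)
        left_inv := fun x => by simp
        right_inv := fun x => by simp }
    have h1 : M j S * Fintype.card W = ∑ x : (ι → W) × W,
        (if A j x.1 ∧ ∀ i ∈ S, ¬ A i x.1 then (1 : ℝ) else 0) := by
      rw [Fintype.sum_prod_type]
      have : ∀ x : ι → W, ∑ y : W, (if A j (x, y).1 ∧ ∀ i ∈ S, ¬ A i (x, y).1 then (1 : ℝ) else 0)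
          = Fintype.card W * (if A j x ∧ ∀ i ∈ S, ¬ A i x then (1 : ℝ) else 0) := by
        intro x
        rw [← nsmul_eq_mul, ← card_univ, ← sum_const]
      rw [sum_congr rfl fun x _ => this x, ← mul_sum, sum_boole, mul_comm]
    rw [← σ.sum_comp, Fintype.sum_prod_type] at h1
    have h2 : ∀ ω : ι → W, ∑ w : W, (if A j (σ (ω, w)).1 ∧ ∀ i ∈ S, ¬ A i (σ (ω, w)).1
        then (1 : ℝ) else 0) ≤ if ∀ i ∈ S, ¬ A i ω then p * Fintype.card W else 0 := by
      intro ω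
      have h3 : ∀ w, (∀ i ∈ S, ¬ A i (σ (ω, w)).1) ↔ ∀ i ∈ S, ¬ A i ω := fun w =>
        forall₂_congr fun i hi => not_congr (hdep i j (hS i hi) ω w)
      simp only [h3]
      split_ifs with h
      · simp only [eq_true h, and_true, sum_boole]
        exact hp j ω
      · simp [h]
    have h4 := sum_le_sum (s := univ) fun ω _ => h2 ω
    rw [← h1, ← sum_filter, sum_const, nsmul_eq_mul] at h4
    refine le_of_mul_le_mul_right ?_ hW
    calc _ ≤ _ := h4
      _ = _ := by simp only [N]; ring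
  have hb : ∀ (k : ℕ) (S : Finset ι), #S = k → ∀ j, M j S ≤ 2 * p * N S := by
    intro k
    induction k using Nat.strong_induction_on with
    | _ k ih =>
      intro S hS j
      by_cases h : ∀ i ∈ S, j ∉ dep i
      · have := ha j S h
        nlinarith [mul_nonneg hp0 (hN0 S)]
      · set S₂ := S.filter (fun i => j ∉ dep i) with hS₂
        set S₁ := S.filter (fun i => j ∈ dep i) with hS₁
        have hlt : #S₂ < k := by
          rw [← hS]
          apply card_lt_card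
          rw [filter_ssubset]
          push Not at h ⊢
          exact h
        have c1 : M j S ≤ M j S₂ := by
          simp only [M, Nat.cast_le]
          apply card_le_card
          intro ω hω
          simp only [mem_filter, mem_univ, true_and] at hω ⊢
          exact ⟨hω.1, fun i hi => hω.2 i (mem_filter.1 hi).1⟩
        have c2 := ha j S₂ (fun i hi => (mem_filter.1 hi).2)
        have c3 : N S₂ ≤ N S + ∑ i ∈ S₁, M i S₂ := by
          simp only [N, M, ← Nat.cast_sum, ← Nat.cast_add, Nat.cast_le]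
          refine le_trans (card_le_card (t := univ.filter (fun ω : ι → W => ∀ i ∈ S, ¬ A i ω) ∪
            S₁.biUnion fun i => univ.filter (fun ω : ι → W => A i ω ∧ ∀ i ∈ S₂, ¬ A i ω)) ?_)
            ((card_union_le _ _).trans (by gcongr; exact card_biUnion_le))
          intro ω hω
          simp only [mem_filter, mem_univ, true_and, mem_union, mem_biUnion] at hω ⊢
          by_cases h' : ∀ i ∈ S, ¬ A i ω
          · exact Or.inl h'
          · push Not at h'
            obtain ⟨i, hi, hA⟩ := h'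
            refine Or.inr ⟨i, mem_filter.2 ⟨hi, ?_⟩, hA, hω⟩
            by_contra h''
            exact hω i (mem_filter.2 ⟨hi, h''⟩) hA
        have c4 : ∑ i ∈ S₁, M i S₂ ≤ d * (2 * p * N S₂) := by
          refine (sum_le_card_nsmul _ _ _ fun i _ => ih _ hlt S₂ rfl i).trans ?_
          rw [nsmul_eq_mul]
          have : (#S₁ : ℝ) ≤ d := by
            refine le_trans ?_ (hd j)
            exact_mod_cast card_le_card fun i hi => by simpa using (mem_filter.1 hi).2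
          have := mul_nonneg hp0 (hN0 S₂)
          gcongr
        have c5 : N S₂ ≤ 2 * N S := by nlinarith [hN0 S₂]
        nlinarith
  have hc : ∀ S, 0 < N S := by
    intro S
    induction S using Finset.induction_on with
    | empty => simp [N, Fintype.card_pos]
    | insert j S _ ih =>
      have c1 : N S ≤ N (insert j S) + M j S := by
        simp only [N, M, ← Nat.cast_add, Nat.cast_le]
        refine le_trans (card_le_card ?_) (card_union_le _ _)
        intro ω hω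
        simp only [mem_filter, mem_univ, true_and, mem_union, forall_mem_insert] at hω ⊢
        tauto
      have c2 := hb _ S rfl j
      have c3 : p ≤ 1 / 4 := by nlinarith
      nlinarith
  have := hc univ
  simp only [N, Nat.cast_pos, card_pos] at this
  obtain ⟨ω, hω⟩ := this
  exact ⟨ω, by simpa using hω⟩

end Pool.Agent.Lib.MP_7906d6_an
end

-- part Pool.Agent.Lib.MP_7906d6_an.Packing
section

/-!
Packing and covering estimates in finite dimensional real normed spaces.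
-/

namespace Pool.Agent.Lib.MP_7906d6_an

open Metric Set MeasureTheory Module
open scoped ENNReal Function

/-- A finite set whose points are pairwise at distance at least `ε`. -/
def Sep {X : Type} [PseudoMetricSpace X] (ε : ℝ) (s : Finset X) : Prop :=
  ∀ y ∈ s, ∀ z ∈ s, y ≠ z → ε ≤ dist y z

theorem Sep.subset {X : Type} [PseudoMetricSpace X] {ε : ℝ} {s t : Finset X} (h : Sep ε s)
    (hts : t ⊆ s) : Sep ε t := fun y hy z hz => h y (hts hy) z (hts hz)

theorem exists_net {X : Type} [PseudoMetricSpace X] (A : Set X) {ε : ℝ} (hε : 0 < ε) (M : ℝ)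
    (h : ∀ s : Finset X, ↑s ⊆ A → Sep ε s → (s.card : ℝ) ≤ M) :
    ∃ s : Finset X, ↑s ⊆ A ∧ Sep ε s ∧ ∀ x ∈ A, ∃ y ∈ s, dist x y < ε := by
  classical
  have hne : {k : ℕ | ∃ s : Finset X, ↑s ⊆ A ∧ Sep ε s ∧ s.card = k}.Nonempty :=
    ⟨0, ∅, by simp, by simp [Sep], rfl⟩
  have hbd : BddAbove {k : ℕ | ∃ s : Finset X, ↑s ⊆ A ∧ Sep ε s ∧ s.card = k} := by
    refine ⟨⌈M⌉₊, ?_⟩
    rintro k ⟨s, h1, h2, rfl⟩
    exact_mod_cast (h s h1 h2).trans (Nat.le_ceil M)
  obtain ⟨s, h1, h2, h3⟩ := Nat.sSup_mem hne hbd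
  refine ⟨s, h1, h2, fun x hx => ?_⟩
  by_contra h4
  push Not at h4
  have hxs : x ∉ s := fun hxs => by simpa [hε.not_ge] using h4 x hxs
  have := le_csSup hbd ⟨insert x s, by simp [insert_subset_iff, hx, h1], ?_, rfl⟩
  · rw [Finset.card_insert_of_notMem hxs, h3] at this
    omega
  · intro y hy z hz hyz
    rw [Finset.mem_insert] at hy hz
    rcases hy with rfl | hy <;> rcases hz with rfl | hz
    · exact absurd rfl hyz
    · exact h4 z hz
    · rw [dist_comm]; exact h4 y hy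
    · exact h2 y hy z hz hyz

variable {E : Type} [NormedAddCommGroup E] [NormedSpace ℝ E] [FiniteDimensional ℝ E]

theorem packing {s : Finset E} {x : E} {R ε : ℝ} (hε : 0 < ε) (hR : 0 ≤ R)
    (hs : ∀ y ∈ s, dist y x ≤ R) (hsep : Sep ε s) :
    (s.card : ℝ) ≤ (1 + 2 * R / ε) ^ finrank ℝ E := by
  borelize E
  let μ : Measure E := Measure.addHaar
  have hδ : 0 < ε / 2 := by positivity
  have hρ : 0 < R + ε / 2 := by positivity
  have D : Set.Pairwise (s : Set E) (Disjoint on fun c => ball (c : E) (ε / 2)) := by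
    rintro c hc d hd hcd
    apply ball_disjoint_ball
    linarith [hsep c hc d hd hcd]
  have hsub : (⋃ c ∈ s, ball (c : E) (ε / 2)) ⊆ ball x (R + ε / 2) := by
    refine iUnion₂_subset fun y hy => ?_
    apply ball_subset_ball'
    linarith [hs y hy]
  have I := measure_mono (μ := μ) hsub
  rw [measure_biUnion_finset D fun c _ => measurableSet_ball] at I
  simp only [μ.addHaar_ball_of_pos _ hδ, μ.addHaar_ball_of_pos _ hρ, Finset.sum_const,
    nsmul_eq_mul, ← mul_assoc] at I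
  have J := (ENNReal.mul_le_mul_iff_left (measure_ball_pos μ _ zero_lt_one).ne'
    measure_ball_lt_top.ne).1 I
  have K := ENNReal.toReal_le_of_le_ofReal (pow_nonneg hρ.le _) J
  rw [ENNReal.toReal_mul, ENNReal.toReal_natCast, ENNReal.toReal_ofReal (by positivity),
    ← le_div_iff₀ (by positivity), ← div_pow] at K
  have : (R + ε / 2) / (ε / 2) = 1 + 2 * R / ε := by field_simp; ring
  rwa [this] at K

theorem covering {s : Finset E} {ε : ℝ} (hε : 0 < ε)
    (hs : ∀ x ∈ closedBall (0 : E) 1, ∃ y ∈ s, dist x y < ε) :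
    1 ≤ (s.card : ℝ) * ε ^ finrank ℝ E := by
  borelize E
  let μ : Measure E := Measure.addHaar
  have hsub : ball (0 : E) 1 ⊆ ⋃ c ∈ s, ball (c : E) ε := by
    intro x hx
    obtain ⟨y, hy, h⟩ := hs x (ball_subset_closedBall hx)
    exact mem_biUnion hy h
  have I := (measure_mono (μ := μ) hsub).trans (measure_biUnion_finset_le _ _)
  simp only [μ.addHaar_ball_of_pos _ hε, Finset.sum_const, nsmul_eq_mul, ← mul_assoc] at I
  nth_rewrite 1 [← one_mul (μ (ball 0 1))] at I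
  have J := (ENNReal.mul_le_mul_iff_left (measure_ball_pos μ _ zero_lt_one).ne'
    measure_ball_lt_top.ne).1 I
  have K := ENNReal.toReal_mono (ENNReal.mul_ne_top (by simp) (by simp)) J
  rwa [ENNReal.toReal_mul, ENNReal.toReal_natCast, ENNReal.toReal_ofReal (by positivity),
    ENNReal.toReal_one] at K

theorem sum_exp_le (E : Type) [NormedAddCommGroup E] [NormedSpace ℝ E] [FiniteDimensional ℝ E] :
    ∃ C : ℝ, 1 ≤ C ∧ ∀ (ρ : ℝ) (s : Finset E) (z : E), 0 < ρ → Sep ρ s →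
      ∑ a ∈ s, Real.exp (-(dist z a / ρ)) ≤ C := by
  classical
  set d := finrank ℝ E
  have hsum : Summable fun k : ℕ => (3 + 2 * (k : ℝ)) ^ d * Real.exp (-k) := by
    have h1 := (summable_nat_add_iff 2).2 (Real.summable_pow_mul_exp_neg_nat_mul d one_pos)
    refine Summable.of_nonneg_of_le (fun k => by positivity) (fun k => ?_)
      (h1.mul_left (2 ^ d * Real.exp 2))
    have : Real.exp (-k) = Real.exp 2 * Real.exp (-1 * ((k + 2 : ℕ) : ℝ)) := by
      rw [← Real.exp_add]; congr 1; push_cast; ring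
    rw [this]
    have h2 : (3 + 2 * (k : ℝ)) ^ d ≤ 2 ^ d * ((k + 2 : ℕ) : ℝ) ^ d := by
      rw [← mul_pow]; gcongr; push_cast; linarith
    calc _ ≤ 2 ^ d * ((k + 2 : ℕ) : ℝ) ^ d * (Real.exp 2 * Real.exp (-1 * ((k + 2 : ℕ) : ℝ))) := by
          gcongr
      _ = _ := by ring
  refine ⟨max 1 (∑' k : ℕ, (3 + 2 * (k : ℝ)) ^ d * Real.exp (-k)), le_max_left _ _, ?_⟩
  intro ρ s z hρ hs
  refine le_trans ?_ (le_max_right _ _)
  let g : E → ℕ := fun a => ⌊dist z a / ρ⌋₊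
  calc ∑ a ∈ s, Real.exp (-(dist z a / ρ)) ≤ ∑ a ∈ s, Real.exp (-(g a : ℝ)) := by
        gcongr with a
        exact Nat.floor_le (by positivity)
    _ = ∑ k ∈ s.image g, ((s.filter (fun a => g a = k)).card : ℝ) * Real.exp (-(k : ℝ)) := by
        rw [Finset.sum_comp (fun k : ℕ => Real.exp (-(k : ℝ))) g]
        simp
    _ ≤ ∑ k ∈ s.image g, (3 + 2 * (k : ℝ)) ^ d * Real.exp (-k) := by
        gcongr with k
        have := packing (s := s.filter (fun a => g a = k)) (x := z) (R := (k + 1) * ρ) hρ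
          (by positivity) (fun y hy => by
            have h1 := (Finset.mem_filter.1 hy).2
            have h2 := Nat.lt_floor_add_one (dist z y / ρ)
            rw [div_lt_iff₀ hρ] at h2
            rw [dist_comm, ← h1]
            exact h2.le) (hs.subset (Finset.filter_subset _ _))
        have h3 : 1 + 2 * (((k : ℝ) + 1) * ρ) / ρ = 3 + 2 * k := by field_simp; ring
        rwa [h3] at this
    _ ≤ _ := hsum.sum_le_tsum _ (fun k _ => by positivity)

end Pool.Agent.Lib.MP_7906d6_an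
end

-- part Pool.Agent.Lib.MP_7906d6_an.Core
section

/-!
Peak functions on the sphere and a choice of coefficients bounding their sum from below.
-/

namespace Pool.Agent.Lib.MP_7906d6_an

open Metric Module Finset Function

set_option linter.unusedSectionVars false

section fam

variable {X : Type} [NormedAddCommGroup X] [NormedSpace ℝ X] [FiniteDimensional ℝ X]

theorem packing_fam {ι : Type} (t : Finset ι) (a : ι → X) {x : X} {R ε : ℝ} (hε : 0 < ε)
    (hR : 0 ≤ R) (hs : ∀ i ∈ t, dist (a i) x ≤ R)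
    (hsep : ∀ i ∈ t, ∀ j ∈ t, i ≠ j → ε ≤ dist (a i) (a j)) :
    (t.card : ℝ) ≤ (1 + 2 * R / ε) ^ finrank ℝ X := by
  classical
  have hinj : Set.InjOn a t := by
    intro i hi j hj hij
    by_contra h
    have := hsep i hi j hj h
    rw [hij, dist_self] at this
    linarith
  rw [← Finset.card_image_of_injOn hinj]
  refine packing (x := x) hε hR ?_ ?_
  · intro y hy
    obtain ⟨i, hi, rfl⟩ := Finset.mem_image.1 hy
    exact hs i hi
  · intro y hy z hz hyz
    obtain ⟨i, hi, rfl⟩ := Finset.mem_image.1 hy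
    obtain ⟨j, hj, rfl⟩ := Finset.mem_image.1 hz
    exact hsep i hi j hj fun h => hyz (by rw [h])

end fam

variable {E : Type} [NormedAddCommGroup E] [InnerProductSpace ℂ E]
  {G : Type} [NormedAddCommGroup G] [InnerProductSpace ℂ G]

/-- Exponential peak function at `a` at scale `ρ`. -/
noncomputable def pk (ρ : ℝ) (a z : E) : ℂ := Complex.exp ((inner ℂ a z - 1) / (ρ : ℂ) ^ 2)

theorem re_inner_eq (a z : E) :
    (inner ℂ a z).re = (‖a‖ ^ 2 + ‖z‖ ^ 2 - dist z a ^ 2) / 2 := by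
  have := norm_sub_sq (𝕜 := ℂ) a z
  rw [dist_comm, dist_eq_norm, this]
  simp only [RCLike.re_to_complex]
  ring

theorem norm_pk (ρ : ℝ) (a z : E) :
    ‖pk ρ a z‖ = Real.exp (((‖a‖ ^ 2 + ‖z‖ ^ 2 - dist z a ^ 2) / 2 - 1) / ρ ^ 2) := by
  rw [pk, Complex.norm_exp, ← re_inner_eq, ← Complex.ofReal_pow, Complex.div_ofReal_re]
  simp

theorem norm_pk_le {ρ : ℝ} (hρ : 0 < ρ) {a z : E} (ha : ‖a‖ = 1) (hz : ‖z‖ ≤ 1) :
    ‖pk ρ a z‖ ≤ Real.exp (-(dist z a / ρ) ^ 2 / 2) := by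
  rw [norm_pk, Real.exp_le_exp, ha, div_pow, div_le_iff₀ (by positivity)]
  have : ‖z‖ ^ 2 ≤ 1 := by nlinarith [norm_nonneg z]
  field_simp
  linarith

theorem norm_pk_le_one {ρ : ℝ} (hρ : 0 < ρ) {a z : E} (ha : ‖a‖ = 1) (hz : ‖z‖ ≤ 1) :
    ‖pk ρ a z‖ ≤ 1 := by
  refine (norm_pk_le hρ ha hz).trans ?_
  rw [Real.exp_le_one_iff]
  have := sq_nonneg (dist z a / ρ)
  linarith

theorem norm_pk_le' {ρ : ℝ} (hρ : 0 < ρ) {a z : E} (ha : ‖a‖ = 1) (hz : ‖z‖ ≤ 1) :
    ‖pk ρ a z‖ ≤ 9 * Real.exp (-(dist z a / ρ)) * Real.exp (-(dist z a / ρ)) := by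
  refine (norm_pk_le hρ ha hz).trans ?_
  set x := dist z a / ρ
  have h1 : Real.exp (-x ^ 2 / 2) ≤ Real.exp 1 * Real.exp 1 * Real.exp (-x) * Real.exp (-x) := by
    rw [← Real.exp_add, ← Real.exp_add, ← Real.exp_add, Real.exp_le_exp]
    nlinarith [sq_nonneg (x - 2)]
  refine h1.trans ?_
  have := Real.exp_one_lt_three
  have h2 : Real.exp 1 * Real.exp 1 ≤ 9 := by nlinarith [Real.exp_pos 1]
  gcongr

theorem half_le_norm_pk {ρ : ℝ} (hρ : 0 < ρ) {a z : E} (ha : ‖a‖ = 1) (hz : ‖z‖ = 1)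
    (h : dist z a ≤ ρ) : 1 / 2 ≤ ‖pk ρ a z‖ := by
  rw [norm_pk, ha, hz]
  refine le_trans ?_ (Real.add_one_le_exp _)
  have h1 : dist z a ^ 2 ≤ ρ ^ 2 := by gcongr
  have h2 : -(1 / 2) ≤ ((1 ^ 2 + 1 ^ 2 - dist z a ^ 2) / 2 - 1) / ρ ^ 2 := by
    rw [le_div_iff₀ (by positivity)]
    linarith
  linarith

theorem pk_transfer (ρ : ℝ) (a b z w : E) :
    pk ρ b z = pk ρ b w * Complex.exp (inner ℂ a (z - w) / (ρ : ℂ) ^ 2) *
      Complex.exp (inner ℂ (b - a) (z - w) / (ρ : ℂ) ^ 2) := by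
  rw [pk, pk, ← Complex.exp_add, ← Complex.exp_add]
  congr 1
  rw [inner_sub_left, inner_sub_right, inner_sub_right]
  ring

variable [FiniteDimensional ℂ E]

open Classical in
theorem core_abs {ι W : Type} [Fintype ι] [Fintype W] [Nonempty W] (a : ι → E) (wv : W → E)
    (J : ι → E →ₗᵢ[ℂ] G) (Z : ι → Finset E) {ρ D R K : ℝ} (hρ : 0 < ρ) (hD : 0 ≤ D) (hR : 0 ≤ R)
    (hK0 : 0 < K) (ha : ∀ i j, i ≠ j → ρ ≤ dist (a i) (a j))
    (hw : ∀ w w', w ≠ w' → 1 / K ≤ dist (wv w) (wv w'))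
    (hW : K ^ finrank ℝ E ≤ Fintype.card W)
    (hZ : ∀ j, (Z j).card * K ≤ (5 * K) ^ finrank ℝ E)
    (hZ' : ∀ j, ∀ z ∈ Z j, 1 / 2 ≤ ‖pk ρ (a j) z‖)
    (hK : 4 * (1 + 2 * D) ^ finrank ℝ E * (1 + 8 * R) ^ finrank ℝ E * 5 ^ finrank ℝ E ≤ K) :
    ∃ ω : ι → W, ∀ j, ∀ z ∈ Z j, R / K ≤
      ‖∑ i ∈ univ.filter (fun i => dist (a i) (a j) ≤ D * ρ), pk ρ (a i) z • J i (wv (ω i))‖ := by
  set d := finrank ℝ E
  let dep : ι → Finset ι := fun j => univ.filter (fun i => dist (a i) (a j) ≤ D * ρ)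
  let A : ι → (ι → W) → Prop := fun j ω =>
    ∃ z ∈ Z j, ‖∑ i ∈ dep j, pk ρ (a i) z • J i (wv (ω i))‖ < R / K
  have key := lll A dep ?_ (p := (1 + 8 * R) ^ d * 5 ^ d / K) (d := (1 + 2 * D) ^ d)
    (by positivity) (one_le_pow₀ (by linarith)) ?_ ?_ ?_
  · obtain ⟨ω, hω⟩ := key
    refine ⟨ω, fun j z hz => ?_⟩
    by_contra h
    exact hω j ⟨z, hz, not_le.1 h⟩
  · intro i j hij ω w
    have : ∀ z, ∑ k ∈ dep i, pk ρ (a k) z • J k (wv (update ω j w k)) =
        ∑ k ∈ dep i, pk ρ (a k) z • J k (wv (ω k)) := fun z =>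
      sum_congr rfl fun k hk => by rw [update_of_ne (fun h : k = j => hij (h ▸ hk))]
    simp only [A, this]
  · intro j ω
    let B : E → Finset W := fun z =>
      univ.filter fun w => ‖∑ i ∈ dep j, pk ρ (a i) z • J i (wv (update ω j w i))‖ < R / K
    have hB : ∀ z ∈ Z j, ((B z).card : ℝ) ≤ (1 + 8 * R) ^ d := by
      intro z hz
      rcases (B z).eq_empty_or_nonempty with h | ⟨w₀, hw₀⟩
      · rw [h, card_empty, Nat.cast_zero]; positivity
      have h1 := packing_fam (B z) wv (x := wv w₀) (R := 4 * R / K) (ε := 1 / K) (by positivity)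
        (by positivity) ?_ (fun i _ j _ h => hw i j h)
      · have h2 : 1 + 2 * (4 * R / K) / (1 / K) = 1 + 8 * R := by field_simp; ring
        rwa [h2] at h1
      intro w hw'
      have hj : j ∈ dep j := by simp only [dep, mem_filter, mem_univ, dist_self]; simp; positivity
      have e : ∀ w, ∑ i ∈ dep j, pk ρ (a i) z • J i (wv (update ω j w i)) =
          pk ρ (a j) z • J j (wv w) + ∑ i ∈ (dep j).erase j, pk ρ (a i) z • J i (wv (ω i)) := by
        intro w
        rw [← add_sum_erase _ _ hj, update_self]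
        congr 1
        exact sum_congr rfl fun k hk => by rw [update_of_ne (ne_of_mem_erase hk)]
      have h2 := (mem_filter.1 hw').2
      have h3 := (mem_filter.1 hw₀).2
      rw [e] at h2 h3
      have h4 := norm_sub_le (pk ρ (a j) z • J j (wv w) +
        ∑ i ∈ (dep j).erase j, pk ρ (a i) z • J i (wv (ω i))) (pk ρ (a j) z • J j (wv w₀) +
        ∑ i ∈ (dep j).erase j, pk ρ (a i) z • J i (wv (ω i)))
      rw [add_sub_add_right_eq_sub, ← smul_sub, ← map_sub, norm_smul, LinearIsometry.norm_map,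
        ← dist_eq_norm] at h4
      have h5 := hZ' j z hz
      have h6 : 1 / 2 * dist (wv w) (wv w₀) ≤ ‖pk ρ (a j) z‖ * dist (wv w) (wv w₀) := by gcongr
      have h7 : 4 * R / K = 4 * (R / K) := by ring
      linarith
    have h2 : ∀ t : Finset W, (∀ w ∈ t, A j (update ω j w)) → (t.card : ℝ) ≤
        ∑ z ∈ Z j, ((B z).card : ℝ) := by
      intro t ht
      have h1 : t ⊆ (Z j).biUnion B := by
        intro w hw'
        obtain ⟨z, hz, h⟩ := ht w hw'
        exact mem_biUnion.2 ⟨z, hz, mem_filter.2 ⟨mem_univ _, h⟩⟩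
      exact_mod_cast (card_le_card h1).trans card_biUnion_le
    have h3 := sum_le_card_nsmul _ _ _ hB
    rw [nsmul_eq_mul] at h3
    have h4 : ((Z j).card : ℝ) ≤ 5 ^ d / K * Fintype.card W := by
      rw [div_mul_eq_mul_div, le_div_iff₀ hK0]
      refine (hZ j).trans ?_
      rw [mul_pow]
      gcongr
    refine (h2 _ fun w hw' => by simpa only [mem_filter, mem_univ, true_and] using hw').trans ?_
    calc _ ≤ _ := h3
      _ ≤ (5 ^ d / K * Fintype.card W) * (1 + 8 * R) ^ d := by gcongr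
      _ = _ := by ring
  · intro j
    have h1 := packing_fam (univ.filter fun i => j ∈ dep i) a (x := a j) (R := D * ρ) hρ
      (by positivity) ?_ (fun i _ j _ h => ha i j h)
    · have h2 : 1 + 2 * (D * ρ) / ρ = 1 + 2 * D := by field_simp
      rwa [h2] at h1
    intro i hi
    rw [dist_comm]
    exact (mem_filter.1 (mem_filter.1 hi).2).2
  · have : 4 * ((1 + 8 * R) ^ d * 5 ^ d / K) * (1 + 2 * D) ^ d =
        4 * (1 + 2 * D) ^ d * (1 + 8 * R) ^ d * 5 ^ d / K := by ring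
    rw [this, div_le_one hK0]
    exact hK

/-- A fine net of a spherical cap has one dimension less than the ambient space. -/
theorem cap_card {ρ : ℝ} (hρ : 0 < ρ) {K : ℕ} (hK : 1 ≤ K) {a : E} {s : Finset E}
    (h1 : ∀ z ∈ s, ‖z‖ = 1) (h2 : ∀ z ∈ s, dist z a ≤ ρ) (hs : Sep (ρ / K) s) :
    (s.card : ℝ) * K ≤ (5 * K) ^ finrank ℝ E := by
  have hK' : (1 : ℝ) ≤ K := by exact_mod_cast hK
  have hδ : 0 < ρ / K := by positivity
  have key := packing_fam (s ×ˢ Finset.range K)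
    (fun p => ((1 + p.2 * (ρ / K) : ℝ) : ℂ) • p.1) (x := a) (R := 2 * ρ) hδ (by positivity) ?_ ?_
  · rw [card_product, card_range, Nat.cast_mul] at key
    refine key.trans ?_
    have : 1 + 2 * (2 * ρ) / (ρ / K) = 1 + 4 * K := by field_simp; ring
    rw [this]
    gcongr
    linarith
  · rintro ⟨z, k⟩ hp
    rw [Finset.mem_product, Finset.mem_range] at hp
    have h3 : dist (((1 + k * (ρ / K) : ℝ) : ℂ) • z) z ≤ ρ := by
      have : ((1 + k * (ρ / K) : ℝ) : ℂ) • z - z = ((k * (ρ / K) : ℝ) : ℂ) • z := by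
        push_cast; module
      rw [dist_eq_norm, this, norm_smul, h1 z hp.1, mul_one, Complex.norm_real,
        Real.norm_of_nonneg (by positivity), ← mul_div_assoc, div_le_iff₀ (by positivity), mul_comm]
      have : (k : ℝ) ≤ K := by exact_mod_cast hp.2.le
      gcongr
    have := dist_triangle (((1 + k * (ρ / K) : ℝ) : ℂ) • z) z a
    have := h2 z hp.1
    dsimp only
    linarith
  · rintro ⟨z, k⟩ hp ⟨w, l⟩ hq hne
    rw [Finset.mem_product, Finset.mem_range] at hp hq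
    dsimp only at *
    by_cases hkl : k = l
    · subst hkl
      have hzw : z ≠ w := fun h => hne (by rw [h])
      have := hs z hp.1 w hq.1 hzw
      rw [dist_smul₀, Complex.norm_real, Real.norm_of_nonneg (by positivity)]
      have h3 : (0 : ℝ) ≤ k * (ρ / K) := by positivity
      nlinarith
    · have h3 := abs_norm_sub_norm_le (((1 + k * (ρ / K) : ℝ) : ℂ) • z)
        (((1 + l * (ρ / K) : ℝ) : ℂ) • w)
      rw [norm_smul, norm_smul, h1 z hp.1, h1 w hq.1, Complex.norm_real, Complex.norm_real,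
        Real.norm_of_nonneg (by positivity), Real.norm_of_nonneg (by positivity),
        ← dist_eq_norm] at h3
      refine le_trans ?_ h3
      have h4 : (1 + k * (ρ / K)) * 1 - (1 + l * (ρ / K)) * 1 = ((k : ℝ) - l) * (ρ / K) := by ring
      have h5 : (1 : ℝ) ≤ |(k : ℝ) - l| := by
        have : (1 : ℤ) ≤ |(k : ℤ) - l| := Int.one_le_abs (by omega)
        exact_mod_cast this
      rw [h4, abs_mul, abs_of_pos hδ]
      nlinarith

end Pool.Agent.Lib.MP_7906d6_an
end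

-- part Pool.Agent.Lib.MP_7906d6_an.Peak
section

/-!
Sums of peak functions with coefficients orthogonal to a given field, in codimension one.
-/

namespace Pool.Agent.Lib.MP_7906d6_an

open Metric Module Finset Function Filter Topology

set_option linter.unusedSectionVars false

variable {E : Type} [NormedAddCommGroup E] [InnerProductSpace ℂ E] [FiniteDimensional ℂ E]
  {G : Type} [NormedAddCommGroup G] [InnerProductSpace ℂ G] [FiniteDimensional ℂ G]

theorem exists_isometry_orth (h : finrank ℂ E < finrank ℂ G) (v : G) :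
    ∃ J : E →ₗᵢ[ℂ] G, ∀ w, inner ℂ v (J w) = 0 := by
  let K := (ℂ ∙ v)ᗮ
  have h1 : finrank ℂ E ≤ finrank ℂ K := by
    have h2 := (ℂ ∙ v).finrank_add_finrank_orthogonal
    have h3 : finrank ℂ (ℂ ∙ v) ≤ 1 := (finrank_span_le_card ({v} : Set G)).trans (by simp)
    simp only [K]
    omega
  let b := stdOrthonormalBasis ℂ E
  let c := stdOrthonormalBasis ℂ K
  have hc : Orthonormal ℂ (c ∘ Fin.castLE h1) := c.orthonormal.comp _ (Fin.castLE_injective h1)
  let f : E →ₗ[ℂ] K := b.toBasis.constr ℂ (c ∘ Fin.castLE h1)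
  have hf : Orthonormal ℂ (f ∘ b.toBasis) := by
    convert hc using 1
    ext1 i
    simp only [f, Function.comp_apply, Basis.constr_basis]
  refine ⟨K.subtypeₗᵢ.comp (f.isometryOfOrthonormal (by simp) hf), fun w => ?_⟩
  exact Submodule.mem_orthogonal_singleton_iff_inner_right.1 (f w).2

theorem exists_constants (d : ℕ) {C : ℝ} (hC : 1 ≤ C) : ∃ (D : ℝ) (K : ℕ), 0 ≤ D ∧ 1 ≤ K ∧ D ≤ K ∧
    4 * (1 + 2 * D) ^ d * (1 + 8 * (1 + 18 * C * D)) ^ d * 5 ^ d ≤ K ∧
    27 * Real.exp (-D) * C ≤ 1 / (4 * K) := by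
  let P : Polynomial ℝ := 4 * (1 + 2 * Polynomial.X) ^ d *
    (1 + 8 * (1 + 18 * Polynomial.C C * Polynomial.X)) ^ d * 5 ^ d + Polynomial.X + 1
  have h1 := P.tendsto_div_exp_atTop.eventually (gt_mem_nhds (show (0 : ℝ) < 1 / (108 * C) by
    positivity))
  obtain ⟨D, hD, hD0⟩ := (h1.and (eventually_ge_atTop 0)).exists
  have hP : P.eval D = 4 * (1 + 2 * D) ^ d * (1 + 8 * (1 + 18 * C * D)) ^ d * 5 ^ d + D + 1 := by
    simp [P]
  set Q := 4 * (1 + 2 * D) ^ d * (1 + 8 * (1 + 18 * C * D)) ^ d * 5 ^ d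
  have hQ : 0 < Q := by positivity
  have h2 := Nat.le_ceil (Q + D)
  have h3 := Nat.ceil_lt_add_one (show 0 ≤ Q + D by positivity)
  have h4 : 0 < ⌈Q + D⌉₊ := Nat.ceil_pos.2 (by positivity)
  refine ⟨D, ⌈Q + D⌉₊, hD0, h4, by linarith, by linarith, ?_⟩
  rw [hP, div_lt_div_iff₀ (Real.exp_pos _) (by positivity)] at hD
  rw [Real.exp_neg, le_div_iff₀ (by positivity)]
  have h5 := Real.exp_pos D
  have : 27 * (Real.exp D)⁻¹ * C * (4 * (⌈Q + D⌉₊ : ℝ)) = ⌈Q + D⌉₊ * (108 * C) / Real.exp D := by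
    field_simp; ring
  rw [this, div_le_one h5]
  have : (⌈Q + D⌉₊ : ℝ) * (108 * C) ≤ (Q + D + 1) * (108 * C) := by gcongr
  linarith

theorem core (h : finrank ℂ E < finrank ℂ G) : ∃ c C : ℝ, 0 < c ∧ 1 ≤ C ∧ ∀ ρ, 0 < ρ →
    ∀ f : E → G, ∃ (s : Finset E) (u : s → G), (∀ a ∈ s, ‖a‖ = 1) ∧ (∀ a, ‖u a‖ ≤ 1) ∧
      (∀ a : s, inner ℂ (f a) (u a) = 0) ∧
      (∀ z, ∑ a : s, Real.exp (-(dist z (a : E) / ρ)) ≤ C) ∧
      ∀ z, ‖z‖ = 1 → c ≤ ‖∑ a : s, pk ρ (a : E) z • u a‖ := by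
  classical
  obtain ⟨C, hC, hsum⟩ := sum_exp_le E
  obtain ⟨D, K, hD, hK, hDK, hK1, hK2⟩ := exists_constants (finrank ℝ E) hC
  have hK' : (1 : ℝ) ≤ K := by exact_mod_cast hK
  refine ⟨1 / (4 * K), C, by positivity, hC, fun ρ hρ f => ?_⟩
  choose J hJ using exists_isometry_orth h
  obtain ⟨s, hs1, hs2, hs3⟩ := exists_net (sphere (0 : E) 1) hρ ((1 + 2 * 1 / ρ) ^ finrank ℝ E)
    (fun s h1 h2 => packing (x := 0) hρ zero_le_one (fun y hy => (h1 hy).le) h2)
  have hs1' : ∀ a ∈ s, ‖a‖ = 1 := fun a ha => by simpa using hs1 ha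
  obtain ⟨W, hW1, hW2, hW3⟩ := exists_net (closedBall (0 : E) 1) (ε := 1 / K) (by positivity)
    ((1 + 2 * 1 / (1 / K)) ^ finrank ℝ E)
    (fun s h1 h2 => packing (x := 0) (by positivity) zero_le_one (fun y hy => h1 hy) h2)
  have : Nonempty W := by
    obtain ⟨y, hy, -⟩ := hW3 0 (by simp)
    exact ⟨⟨y, hy⟩⟩
  have hZ : ∀ a : E, ∃ Z : Finset E, ↑Z ⊆ sphere (0 : E) 1 ∩ closedBall a ρ ∧ Sep (ρ / K) Z ∧
      ∀ x ∈ sphere (0 : E) 1 ∩ closedBall a ρ, ∃ y ∈ Z, dist x y < ρ / K := fun a =>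
    exists_net _ (by positivity) ((1 + 2 * ρ / (ρ / K)) ^ finrank ℝ E)
      (fun s h1 h2 => packing (x := a) (by positivity) hρ.le (fun y hy => (h1 hy).2) h2)
  choose Z hZ1 hZ2 hZ3 using hZ
  have hZ1' : ∀ a, ∀ z ∈ Z a, ‖z‖ = 1 := fun a z hz => by simpa using (hZ1 a hz).1
  have hsum' : ∀ z, ∑ a : s, Real.exp (-(dist z (a : E) / ρ)) ≤ C := fun z => by
    rw [Finset.sum_coe_sort s (fun a => Real.exp (-(dist z a / ρ)))]
    exact hsum ρ s z hρ hs2
  obtain ⟨ω, hω⟩ := core_abs (ι := s) (W := W) (G := G) Subtype.val Subtype.val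
    (fun a => J (f a)) (fun a => Z a) (R := 1 + 18 * C * D) (K := K) hρ hD (by positivity)
    (by positivity) (fun i j hij => hs2 i i.2 j j.2 (Subtype.coe_ne_coe.2 hij))
    (fun i j hij => hW2 i i.2 j j.2 (Subtype.coe_ne_coe.2 hij))
    (by
      have := covering (by positivity) hW3
      rw [div_pow, one_pow, mul_one_div, one_le_div (by positivity)] at this
      simpa using this)
    (fun j => cap_card hρ hK (hZ1' j) (fun z hz => (hZ1 j hz).2) (hZ2 j))
    (fun j z hz => half_le_norm_pk hρ (hs1' j j.2) (hZ1' j z hz) (hZ1 j hz).2) hK1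
  set u : s → G := fun a => J (f a) (ω a) with hu
  have hu1 : ∀ a, ‖u a‖ ≤ 1 := fun a => by
    rw [hu, LinearIsometry.norm_map]
    simpa using hW1 (ω a).2
  refine ⟨s, u, hs1', hu1, fun a => hJ _ _, hsum', fun z hz => ?_⟩
  obtain ⟨a, ha, hza⟩ := hs3 z (by simpa using hz)
  obtain ⟨y, hy, hzy⟩ := hZ3 a z ⟨by simpa using hz, hza.le⟩
  have key := hω ⟨a, ha⟩ y hy
  have hy1 := hZ1' a y hy
  set t : Finset s := univ.filter (fun i : s => dist (i : E) a ≤ D * ρ) with ht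
  replace key : (1 + 18 * C * D) / K ≤ ‖∑ i ∈ t, pk ρ (i : E) y • u i‖ := by convert key
  set τ := Complex.exp (inner ℂ a (z - y) / (ρ : ℂ) ^ 2) with hτ
  have hτ1 : 1 / 2 ≤ ‖τ‖ := by
    have h1 := pk_transfer ρ a a z y
    rw [sub_self, inner_zero_left, zero_div, Complex.exp_zero, mul_one, ← hτ] at h1
    have h2 := half_le_norm_pk hρ (hs1' a ha) hz hza.le
    rw [h1, norm_mul] at h2
    have h3 := norm_pk_le_one hρ (hs1' a ha) hy1.le
    nlinarith [norm_nonneg τ]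
  have hpk : ∀ w : E, ‖w‖ ≤ 1 → ∀ i : s, ‖pk ρ (i : E) w‖ ≤ 9 * Real.exp (-(dist w i / ρ)) := by
    intro w hw i
    refine (norm_pk_le' hρ (hs1' i i.2) hw).trans (mul_le_of_le_one_right (by positivity) ?_)
    rw [Real.exp_le_one_iff, neg_nonpos]
    positivity
  have main : 1 / (2 * K) ≤ ‖∑ i ∈ t, pk ρ (i : E) z • u i‖ := by
    have e1 : ∑ i ∈ t, pk ρ (i : E) z • u i = τ • (∑ i ∈ t, pk ρ (i : E) y • u i +
        ∑ i ∈ t, (pk ρ (i : E) y *
          (Complex.exp (inner ℂ ((i : E) - a) (z - y) / (ρ : ℂ) ^ 2) - 1)) • u i) := by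
      rw [← sum_add_distrib, smul_sum]
      refine sum_congr rfl fun i _ => ?_
      rw [pk_transfer ρ a i z y, ← hτ, ← add_smul, smul_smul]
      congr 1
      ring
    have e2 : ‖∑ i ∈ t, (pk ρ (i : E) y *
          (Complex.exp (inner ℂ ((i : E) - a) (z - y) / (ρ : ℂ) ^ 2) - 1)) • u i‖ ≤
        18 * C * D / K := by
      refine (norm_sum_le _ _).trans ?_
      have e3 : ∀ i ∈ t, ‖(pk ρ (i : E) y *
          (Complex.exp (inner ℂ ((i : E) - a) (z - y) / (ρ : ℂ) ^ 2) - 1)) • u i‖ ≤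
          18 * D / K * Real.exp (-(dist y i / ρ)) := by
        intro i hi
        have h1 : ‖inner ℂ ((i : E) - a) (z - y) / (ρ : ℂ) ^ 2‖ ≤ D / K := by
          rw [norm_div, norm_pow, Complex.norm_real, Real.norm_of_nonneg hρ.le,
            div_le_iff₀ (by positivity)]
          refine (norm_inner_le_norm _ _).trans ?_
          rw [← dist_eq_norm, ← dist_eq_norm]
          have h2 := (mem_filter.1 hi).2
          calc _ ≤ (D * ρ) * (ρ / K) := by gcongr
            _ = _ := by ring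
        have h2 := Complex.norm_exp_sub_one_le (h1.trans ((div_le_one (by positivity)).2 hDK))
        rw [norm_smul, norm_mul]
        calc _ ≤ 9 * Real.exp (-(dist y i / ρ)) * (2 * (D / K)) * 1 := by
              gcongr
              · exact hpk y hy1.le i
              · exact h2.trans (by gcongr)
              · exact hu1 i
          _ = _ := by ring
      refine (sum_le_sum e3).trans ?_
      rw [← mul_sum]
      calc _ ≤ 18 * D / K * C := by
            gcongr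
            exact (sum_le_univ_sum_of_nonneg fun i => by positivity).trans (hsum' y)
        _ = _ := by ring
    rw [e1, norm_smul]
    have e4 := norm_sub_norm_le (∑ i ∈ t, pk ρ (i : E) y • u i) (-∑ i ∈ t, (pk ρ (i : E) y *
          (Complex.exp (inner ℂ ((i : E) - a) (z - y) / (ρ : ℂ) ^ 2) - 1)) • u i)
    rw [norm_neg, sub_neg_eq_add] at e4
    have e5 : (1 + 18 * C * D) / K = 1 / K + 18 * C * D / K := by ring
    calc (1 : ℝ) / (2 * K) = 1 / 2 * (1 / K) := by field_simp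
      _ ≤ _ := by gcongr; linarith
  have tail : ‖∑ i ∈ tᶜ, pk ρ (i : E) z • u i‖ ≤ 1 / (4 * K) := by
    refine (norm_sum_le _ _).trans (le_trans ?_ hK2)
    have e3 : ∀ i ∈ tᶜ, ‖pk ρ (i : E) z • u i‖ ≤
        27 * Real.exp (-D) * Real.exp (-(dist z i / ρ)) := by
      intro i hi
      have h1 : D * ρ < dist (i : E) a := by simpa [ht] using hi
      have h2 : Real.exp (-(dist z i / ρ)) ≤ 3 * Real.exp (-D) := by
        have h3 : D - 1 ≤ dist z i / ρ := by
          rw [le_div_iff₀ hρ]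
          have := dist_triangle_left (i : E) a z
          linarith
        calc _ ≤ Real.exp 1 * Real.exp (-D) := by
              rw [← Real.exp_add, Real.exp_le_exp]; linarith
          _ ≤ _ := by gcongr; exact Real.exp_one_lt_three.le
      rw [norm_smul]
      calc _ ≤ 9 * (3 * Real.exp (-D)) * Real.exp (-(dist z i / ρ)) * 1 := by
            gcongr
            · exact (norm_pk_le' hρ (hs1' i i.2) hz.le).trans (by gcongr)
            · exact hu1 i
        _ = _ := by ring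
    refine (sum_le_sum e3).trans ?_
    rw [← mul_sum]
    gcongr
    exact (sum_le_univ_sum_of_nonneg fun i => by positivity).trans (hsum' z)
  rw [← sum_add_sum_compl t]
  have e4 := norm_sub_norm_le (∑ i ∈ t, pk ρ (i : E) z • u i) (-∑ i ∈ tᶜ, pk ρ (i : E) z • u i)
  rw [norm_neg, sub_neg_eq_add] at e4
  have e5 : (1 : ℝ) / (2 * K) = 1 / (4 * K) + 1 / (4 * K) := by field_simp; ring
  linarith

end Pool.Agent.Lib.MP_7906d6_an
end

-- part Pool.Agent.Lib.MP_7906d6_an.Mobius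
section

/-!
Automorphisms of the unit ball and rigidity in the Schwarz lemma.
-/

namespace Pool.Agent.Lib.MP_7906d6_an

open Filter Metric Set Topology

set_option linter.unusedSectionVars false

variable {E : Type} [NormedAddCommGroup E] [InnerProductSpace ℂ E]
  {G : Type} [NormedAddCommGroup G] [InnerProductSpace ℂ G]

/-- `√(1 - ‖a‖²)`. -/
noncomputable def sq1 (a : E) : ℝ := √(1 - ‖a‖ ^ 2)

/-- The numerator of the involution. -/
noncomputable def mobN (a z : E) : E :=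
  a - ((sq1 a : ℝ) : ℂ) • z - (inner ℂ a z / (1 + ((sq1 a : ℝ) : ℂ))) • a

/-- The involutive automorphism of the ball exchanging `0` and `a`. -/
noncomputable def mob (a z : E) : E := (1 - inner ℂ a z)⁻¹ • mobN a z

theorem sq1_nonneg (a : E) : 0 ≤ sq1 a := Real.sqrt_nonneg _

theorem sq1_sq {a : E} (ha : ‖a‖ < 1) : sq1 a ^ 2 = 1 - ‖a‖ ^ 2 :=
  Real.sq_sqrt (by nlinarith [norm_nonneg a])

theorem sq1_pos {a : E} (ha : ‖a‖ < 1) : 0 < sq1 a :=
  Real.sqrt_pos.2 (by nlinarith [norm_nonneg a])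

theorem one_add_sq1_ne (a : E) : (1 + ((sq1 a : ℝ) : ℂ)) ≠ 0 := by
  have := sq1_nonneg a
  exact_mod_cast (by linarith : 1 + sq1 a ≠ 0)

theorem inner_self_sq1 {a : E} (ha : ‖a‖ < 1) : inner ℂ a a = 1 - ((sq1 a : ℝ) : ℂ) ^ 2 := by
  rw [inner_self_eq_norm_sq_to_K]
  have := sq1_sq ha
  have h2 : ((sq1 a : ℝ) : ℂ) ^ 2 = 1 - ((‖a‖ : ℝ) : ℂ) ^ 2 := by exact_mod_cast this
  rw [h2]
  simp

theorem den_ne {a z : E} (ha : ‖a‖ < 1) (hz : ‖z‖ ≤ 1) : 1 - inner ℂ a z ≠ 0 := by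
  intro h
  have h1 : inner ℂ a z = 1 := (sub_eq_zero.1 h).symm
  have h2 := norm_inner_le_norm (𝕜 := ℂ) a z
  rw [h1, norm_one] at h2
  nlinarith [norm_nonneg a, norm_nonneg z]

theorem mob_zero (a : E) : mob a 0 = a := by simp [mob, mobN]

theorem mob_self {a : E} (ha : ‖a‖ < 1) : mob a a = 0 := by
  have : mobN a a = 0 := by
    have h := one_add_sq1_ne a
    rw [mobN, inner_self_sq1 ha]
    have : (1 - ((sq1 a : ℝ) : ℂ) ^ 2) / (1 + ((sq1 a : ℝ) : ℂ)) = 1 - ((sq1 a : ℝ) : ℂ) := by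
      field_simp; ring
    rw [this]
    module
  simp [mob, this]

theorem inner_mobN {a : E} (ha : ‖a‖ < 1) (z : E) :
    inner ℂ a (mobN a z) = 1 - ((sq1 a : ℝ) : ℂ) ^ 2 - inner ℂ a z := by
  have h := one_add_sq1_ne a
  simp only [mobN, inner_sub_right, inner_smul_right, inner_self_sq1 ha]
  field_simp
  ring

theorem norm_mobN_sq {a : E} (ha : ‖a‖ < 1) (z : E) :
    ‖mobN a z‖ ^ 2 = ‖1 - inner ℂ a z‖ ^ 2 - sq1 a ^ 2 * (1 - ‖z‖ ^ 2) := by
  have h := one_add_sq1_ne a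
  have key : inner ℂ (mobN a z) (mobN a z) =
      (1 - inner ℂ a z) * (starRingEnd ℂ) (1 - inner ℂ a z) -
        ((sq1 a : ℝ) : ℂ) ^ 2 * (1 - inner ℂ z z) := by
    have h1 : inner ℂ z a = (starRingEnd ℂ) (inner ℂ a z) := (inner_conj_symm z a).symm
    simp only [mobN, inner_sub_right, inner_sub_left, inner_smul_right, inner_smul_left,
      inner_self_sq1 ha, h1, map_div₀, map_add, map_one, map_sub, Complex.conj_ofReal]
    field_simp
    ring
  rw [Complex.mul_conj, inner_self_eq_norm_sq_to_K, inner_self_eq_norm_sq_to_K,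
    Complex.normSq_eq_norm_sq] at key
  simp only [Complex.coe_algebraMap] at key
  exact_mod_cast key

theorem norm_mob_lt {a z : E} (ha : ‖a‖ < 1) (hz : ‖z‖ < 1) : ‖mob a z‖ < 1 := by
  have hd : 0 < ‖1 - inner ℂ a z‖ := norm_pos_iff.2 (den_ne ha hz.le)
  rw [mob, norm_smul, norm_inv, inv_mul_lt_iff₀ hd, mul_one]
  have h1 := norm_mobN_sq ha z
  have h2 : 0 < sq1 a ^ 2 * (1 - ‖z‖ ^ 2) :=
    mul_pos (pow_pos (sq1_pos ha) 2) (by nlinarith [norm_nonneg z])
  exact lt_of_pow_lt_pow_left₀ 2 hd.le (by linarith)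

theorem mob_mapsTo {a : E} (ha : ‖a‖ < 1) : MapsTo (mob a) (ball 0 1) (ball 0 1) := by
  intro z hz
  rw [mem_ball_zero_iff] at hz ⊢
  exact norm_mob_lt ha hz

theorem mob_mob {a z : E} (ha : ‖a‖ < 1) (hz : ‖z‖ < 1) : mob a (mob a z) = z := by
  have h := one_add_sq1_ne a
  have hd := den_ne ha hz.le
  have hs : ((sq1 a : ℝ) : ℂ) ≠ 0 := by exact_mod_cast (sq1_pos ha).ne'
  have h1 : inner ℂ a (mob a z) =
      (1 - inner ℂ a z)⁻¹ * (1 - ((sq1 a : ℝ) : ℂ) ^ 2 - inner ℂ a z) := by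
    rw [mob, inner_smul_right, inner_mobN ha]
  have h2 : 1 - inner ℂ a (mob a z) = ((sq1 a : ℝ) : ℂ) ^ 2 / (1 - inner ℂ a z) := by
    rw [h1]; field_simp; ring
  rw [mob, h2, mobN, h1, mob, mobN]
  generalize inner ℂ a z = c at hd
  generalize ((sq1 a : ℝ) : ℂ) = s at h hs
  match_scalars
  · field_simp; ring
  · field_simp

theorem mob_differentiableAt {a z : E} (h : 1 - inner ℂ a z ≠ 0) :
    DifferentiableAt ℂ (mob a) z := by
  have h1 : Differentiable ℂ (fun z : E => inner ℂ a z) := (innerSL ℂ a).differentiable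
  unfold mob mobN
  refine DifferentiableAt.smul (DifferentiableAt.inv (by fun_prop) h) ?_
  fun_prop

theorem mob_differentiableOn {a : E} (ha : ‖a‖ < 1) : DifferentiableOn ℂ (mob a) (ball 0 1) :=
  fun _ hz => (mob_differentiableAt
    (den_ne ha (mem_ball_zero_iff.1 hz).le)).differentiableWithinAt

theorem norm_mob_sub_le {b w : E} (hb : ‖b‖ < 1) (hw : ‖w‖ ≤ 1) (hc : ‖inner ℂ b w‖ ≤ 1 / 2) :
    ‖mob b w - b‖ ≤ 4 * sq1 b := by
  have h := one_add_sq1_ne b
  have hd := den_ne hb hw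
  have hs := sq1_nonneg b
  have key : mob b w - b = (1 - inner ℂ b w)⁻¹ • (((sq1 b : ℝ) : ℂ) •
      ((inner ℂ b w / (1 + ((sq1 b : ℝ) : ℂ))) • b - w)) := by
    rw [mob, mobN]
    generalize inner ℂ b w = c at hd
    generalize ((sq1 b : ℝ) : ℂ) = s at h
    match_scalars
    · field_simp; ring
    · ring
  have h1 : 1 / 2 ≤ ‖1 - inner ℂ b w‖ := by
    have := norm_sub_norm_le (1 : ℂ) (inner ℂ b w)
    rw [norm_one] at this
    linarith
  have h2 : ‖(inner ℂ b w / (1 + ((sq1 b : ℝ) : ℂ))) • b‖ ≤ 1 := by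
    rw [norm_smul, norm_div]
    have : ‖(1 + ((sq1 b : ℝ) : ℂ))‖ = 1 + sq1 b := by
      rw [← Complex.ofReal_one, ← Complex.ofReal_add, Complex.norm_real,
        Real.norm_of_nonneg (by linarith)]
    rw [this]
    have h3 : ‖inner ℂ b w‖ / (1 + sq1 b) ≤ 1 := by
      rw [div_le_one (by linarith)]; linarith
    exact mul_le_one₀ h3 (norm_nonneg _) hb.le
  rw [key, norm_smul, norm_smul, norm_inv, Complex.norm_real, Real.norm_of_nonneg hs]
  have h4 : ‖(inner ℂ b w / (1 + ((sq1 b : ℝ) : ℂ))) • b - w‖ ≤ 2 :=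
    (norm_sub_le _ _).trans (by linarith)
  have h5 : ‖1 - inner ℂ b w‖⁻¹ ≤ 2 := by
    rw [inv_le_comm₀ (by linarith) (by norm_num)]; linarith
  calc _ ≤ 2 * (sq1 b * 2) := by gcongr
    _ = 4 * sq1 b := by ring

/-- Rigidity in the Schwarz lemma along one direction. -/
theorem eq_fderiv_of_norm {f : E → G} (hd : DifferentiableOn ℂ f (ball 0 1))
    (hm : MapsTo f (ball 0 1) (ball 0 1)) (h0 : f 0 = 0)
    (hiso : ∀ v, ‖fderiv ℂ f 0 v‖ = ‖v‖) : EqOn f (fderiv ℂ f 0) (ball 0 1) := by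
  intro z hz
  rw [mem_ball_zero_iff] at hz
  rcases eq_or_ne z 0 with rfl | hz0
  · simp [h0]
  have hzp : 0 < ‖z‖ := norm_pos_iff.2 hz0
  have hmaps : MapsTo (fun t : ℂ => t • z) (ball 0 (1 / ‖z‖)) (ball 0 1) := by
    intro t ht
    rw [mem_ball_zero_iff] at ht ⊢
    rw [norm_smul, ← lt_div_iff₀ hzp]
    exact ht
  have hda : DifferentiableAt ℂ f 0 := hd.differentiableAt (ball_mem_nhds 0 one_pos)
  have hder : HasDerivAt (fun t : ℂ => f (t • z)) (fderiv ℂ f 0 z) 0 := by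
    have h1 : HasDerivAt (fun t : ℂ => t • z) z 0 := by
      simpa using (hasDerivAt_id (0 : ℂ)).smul_const z
    have h2 : HasFDerivAt f (fderiv ℂ f 0) ((0 : ℂ) • z) := by simpa using hda.hasFDerivAt
    exact h2.comp_hasDerivAt (0 : ℂ) h1
  haveI : UniformConvexSpace G := by
    letI : InnerProductSpace ℝ G := InnerProductSpace.rclikeToReal ℂ G
    infer_instance
  have key := Complex.affine_of_mapsTo_ball_of_norm_dslope_eq_div
    (f := fun t : ℂ => f (t • z)) (c := 0) (R₁ := 1 / ‖z‖) (R₂ := 1) (z₀ := 0)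
    (hd.comp (by fun_prop) hmaps)
    (by
      intro t ht
      simp only [zero_smul, h0]
      exact ball_subset_closedBall (hm (hmaps ht)))
    (mem_ball_self (by positivity))
    (by rw [dslope_same, hder.deriv, hiso]; simp)
  have := key (x := 1) (by rw [mem_ball_zero_iff, norm_one, lt_div_iff₀ hzp]; linarith)
  simpa [h0, dslope_same, hder.deriv] using this

end Pool.Agent.Lib.MP_7906d6_an
end

-- part Pool.Agent.Lib.MP_7906d6_an.Inj
section

/-!
A proper holomorphic map between balls has injective differential somewhere.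
-/

namespace Pool.Agent.Lib.MP_7906d6_an

open Filter Metric Set Topology

set_option linter.unusedSectionVars false

variable {E : Type} [NormedAddCommGroup E] [InnerProductSpace ℂ E]
  {G : Type} [NormedAddCommGroup G] [InnerProductSpace ℂ G]

/-- Working form of: `F` is a proper holomorphic map between unit balls. -/
structure PH (F : E → G) : Prop where
  diff : DifferentiableOn ℂ F (ball 0 1)
  maps : MapsTo F (ball 0 1) (ball 0 1)
  prop : ∀ t < (1 : ℝ), ∃ r < (1 : ℝ), ∀ z, ‖z‖ < 1 → ‖F z‖ ≤ t → ‖z‖ ≤ r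

theorem PH.norm_lt {F : E → G} (hF : PH F) {z : E} (hz : ‖z‖ < 1) : ‖F z‖ < 1 :=
  mem_ball_zero_iff.1 (hF.maps (mem_ball_zero_iff.2 hz))

theorem PH.differentiableAt {F : E → G} (hF : PH F) {z : E} (hz : ‖z‖ < 1) :
    DifferentiableAt ℂ F z :=
  hF.diff.differentiableAt (isOpen_ball.mem_nhds (mem_ball_zero_iff.2 hz))

theorem PH.exists_injective [FiniteDimensional ℂ E] {F : E → G} (hF : PH F) :
    ∃ z, ‖z‖ < 1 ∧ Function.Injective (fderiv ℂ F z) := by
  have : ProperSpace E := FiniteDimensional.proper ℂ E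
  set w := F 0 with hw
  have hw1 : ‖w‖ < 1 := hF.norm_lt (by simp)
  set τ := (1 - ‖w‖) / 2 with hτ
  have hτ0 : 0 < τ := by linarith
  obtain ⟨r, hr1, hr⟩ := hF.prop (‖w‖ + τ) (by linarith)
  have hr0 : 0 ≤ r := by simpa using hr 0 (by simp) (by linarith)
  set A := 1 / τ ^ 2 with hA
  have hA0 : 0 < A := by positivity
  set δ := (1 - r) / 2 with hδ
  have hδ0 : 0 < δ := by linarith
  let ψ : E → ℝ := fun z => ‖z‖ ^ 2 - A * ‖F z - w‖ ^ 2
  have hsub : closedBall (0 : E) (r + δ) ⊆ ball 0 1 := closedBall_subset_ball (by linarith)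
  have hcont : ContinuousOn ψ (closedBall 0 (r + δ)) := by
    have := hF.diff.continuousOn.mono hsub
    exact (continuous_norm.pow 2).continuousOn.sub
      (continuousOn_const.mul ((this.sub continuousOn_const).norm.pow 2))
  obtain ⟨z₀, hz₀, hmax⟩ := (isCompact_closedBall (0 : E) (r + δ)).exists_isMaxOn
    ⟨0, mem_closedBall_self (by linarith)⟩ hcont
  have hz₀1 : ‖z₀‖ < 1 := mem_ball_zero_iff.1 (hsub hz₀)
  have hz₀r : ‖z₀‖ ≤ r := by
    apply hr z₀ hz₀1
    by_contra h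
    push Not at h
    have h1 : τ < ‖F z₀ - w‖ := by
      have := norm_sub_norm_le (F z₀) w
      linarith
    have h2 : ψ 0 ≤ ψ z₀ := hmax (mem_closedBall_self (by linarith))
    simp only [ψ, ← hw, sub_self, norm_zero] at h2
    have h3 : 1 < A * ‖F z₀ - w‖ ^ 2 := by
      rw [hA, one_div, ← div_eq_inv_mul, lt_div_iff₀ (by positivity), one_mul]
      gcongr
    nlinarith [norm_nonneg z₀]
  refine ⟨z₀, hz₀1, ?_⟩
  rw [injective_iff_map_eq_zero]
  intro v hv
  by_contra hv0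
  have hvp : 0 < ‖v‖ := norm_pos_iff.2 hv0
  have hball : ball z₀ δ ⊆ closedBall 0 (r + δ) := by
    intro z hz
    rw [mem_ball, dist_eq_norm] at hz
    rw [mem_closedBall_zero_iff]
    have := norm_add_le (z - z₀) z₀
    simp only [sub_add_cancel] at this
    linarith
  set a := F z₀ - w with ha
  let h : ℂ → ℂ := fun l => 2 * (A : ℂ) * inner ℂ a (F (z₀ + l • v) - F z₀) - 2 * inner ℂ z₀ (l • v)
  have hsmall : ∀ᶠ l : ℂ in 𝓝 0, ‖l • v‖ < δ := by
    have : ContinuousAt (fun l : ℂ => ‖l • v‖) 0 := by fun_prop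
    exact this.eventually (eventually_lt_nhds (by simpa using hδ0))
  have hsmall2 : ∀ᶠ l : ℂ in 𝓝 0, A * 16 * ‖l • v‖ ^ 2 < δ ^ 4 := by
    have : ContinuousAt (fun l : ℂ => A * 16 * ‖l • v‖ ^ 2) 0 := by fun_prop
    exact this.eventually (eventually_lt_nhds (by simpa using pow_pos hδ0 4))
  have hre : ∀ᶠ l : ℂ in 𝓝 0, l ≠ 0 → 0 < (h l).re := by
    filter_upwards [hsmall, hsmall2] with l hl hl2 hl0
    have hy : 0 < ‖l • v‖ := norm_pos_iff.2 (smul_ne_zero hl0 hv0)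
    have h1 := taylor_two hδ0 (hF.diff.mono (hball.trans hsub)) (M := 1)
      (fun z hz => (hF.norm_lt (mem_ball_zero_iff.1 (hsub (hball hz)))).le) hl
    rw [map_smul, hv, smul_zero, sub_zero] at h1
    have h2 : ψ (z₀ + l • v) ≤ ψ z₀ := hmax (hball (by simpa using hl))
    set D := F (z₀ + l • v) - F z₀ with hD
    have h3 : F (z₀ + l • v) - w = a + D := by rw [ha, hD]; abel
    simp only [ψ, h3, ← ha] at h2
    rw [norm_add_sq (𝕜 := ℂ), norm_add_sq (𝕜 := ℂ)] at h2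
    have h4 : (h l).re = 2 * A * (inner ℂ a D).re - 2 * (inner ℂ z₀ (l • v)).re := by
      have : h l = 2 * (A : ℂ) * inner ℂ a D - 2 * inner ℂ z₀ (l • v) := rfl
      rw [this]
      generalize inner ℂ a D = p
      generalize inner ℂ z₀ (l • v) = q
      simp
    rw [h4]
    simp only [RCLike.re_to_complex] at h2
    set y := ‖l • v‖
    have h5 : ‖D‖ ^ 2 ≤ (4 * 1 * (y / δ) ^ 2) ^ 2 := by gcongr
    have h6 : A * (4 * 1 * (y / δ) ^ 2) ^ 2 < y ^ 2 := by
      have : A * (4 * 1 * (y / δ) ^ 2) ^ 2 = (A * 16 * y ^ 2 / δ ^ 4) * y ^ 2 := by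
        field_simp; ring
      rw [this]
      have h7 : A * 16 * y ^ 2 / δ ^ 4 < 1 := by rw [div_lt_one (by positivity)]; exact hl2
      nlinarith [pow_pos hy 2]
    nlinarith
  have h0 : h 0 = 0 := by simp [h]
  have hdiff : ∀ᶠ l : ℂ in 𝓝 0, DifferentiableAt ℂ (fun l => Complex.exp (-h l)) l := by
    filter_upwards [hsmall] with l hl
    have h1 : DifferentiableAt ℂ F (z₀ + l • v) :=
      hF.differentiableAt (mem_ball_zero_iff.1 (hsub (hball (by simpa using hl))))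
    have h2 : DifferentiableAt ℂ (fun l : ℂ => F (z₀ + l • v)) l :=
      h1.comp l (by fun_prop)
    have h3 : DifferentiableAt ℂ (fun l : ℂ => inner ℂ a (F (z₀ + l • v) - F z₀)) l :=
      (innerSL ℂ a).differentiableAt.comp l (h2.sub_const _)
    have h4 : DifferentiableAt ℂ (fun l : ℂ => inner ℂ z₀ (l • v)) l :=
      (innerSL ℂ z₀).differentiableAt.comp l (by fun_prop)
    exact ((h3.const_mul _).sub (h4.const_mul _)).neg.cexp
  have hlm : IsLocalMax (norm ∘ fun l => Complex.exp (-h l)) 0 := by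
    filter_upwards [hre] with l hl
    simp only [Function.comp, Complex.norm_exp, h0, Real.exp_le_exp]
    rcases eq_or_ne l 0 with rfl | hl0
    · simp [h0]
    · simpa using (hl hl0).le
  have := Complex.norm_eventually_eq_of_isLocalMax hdiff hlm
  obtain ⟨l, ⟨h1, h2⟩, hl0⟩ := (((this.and hre).filter_mono nhdsWithin_le_nhds).and
    (self_mem_nhdsWithin (s := {0}ᶜ))).exists
  simp only [Complex.norm_exp, h0, Real.exp_eq_exp] at h1
  have := h2 hl0
  simp at h1
  linarith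

theorem PH.finrank_le [FiniteDimensional ℂ E] [FiniteDimensional ℂ G] {F : E → G} (hF : PH F) :
    Module.finrank ℂ E ≤ Module.finrank ℂ G := by
  obtain ⟨z, -, h⟩ := hF.exists_injective
  exact LinearMap.finrank_le_finrank_of_injective (f := (fderiv ℂ F z).toLinearMap) h

end Pool.Agent.Lib.MP_7906d6_an
end

-- part Pool.Agent.Lib.MP_7906d6_an.Iterate
section

/-!
Proper holomorphic maps in positive codimension vanishing to any prescribed order at the origin.
-/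

namespace Pool.Agent.Lib.MP_7906d6_an

open Metric Module Finset Function Filter Topology

set_option linter.unusedSectionVars false

variable {E : Type} [NormedAddCommGroup E] [InnerProductSpace ℂ E] [FiniteDimensional ℂ E]
  {G : Type} [NormedAddCommGroup G] [InnerProductSpace ℂ G] [FiniteDimensional ℂ G]

theorem diag_bound {ψ : E × E → ℝ} (hψ : Continuous ψ) (h0 : ∀ a, ‖a‖ = 1 → ψ (a, a) = 0) {η : ℝ}
    (hη : 0 < η) : ∃ Λ : ℝ, 0 ≤ Λ ∧ ∀ a z, ‖a‖ = 1 → ‖z‖ ≤ 1 → ψ (a, z) ≤ η + Λ * dist z a := by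
  have : ProperSpace E := FiniteDimensional.proper ℂ E
  have hK : IsCompact (closedBall (0 : E) 1 ×ˢ closedBall (0 : E) 1) :=
    (isCompact_closedBall _ _).prod (isCompact_closedBall _ _)
  obtain ⟨δ, hδ, h1⟩ := Metric.uniformContinuousOn_iff.1
    (hK.uniformContinuousOn_of_continuous hψ.continuousOn) η hη
  obtain ⟨M, hM⟩ := hK.exists_bound_of_continuousOn hψ.continuousOn
  have hM0 : 0 ≤ M := (norm_nonneg _).trans (hM (0, 0) (by simp))
  refine ⟨M / δ, by positivity, fun a z ha hz => ?_⟩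
  have h2 : (a, z) ∈ closedBall (0 : E) 1 ×ˢ closedBall (0 : E) 1 := by simp [ha, hz]
  by_cases h : dist z a < δ
  · have := h1 (a, z) h2 (a, a) (by simp [ha]) (by simpa [Prod.dist_eq] using h)
    rw [h0 a ha, Real.dist_eq, sub_zero] at this
    have h3 : 0 ≤ M / δ * dist z a := by positivity
    linarith [le_abs_self (ψ (a, z))]
  · have h3 := (le_abs_self _).trans (hM _ h2)
    have h4 : M / δ * δ ≤ M / δ * dist z a := by gcongr; exact not_lt.1 h
    rw [div_mul_cancel₀ _ hδ.ne'] at h4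
    linarith

theorem weighted {V : Type} [NormedAddCommGroup V] [NormedSpace ℂ V] {ι : Type} [Fintype ι]
    {a : ι → E} (ha : ∀ i, ‖a i‖ = 1) {ρ C α Λ : ℝ} (hρ : 0 < ρ) (hα : 0 ≤ α) (hΛ : 0 ≤ Λ) {z : E}
    (hz : ‖z‖ ≤ 1) (hC : ∑ i, Real.exp (-(dist z (a i) / ρ)) ≤ C) {T : ι → V}
    (hT : ∀ i, ‖T i‖ ≤ α + Λ * dist z (a i)) :
    ‖∑ i, pk ρ (a i) z • T i‖ ≤ 9 * C * (α + Λ * ρ) := by
  refine (norm_sum_le _ _).trans ?_
  have h1 : ∀ i ∈ univ, ‖pk ρ (a i) z • T i‖ ≤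
      9 * (α + Λ * ρ) * Real.exp (-(dist z (a i) / ρ)) := by
    intro i _
    have h2 := norm_pk_le' hρ (ha i) hz
    have h3 := hT i
    set x := dist z (a i) / ρ with hx
    have hx0 : 0 ≤ x := by positivity
    have h4 : dist z (a i) = x * ρ := by rw [hx]; field_simp
    have h5 : Real.exp (-x) ≤ 1 := by rw [Real.exp_le_one_iff]; linarith
    have h6 : Real.exp (-x) * x ≤ 1 := by
      rw [Real.exp_neg, inv_mul_le_iff₀ (Real.exp_pos _)]
      linarith [Real.add_one_le_exp x]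
    have h7 : Real.exp (-x) * (α + Λ * (x * ρ)) ≤ α + Λ * ρ := by
      have : 0 ≤ Λ * ρ := by positivity
      nlinarith
    rw [norm_smul]
    rw [h4] at h3
    calc _ ≤ 9 * Real.exp (-x) * Real.exp (-x) * (α + Λ * (x * ρ)) := by gcongr
      _ = 9 * (Real.exp (-x) * (α + Λ * (x * ρ))) * Real.exp (-x) := by ring
      _ ≤ _ := by gcongr
  refine (sum_le_sum h1).trans ?_
  rw [← mul_sum]
  calc _ ≤ 9 * (α + Λ * ρ) * C := by gcongr
    _ = _ := by ring

theorem approx (h : finrank ℂ E < finrank ℂ G) : ∃ c : ℝ, 0 < c ∧ c ≤ 1 ∧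
    ∀ (q : ℕ) (f : E → G) (φ : E → ℝ) (η r : ℝ), Continuous f → Continuous φ →
      (∀ z, ‖z‖ = 1 → 0 ≤ φ z ∧ φ z ≤ 1) → 0 < η → r < 1 → ∃ g : E → G, Differentiable ℂ g ∧
      (∀ z, ‖z‖ ≤ r → ‖g z‖ ≤ η * ‖z‖ ^ q) ∧ (∀ z, ‖z‖ ≤ 1 → ‖inner ℂ (f z) (g z)‖ ≤ η) ∧
      ∀ z, ‖z‖ = 1 → c * φ z - η ≤ ‖g z‖ ∧ ‖g z‖ ≤ φ z + η := by
  obtain ⟨c, C, hc, hC, H⟩ := core h
  refine ⟨min 1 (c / (9 * C)), by positivity, min_le_left _ _, ?_⟩
  intro q f φ η r hf hφ hφ1 hη hr
  obtain ⟨Λ₁, hΛ₁, h1⟩ := diag_bound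
    (ψ := fun p : E × E => ‖inner ℂ p.1 p.2 ^ q * (φ p.1 : ℂ) - φ p.2‖) (by fun_prop)
    (fun a ha => by simp [inner_self_eq_norm_sq_to_K, ha]) (half_pos hη)
  obtain ⟨Λ₂, hΛ₂, h2⟩ := diag_bound (ψ := fun p : E × E => ‖f p.2 - f p.1‖) (by fun_prop)
    (fun a ha => by simp) (half_pos hη)
  have hr' : 0 < 1 - r := by linarith
  set Λ₃ := 1 / (1 - r) with hΛ₃'
  have hΛ₃ : 0 < Λ₃ := by positivity
  set ρ := η / 2 / (Λ₁ + Λ₂ + Λ₃) with hρ'
  have hρ : 0 < ρ := by positivity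
  have hρ1 : (Λ₁ + Λ₂ + Λ₃) * ρ = η / 2 := by rw [hρ']; field_simp
  have g1 : Λ₁ * ρ ≤ η / 2 := by nlinarith [mul_pos hΛ₃ hρ, mul_nonneg hΛ₂ hρ.le]
  have g2 : Λ₂ * ρ ≤ η / 2 := by nlinarith [mul_pos hΛ₃ hρ, mul_nonneg hΛ₁ hρ.le]
  have g3 : Λ₃ * ρ ≤ η / 2 := by nlinarith [mul_nonneg hΛ₁ hρ.le, mul_nonneg hΛ₂ hρ.le]
  obtain ⟨s, u, hs, hu, huf, hsum, hlow⟩ := H ρ hρ f
  have hs' : ∀ a : s, ‖(a : E)‖ = 1 := fun a => hs a a.2
  have hC0 : 0 < 9 * C := by positivity
  have hn : ‖(((9 * C)⁻¹ : ℝ) : ℂ)‖ = (9 * C)⁻¹ := by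
    rw [Complex.norm_real, Real.norm_of_nonneg (by positivity)]
  have hco : ∀ (a : s) (z : E), ‖inner ℂ (a : E) z ^ q * (φ a : ℂ)‖ ≤ ‖z‖ ^ q := by
    intro a z
    rw [norm_mul, norm_pow, Complex.norm_real, Real.norm_of_nonneg (hφ1 a (hs' a)).1]
    have h3 := norm_inner_le_norm (𝕜 := ℂ) (a : E) z
    rw [hs' a, one_mul] at h3
    have h4 := hφ1 a (hs' a)
    calc _ ≤ ‖z‖ ^ q * 1 := by gcongr; exacts [h4.1, h4.2]
      _ = _ := mul_one _
  refine ⟨fun z => (((9 * C)⁻¹ : ℝ) : ℂ) •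
    ∑ a : s, pk ρ (a : E) z • ((inner ℂ (a : E) z ^ q * (φ a : ℂ)) • u a), ?_, ?_, ?_, ?_⟩
  · refine Differentiable.const_smul (Differentiable.fun_sum fun a _ => ?_) _
    have : Differentiable ℂ fun z : E => inner ℂ (a : E) z := (innerSL ℂ (a : E)).differentiable
    unfold pk
    fun_prop
  · intro z hz
    have := weighted hs' hρ le_rfl (Λ := ‖z‖ ^ q * Λ₃) (by positivity) (hz.trans hr.le) (hsum z)
      (T := fun a : s => (inner ℂ (a : E) z ^ q * (φ a : ℂ)) • u a) (fun a => by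
        have h3 : 1 ≤ Λ₃ * dist z a := by
          rw [hΛ₃', one_div, le_inv_mul_iff₀ hr', dist_comm, dist_eq_norm]
          have := norm_sub_norm_le (a : E) z
          rw [hs' a] at this
          linarith
        rw [norm_smul]
        calc _ ≤ ‖z‖ ^ q * (Λ₃ * dist z a) := by
              gcongr
              · exact hco a z
              · exact (hu a).trans h3
          _ = _ := by ring)
    rw [norm_smul, hn, inv_mul_le_iff₀ hC0]
    refine this.trans ?_
    gcongr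
    have : 0 ≤ ‖z‖ ^ q := by positivity
    nlinarith
  · intro z hz
    have := weighted hs' hρ (half_pos hη).le hΛ₂ hz (hsum z)
      (T := fun a : s => inner ℂ (f z) ((inner ℂ (a : E) z ^ q * (φ a : ℂ)) • u a)) (fun a => by
        have h3 : inner ℂ (f z) (u a) = inner ℂ (f z - f a) (u a) := by
          rw [inner_sub_left, huf, sub_zero]
        rw [inner_smul_right, norm_mul, h3]
        refine le_trans ?_ (h2 a z (hs' a) hz)
        calc _ ≤ 1 * (‖f z - f a‖ * 1) := by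
              gcongr
              · exact (hco a z).trans (pow_le_one₀ (norm_nonneg _) hz)
              · exact (norm_inner_le_norm _ _).trans (by gcongr; exact hu a)
          _ = _ := by ring)
    rw [inner_smul_right, norm_mul, hn, inv_mul_le_iff₀ hC0, inner_sum]
    simp only [inner_smul_right (𝕜 := ℂ) (f z) _ (pk ρ _ z)]
    refine this.trans ?_
    gcongr
    linarith
  · intro z hz
    have e1 := weighted hs' hρ (half_pos hη).le hΛ₁ hz.le (hsum z)
      (T := fun a : s => (inner ℂ (a : E) z ^ q * (φ a : ℂ) - φ z) • u a) (fun a => by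
        rw [norm_smul]
        refine le_trans ?_ (h1 a z (hs' a) hz.le)
        exact mul_le_of_le_one_right (norm_nonneg _) (hu a))
    have e2 := weighted hs' hρ zero_le_one le_rfl hz.le (hsum z) (T := u)
      (fun a => by simpa using hu a)
    have e3 := hlow z hz
    have e4 : ∑ a : s, pk ρ (a : E) z • ((inner ℂ (a : E) z ^ q * (φ a : ℂ)) • u a) =
        (φ z : ℂ) • ∑ a : s, pk ρ (a : E) z • u a +
        ∑ a : s, pk ρ (a : E) z • ((inner ℂ (a : E) z ^ q * (φ a : ℂ) - φ z) • u a) := by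
      rw [smul_sum, ← sum_add_distrib]
      exact sum_congr rfl fun a _ => by module
    set X := ∑ a : s, pk ρ (a : E) z • u a
    set Y := ∑ a : s, pk ρ (a : E) z • ((inner ℂ (a : E) z ^ q * (φ a : ℂ) - φ z) • u a)
    have e5 : ‖Y‖ ≤ 9 * C * η := e1.trans (by gcongr; linarith)
    have e6 := norm_add_le ((φ z : ℂ) • X) Y
    have e7 := norm_sub_norm_le ((φ z : ℂ) • X) (-Y)
    obtain ⟨p0, p1⟩ := hφ1 z hz
    rw [sub_neg_eq_add, norm_neg] at e7
    rw [norm_smul, Complex.norm_real, Real.norm_of_nonneg p0] at e6 e7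
    simp only [zero_mul, add_zero, mul_one] at e2
    dsimp only
    rw [e4, norm_smul, hn, inv_mul_le_iff₀ hC0, le_inv_mul_iff₀ hC0]
    constructor
    · have e8 : 9 * C * min 1 (c / (9 * C)) ≤ c := by
        rw [← le_div_iff₀' hC0]; exact min_le_right _ _
      nlinarith
    · nlinarith

theorem step (h : finrank ℂ E < finrank ℂ G) : ∃ θ : ℝ, 0 ≤ θ ∧ θ < 1 ∧
    ∀ (q : ℕ) (F : E → G) (ε r : ℝ), Differentiable ℂ F → (∀ z, ‖z‖ = 1 → ‖F z‖ < 1) → 0 < ε →
      r < 1 → ∃ F' : E → G, (Differentiable ℂ F' ∧ (∀ z, ‖z‖ = 1 → ‖F' z‖ < 1)) ∧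
      (∀ z, ‖z‖ = 1 → 1 - ‖F' z‖ ^ 2 ≤ θ * (1 - ‖F z‖ ^ 2) + ε) ∧
      (∀ z, ‖z‖ ≤ 1 → ‖F z‖ ^ 2 - ε ≤ ‖F' z‖ ^ 2) ∧
      ∀ z, ‖z‖ ≤ r → ‖F' z - F z‖ ≤ ε * ‖z‖ ^ q := by
  have : ProperSpace E := FiniteDimensional.proper ℂ E
  obtain ⟨c, hc, hc1, H⟩ := approx h
  refine ⟨1 - c ^ 2 / 64, by nlinarith, by nlinarith, ?_⟩
  intro q F ε r hF hF1 hε hr
  have hFc := hF.continuous
  let φ : E → ℝ := fun z => √(1 - ‖F z‖ ^ 2) / 4
  have hφ : Continuous φ := by fun_prop
  have hpos : ∀ z, ‖z‖ = 1 → 0 < 1 - ‖F z‖ ^ 2 := fun z hz => by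
    nlinarith [hF1 z hz, norm_nonneg (F z)]
  have hφ0 : ∀ z, ‖z‖ = 1 → 0 < φ z := fun z hz => by
    have := Real.sqrt_pos.2 (hpos z hz)
    positivity
  have hφ2 : ∀ z, ‖z‖ = 1 → φ z ^ 2 = (1 - ‖F z‖ ^ 2) / 16 := fun z hz => by
    simp only [φ]
    rw [div_pow, Real.sq_sqrt (hpos z hz).le]
    norm_num
  have hφ1 : ∀ z, ‖z‖ = 1 → φ z ≤ 1 := fun z hz => by
    nlinarith [hφ2 z hz, hφ0 z hz, sq_nonneg ‖F z‖]
  obtain ⟨m, hm, hm1⟩ := (isCompact_sphere (0 : E) 1).exists_forall_le' hφ.continuousOn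
    (fun z hz => hφ0 z (by simpa using hz))
  obtain ⟨g, hg, g1, g2, g3⟩ := H q F φ (min (ε / 2) (min (c * m / 2) (m ^ 2))) r hFc hφ
    (fun z hz => ⟨(hφ0 z hz).le, hφ1 z hz⟩) (by positivity) hr
  set η := min (ε / 2) (min (c * m / 2) (m ^ 2))
  have η1 : η ≤ ε / 2 := min_le_left _ _
  have η2 : η ≤ c * m / 2 := (min_le_right _ _).trans (min_le_left _ _)
  have η3 : η ≤ m ^ 2 := (min_le_right _ _).trans (min_le_right _ _)
  have key : ∀ z, ‖z‖ ≤ 1 → ‖F z‖ ^ 2 + ‖g z‖ ^ 2 - 2 * η ≤ ‖F z + g z‖ ^ 2 ∧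
      ‖F z + g z‖ ^ 2 ≤ ‖F z‖ ^ 2 + ‖g z‖ ^ 2 + 2 * η := by
    intro z hz
    rw [norm_add_sq (𝕜 := ℂ)]
    have := abs_le.1 ((RCLike.abs_re_le_norm (inner ℂ (F z) (g z))).trans (g2 z hz))
    constructor <;> linarith [this.1, this.2]
  refine ⟨fun z => F z + g z, ⟨hF.add hg, fun z hz => ?_⟩, fun z hz => ?_, fun z hz => ?_,
    fun z hz => ?_⟩
  · have k1 := (key z hz.le).2
    have k2 := (g3 z hz).2
    have k3 := hm1 z (by simpa using hz)
    have k4 := hφ2 z hz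
    have k5 : ‖g z‖ ≤ 2 * φ z := by nlinarith
    have k6 : ‖g z‖ ^ 2 ≤ (2 * φ z) ^ 2 := by gcongr
    have k7 : m ^ 2 ≤ φ z ^ 2 := by gcongr
    have k8 := hpos z hz
    have : ‖F z + g z‖ ^ 2 < 1 := by nlinarith
    nlinarith [norm_nonneg (F z + g z)]
  · have k1 := (key z hz.le).1
    have k2 := (g3 z hz).1
    have k3 := hm1 z (by simpa using hz)
    have k4 := hφ2 z hz
    have k5 : c * φ z / 2 ≤ ‖g z‖ := by nlinarith
    have k6 : (c * φ z / 2) ^ 2 ≤ ‖g z‖ ^ 2 := by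
      have := hφ0 z hz
      gcongr
    have k7 : (c * φ z / 2) ^ 2 = c ^ 2 / 64 * (1 - ‖F z‖ ^ 2) := by
      rw [div_pow, mul_pow, k4]; ring
    nlinarith
  · have k1 := (key z hz).1
    nlinarith [sq_nonneg ‖g z‖]
  · rw [add_sub_cancel_left]
    refine (g1 z hz).trans ?_
    gcongr
    linarith

theorem exists_flat [Nontrivial E] (h : finrank ℂ E < finrank ℂ G) (q : ℕ) :
    ∃ F : E → G, PH F ∧ ∀ z, ‖z‖ ≤ 1 / 2 → ‖F z‖ ≤ ‖z‖ ^ (q + 1) := by
  have : ProperSpace E := FiniteDimensional.proper ℂ E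
  have : CompleteSpace G := FiniteDimensional.complete ℂ G
  obtain ⟨θ, hθ0, hθ1, H⟩ := step h
  set β := (1 + θ) / 2 with hβ
  have hβ0 : 0 < β := by positivity
  have hβ1 : β < 1 := by linarith
  have hβ2 : 1 / 2 ≤ β := by linarith
  let S := {F : E → G // Differentiable ℂ F ∧ ∀ z, ‖z‖ = 1 → ‖F z‖ < 1}
  have H' : ∀ (k : ℕ) (F : S), ∃ F' : S,
      (∀ z, ‖z‖ = 1 → 1 - ‖F'.1 z‖ ^ 2 ≤ θ * (1 - ‖F.1 z‖ ^ 2) + (1 - β) * β ^ k) ∧
      (∀ z, ‖z‖ ≤ 1 → ‖F.1 z‖ ^ 2 - (1 - β) * β ^ k ≤ ‖F'.1 z‖ ^ 2) ∧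
      ∀ z, ‖z‖ ≤ 1 - β ^ k / 2 → ‖F'.1 z - F.1 z‖ ≤ (1 - β) * β ^ k * ‖z‖ ^ (q + 1) := by
    intro k F
    have : 0 < 1 - β := by linarith
    obtain ⟨F', h1, h2⟩ := H (q + 1) F.1 ((1 - β) * β ^ k) (1 - β ^ k / 2) F.2.1 F.2.2
      (by positivity) (by have := pow_pos hβ0 k; linarith)
    exact ⟨⟨F', h1⟩, h2⟩
  choose nx n1 n2 n3 using H'
  let T : ℕ → S := fun k => Nat.rec ⟨fun _ => 0, differentiable_const _, by simp⟩ nx k
  let F : ℕ → E → G := fun k => (T k).1
  have F0 : ∀ z, F 0 z = 0 := fun z => rfl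
  have Fd : ∀ k, Differentiable ℂ (F k) := fun k => (T k).2.1
  have F1 : ∀ k z, ‖z‖ = 1 → 1 - ‖F k z‖ ^ 2 ≤ β ^ k := by
    intro k z hz
    induction k with
    | zero => simp [F0]
    | succ k ih =>
      have h1 : 1 - ‖F (k + 1) z‖ ^ 2 ≤ θ * (1 - ‖F k z‖ ^ 2) + (1 - β) * β ^ k := n1 k (T k) z hz
      have h2 : θ * (1 - ‖F k z‖ ^ 2) ≤ θ * β ^ k := by gcongr
      have h3 : β ^ (k + 1) = θ * β ^ k + (1 - β) * β ^ k := by rw [pow_succ, hβ]; ring
      linarith
  have F2 : ∀ k z, ‖z‖ ≤ 1 → ∀ l, k ≤ l → ‖F k z‖ ^ 2 - β ^ k ≤ ‖F l z‖ ^ 2 - β ^ l := by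
    intro k z hz l hl
    induction l, hl using Nat.le_induction with
    | base => rfl
    | succ l _ ih =>
      have h1 : ‖F l z‖ ^ 2 - (1 - β) * β ^ l ≤ ‖F (l + 1) z‖ ^ 2 := n2 l (T l) z hz
      rw [pow_succ β l]
      linarith
  have F3 : ∀ k z, ‖z‖ ≤ 1 - β ^ k / 2 →
      ‖F (k + 1) z - F k z‖ ≤ (1 - β) * β ^ k * ‖z‖ ^ (q + 1) := fun k => n3 k (T k)
  have F4 : ∀ k z, ‖z‖ ≤ 1 → ‖F k z‖ ≤ 1 := by
    intro k z hz
    refine Complex.norm_le_of_forall_mem_frontier_norm_le (U := ball 0 1) isBounded_ball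
      (Fd k).diffContOnCl (fun w hw => ?_) ?_
    · rw [frontier_ball _ one_ne_zero] at hw
      exact ((T k).2.2 w (by simpa using hw)).le
    · rw [closure_ball _ one_ne_zero]
      simpa using hz
  have hlim := tendsto_pow_atTop_nhds_zero_of_lt_one hβ0.le hβ1
  have hsum : Summable fun k : ℕ => (1 - β) * β ^ k :=
    (summable_geometric_of_lt_one hβ0.le hβ1).mul_left _
  let f : E → G := fun z => ∑' k, (F (k + 1) z - F k z)
  have hu : ∀ r < (1 : ℝ), TendstoUniformlyOn F f atTop (closedBall 0 r) := by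
    intro r hr
    have h1 := tendstoUniformlyOn_tsum_nat_eventually (f := fun k z => F (k + 1) z - F k z) hsum
      (s := closedBall 0 r) (by
        filter_upwards [hlim.eventually (gt_mem_nhds (show 0 < 1 - r by linarith))] with k hk z hz
        rw [mem_closedBall_zero_iff] at hz
        have := pow_pos hβ0 k
        refine (F3 k z (by linarith)).trans (mul_le_of_le_one_right ?_ ?_)
        · exact mul_nonneg (by linarith) this.le
        · exact pow_le_one₀ (norm_nonneg _) (by linarith))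
    convert h1 using 3 with N x
    rw [Finset.sum_range_sub (fun k => F k x), F0, sub_zero]
  have hpt : ∀ z, ‖z‖ < 1 → Tendsto (fun k => F k z) atTop (𝓝 (f z)) := fun z hz =>
    (hu _ hz).tendsto_at (by simp)
  have hd : DifferentiableOn ℂ f (ball 0 1) := by
    intro c hc
    rw [mem_ball_zero_iff] at hc
    refine (weierstrass (F := F) (R := (1 - ‖c‖) / 2) (by linarith)
      (fun k => (Fd k).differentiableOn) ?_).differentiableWithinAt
    refine (hu ((1 + ‖c‖) / 2) (by linarith)).mono ?_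
    refine ball_subset_closedBall.trans (closedBall_subset_closedBall' ?_)
    rw [dist_zero_right]
    linarith
  have hflat : ∀ z, ‖z‖ ≤ 1 / 2 → ‖f z‖ ≤ ‖z‖ ^ (q + 1) := by
    intro z hz
    have h1 : HasSum (fun k : ℕ => (1 - β) * β ^ k * ‖z‖ ^ (q + 1)) (‖z‖ ^ (q + 1)) := by
      have := ((hasSum_geometric_of_lt_one hβ0.le hβ1).mul_left (1 - β)).mul_right (‖z‖ ^ (q + 1))
      rwa [mul_inv_cancel₀ (by linarith), one_mul] at this
    refine tsum_of_norm_bounded h1 fun k => F3 k z ?_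
    have := pow_le_one₀ hβ0.le hβ1.le (n := k)
    linarith
  refine ⟨f, ⟨hd, fun z hz => ?_, fun t ht => ?_⟩, hflat⟩
  · rw [mem_ball_zero_iff] at hz ⊢
    refine lt_of_le_of_lt (Complex.norm_le_norm_of_mapsTo_ball hd (fun w hw => ?_) ?_ hz) hz
    · rw [mem_ball_zero_iff] at hw
      rw [mem_closedBall_zero_iff]
      exact le_of_tendsto' (hpt w hw).norm fun k => F4 k w hw.le
    · simpa using hflat 0 (by simp)
  · by_cases ht0 : t < 0
    · exact ⟨0, one_pos, fun z _ h1 => absurd (h1.trans_lt ht0) (norm_nonneg _).not_gt⟩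
    have ht2 : 0 < (1 - t ^ 2) / 3 := by nlinarith
    obtain ⟨k, hk⟩ := (hlim.eventually (gt_mem_nhds ht2)).exists
    have hK : IsCompact (closedBall (0 : E) 1 ∩ {z | ‖F k z‖ ^ 2 ≤ t ^ 2 + β ^ k}) :=
      (isCompact_closedBall _ _).inter_right
        (isClosed_le (by have := (Fd k).continuous; fun_prop) continuous_const)
    obtain ⟨m, hm, hm1⟩ := hK.exists_forall_le' (f := fun z => 1 - ‖z‖) (a := 0) (by fun_prop) (by
      rintro z ⟨h1, h2⟩
      rw [mem_closedBall_zero_iff] at h1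
      rw [sub_pos]
      refine lt_of_le_of_ne h1 fun h3 => ?_
      have := F1 k z h3
      have h4 : ‖F k z‖ ^ 2 ≤ t ^ 2 + β ^ k := h2
      linarith)
    refine ⟨1 - m, by linarith, fun z hz hzt => ?_⟩
    have h1 : ‖F k z‖ ^ 2 - β ^ k ≤ ‖f z‖ ^ 2 - 0 :=
      ge_of_tendsto (((hpt z hz).norm.pow 2).sub hlim)
        ((eventually_ge_atTop k).mono fun l hl => F2 k z hz.le l hl)
    have h2 : ‖f z‖ ^ 2 ≤ t ^ 2 := by gcongr
    have := hm1 z ⟨by simpa using hz.le, show ‖F k z‖ ^ 2 ≤ t ^ 2 + β ^ k by linarith⟩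
    linarith

end Pool.Agent.Lib.MP_7906d6_an
end
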