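import Mathlib
import Pool.Agent.Lib.MP_7906d6_an.RatMain

/-!
The Fischer pairing on forms of fixed degree, creation and annihilation operators.
-/

namespace Pool.Agent.Lib.MP_7906d6_an.Sup

open MvPolynomial Complex Finset Matrix Pool.Agent.Lib.MP_7906d6_an.Rat
open scoped ComplexConjugate

set_option linter.unusedSectionVars false

variable {σ : Type} [Fintype σ] [DecidableEq σ]

/-- Exponents of total degree `m`. -/
abbrev Idx (σ : Type) [Fintype σ] [DecidableEq σ] (m : ℕ) : Type :=
  ↥((univ : Finset σ).finsuppAntidiag m)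

/-- The multi-factorial. -/
def fac (β : σ →₀ ℕ) : ℕ := ∏ a, (β a).factorial

theorem fac_pos (β : σ →₀ ℕ) : 0 < fac β := prod_pos fun _ _ => Nat.factorial_pos _

theorem fac_add (β : σ →₀ ℕ) (a : σ) : fac (β + Finsupp.single a 1) = fac β * (β a + 1) := by
  rw [fac, fac, ← mul_prod_erase univ _ (mem_univ a), ← mul_prod_erase univ _ (mem_univ a)]
  rw [prod_congr rfl fun b hb => by
    rw [Finsupp.add_apply, Finsupp.single_eq_of_ne (ne_of_mem_erase hb), add_zero]]
  simp only [Finsupp.add_apply, Finsupp.single_eq_same, Nat.factorial_succ]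
  ring

theorem mem_idx {β : σ →₀ ℕ} {m : ℕ} :
    β ∈ (univ : Finset σ).finsuppAntidiag m ↔ ∑ a, β a = m := by
  simp [mem_finsuppAntidiag]

/-- Coordinates of the degree `m` part in an orthonormal basis for the Fischer norm. -/
noncomputable def crd (m : ℕ) : MvPolynomial σ ℂ →ₗ[ℂ] (Idx σ m → ℂ) where
  toFun u β := (Real.sqrt (fac β.1) : ℂ) * coeff β.1 u
  map_add' u v := by ext β; simp [mul_add]
  map_smul' c u := by ext β; simp [mul_left_comm]

/-- The Fischer pairing of the degree `m` parts. -/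
noncomputable def B (m : ℕ) (u v : MvPolynomial σ ℂ) : ℂ := crd m u ⬝ᵥ star (crd m v)

theorem B_eq (m : ℕ) (u v : MvPolynomial σ ℂ) : B m u v =
    ∑ β ∈ univ.finsuppAntidiag m, (fac β : ℂ) * (coeff β u * conj (coeff β v)) := by
  rw [B, dotProduct, ← sum_coe_sort (univ.finsuppAntidiag m)]
  refine sum_congr rfl fun β _ => ?_
  have : (Real.sqrt (fac β.1) : ℂ) * (Real.sqrt (fac β.1) : ℂ) = fac β.1 := by
    rw [← ofReal_mul, Real.mul_self_sqrt (Nat.cast_nonneg _), ofReal_natCast]
  simp only [crd, LinearMap.coe_mk, AddHom.coe_mk, Pi.star_apply, RCLike.star_def, map_mul,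
    conj_ofReal]
  rw [← this]
  ring

theorem B_self (m : ℕ) (u : MvPolynomial σ ℂ) : B m u u = (nsq (crd m u) : ℝ) := dot_star _

theorem B_add_left (m : ℕ) (u u' v : MvPolynomial σ ℂ) :
    B m (u + u') v = B m u v + B m u' v := by simp [B]

theorem B_smul_left (m : ℕ) (c : ℂ) (u v : MvPolynomial σ ℂ) :
    B m (c • u) v = c * B m u v := by simp [B]

theorem B_smul_right (m : ℕ) (c : ℂ) (u v : MvPolynomial σ ℂ) :
    B m u (c • v) = conj c * B m u v := by simp [B]

theorem B_sum_left {ι : Type*} (s : Finset ι) (m : ℕ) (u : ι → MvPolynomial σ ℂ)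
    (v : MvPolynomial σ ℂ) : B m (∑ i ∈ s, u i) v = ∑ i ∈ s, B m (u i) v := by
  simp [B, sum_dotProduct]

theorem B_sum_right {ι : Type*} (s : Finset ι) (m : ℕ) (u : MvPolynomial σ ℂ)
    (v : ι → MvPolynomial σ ℂ) : B m u (∑ i ∈ s, v i) = ∑ i ∈ s, B m u (v i) := by
  simp [B, dotProduct_sum, star_sum]

theorem B_conj (m : ℕ) (u v : MvPolynomial σ ℂ) : B m v u = conj (B m u v) := by
  simp [B_eq, mul_comm]

theorem B_adj (m : ℕ) (a : σ) (u v : MvPolynomial σ ℂ) :
    B (m + 1) (X a * u) v = B m u (pderiv a v) := by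
  induction u using MvPolynomial.induction_on' with
  | add p q hp hq => rw [mul_add, B_add_left, B_add_left, hp, hq]
  | monomial γ c =>
    have e : X a * monomial γ c = monomial (γ + Finsupp.single a 1) c := by
      rw [X, monomial_mul, one_mul, add_comm]
    rw [e, B_eq, B_eq]
    simp only [coeff_monomial, ite_mul, zero_mul, mul_ite, mul_zero, sum_ite_eq, mem_idx,
      coeff_pderiv, fac_add, Finsupp.add_apply, sum_add_distrib, Finsupp.single_apply,
      mem_univ, if_true, Nat.add_right_cancel_iff]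
    split_ifs
    · simp only [map_mul, map_add, map_natCast, map_one]
      push_cast
      ring
    · rfl

/-- The linear form with coefficients `z`. -/
noncomputable def lf (z : σ → ℂ) : MvPolynomial σ ℂ := ∑ a, z a • X a

/-- Multiplication by the linear form with coefficients `z`. -/
noncomputable def L (z : σ → ℂ) : Module.End ℂ (MvPolynomial σ ℂ) := LinearMap.mulLeft ℂ (lf z)

/-- The adjoint of `L z`. -/
noncomputable def D (z : σ → ℂ) : Module.End ℂ (MvPolynomial σ ℂ) :=
  ∑ a, conj (z a) • (pderiv a).toLinearMap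

theorem L_apply (z : σ → ℂ) (u : MvPolynomial σ ℂ) : L z u = ∑ a, z a • (X a * u) := by
  simp [L, lf, sum_mul]

theorem D_apply (z : σ → ℂ) (u : MvPolynomial σ ℂ) : D z u = ∑ a, conj (z a) • pderiv a u := by
  simp [D, LinearMap.sum_apply]

theorem B_L (m : ℕ) (z : σ → ℂ) (u v : MvPolynomial σ ℂ) :
    B (m + 1) (L z u) v = B m u (D z v) := by
  simp [L_apply, D_apply, B_sum_left, B_sum_right, B_smul_left, B_smul_right, B_adj]

theorem B_L_pow (k m : ℕ) (z : σ → ℂ) (u v : MvPolynomial σ ℂ) :
    B (k + m) ((L z ^ m) u) v = B k u ((D z ^ m) v) := by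
  induction m generalizing v with
  | zero => simp
  | succ m ih =>
    rw [pow_succ', Module.End.mul_apply, ← add_assoc, B_L, ih, pow_succ, Module.End.mul_apply]

theorem pderiv_lf (z : σ → ℂ) (a : σ) : pderiv a (lf z) = C (z a) := by
  simp [lf, Pi.single_apply, smul_eq_C_mul]

theorem D_L {z : σ → ℂ} (hz : nsq z = 1) : D z * L z = L z * D z + 1 := by
  refine LinearMap.ext fun u => ?_
  have h : ∑ a, conj (z a) * z a = 1 := by
    have := nsq_coe z
    rw [hz] at this
    simpa [mul_comm] using this.symm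
  simp only [Module.End.mul_apply, LinearMap.add_apply, Module.End.one_apply, D_apply, L,
    LinearMap.mulLeft_apply, Derivation.leibniz, pderiv_lf, smul_add, sum_add_distrib, mul_sum,
    smul_eq_mul, mul_smul_comm]
  congr 1
  simp only [mul_comm u, ← smul_eq_C_mul, smul_smul, ← sum_smul, h, one_smul]

theorem hom_lf (z : σ → ℂ) : (lf z).IsHomogeneous 1 :=
  IsHomogeneous.sum _ _ _ fun a _ => (homogeneousSubmodule σ ℂ 1).smul_mem _ (isHomogeneous_X ℂ a)

theorem hom_L_pow {k : ℕ} (z : σ → ℂ) {u : MvPolynomial σ ℂ} (hu : u.IsHomogeneous k) (m : ℕ) :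
    ((L z ^ m) u).IsHomogeneous (k + m) := by
  induction m with
  | zero => simpa
  | succ m ih =>
    rw [pow_succ', Module.End.mul_apply, ← add_assoc, add_comm _ 1]
    exact (hom_lf z).mul ih

theorem D_pow_zero (z : σ → ℂ) {k : ℕ} {u : MvPolynomial σ ℂ} (hu : u.IsHomogeneous k) :
    (D z ^ (k + 1)) u = 0 := by
  induction k generalizing u with
  | zero =>
    rw [← totalDegree_zero_iff_isHomogeneous, totalDegree_eq_zero_iff_eq_C] at hu
    rw [hu]
    simp [D_apply]
  | succ k ih =>
    rw [pow_succ, Module.End.mul_apply]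
    refine ih ?_
    rw [D_apply]
    exact IsHomogeneous.sum _ _ _ fun a _ => (homogeneousSubmodule σ ℂ k).smul_mem _ hu.pderiv

section Weyl

variable {A : Type*} [Ring A] [Algebra ℝ A] {l d : A}

/-- The rising product `(X + 1) ⋯ (X + m)`. -/
noncomputable def up (m : ℕ) : Polynomial ℝ :=
  ∏ j ∈ range m, (Polynomial.X + Polynomial.C (j + 1 : ℝ))

/-- The falling product `X (X - 1) ⋯ (X - m + 1)`. -/
noncomputable def dn (m : ℕ) : Polynomial ℝ := ∏ j ∈ range m, (Polynomial.X - Polynomial.C (j : ℝ))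

theorem dl_pow (h : d * l = l * d + 1) (m : ℕ) :
    d ^ m * l ^ m = Polynomial.aeval (l * d) (up m) := by
  have h1 : ∀ m : ℕ, l * d * l ^ m = l ^ m * (l * d + m) := fun m => by
    induction m with
    | zero => simp
    | succ m ih =>
      have : (l * d + m) * l = l * (l * d + (m + 1 : ℕ)) := by
        rw [add_mul, mul_assoc, h, (Nat.cast_commute m l).eq]
        push_cast
        noncomm_ring
      rw [pow_succ, ← mul_assoc, ih, mul_assoc, this, mul_assoc]
  induction m with
  | zero => simp [up]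
  | succ m ih =>
    rw [up, prod_range_succ, map_mul, ← up, ← ih, pow_succ d, pow_succ' l, mul_assoc,
      ← mul_assoc d, h, add_mul, h1, mul_assoc]
    simp [mul_add, add_assoc]

theorem ld_pow (h : d * l = l * d + 1) (m : ℕ) :
    l ^ m * d ^ m = Polynomial.aeval (l * d) (dn m) := by
  have h1 : ∀ m : ℕ, l * d * d ^ m = d ^ m * (l * d - m) := fun m => by
    induction m with
    | zero => simp
    | succ m ih =>
      have : (l * d - m) * d = d * (l * d - (m + 1 : ℕ)) := by
        rw [mul_sub d, ← mul_assoc d, h, ← (Nat.cast_commute (m + 1) d).eq]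
        push_cast
        noncomm_ring
      rw [pow_succ, ← mul_assoc, ih, mul_assoc, this, mul_assoc]
  induction m with
  | zero => simp [dn]
  | succ m ih =>
    rw [dn, prod_range_succ, map_mul, ← dn, ← ih, pow_succ l, pow_succ' d, mul_assoc,
      ← mul_assoc l, h1, mul_assoc]
    simp

end Weyl

theorem up_red (k δ : ℕ) : ∃ (a : ℕ → ℝ) (s : Polynomial ℝ),
    up δ = ∑ m ∈ range (k + 1), a m • up m + s * dn (k + 1) := by
  have hup : ∀ m, (up m).Monic ∧ (up m).natDegree = m := fun m =>
    ⟨Polynomial.monic_prod_of_monic _ _ fun j _ => Polynomial.monic_X_add_C _, by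
      rw [up, Polynomial.natDegree_prod_of_monic _ _ fun j _ => Polynomial.monic_X_add_C _]
      simp only [Polynomial.natDegree_X_add_C, sum_const, card_range, smul_eq_mul, mul_one]⟩
  have hdn : (dn (k + 1)).Monic :=
    Polynomial.monic_prod_of_monic _ _ fun j _ => Polynomial.monic_X_sub_C _
  have hdn' : (dn (k + 1)).natDegree = k + 1 := by
    rw [dn, Polynomial.natDegree_prod_of_monic _ _ fun j _ => Polynomial.monic_X_sub_C _]
    simp only [Polynomial.natDegree_X_sub_C, sum_const, card_range, smul_eq_mul, mul_one]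
  let S : Polynomial.Sequence ℝ :=
    ⟨up, fun i => by rw [Polynomial.degree_eq_natDegree (hup i).1.ne_zero, (hup i).2]⟩
  have h1 : up δ %ₘ dn (k + 1) ∈ Submodule.span ℝ (S '' Set.Iio (k + 1)) := by
    rw [S.span_degreeLT fun i _ => by
      rw [show (S i).leadingCoeff = 1 from (hup i).1]; exact isUnit_one, Polynomial.mem_degreeLT]
    have := Polynomial.degree_modByMonic_lt (up δ) hdn
    rwa [Polynomial.degree_eq_natDegree hdn.ne_zero, hdn'] at this
  rw [← Finset.coe_range, Submodule.mem_span_image_finset_iff_exists_fun'] at h1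
  obtain ⟨a, ha⟩ := h1
  refine ⟨a, up δ /ₘ dn (k + 1), ?_⟩
  rw [mul_comm, show ∑ m ∈ range (k + 1), a m • up m = _ from ha, Polynomial.modByMonic_add_div]

/-- On forms of degree `k` the norms of `L ^ δ v` are combinations of the first `k + 1` ones. -/
theorem norm_red (k δ : ℕ) : ∃ a : ℕ → ℝ, ∀ z : σ → ℂ, nsq z = 1 →
    ∀ v : MvPolynomial σ ℂ, v.IsHomogeneous k → nsq (crd (k + δ) ((L z ^ δ) v)) =
      ∑ m ∈ range (k + 1), a m * nsq (crd (k + m) ((L z ^ m) v)) := by
  obtain ⟨a, s, h⟩ := up_red k δ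
  refine ⟨a, fun z hz v hv => ?_⟩
  have h1 : ∀ m, (nsq (crd (k + m) ((L z ^ m) v)) : ℂ) =
      B k v (Polynomial.aeval (L z * D z) (up m) v) := fun m => by
    rw [← B_self, B_L_pow, ← Module.End.mul_apply, dl_pow (D_L hz)]
  apply ofReal_injective
  push_cast
  simp only [h1]
  rw [h, map_add, map_mul, ← ld_pow (D_L hz), LinearMap.add_apply, Module.End.mul_apply,
    Module.End.mul_apply, D_pow_zero z hv, map_zero, map_zero, add_zero, map_sum,
    LinearMap.sum_apply, B_sum_right]
  refine sum_congr rfl fun m _ => ?_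
  rw [map_smul, LinearMap.smul_apply, ← Complex.coe_smul, B_smul_right, conj_ofReal]

/-- The norm defect of one multiplication step as a sum of squares. -/
theorem step {m : ℕ} {z : σ → ℂ} (hz : nsq z = 1) {u : MvPolynomial σ ℂ}
    (hu : u.IsHomogeneous m) :
    (m + 1) * ((m + 1) * nsq (crd m u) - nsq (crd (m + 1) (L z u))) =
      ∑ a, nsq (crd m (((m + 1) * z a) • u + (-1 : ℂ) • pderiv a (L z u))) := by
  have hU : (L z u).IsHomogeneous (m + 1) := by simpa using hom_L_pow z hu 1
  have e1 : ∑ a, B m (pderiv a (L z u)) (pderiv a (L z u)) =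
      (m + 1) * B (m + 1) (L z u) (L z u) := by
    simp only [← B_adj]
    rw [← B_sum_left, hU.sum_X_mul_pderiv, ← Nat.cast_smul_eq_nsmul ℂ, B_smul_left]
    push_cast
    ring
  have e2 : ∑ a, z a * B m u (pderiv a (L z u)) = B (m + 1) (L z u) (L z u) := by
    simp only [← B_adj, ← B_smul_left]
    rw [← B_sum_left, ← L_apply]
  have e3 : ∑ a, conj (z a) * B m (pderiv a (L z u)) u = B (m + 1) (L z u) (L z u) := by
    rw [B_conj, ← e2, map_sum]
    exact sum_congr rfl fun a _ => by rw [map_mul, ← B_conj]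
  have e4 : ∑ a, z a * conj (z a) = 1 := by rw [← nsq_coe, hz, ofReal_one]
  have hadd : ∀ u v v' : MvPolynomial σ ℂ, B m u (v + v') = B m u v + B m u v' :=
    fun u v v' => by simp [B]
  apply ofReal_injective
  push_cast
  simp only [← B_self]
  simp only [B_add_left, hadd, B_smul_left, B_smul_right, map_mul, map_add, map_natCast,
    map_one, map_neg]
  rw [sum_congr rfl (g := fun a =>
      (m + 1) ^ 2 * B m u u * (z a * conj (z a)) - (m + 1) * (z a * B m u (pderiv a (L z u)))
      - (m + 1) * (conj (z a) * B m (pderiv a (L z u)) u)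
      + B m (pderiv a (L z u)) (pderiv a (L z u))) fun a _ => by ring]
  simp only [sum_add_distrib, sum_sub_distrib, ← mul_sum, e1, e2, e3, e4]
  ring

end Pool.Agent.Lib.MP_7906d6_an.Sup
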