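import Mathlib
import Pool.Agent.Lib.MP_7906d6_an.SupA

/-!
Sums of squares on the unit sphere, and a polynomial sphere map with one component of very high
vanishing order.
-/

namespace Pool.Agent.Lib.MP_7906d6_an.Sup

open MvPolynomial Complex Finset Matrix Pool.Agent.Lib.MP_7906d6_an.Rat
open scoped ComplexConjugate

set_option linter.unusedSectionVars false

variable {σ : Type} [Fintype σ] [DecidableEq σ]

/-- On the unit sphere `f` is the squared norm of a polynomial map with `M` components. -/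
def SOS (M : ℕ) (f : (σ → ℂ) → ℝ) : Prop :=
  ∃ g : (σ → ℂ) → Fin M → ℂ, PM g ∧ ∀ z, nsq z = 1 → f z = nsq (g z)

theorem pm_coord {ι : Type*} {g : (σ → ℂ) → ι → ℂ} (hg : PM g) (i : ι) : PM fun z => g z i :=
  (PM.proj i).comp hg

theorem SOS.of {ι : Type} [Fintype ι] {g : (σ → ℂ) → ι → ℂ} (hg : PM g) {M : ℕ}
    (hM : Fintype.card ι ≤ M) : SOS M fun z => nsq (g z) := by
  classical
  obtain ⟨e⟩ : Nonempty (ι ↪ Fin M) := Function.Embedding.nonempty_of_card_le (by simpa using hM)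
  refine ⟨fun z => Function.extend e (g z) 0, PM.pi fun j => ?_, fun z _ => ?_⟩
  · by_cases hj : ∃ i, e i = j
    · obtain ⟨i, rfl⟩ := hj
      simpa only [e.injective.extend_apply] using pm_coord hg i
    · simpa only [Function.extend_apply' _ _ _ hj, Pi.zero_apply] using PM.const (0 : ℂ)
  · refine Fintype.sum_of_injective e e.injective _ _ (fun j hj => ?_) fun i => ?_
    · simp [Function.extend_apply' _ _ _ hj]
    · simp only [e.injective.extend_apply]

theorem SOS.congr {M : ℕ} {f f' : (σ → ℂ) → ℝ} (h : SOS M f) (e : ∀ z, nsq z = 1 → f' z = f z) :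
    SOS M f' := by
  obtain ⟨g, hg, h⟩ := h
  exact ⟨g, hg, fun z hz => (e z hz).trans (h z hz)⟩

theorem SOS.add {M M' : ℕ} {f f' : (σ → ℂ) → ℝ} (h : SOS M f) (h' : SOS M' f') :
    SOS (M + M') fun z => f z + f' z := by
  obtain ⟨g, hg, h⟩ := h
  obtain ⟨g', hg', h'⟩ := h'
  refine (SOS.of (g := fun z => Sum.elim (g z) (g' z)) (PM.pi ?_) (by simp)).congr fun z hz => ?_
  · rintro (i | i)
    · exact pm_coord hg i
    · exact pm_coord hg' i
  · simp [h z hz, h' z hz, nsq]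

theorem SOS.smul {M : ℕ} {f : (σ → ℂ) → ℝ} (h : SOS M f) {c : ℝ} (hc : 0 ≤ c) :
    SOS M fun z => c * f z := by
  obtain ⟨g, hg, h⟩ := h
  refine ⟨fun z => (Real.sqrt c : ℂ) • g z, (PM.const _).smul hg, fun z hz => ?_⟩
  rw [nsq_smul, ← h z hz, norm_real, Real.norm_eq_abs, sq_abs, Real.sq_sqrt hc]

theorem SOS.sum {M : ℕ} {f : ℕ → (σ → ℂ) → ℝ} (k : ℕ) (h : ∀ j < k, SOS M (f j)) :
    SOS (k * M) fun z => ∑ j ∈ range k, f j z := by
  induction k with
  | zero => exact ⟨fun _ => 0, PM.const _, fun z _ => by simp [nsq]⟩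
  | succ k ih =>
    simpa only [sum_range_succ, add_mul, one_mul] using
      (ih fun j hj => h j (by omega)).add (h k (by omega))

open scoped MatrixOrder ComplexOrder in
/-- The defect of a linear map. -/
theorem defect {κ κ' : Type} [Fintype κ] [Fintype κ'] (T : (κ → ℂ) →ₗ[ℂ] (κ' → ℂ)) :
    ∃ K : ℝ, 0 < K ∧ ∃ S : (κ → ℂ) →ₗ[ℂ] (κ → ℂ), ∀ x, K * nsq x = nsq (T x) + nsq (S x) := by
  classical
  obtain ⟨A, hA⟩ : ∃ A : Matrix κ' κ ℂ, ∀ x, T x = A *ᵥ x :=
    ⟨LinearMap.toMatrix' T, fun x => by simp⟩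
  have hq : ∀ {κ' : Type} [Fintype κ'] (A : Matrix κ' κ ℂ) (x : κ → ℂ),
      star x ⬝ᵥ (Aᴴ * A) *ᵥ x = (nsq (A *ᵥ x) : ℝ) := fun A x => by
    rw [← mulVec_mulVec, dotProduct_mulVec, ← star_mulVec, dotProduct_comm, dot_star]
  have hb : ∀ x, nsq (A *ᵥ x) ≤ (∑ j, nsq (A j) + 1) * nsq x := fun x => by
    have h1 : ∀ j, normSq ((A *ᵥ x) j) ≤ nsq (A j) * nsq x := fun j => by
      have h2 : ‖(A *ᵥ x) j‖ ≤ ∑ i, ‖A j i‖ * ‖x i‖ :=
        (norm_sum_le _ _).trans (by simp)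
      rw [normSq_eq_norm_sq]
      refine (pow_le_pow_left₀ (norm_nonneg _) h2 2).trans ?_
      simpa only [nsq, normSq_eq_norm_sq] using
        sum_mul_sq_le_sq_mul_sq univ (fun i => ‖A j i‖) fun i => ‖x i‖
    have := sum_le_sum fun j (_ : j ∈ univ) => h1 j
    rw [← sum_mul] at this
    have h3 := nsq_nonneg x
    rw [nsq]
    linarith
  set K : ℝ := ∑ j, nsq (A j) + 1
  have hK : 0 < K := add_pos_of_nonneg_of_pos (sum_nonneg fun j _ => nsq_nonneg _) one_pos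
  have e : ∀ x : κ → ℂ, star x ⬝ᵥ ((K : ℂ) • (1 : Matrix κ κ ℂ) - Aᴴ * A) *ᵥ x =
      ((K * nsq x - nsq (A *ᵥ x) : ℝ) : ℂ) := fun x => by
    rw [sub_mulVec, dotProduct_sub, hq, smul_mulVec, one_mulVec, dotProduct_smul,
      dotProduct_comm, dot_star]
    simp
  have hP : ((K : ℂ) • (1 : Matrix κ κ ℂ) - Aᴴ * A).PosSemidef := by
    refine .of_dotProduct_mulVec_nonneg (IsHermitian.sub ?_ (isHermitian_conjTranspose_mul_self A))
      fun x => ?_
    · simp [IsHermitian]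
    · rw [e]
      exact_mod_cast sub_nonneg.2 (hb x)
  obtain ⟨S, hS⟩ := CStarAlgebra.nonneg_iff_eq_star_mul_self.mp hP.nonneg
  refine ⟨K, hK, S.mulVecLin, fun x => ?_⟩
  have := e x
  rw [hS, star_eq_conjTranspose, hq, ofReal_inj] at this
  rw [hA, mulVecLin_apply, this]
  ring

theorem pm_L {V : (σ → ℂ) → MvPolynomial σ ℂ} (hV : PM V) : PM fun z => L z (V z) := by
  simp only [L_apply]
  exact PM.sum fun a => (PM.proj a).smul (hV.lin (LinearMap.mulLeft ℂ (X a)))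

theorem pm_L_pow {V : (σ → ℂ) → MvPolynomial σ ℂ} (hV : PM V) (m : ℕ) :
    PM fun z => (L z ^ m) (V z) := by
  induction m with
  | zero => simpa
  | succ m ih => simpa only [pow_succ', Module.End.mul_apply] using pm_L ih

/-- The low levels: the norm of `v` minus a small multiple of the norm of `L ^ δ v`. -/
theorem low (k δ : ℕ) {M : ℕ} (hM : ∀ j ≤ k, Fintype.card (Idx σ (k + j)) ≤ M) :
    ∃ θ : ℝ, 0 < θ ∧ ∀ V : (σ → ℂ) → MvPolynomial σ ℂ, PM V →
    (∀ z, (V z).IsHomogeneous k) → SOS (M + k * (Fintype.card σ * M)) fun z =>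
      nsq (crd k (V z)) - θ * nsq (crd (k + δ) ((L z ^ δ) (V z))) := by
  obtain ⟨a, ha⟩ := norm_red (σ := σ) k δ
  set b : ℕ → ℝ := fun j => ∑ m ∈ range (j + 1), a m * (k + m).factorial with hb
  set G : ℝ := ∑ j ∈ range (k + 1), |b j| + 1 with hG
  have hG0 : 0 < G := add_pos_of_nonneg_of_pos (sum_nonneg fun j _ => abs_nonneg _) one_pos
  have hc : ∀ j ≤ k, 0 ≤ (k.factorial : ℝ) - G⁻¹ * b j := fun j hj => by
    have h1 : |b j| ≤ ∑ j ∈ range (k + 1), |b j| :=
      single_le_sum (f := fun j => |b j|) (fun j _ => abs_nonneg _) (mem_range.2 (by omega))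
    have h2 : G⁻¹ * b j ≤ 1 := by
      rw [inv_mul_le_iff₀ hG0]
      linarith [le_abs_self (b j)]
    have h3 : (1 : ℝ) ≤ k.factorial := by exact_mod_cast k.factorial_pos
    linarith
  refine ⟨G⁻¹, inv_pos.2 hG0, fun V hV hhom => ?_⟩
  set φ : ℕ → (σ → ℂ) → ℝ :=
    fun m z => ((k + m).factorial : ℝ)⁻¹ * nsq (crd (k + m) ((L z ^ m) (V z))) with hφ
  have h1 : SOS M (φ k) :=
    (SOS.of ((pm_L_pow hV k).lin (crd (k + k))) (hM k le_rfl)).smul (by positivity)
  have h2 : ∀ j < k, SOS (Fintype.card σ * M) fun z => φ j z - φ (j + 1) z := fun j hj => by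
    have h3 := (SOS.of (M := Fintype.card σ * M) (g := fun z (p : σ × Idx σ (k + j)) =>
      crd (k + j) (((((k + j : ℕ) : ℂ) + 1) * z p.1) • (L z ^ j) (V z) +
        (-1 : ℂ) • pderiv p.1 (L z ((L z ^ j) (V z)))) p.2) (PM.pi fun p => pm_coord
          (PM.lin _ ((((PM.const _).mul (PM.proj p.1)).smul (pm_L_pow hV j)).add
            ((PM.const _).smul ((pm_L (pm_L_pow hV j)).lin (pderiv p.1).toLinearMap)))) p.2)
      (by rw [Fintype.card_prod]; exact Nat.mul_le_mul_left _ (hM j hj.le))).smul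
      (c := (((k + j + 1).factorial : ℝ) * ((k + j : ℕ) + 1))⁻¹) (by positivity)
    refine h3.congr fun z hz => ?_
    have h4 := step hz (hom_L_pow z (hhom z) j)
    rw [nsq, Fintype.sum_prod_type]
    simp only [nsq] at h4
    rw [← h4]
    simp only [hφ, nsq, ← add_assoc, pow_succ', Module.End.mul_apply, Nat.factorial_succ]
    push_cast
    field_simp
    rfl
  refine ((h1.smul (hc k le_rfl)).add (SOS.sum k fun j hj =>
    (h2 j hj).smul (hc j hj.le))).congr fun z hz => ?_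
  have abel : ∀ (c : ℝ) (n : ℕ), c * φ 0 z - G⁻¹ * ∑ m ∈ range (n + 1),
      a m * (k + m).factorial * φ m z = (c - G⁻¹ * b n) * φ n z +
        ∑ j ∈ range n, (c - G⁻¹ * b j) * (φ j z - φ (j + 1) z) := fun c n => by
    induction n with
    | zero => simp [hb]; ring
    | succ n ih =>
      have : b (n + 1) = b n + a (n + 1) * (k + (n + 1)).factorial := sum_range_succ _ _
      rw [sum_range_succ _ (n + 1), sum_range_succ (fun j => (c - G⁻¹ * b j) * _) n, this]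
      linear_combination ih
  rw [← abel, ha z hz _ (hhom z)]
  congr 1
  · simp only [hφ, add_zero, pow_zero, Module.End.one_apply]
    field_simp
    rfl
  · congr 1
    refine sum_congr rfl fun m _ => ?_
    simp only [hφ]
    field_simp

/-- Evaluation at a point in terms of the coordinates. -/
noncomputable def evl (m : ℕ) (p : σ → ℂ) : (Idx σ m → ℂ) →ₗ[ℂ] ℂ where
  toFun x := ∑ β, x β * ((∏ a, p a ^ β.1 a) / (Real.sqrt (fac β.1) : ℂ))
  map_add' x y := by simp [add_mul, sum_add_distrib]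
  map_smul' c x := by simp [mul_sum, mul_assoc]

theorem evl_crd {m : ℕ} (p : σ → ℂ) {u : MvPolynomial σ ℂ} (hu : u.IsHomogeneous m) :
    evl m p (crd m u) = eval p u := by
  have : evl m p (crd m u) = ∑ β ∈ univ.finsuppAntidiag m, coeff β u * ∏ a, p a ^ β a := by
    rw [← sum_coe_sort (univ.finsuppAntidiag m)]
    refine sum_congr rfl fun β _ => ?_
    have : (Real.sqrt (fac β.1) : ℂ) ≠ 0 :=
      ofReal_ne_zero.2 (Real.sqrt_pos.2 (by exact_mod_cast fac_pos _)).ne'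
    simp only [crd, LinearMap.coe_mk, AddHom.coe_mk]
    field_simp
  rw [this, eval_eq']
  refine (sum_subset (fun β hβ => mem_idx.2 ?_) fun β _ hβ => by
    rw [notMem_support_iff.1 hβ, zero_mul]).symm
  have := hu (mem_support_iff.1 hβ)
  rw [← this, Finsupp.weight_apply, Finsupp.sum_fintype _ _ (by simp)]
  simp

theorem eval_L_pow (p z : σ → ℂ) (u : MvPolynomial σ ℂ) (m : ℕ) :
    eval p ((L z ^ m) u) = (z ⬝ᵥ p) ^ m * eval p u := by
  induction m with
  | zero => simp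
  | succ m ih =>
    rw [pow_succ', Module.End.mul_apply, L, LinearMap.mulLeft_apply, map_mul, ← L, ih]
    simp [lf, dotProduct, smul_eq_C_mul]
    ring

/-- The cascade: with `s` points separated by forms of degree `k` there is a polynomial sphere map
one of whose components is a product of `s δ` linear forms. -/
theorem cascade (k δ s : ℕ) {M : ℕ} (hM : ∀ j ≤ k, Fintype.card (Idx σ (k + j)) ≤ M)
    (p : ℕ → σ → ℂ) (e : ℕ → MvPolynomial σ ℂ) (he : ∀ i, (e i).IsHomogeneous k)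
    (hp : ∀ i < s, ∀ j < s, eval (p j) (e i) = if i = j then 1 else 0) :
    ∃ c : ℝ, 0 < c ∧ SOS (s + Fintype.card (Idx σ (k + δ)) + (M + k * (Fintype.card σ * M)))
      fun z => 1 - normSq (∏ j ∈ range s, (c * (z ⬝ᵥ p j) ^ δ)) := by
  obtain ⟨θ, hθ, hlow⟩ := low (σ := σ) k δ hM
  obtain ⟨K₁, hK₁, S₁, h₁⟩ := defect (LinearMap.pi fun j : Fin s => evl (k + δ) (p j))
  obtain ⟨K₂, hK₂, S₂, h₂⟩ := defect
    ((crd k).comp (Fintype.linearCombination ℂ fun j : Fin s => e j))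
  obtain ⟨c, hc0, hc⟩ : ∃ c : ℝ, 0 < c ∧ c ^ 2 = θ / (K₁ * K₂) :=
    ⟨Real.sqrt _, Real.sqrt_pos.2 (by positivity), Real.sq_sqrt (by positivity)⟩
  refine ⟨c, hc0, ?_⟩
  set w : ℕ → (σ → ℂ) → ℂ := fun i z => ∏ j ∈ range i, (c * (z ⬝ᵥ p j) ^ δ) with hw
  have hw' : ∀ i, PM (w i) := fun i =>
    PM.prod fun j => (PM.const _).mul ((PM.id'.dot (PM.const _)).pow δ)
  set V : (σ → ℂ) → MvPolynomial σ ℂ := fun z => ∑ j : Fin s, w j z • e j with hV
  have hV' : PM V := PM.sum fun j => (hw' j).smul (PM.const _)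
  have hhom : ∀ z, (V z).IsHomogeneous k := fun z =>
    IsHomogeneous.sum _ _ _ fun j _ => (homogeneousSubmodule σ ℂ k).smul_mem _ (he j)
  have hev : ∀ z (j : Fin s), eval (p j) (V z) = w j z := fun z j => by
    simp only [hV, map_sum, smul_eval, hp _ (Fin.is_lt _) _ j.2, Fin.val_inj]
    simp
  have s1 := (SOS.of (((pm_L_pow hV' δ).lin (crd (k + δ))).lin S₁) le_rfl).smul
    (c := θ / (K₁ * K₂)) (by positivity)
  have s2 := (SOS.of (M := s) ((PM.pi fun j : Fin s => hw' j).lin S₂) (by simp)).smul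
    (c := K₂⁻¹) (by positivity)
  refine ((s2.add s1).add ((hlow V hV' hhom).smul (c := K₂⁻¹) (by positivity))).congr
    fun z hz => ?_
  have e1 := h₁ (crd (k + δ) ((L z ^ δ) (V z)))
  have e2 := h₂ fun j => w j z
  rw [LinearMap.comp_apply, Fintype.linearCombination_apply] at e2
  have e3 : c ^ 2 * nsq ((LinearMap.pi fun j : Fin s => evl (k + δ) (p j))
      (crd (k + δ) ((L z ^ δ) (V z)))) = ∑ j ∈ range s, normSq (w (j + 1) z) := by
    rw [nsq, mul_sum, sum_range]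
    refine sum_congr rfl fun j _ => ?_
    rw [LinearMap.pi_apply, evl_crd _ (hom_L_pow z (hhom z) δ), eval_L_pow, hev]
    simp only [hw, prod_range_succ, map_mul, normSq_ofReal]
    ring
  have e4 : nsq (fun j : Fin s => w j z) + normSq (w s z) =
      ∑ j ∈ range s, normSq (w (j + 1) z) + 1 := by
    rw [nsq, ← sum_range fun j => normSq (w j z), ← sum_range_succ, sum_range_succ']
    simp [hw]
  rw [hc] at e3
  change 1 - normSq (w s z) = _
  have e5 : K₂⁻¹ * K₂ = 1 := inv_mul_cancel₀ hK₂.ne'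
  have e6 : θ / (K₁ * K₂) * K₁ = K₂⁻¹ * θ := by field_simp
  linear_combination K₂⁻¹ * e2 + θ / (K₁ * K₂) * e1 + e3 - e4
    - nsq (fun j : Fin s => w j z) * e5 - nsq (crd (k + δ) ((L z ^ δ) (V z))) * e6

theorem card_idx (m j : ℕ) : Fintype.card (Idx (Fin (m + 1)) j) ≤ (j + m) ^ m := by
  rw [Fintype.card_coe, card_finsuppAntidiag_nat_eq_choose, card_univ, Fintype.card_fin,
    show m + 1 + j - 1 = j + m by omega, Nat.choose_symm_add]
  exact Nat.choose_le_pow _ _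

/-- Grid points separated by forms of degree `m q`. -/
theorem grid (m q : ℕ) : ∃ (p : ℕ → Fin (m + 1) → ℂ) (e : ℕ → MvPolynomial (Fin (m + 1)) ℂ),
    (∀ j, p j 0 = 1) ∧ (∀ i, (e i).IsHomogeneous (m * q)) ∧
    ∀ i < (q + 1) ^ m, ∀ j < (q + 1) ^ m, eval (p j) (e i) = if i = j then 1 else 0 := by
  obtain ⟨t, ht⟩ : ∃ t : ℕ → Fin m → Fin (q + 1),
      ∀ i < (q + 1) ^ m, ∀ j < (q + 1) ^ m, t i = t j → i = j :=
    ⟨fun i => finFunctionFinEquiv.symm ⟨i % (q + 1) ^ m, Nat.mod_lt _ (by positivity)⟩,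
      fun i hi j hj h => by simpa [Nat.mod_eq_of_lt hi, Nat.mod_eq_of_lt hj] using h⟩
  set p : ℕ → Fin (m + 1) → ℂ := fun j => Fin.cons 1 fun a => ((t j a : ℕ) : ℂ) with hp
  set f : ℕ → MvPolynomial (Fin (m + 1)) ℂ := fun i =>
    ∏ a, ∏ l ∈ univ.erase (t i a), (X a.succ - C ((l : ℕ) : ℂ) * X 0) with hf
  have hev : ∀ i j, eval (p j) (f i) =
      ∏ a, ∏ l ∈ univ.erase (t i a), (((t j a : ℕ) : ℂ) - ((l : ℕ) : ℂ)) := fun i j => by
    simp [hf, hp]
  have hhom : ∀ i, (f i).IsHomogeneous (m * q) := fun i => by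
    have := IsHomogeneous.prod univ (fun a : Fin m => ∏ l ∈ univ.erase (t i a),
      (X a.succ - C ((l : ℕ) : ℂ) * X 0 : MvPolynomial (Fin (m + 1)) ℂ)) (fun _ => q) fun a _ => by
        simpa using IsHomogeneous.prod (univ.erase (t i a)) (fun l : Fin (q + 1) =>
          (X a.succ - C ((l : ℕ) : ℂ) * X 0 : MvPolynomial (Fin (m + 1)) ℂ)) (fun _ => 1)
          fun l _ => (isHomogeneous_X ℂ _).sub (isHomogeneous_C_mul_X _ _)
    simpa [hf] using this
  refine ⟨p, fun i => (eval (p i) (f i))⁻¹ • f i, fun j => rfl,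
    fun i => (homogeneousSubmodule _ ℂ _).smul_mem _ (hhom i), fun i hi j hj => ?_⟩
  rw [smul_eval]
  split_ifs with h
  · subst h
    refine inv_mul_cancel₀ ?_
    rw [hev]
    exact prod_ne_zero_iff.2 fun a _ => prod_ne_zero_iff.2 fun l hl => sub_ne_zero.2 fun h =>
      ne_of_mem_erase hl (Fin.ext (by exact_mod_cast h.symm))
  · obtain ⟨a, ha⟩ := Function.ne_iff.1 fun h' => h (ht i hi j hj h')
    rw [hev i j, prod_eq_zero (mem_univ a) (prod_eq_zero (mem_erase.2 ⟨ha.symm, mem_univ _⟩)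
      (sub_self _)), mul_zero]

theorem pm_mv {F : (σ → ℂ) → ℂ} (h : PM F) : ∃ P : MvPolynomial σ ℂ, ∀ z, F z = eval z P := by
  replace h := h.isP
  induction h with
  | const c => exact ⟨C c, by simp⟩
  | lin L => exact ⟨∑ a, C (L (Pi.single a 1)) * X a, fun z => by
      beta_reduce
      rw [LinearMap.pi_apply_eq_sum_univ]
      simp only [map_sum, map_mul, eval_C, eval_X, smul_eq_mul]
      refine sum_congr rfl fun a _ => ?_
      rw [mul_comm]
      congr 2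
      ext b
      simp [Pi.single_apply, eq_comm]⟩
  | add _ _ h1 h2 =>
    obtain ⟨p, hp⟩ := h1
    obtain ⟨q, hq⟩ := h2
    exact ⟨p + q, by simp [hp, hq]⟩
  | mul _ _ h1 h2 =>
    obtain ⟨p, hp⟩ := h1
    obtain ⟨q, hq⟩ := h2
    exact ⟨p * q, by simp [hp, hq]⟩

/-- The number of components is at most `A t ^ (m (m + 1))`. -/
theorem count (m t : ℕ) (ht : 1 ≤ t) {k : ℕ} (hk : k ≤ m * t ^ m) :
    (t ^ m) ^ m + (k + t ^ (m + 1) + m) ^ m + ((2 * k + m) ^ m + k * ((m + 1) * (2 * k + m) ^ m))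
      ≤ (1 + (2 * m + 1) ^ m + (1 + m * (m + 1)) * (3 * m) ^ m) * t ^ (m * (m + 1)) := by
  have h0 : 1 ≤ t ^ m := Nat.one_le_pow _ _ ht
  have h1 : t ^ m ≤ t ^ (m + 1) := Nat.pow_le_pow_right ht (by omega)
  have e1 : t ^ (m * (m + 1)) = (t ^ (m + 1)) ^ m := by rw [← pow_mul, mul_comm]
  have e2 : t ^ (m * (m + 1)) = t ^ m * (t ^ m) ^ m := by rw [← pow_succ', ← pow_mul]
  have a1 : (t ^ m) ^ m ≤ t ^ (m * (m + 1)) := e1 ▸ Nat.pow_le_pow_left h1 m
  have a2 : (k + t ^ (m + 1) + m) ^ m ≤ (2 * m + 1) ^ m * t ^ (m * (m + 1)) := by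
    rw [e1, ← mul_pow]
    exact Nat.pow_le_pow_left (by nlinarith) m
  have a3 : (2 * k + m) ^ m ≤ (3 * m) ^ m * (t ^ m) ^ m := by
    rw [← mul_pow]
    exact Nat.pow_le_pow_left (by nlinarith) m
  have a4 : 1 + k * (m + 1) ≤ (1 + m * (m + 1)) * t ^ m := by nlinarith
  have a5 := Nat.mul_le_mul a4 a3
  calc _ = (t ^ m) ^ m + (k + t ^ (m + 1) + m) ^ m + (1 + k * (m + 1)) * (2 * k + m) ^ m := by ring
    _ ≤ _ := add_le_add (add_le_add a1 a2) a5
    _ = _ := by rw [e2]; ring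

/-- A polynomial sphere map with `O(t ^ (m (m + 1)))` components, one of them a product of
`t ^ (m (m + 1) + 1)` linear forms. -/
theorem main (m : ℕ) : ∃ A : ℕ, ∀ t, 1 ≤ t → ∃ (c : ℝ) (p : ℕ → Fin (m + 1) → ℂ),
    0 < c ∧ (∀ j, p j 0 = 1) ∧ SOS (A * t ^ (m * (m + 1))) fun z =>
      1 - normSq (∏ j ∈ range ((t ^ m) ^ m), (c * (z ⬝ᵥ p j) ^ t ^ (m + 1))) := by
  refine ⟨1 + (2 * m + 1) ^ m + (1 + m * (m + 1)) * (3 * m) ^ m, fun t ht => ?_⟩
  obtain ⟨q, hq⟩ : ∃ q, t ^ m = q + 1 := Nat.exists_eq_add_of_le' (Nat.one_le_pow _ _ ht)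
  obtain ⟨p, e, hp0, he, hp⟩ := grid m q
  rw [← hq] at hp
  obtain ⟨c, hc, g, hg, h⟩ := cascade (m * q) (t ^ (m + 1)) ((t ^ m) ^ m)
    (M := (2 * (m * q) + m) ^ m) (fun j hj => (card_idx m _).trans
      (Nat.pow_le_pow_left (by omega) m)) p e he hp
  refine ⟨c, p, hc, hp0, (SOS.of hg ?_).congr h⟩
  rw [Fintype.card_fin, Fintype.card_fin]
  refine le_trans ?_ (count m t ht (k := m * q) (Nat.mul_le_mul_left _ (by omega)))
  gcongr
  exact card_idx m _

end Pool.Agent.Lib.MP_7906d6_an.Sup
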